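import Pool.Agent.Lib.RO.Basic

/-!
# Project RO: `IsPolyTime` and `PolyFn` for general types, oracle functions and polynomial time
relative to an oracle
-/

set_option autoImplicit false

namespace Pool.Agent.Lib.RO

open Pool.Agent.PolyTime Pool.Agent.Lib.MP_d5150c_lc Pool.Agent.Lib.MP_f0c157_lc
open N487b59b3 N68a2faeb N793a5b8e MeasureTheory

/-! ### Types whose bit encoding is accessible to the calculus `PolyFn` -/

/-- the bit encoding of `α` can be computed and inverted in polynomial time -/
structure Br (α : Type) [N487b59b3 α] [Enc α] : Prop where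
  enc' : PolyFn (fun a : α => (bitEncode a : List Bool))
  dec' : ∃ d : List Bool → α, PolyFn d ∧ ∀ a, d (bitEncode a) = a

theorem Br.list : Br (List Bool) where
  enc' := (poly_encL PolyFn.id).of_eq fun a => (bitEncode_list a).symm
  dec' := ⟨decL, poly_decL PolyFn.id, fun a => by rw [bitEncode_list, decL_encL]⟩

theorem Br.bool : Br Bool where
  enc' := PolyFn.cons PolyFn.id (PolyFn.const [])
  dec' := ⟨fun l => l.headD false, PolyFn.headD PolyFn.id (PolyFn.const false), fun a => rfl⟩

theorem Br.pair {α β : Type} [N487b59b3 α] [Enc α] [N487b59b3 β] [Enc β] (hα : Br α)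
    (hβ : Br β) : Br (α × β) where
  enc' := PolyFn.append (poly_delimit (hα.enc'.comp PolyFn.fst)) (hβ.enc'.comp PolyFn.snd)
  dec' := by
    obtain ⟨d, hd, hda⟩ := hα.dec'
    obtain ⟨e, he, heb⟩ := hβ.dec'
    refine ⟨fun l => (d (l.foldl pstep (0, [], [])).2.1.reverse,
      e (l.foldl pstep (0, [], [])).2.2.reverse), ?_, ?_⟩
    · have h := poly_foldl_bits (0, [], []) (poly_pstep PolyFn.fst PolyFn.snd) size_pstep
        (PolyFn.id (α := List Bool))
      have h2 := PolyFn.snd.comp h
      exact (hd.comp (PolyFn.reverse (PolyFn.fst.comp h2))).pair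
        (he.comp (PolyFn.reverse (PolyFn.snd.comp h2)))
    · rintro ⟨a, b⟩
      have h1 : (bitEncode (a, b) : List Bool) = delimit (bitEncode a) ++ bitEncode b := rfl
      beta_reduce
      rw [h1, List.foldl_append, foldl_pstep_delimit, foldl_pstep_two]
      simp only [List.append_nil, List.reverse_reverse, hda, heb]

theorem Br.polyFn {α β : Type} [N487b59b3 α] [Enc α] [N487b59b3 β] [Enc β] (hα : Br α)
    (hβ : Br β) {f : α → β} (h : IsPolyTime f) : PolyFn f := by
  obtain ⟨F, hF, hFf⟩ := exists_polyFn h
  obtain ⟨e, he, heb⟩ := hβ.dec'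
  refine (he.comp (hF.comp hα.enc')).of_eq fun a => ?_
  rw [hFf, heb]

theorem Br.isPolyTime {α β : Type} [N487b59b3 α] [Enc α] [N487b59b3 β] [Enc β] (hα : Br α)
    (hβ : Br β) {f : α → β} (h : PolyFn f) : IsPolyTime f := by
  obtain ⟨d, hd, hda⟩ := hα.dec'
  have h1 : PolyFn (fun l : List Bool => (bitEncode (f (d l)) : List Bool)) :=
    hβ.enc'.comp (h.comp hd)
  exact PolyFn.toTM2List h1 (bitEncode : α → List Bool) (bitEncode : β → List Bool) f
    fun a => by rw [hda]

/-- there are countably many polynomial-time functions -/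
theorem countable_isPolyTime' (α β : Type) [N487b59b3 α] [N487b59b3 β] :
    {f : α → β | IsPolyTime f}.Countable := by
  classical
  have hc := countable_isPolyTime
  have hex : ∀ f : {f : α → β | IsPolyTime f}, ∃ F : {F : List Bool → List Bool | IsPolyTime F},
      ∀ a, F.1 (bitEncode a) = bitEncode (f.1 a) := by
    rintro ⟨f, hf⟩
    obtain ⟨F, hF, hFf⟩ := exists_polyFn hf
    exact ⟨⟨F, isPolyTime_fun hF⟩, hFf⟩
  choose Φ hΦ using hex
  have : Countable {F : List Bool → List Bool | IsPolyTime F} := hc.to_subtype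
  refine Set.countable_coe_iff.1 (Function.Injective.countable (f := Φ) ?_)
  intro f g hfg
  refine Subtype.ext (funext fun a => ?_)
  apply bitEncode_injective
  rw [← hΦ f a, ← hΦ g a, hfg]

/-! ### Oracle functions from polynomial time relative to an oracle -/

theorem poly_bitLength {α : Type} [N487b59b3 α] [Enc α] (hα : Br α) (p : Polynomial ℕ) :
    PolyFn (fun a : α => p.eval (bitEncode a : List Bool).length) :=
  poly_eval p (PolyFn.length hα.enc')

/-- the oracle functions given by polynomial-time protocols -/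
def Protos (α β : Type) [N487b59b3 α] [N487b59b3 β] : Set ((List Bool → Bool) → α → β) :=
  {F | ∃ (p : Polynomial ℕ) (Q : α × List Bool → List Bool) (O : α × List Bool → β),
    IsPolyTime Q ∧ IsPolyTime O ∧
      F = fun R x => O (x, answers Q R x (p.eval (bitEncode x : List Bool).length))}

theorem countable_polynomial' : Countable (Polynomial ℕ) := by
  rw [← Cardinal.mk_le_aleph0_iff]
  refine Polynomial.cardinalMk_le_max.trans ?_
  simp

theorem countable_protos (α β : Type) [N487b59b3 α] [N487b59b3 β] : (Protos α β).Countable := by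
  have := countable_polynomial'
  have h1 : (Set.univ : Set (Polynomial ℕ)).Countable := Set.countable_univ
  have h2 := countable_isPolyTime' (α × List Bool) (List Bool)
  have h3 := countable_isPolyTime' (α × List Bool) β
  have h4 := (h1.prod (h2.prod h3)).image
    (fun q : Polynomial ℕ × (α × List Bool → List Bool) × (α × List Bool → β) =>
      fun (R : List Bool → Bool) (x : α) =>
        q.2.2 (x, answers q.2.1 R x (q.1.eval (bitEncode x : List Bool).length)))
  refine h4.mono ?_
  rintro F ⟨p, Q, O, hQ, hO, rfl⟩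
  exact ⟨(p, Q, O), ⟨Set.mem_univ _, hQ, hO⟩, rfl⟩

theorem relFn_of_protos {α β : Type} [N487b59b3 α] [Enc α] [N487b59b3 β] [Enc β] (hα : Br α)
    (hβ : Br β) {F : (List Bool → Bool) → α → β} (hF : F ∈ Protos α β) : RelFn F := by
  obtain ⟨p, Q, O, hQ, hO, rfl⟩ := hF
  exact ⟨fun x => p.eval (bitEncode x : List Bool).length, Q, O, poly_bitLength hα p,
    (hα.pair Br.list).polyFn Br.list hQ, (hα.pair Br.list).polyFn hβ hO, fun R x => rfl⟩

theorem exists_protos {α β : Type} [N487b59b3 α] [N487b59b3 β] {R : List Bool → Bool}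
    {f : α → β} (h : IsPolyTimeRel R f) : ∃ F ∈ Protos α β, F R = f := by
  obtain ⟨p, Q, O, hQ, hO, hf⟩ := h
  exact ⟨_, ⟨p, Q, O, hQ, hO, rfl⟩, funext fun x => (hf x).symm⟩

theorem enum1 : Enum1_stmt :=
  ⟨Protos (List Bool) (List Bool), countable_protos _ _,
    fun _ hF => relFn_of_protos Br.list Br.list hF, fun _ _ h => exists_protos h⟩

theorem enum2 : Enum2_stmt :=
  ⟨Protos (List Bool × List Bool) Bool, countable_protos _ _,
    fun _ hF => relFn_of_protos (Br.list.pair Br.list) Br.bool hF, fun _ _ h => exists_protos h⟩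

theorem enum3 : ∃ 𝓕 : Set ((List Bool → Bool) → List Bool × List Bool → List Bool),
    𝓕.Countable ∧ (∀ F ∈ 𝓕, RelFn F) ∧
      ∀ (R : List Bool → Bool) (f : List Bool × List Bool → List Bool), IsPolyTimeRel R f →
        ∃ F ∈ 𝓕, F R = f :=
  ⟨Protos (List Bool × List Bool) (List Bool), countable_protos _ _,
    fun _ hF => relFn_of_protos (Br.list.pair Br.list) Br.list hF, fun _ _ h => exists_protos h⟩

/-! ### Polynomial time relative to an oracle from oracle functions -/

theorem rel_answers_length {α : Type} (Q : α × List Bool → List Bool) (R : List Bool → Bool) (x : α) :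
    ∀ j, (answers Q R x j).length = j
  | 0 => rfl
  | j + 1 => by
    show (answers Q R x j ++ [_]).length = _
    rw [List.length_append, rel_answers_length Q R x j]
    rfl

theorem rel_answers_take {α : Type} (Q : α × List Bool → List Bool) (R : List Bool → Bool) (x : α)
    {i : ℕ} : ∀ {j : ℕ}, i ≤ j → (answers Q R x j).take i = answers Q R x i
  | 0, h => by
    have : i = 0 := by omega
    subst this
    rfl
  | j + 1, h => by
    rcases Nat.lt_or_ge j i with h1 | h1
    · have h2 : i = j + 1 := by omega
      subst h2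
      exact List.take_of_length_le (by rw [rel_answers_length])
    · show (answers Q R x j ++ [_]).take i = _
      rw [List.take_append_of_le_length (by rw [rel_answers_length]; exact h1), rel_answers_take Q R x h1]

theorem isPolyTimeRel_of_relFn {α β : Type} [N487b59b3 α] [Enc α] [N487b59b3 β] [Enc β]
    (hα : Br α) (hβ : Br β) {F : (List Bool → Bool) → α → β} (hF : RelFn F)
    (R : List Bool → Bool) : IsPolyTimeRel R (F R) := by
  obtain ⟨N, Q, O, hN, hQ, hO, hF⟩ := hF
  -- a bound of `N x` by a polynomial in the length of the encoding of `x`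
  obtain ⟨d, hd, hda⟩ := hα.dec'
  obtain ⟨g, ⟨hg, p, hp⟩, hgb⟩ := (hN.comp hd).size_le
  have hbound : ∀ x : α, N x ≤ (p.comp (4 * Polynomial.X + 1)).eval
      (bitEncode x : List Bool).length := by
    intro x
    have h1 := hgb (bitEncode x)
    rw [size_nat] at h1
    beta_reduce at h1
    rw [hda] at h1
    have h2 : size (bitEncode x : List Bool) ≤ 4 * (bitEncode x : List Bool).length + 1 :=
      Pool.Agent.Lib.MP_f0c157_lc.size_bits_le _
    have h3 := (hg h2).trans (hp _)
    rw [Polynomial.eval_comp]
    simp only [Polynomial.eval_add, Polynomial.eval_mul, Polynomial.eval_X, Polynomial.eval_one,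
      Polynomial.eval_ofNat]
    omega
  refine ⟨p.comp (4 * Polynomial.X + 1), Q, fun q => O (q.1, q.2.take (N q.1)),
    (hα.pair Br.list).isPolyTime Br.list hQ, (hα.pair Br.list).isPolyTime hβ ?_, ?_⟩
  · exact hO.comp (PolyFn.fst.pair (PolyFn.take PolyFn.snd (hN.comp PolyFn.fst)))
  · intro x
    show F R x = O (x, (answers Q R x _).take (N x))
    rw [rel_answers_take Q R x (hbound x)]
    exact hF R x

theorem ofRel1 : OfRel1_stmt := fun _ hF R => isPolyTimeRel_of_relFn Br.list Br.list hF R

theorem ofRel2 : OfRel2_stmt := fun _ hF R =>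
  isPolyTimeRel_of_relFn (Br.list.pair Br.list) Br.bool hF R

end Pool.Agent.Lib.RO
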