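import Pool.Agent.Lib.RO.Basic

/-!
# Project RO: closure properties of oracle functions
-/

set_option autoImplicit false

namespace Pool.Agent.Lib.RO

open Pool.Agent.PolyTime Pool.Agent.Lib.MP_d5150c_lc Pool.Agent.Lib.MP_f0c157_lc
open N487b59b3 N68a2faeb N793a5b8e MeasureTheory

/-! ### Answers -/

namespace RCL

theorem answers_length {α : Type} (Q : α × List Bool → List Bool) (R : List Bool → Bool) (x : α) :
    ∀ j, (answers Q R x j).length = j
  | 0 => rfl
  | j + 1 => by rw [answers, List.length_append, answers_length Q R x j]; rfl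

theorem answers_take {α : Type} (Q : α × List Bool → List Bool) (R : List Bool → Bool) (x : α)
    {i j : ℕ} (h : i ≤ j) : (answers Q R x j).take i = answers Q R x i := by
  induction j with
  | zero =>
    have : i = 0 := by omega
    subst this; rfl
  | succ j ih =>
    rcases Nat.lt_or_ge j i with h1 | h1
    · have : i = j + 1 := by omega
      subst this
      rw [List.take_of_length_le]
      rw [answers_length]
    · rw [answers, List.take_append_of_le_length (by rw [answers_length]; exact h1), ih h1]

/-- two protocols asking the same questions -/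
theorem answers_congr {α β : Type} {Q : α × List Bool → List Bool} {Q' : β × List Bool → List Bool}
    {R : List Bool → Bool} {x : α} {y : β} {n : ℕ}
    (h : ∀ a : List Bool, a.length < n → Q (x, a) = Q' (y, a)) :
    ∀ j ≤ n, answers Q R x j = answers Q' R y j
  | 0, _ => rfl
  | j + 1, hj => by
    have ih := answers_congr (Q := Q) (Q' := Q') (R := R) h j (by omega)
    rw [answers, answers, ← ih, h _ (by rw [answers_length]; omega)]

/-- one protocol after another one -/
theorem answers_seq {α β : Type} {Q : α × List Bool → List Bool}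
    {Q' : β × List Bool → List Bool} {R : List Bool → Bool} {x : α} {y : β} {n : ℕ}
    (h : ∀ a : List Bool, Q (x, answers Q R x n ++ a) = Q' (y, a)) :
    ∀ j, answers Q R x (n + j) = answers Q R x n ++ answers Q' R y j
  | 0 => by rw [answers, List.append_nil]; rfl
  | j + 1 => by
    rw [← Nat.add_assoc, answers, answers_seq h j, answers, h, List.append_assoc]

theorem size_bits_le4 (l : List Bool) : size l ≤ 4 * l.length + 1 := by
  have h := size_list_le (l := l) (B := 3) (fun a _ => size_bool a)
  omega

/-- the size of the encoding is computable -/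
theorem poly_size {γ α : Type} [Enc γ] [Enc α] {a : γ → α} (ha : PolyFn a) :
    PolyFn (fun c => size (a c)) :=
  (PolyFn.length (poly_bits ha)).of_eq fun _ => bits_length _

end RCL

open RCL

theorem relConst : RelConst_stmt := by
  intro α β _ _ g hg
  exact ⟨fun _ => 0, fun _ => [], fun p => g p.1, PolyFn.const _, PolyFn.const _,
    hg.comp PolyFn.fst, fun _ _ => rfl⟩

theorem relQueries : RelQueries_stmt := by
  intro α _ qs hqs
  refine ⟨fun x => (qs x).length, fun p => (qs p.1).getD p.2.length [], fun p => p.2,
    hqs.length, ?_, PolyFn.snd, ?_⟩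
  · exact PolyFn.getD (hqs.comp PolyFn.fst) (PolyFn.length PolyFn.snd) (PolyFn.const _)
  · intro R x
    have key : ∀ j ≤ (qs x).length,
        answers (fun p : α × List Bool => (qs p.1).getD p.2.length []) R x j =
          ((qs x).take j).map R := by
      intro j
      induction j with
      | zero => intro _; simp [answers]
      | succ j ih =>
        intro hj
        rw [answers, ih (by omega)]
        rw [List.take_succ_eq_append_getElem (by omega), List.map_append]
        simp only [List.length_map, List.length_take]
        rw [min_eq_left (by omega), List.getD_eq_getElem _ _ (by omega)]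
        rfl
    show (qs x).map R = _
    rw [key _ le_rfl, List.take_length]

theorem relPair : RelPair_stmt := by
  rintro α β γ _ _ _ F G ⟨N1, Q1, O1, hN1, hQ1, hO1, h1⟩ ⟨N2, Q2, O2, hN2, hQ2, hO2, h2⟩
  refine ⟨fun x => N1 x + N2 x, fun p => if p.2.length < N1 p.1 then Q1 p else
    Q2 (p.1, p.2.drop (N1 p.1)), fun p => (O1 (p.1, p.2.take (N1 p.1)), O2 (p.1, p.2.drop (N1 p.1))),
    hN1.add hN2, ?_, ?_, ?_⟩
  · refine PolyFn.ite (PolyFn.decide_lt (PolyFn.length PolyFn.snd) (hN1.comp PolyFn.fst)) hQ1 ?_
    exact hQ2.comp (PolyFn.fst.pair (PolyFn.drop (hN1.comp PolyFn.fst) PolyFn.snd))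
  · exact (hO1.comp (PolyFn.fst.pair (PolyFn.take PolyFn.snd (hN1.comp PolyFn.fst)))).pair
      (hO2.comp (PolyFn.fst.pair (PolyFn.drop (hN1.comp PolyFn.fst) PolyFn.snd)))
  · intro R x
    set Q : α × List Bool → List Bool := fun p => if p.2.length < N1 p.1 then Q1 p else
      Q2 (p.1, p.2.drop (N1 p.1)) with hQ
    have e1 : answers Q R x (N1 x) = answers Q1 R x (N1 x) := by
      refine answers_congr (n := N1 x) ?_ _ le_rfl
      intro a ha
      rw [hQ]
      simp only
      rw [if_pos ha]
    have e2 : ∀ j, answers Q R x (N1 x + j) = answers Q R x (N1 x) ++ answers Q2 R x j := by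
      refine answers_seq ?_
      intro a
      rw [hQ]
      simp only [List.length_append, answers_length]
      rw [if_neg (by omega), List.drop_append_of_le_length (by rw [answers_length])]
      rw [List.drop_of_length_le (by rw [answers_length]), List.nil_append]
    show (F R x, G R x) = (O1 (x, (answers Q R x (N1 x + N2 x)).take (N1 x)),
      O2 (x, (answers Q R x (N1 x + N2 x)).drop (N1 x)))
    rw [answers_take Q R x (Nat.le_add_right _ _), e2, e1,
      List.drop_append_of_le_length (by rw [answers_length]),
      List.drop_of_length_le (by rw [answers_length]), List.nil_append, h1, h2]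

theorem relComp : RelComp_stmt := by
  rintro α β γ _ _ _ F G ⟨N2, Q2, O2, hN2, hQ2, hO2, h2⟩ ⟨N1, Q1, O1, hN1, hQ1, hO1, h1⟩
  obtain ⟨b1, hb1, hb1'⟩ := hN1.size_le
  obtain ⟨b2, hb2, hb2'⟩ := hN2.size_le
  obtain ⟨b3, hb3, hb3'⟩ := hO1.size_le
  have hb : PB (fun n => b2 (b3 (n + (4 * b1 n + 1) + 1))) :=
    hb2.comp (hb3.comp ((PB.id.add (((PB.const 4).mul hb1).add (PB.const 1))).add (PB.const 1)))
  obtain ⟨p, hp⟩ := hb.2
  have hbound : ∀ (R : List Bool → Bool) (x : α),
      N2 (O1 (x, answers Q1 R x (N1 x))) ≤ p.eval (size x) := by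
    intro R x
    refine le_trans ?_ (hp (size x))
    have e1 := hb2' (O1 (x, answers Q1 R x (N1 x)))
    have e2 := hb3' (x, answers Q1 R x (N1 x))
    have e3 := hb1' x
    have e4 := size_bits_le4 (answers Q1 R x (N1 x))
    rw [answers_length] at e4
    rw [size_nat] at e1 e3
    rw [size_prod] at e2
    have e5 : size (O1 (x, answers Q1 R x (N1 x))) ≤ b3 (size x + (4 * b1 (size x) + 1) + 1) :=
      e2.trans (hb3.mono (by omega))
    have e6 := hb2.mono e5
    show _ ≤ b2 (b3 (size x + (4 * b1 (size x) + 1) + 1))
    omega
  have hsz : PolyFn (fun x : α => p.eval (size x)) := poly_eval p (poly_size PolyFn.id)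
  have hN1' : PolyFn (fun q : α × List Bool => N1 q.1) := hN1.comp PolyFn.fst
  have hy : PolyFn (fun q : α × List Bool => O1 (q.1, q.2.take (N1 q.1))) :=
    hO1.comp (PolyFn.fst.pair (PolyFn.take PolyFn.snd hN1'))
  have hd : PolyFn (fun q : α × List Bool => q.2.drop (N1 q.1)) := PolyFn.drop hN1' PolyFn.snd
  refine ⟨fun x => N1 x + p.eval (size x), fun q => if q.2.length < N1 q.1 then Q1 q else
    Q2 (O1 (q.1, q.2.take (N1 q.1)), q.2.drop (N1 q.1)),
    fun q => O2 (O1 (q.1, q.2.take (N1 q.1)),
      (q.2.drop (N1 q.1)).take (N2 (O1 (q.1, q.2.take (N1 q.1))))),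
    hN1.add hsz, ?_, ?_, ?_⟩
  · exact PolyFn.ite (PolyFn.decide_lt (PolyFn.length PolyFn.snd) hN1') hQ1 (hQ2.comp (hy.pair hd))
  · exact hO2.comp (hy.pair (PolyFn.take hd (hN2.comp hy)))
  · intro R x
    set Q : α × List Bool → List Bool := fun q => if q.2.length < N1 q.1 then Q1 q else
      Q2 (O1 (q.1, q.2.take (N1 q.1)), q.2.drop (N1 q.1)) with hQ
    have e1 : answers Q R x (N1 x) = answers Q1 R x (N1 x) := by
      refine answers_congr (n := N1 x) ?_ _ le_rfl
      intro a ha
      rw [hQ]
      simp only
      rw [if_pos ha]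
    have e2 : ∀ j, answers Q R x (N1 x + j) =
        answers Q R x (N1 x) ++ answers Q2 R (O1 (x, answers Q1 R x (N1 x))) j := by
      refine answers_seq ?_
      intro a
      rw [hQ]
      simp only [List.length_append, answers_length]
      rw [if_neg (by omega), List.drop_append_of_le_length (by rw [answers_length]),
        List.drop_of_length_le (by rw [answers_length]), List.nil_append,
        List.take_append_of_le_length (by rw [answers_length]),
        List.take_of_length_le (by rw [answers_length]), ← hQ, e1]
    show F R (G R x) = O2 (O1 (x, (answers Q R x (N1 x + p.eval (size x))).take (N1 x)),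
      ((answers Q R x (N1 x + p.eval (size x))).drop (N1 x)).take
        (N2 (O1 (x, (answers Q R x (N1 x + p.eval (size x))).take (N1 x)))))
    rw [answers_take Q R x (Nat.le_add_right _ _), e2, e1,
      List.drop_append_of_le_length (by rw [answers_length]),
      List.drop_of_length_le (by rw [answers_length]), List.nil_append,
      answers_take _ _ _ (hbound R x), h2, h1]

end Pool.Agent.Lib.RO
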