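import Pool.Agent.Lib.RO.Basic

/-!
# Project RO, module PORC: oracle functions evaluated on tables
-/

set_option autoImplicit false

namespace Pool.Agent.Lib.RO

open Pool.Agent.PolyTime Pool.Agent.Lib.MP_d5150c_lc Pool.Agent.Lib.MP_f0c157_lc
open N487b59b3 N68a2faeb N793a5b8e MeasureTheory

theorem binVal_snoc (l : List Bool) : binVal (l ++ [true]) = wnum l + 1 := by
  induction l with
  | nil => simp [binVal, wnum]
  | cons b l ih =>
    rw [List.cons_append, binVal, ih, wnum]
    cases b <;> simp <;> omega

theorem orc_eq (u v : List Bool) :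
    orc u v = u.getD (capVal (u.length + 1) (v ++ [true]) - 1) false := by
  rw [capVal_eq, binVal_snoc]
  unfold orc
  rcases Nat.lt_or_ge (wnum v) u.length with h | h
  · rw [Nat.min_eq_left (by omega), Nat.add_sub_cancel]
  · rw [Nat.min_eq_right (by omega), Nat.add_sub_cancel,
      List.getD_eq_default _ _ (by omega), List.getD_eq_default _ _ (by omega)]

/-- looking up a table -/
theorem po_poly_orc {γ : Type} [Enc γ] {u v : γ → List Bool} (hu : PolyFn u) (hv : PolyFn v) :
    PolyFn (fun c => orc (u c) (v c)) := by
  have h1 : PolyFn (fun c => capVal ((u c).length + 1) (v c ++ [true])) :=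
    PolyFn.capVal (PolyFn.succ (PolyFn.length hu)) (PolyFn.append hv (PolyFn.const [true]))
  refine (PolyFn.getD hu (PolyFn.sub h1 (PolyFn.const 1)) (PolyFn.const false)).of_eq ?_
  intro c
  rw [orc_eq]

theorem answers_foldl {α : Type} (Q : α × List Bool → List Bool) (R : List Bool → Bool) (x : α)
    (j : ℕ) :
    (List.range j).foldl (fun s _ => s ++ [R (Q (x, s))]) [] = answers Q R x j := by
  induction j with
  | zero => rfl
  | succ j ih => rw [List.range_succ, List.foldl_append, ih]; rfl

theorem po_answers_length {α : Type} (Q : α × List Bool → List Bool) (R : List Bool → Bool) (x : α)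
    (j : ℕ) : (answers Q R x j).length = j := by
  induction j with
  | zero => rfl
  | succ j ih => rw [answers, List.length_append, ih]; rfl

/-- the answers of a table -/
theorem poly_answers {α γ : Type} [Enc α] [Enc γ] {Q : α × List Bool → List Bool}
    (hQ : PolyFn Q) {u : γ → List Bool} {x : γ → α} {n : γ → ℕ} (hu : PolyFn u) (hx : PolyFn x)
    (hn : PolyFn n) : PolyFn (fun c => answers Q (orc (u c)) (x c) (n c)) := by
  obtain ⟨n', hn', hns⟩ := hn.size_le
  have h := PolyFn.foldl
    (step := fun (c : γ) (s : List Bool) (_ : ℕ) => s ++ [orc (u c) (Q (x c, s))])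
    (init := fun _ => []) (l := fun c => List.range (n c)) (by
      have hs : PolyFn (fun p : γ × List Bool × ℕ => p.2.1) := PolyFn.fst.comp PolyFn.snd
      have hc : PolyFn (fun p : γ × List Bool × ℕ => p.1) := PolyFn.fst
      exact PolyFn.append hs (PolyFn.cons (po_poly_orc (hu.comp hc)
        (hQ.comp ((hx.comp hc).pair hs))) (PolyFn.const [])))
    (PolyFn.const []) (PolyFn.range hn) ⟨fun k => 4 * n' k + 1,
      ((PB.const 4).mul hn').add (PB.const 1), fun c i hi => by
        rw [List.length_range] at hi
        rw [List.take_range, Nat.min_eq_left hi, answers_foldl]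
        refine (Pool.Agent.Lib.MP_f0c157_lc.size_bits_le _).trans ?_
        rw [po_answers_length]
        have := hns c
        rw [size_nat] at this
        show 4 * i + 1 ≤ 4 * n' (size c) + 1
        omega⟩
  refine h.of_eq ?_
  intro c
  exact answers_foldl _ _ _ _

theorem polyOrc : PolyOrc_stmt := by
  intro α β _ _ F hF
  obtain ⟨N, Q, O, hN, hQ, hO, h⟩ := hF
  have hx : PolyFn (fun q : List Bool × α => q.2) := PolyFn.snd
  refine (hO.comp (hx.pair (poly_answers hQ PolyFn.fst hx (hN.comp hx)))).of_eq ?_
  intro q
  exact (h (orc q.1) q.2).symm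

end Pool.Agent.Lib.RO
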