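import Pool.Agent.Lib.RO.Basic

/-!
# Project RO: tools for the polynomial-time computation of the bad events
-/

set_option autoImplicit false

namespace Pool.Agent.Lib.RO

open Pool.Agent.PolyTime Pool.Agent.Lib.MP_d5150c_lc Pool.Agent.Lib.MP_f0c157_lc
open N487b59b3 N68a2faeb N793a5b8e MeasureTheory

variable {γ : Type} [Enc γ]

/-! ### Square roots -/

theorem sqrt_eq_length (n : ℕ) :
    Nat.sqrt n = ((List.range n).filter fun i => decide ((i + 1) * (i + 1) ≤ n)).length := by
  have h := filter_range_anti (fun i => decide ((i + 1) * (i + 1) ≤ n)) (by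
    intro i j hij hj
    rw [decide_eq_true_iff] at hj ⊢
    exact (Nat.mul_le_mul (by omega) (by omega)).trans hj) n
  obtain ⟨h1, h2⟩ := h
  have hle : ((List.range n).filter fun i => decide ((i + 1) * (i + 1) ≤ n)).length ≤ n := by
    refine (List.length_filter_le _ _).trans ?_
    simp
  generalize ht : ((List.range n).filter fun i => decide ((i + 1) * (i + 1) ≤ n)).length = t
    at h1 h2 hle
  symm
  rw [Nat.eq_sqrt]
  constructor
  · rcases Nat.eq_zero_or_pos t with h0 | h0
    · rw [h0]; simp
    · have h3 := h1 (t - 1) (by omega)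
      rw [decide_eq_true_iff] at h3
      have h4 : t - 1 + 1 = t := by omega
      rwa [h4] at h3
  · rcases Nat.lt_or_ge t n with h5 | h5
    · have h3 := h2 h5
      rw [decide_eq_false_iff_not, not_le] at h3
      exact h3
    · have h6 : t = n := by omega
      rw [h6]
      nlinarith

theorem poly_sqrt {n : γ → ℕ} (hn : PolyFn n) : PolyFn (fun c => Nat.sqrt (n c)) := by
  have key : PolyFn (fun n : ℕ =>
      ((List.range n).filter fun i => decide ((i + 1) * (i + 1) ≤ n)).length) := by
    refine PolyFn.length (PolyFn.filter (p := fun (n : ℕ) (i : ℕ) => decide ((i + 1) * (i + 1) ≤ n))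
      ?_ (PolyFn.range PolyFn.id))
    exact PolyFn.decide_le (PolyFn.mul (PolyFn.succ PolyFn.snd) (PolyFn.succ PolyFn.snd)) PolyFn.fst
  exact (key.comp hn).of_eq fun c => (sqrt_eq_length (n c)).symm

/-! ### Comparison with powers of two -/

theorem le_two_pow_iff (a k : ℕ) : decide (a ≤ 2 ^ k) = decide (a ≤ cpow a 2 k) := by
  rw [cpow_eq, decide_eq_decide]
  omega

theorem poly_le_two_pow {a k : γ → ℕ} (ha : PolyFn a) (hk : PolyFn k) :
    PolyFn (fun c => decide (a c ≤ 2 ^ k c)) :=
  (PolyFn.decide_le ha (poly_cpow ha (PolyFn.const 2) hk)).of_eq fun c =>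
    (le_two_pow_iff (a c) (k c)).symm

/-! ### The guard -/

/-- the capped computation of the test `u.length = tb (2 ^ n)` -/
def guardc (n : ℕ) (u : List Bool) : Bool :=
  decide (cpow (u.length + 2) 2 (cpow (u.length + 2) 2 n) = u.length + 1)

theorem guardc_eq (n : ℕ) (u : List Bool) : guardc n u = decide (u.length = tb (2 ^ n)) := by
  unfold guardc
  rw [decide_eq_decide, cpow_eq, cpow_eq]
  have h1 := tb_add_one (2 ^ n)
  have h2 : u.length + 2 < 2 ^ (u.length + 2) := Nat.lt_two_pow_self
  rcases le_total (2 ^ n) (u.length + 2) with h | h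
  · rw [min_eq_left h]
    omega
  · rw [min_eq_right h]
    have h3 : 2 ^ (u.length + 2) ≤ 2 ^ 2 ^ n := Nat.pow_le_pow_right (by omega) h
    omega

theorem poly_guardc {n : γ → ℕ} {u : γ → List Bool} (hn : PolyFn n) (hu : PolyFn u) :
    PolyFn (fun c => guardc (n c) (u c)) := by
  have hl : PolyFn (fun c => (u c).length) := PolyFn.length hu
  exact PolyFn.decide_eq_nat (poly_cpow hl.succ.succ (PolyFn.const 2)
    (poly_cpow hl.succ.succ (PolyFn.const 2) hn)) hl.succ

/-! ### Capped lists of short strings -/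

/-- the strings of length `n`, if there are at most `cap` of them -/
def extsc (cap n : ℕ) : List (List Bool) := enumc [] (cpow cap 2 n)

theorem extsc_eq {cap n : ℕ} (h : 2 ^ n ≤ cap) : extsc cap n = exts [] n := by
  unfold extsc
  rw [cpow_eq, min_eq_left h, enumc_pow]

theorem poly_extsc {cap n : γ → ℕ} (hc : PolyFn cap) (hn : PolyFn n) :
    PolyFn (fun c => extsc (cap c) (n c)) :=
  poly_enumc [] (poly_cpow hc (PolyFn.const 2) hn)

/-- the strings shorter than `2 ^ n`, if there are fewer than `cap` of them -/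
def shortsc (cap n : ℕ) : List (List Bool) :=
  (List.range (cpow cap 2 n)).flatMap fun i => extsc cap i

theorem poly_shortsc {cap n : γ → ℕ} (hc : PolyFn cap) (hn : PolyFn n) :
    PolyFn (fun c => shortsc (cap c) (n c)) :=
  PolyFn.flatMap (f := fun (c : γ) (i : ℕ) => extsc (cap c) i)
    (poly_extsc (hc.comp PolyFn.fst) PolyFn.snd)
    (PolyFn.range (poly_cpow hc (PolyFn.const 2) hn))

theorem shortsc_eq {cap n : ℕ} (h : cap = 2 ^ 2 ^ n) : shortsc cap n = shorts (2 ^ n) := by
  have h1 : 2 ^ n ≤ cap := by rw [h]; exact Nat.lt_two_pow_self.le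
  unfold shortsc shorts
  rw [cpow_eq, min_eq_left h1, List.flatMap_def, List.flatMap_def]
  congr 1
  refine List.map_congr_left ?_
  intro i hi
  rw [List.mem_range] at hi
  refine extsc_eq ?_
  rw [h]
  exact Nat.pow_le_pow_right (by omega) hi.le

theorem cap_of_guard {n : ℕ} {u : List Bool} (h : u.length = tb (2 ^ n)) :
    u.length + 1 = 2 ^ 2 ^ n := by
  rw [h, tb_add_one]

/-! ### The oracle itself -/

theorem relFn_self : RelFn (fun (R : List Bool → Bool) (v : List Bool) => R v) := by
  refine ⟨fun _ => 1, fun q => q.1, fun q => q.2.headD false, PolyFn.const 1, PolyFn.fst,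
    PolyFn.headD PolyFn.snd (PolyFn.const false), ?_⟩
  intro R x
  simp [answers]

theorem poly_orc (ho : PolyOrc_stmt) {u v : γ → List Bool} (hu : PolyFn u) (hv : PolyFn v) :
    PolyFn (fun c => orc (u c) (v c)) :=
  (ho _ _ _ relFn_self).comp (hu.pair hv)

theorem poly_Fv (ho : PolyOrc_stmt) {u x : γ → List Bool} {l : γ → ℕ} (hu : PolyFn u)
    (hl : PolyFn l) (hx : PolyFn x) : PolyFn (fun c => Fv (orc (u c)) (l c) (x c)) := by
  refine PolyFn.map (f := fun (c : γ) (j : ℕ) => orc (u c) (loc (x c) j)) ?_ (PolyFn.range hl)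
  refine poly_orc ho (hu.comp PolyFn.fst) ?_
  exact PolyFn.append (hx.comp PolyFn.fst)
    (PolyFn.replicate (PolyFn.succ PolyFn.snd) (PolyFn.const true))

theorem poly_inp {n : γ → ℕ} {z : γ → List Bool} (hn : PolyFn n) (hz : PolyFn z) :
    PolyFn (fun c => inp (n c) (z c)) :=
  PolyFn.append (PolyFn.replicate hn (PolyFn.const true)) (PolyFn.cons (PolyFn.const false) hz)

end Pool.Agent.Lib.RO
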