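import Pool.Agent.Lib.RO.Stage

/-!
# Project RO: elementary facts on tables and stages
-/

set_option autoImplicit false

namespace Pool.Agent.Lib.RO

open Pool.Agent.PolyTime Pool.Agent.Lib.MP_d5150c_lc Pool.Agent.Lib.MP_f0c157_lc
open N487b59b3 N68a2faeb N793a5b8e MeasureTheory

/-! ### The numbering of the strings -/

theorem wnum_bounds (v : List Bool) : 2 ^ v.length ≤ wnum v + 1 ∧ wnum v + 1 < 2 ^ (v.length + 1) := by
  induction v with
  | nil => simp [wnum]
  | cons b v ih =>
    obtain ⟨h1, h2⟩ := ih
    have h3 : 2 ^ (v.length + 1) = 2 * 2 ^ v.length := by rw [pow_succ]; ring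
    have h4 : 2 ^ (v.length + 1 + 1) = 2 * 2 ^ (v.length + 1) := by rw [pow_succ]; ring
    rw [List.length_cons]
    cases b <;> simp only [wnum] <;> constructor <;> simp <;> omega

theorem tb_add_one (m : ℕ) : tb m + 1 = 2 ^ m := by
  unfold tb
  have : 0 < 2 ^ m := by positivity
  omega

theorem wnum_lt_iff {v : List Bool} {m : ℕ} : wnum v < tb m ↔ v.length < m := by
  obtain ⟨h1, h2⟩ := wnum_bounds v
  have h3 := tb_add_one m
  constructor
  · intro h
    by_contra hcon
    have h4 : 2 ^ m ≤ 2 ^ v.length := Nat.pow_le_pow_right (by omega) (by omega)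
    omega
  · intro h
    have h4 : 2 ^ (v.length + 1) ≤ 2 ^ m := Nat.pow_le_pow_right (by omega) (by omega)
    omega

theorem tb_mono {m n : ℕ} (h : m ≤ n) : tb m ≤ tb n := by
  unfold tb
  have : 2 ^ m ≤ 2 ^ n := Nat.pow_le_pow_right (by omega) h
  omega

theorem lt_tb (m : ℕ) : m ≤ tb m := by
  have := tb_add_one m
  have : m < 2 ^ m := Nat.lt_two_pow_self
  omega

theorem tb_add_gap (n : ℕ) : tb n + gap n = tb (2 ^ n) := by
  unfold gap
  have : tb n ≤ tb (2 ^ n) := tb_mono Nat.lt_two_pow_self.le
  omega

theorem orc_firstBits (α : ℕ → Bool) {m : ℕ} {v : List Bool} (h : v.length < m) :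
    orc (firstBits α (tb m)) v = ofSeq α v := by
  unfold orc ofSeq
  exact firstBits_getD α (wnum_lt_iff.2 h)

theorem tableR_ofSeq (α : ℕ → Bool) (m : ℕ) : tableR (ofSeq α) m = firstBits α (tb m) := by
  unfold tableR firstBits ofSeq
  refine List.map_congr_left ?_
  intro i _
  rw [wnum_iter]

theorem orc_eq_of_cyl {α : ℕ → Bool} {u : List Bool} (h : α ∈ cyl u) {m : ℕ}
    (hu : u.length = tb m) {v : List Bool} (hv : v.length < m) : orc u v = ofSeq α v := by
  rw [mem_cyl, hu] at h
  rw [← h, orc_firstBits α hv]

theorem mem_exts_length {s u : List Bool} {n : ℕ} (hs : s.length = tb n) (hu : u ∈ exts s (gap n)) :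
    u.length = tb (2 ^ n) := by
  rw [(exts_mem.1 hu).2, hs, tb_add_gap]

theorem loc_length (x : List Bool) (j : ℕ) : (loc x j).length = x.length + j + 1 := by
  simp [loc]
  omega

theorem loc_inj {x x' : List Bool} {j j' : ℕ} (hx : x.length = x'.length) (h : loc x j = loc x' j') :
    x = x' ∧ j = j' := by
  have h1 := congrArg List.length h
  rw [loc_length, loc_length] at h1
  have hj : j = j' := by omega
  subst hj
  exact ⟨List.append_cancel_right h, rfl⟩

theorem Fv_length (R : List Bool → Bool) (l : ℕ) (x : List Bool) : (Fv R l x).length = l := by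
  simp [Fv]

theorem Fv_congr {R R' : List Bool → Bool} {l : ℕ} {x : List Bool}
    (h : ∀ j < l, R (loc x j) = R' (loc x j)) : Fv R l x = Fv R' l x := by
  unfold Fv
  refine List.map_congr_left ?_
  intro j hj
  exact h j (List.mem_range.1 hj)

theorem collB_iff {R : List Bool → Bool} {n l : ℕ} : collB R n l = true ↔ Coll R n l := by
  unfold collB Coll
  simp only [List.any_eq_true, Bool.and_eq_true, decide_eq_true_eq, exts_mem, List.nil_prefix,
    List.length_nil, zero_add, true_and]
  constructor
  · rintro ⟨x, hx, x', hx', h1, h2⟩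
    exact ⟨x, x', hx, hx', h1, h2⟩
  · rintro ⟨x, x', hx, hx', h1, h2⟩
    exact ⟨x, hx, x', hx', h1, h2⟩

/-! ### Inputs -/

theorem inp_length (n : ℕ) (z : List Bool) : (inp n z).length = n + 1 + z.length := by
  simp [inp]
  omega

theorem inp_inj : ∀ {n n' : ℕ} {z z' : List Bool}, inp n z = inp n' z' → n = n' ∧ z = z'
  | 0, 0, z, z', h => by
    simp [inp] at h
    exact ⟨rfl, h⟩
  | 0, n' + 1, z, z', h => by
    simp [inp, List.replicate_succ] at h
  | n + 1, 0, z, z', h => by
    simp [inp, List.replicate_succ] at h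
  | n + 1, n' + 1, z, z', h => by
    have h1 : inp n z = inp n' z' := by
      simpa [inp, List.replicate_succ] using h
    obtain ⟨h2, h3⟩ := inp_inj h1
    exact ⟨by rw [h2], h3⟩

theorem size_inp_le (n : ℕ) (z : List Bool) : size (inp n z) ≤ 4 * (n + z.length) + 5 := by
  refine (Pool.Agent.Lib.MP_f0c157_lc.size_bits_le _).trans ?_
  rw [inp_length]
  omega

/-! ### Stages -/

theorem lt_big (n : ℕ) : 2 ^ n < big n := by
  unfold big
  exact (Nat.lt_two_pow_self).trans Nat.lt_two_pow_self

theorem lt_big_of_le {m n : ℕ} (h : m ≤ n) : m < big n :=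
  (Nat.lt_two_pow_self.trans_le (Nat.pow_le_pow_right (by omega) h)).trans (lt_big n)

theorem st_succ (k : ℕ) : st (k + 1) = big (st k) := rfl

theorem two_pow_st_lt (k : ℕ) : 2 ^ st k < st (k + 1) := lt_big _

theorem st_lt_succ (k : ℕ) : st k < st (k + 1) := Nat.lt_two_pow_self.trans (two_pow_st_lt k)

theorem st_strictMono : StrictMono st := strictMono_nat_of_lt_succ st_lt_succ

theorem lt_st (k : ℕ) : k < st k := by
  induction k with
  | zero => exact Nat.one_pos
  | succ k ih =>
    have := st_lt_succ k
    omega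

theorem st_inj {j k : ℕ} (h : st j = st k) : j = k := st_strictMono.injective h

theorem tb_two_pow_st_le (k : ℕ) : tb (2 ^ st k) ≤ tb (st (k + 1)) := tb_mono (two_pow_st_lt k).le

/-! ### The adaptive parameter -/

theorem tv_le (Bad : ℕ → List Bool → Bool) (n k : ℕ) (s : List Bool) : tv Bad n k s ≤ k + 1 := by
  unfold tv
  refine (List.length_filter_le _ _).trans ?_
  simp

/-- the length of an initial segment -/
theorem filter_range_anti (p : ℕ → Bool) (hp : ∀ i j, i ≤ j → p j = true → p i = true) :
    ∀ m, let t := ((List.range m).filter p).length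
      (∀ i < t, p i = true) ∧ (t < m → p t = false) := by
  intro m
  induction m with
  | zero => simp
  | succ m ih =>
    intro t
    have ht : t = ((List.range m).filter p).length + (if p m = true then 1 else 0) := by
      show ((List.range (m + 1)).filter p).length = _
      rw [List.range_succ, List.filter_append, List.length_append]
      by_cases h : p m = true <;> simp [h]
    obtain ⟨h1, h2⟩ := ih
    have hle : ((List.range m).filter p).length ≤ m := by
      refine (List.length_filter_le _ _).trans ?_
      simp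
    by_cases h : p m = true
    · rw [if_pos h] at ht
      have hall : ((List.range m).filter p).length = m := by
        by_contra hne
        have h3 := h2 (by omega)
        have h4 := hp _ m hle h
        rw [h4] at h3
        exact absurd h3 (by simp)
      constructor
      · intro i hi
        rcases Nat.lt_or_ge i m with h5 | h5
        · exact h1 i (by omega)
        · have : i = m := by omega
          rw [this]; exact h
      · intro h5; omega
    · rw [if_neg h, Nat.add_zero] at ht
      constructor
      · intro i hi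
        exact h1 i (by omega)
      · intro h5
        rcases Nat.lt_or_ge t m with h6 | h6
        · rw [ht]; exact h2 (by omega)
        · have : t = m := by omega
          rw [this]
          simpa using h

theorem tv_spec (Bad : ℕ → List Bool → Bool) (n k : ℕ) (s : List Bool) :
    (1 ≤ tv Bad n k s → 8 * cnt Bad n s * 2 ^ tv Bad n k s ≤ 2 ^ gap n) ∧
    (tv Bad n k s ≤ k → 2 ^ gap n < 16 * cnt Bad n s * 2 ^ tv Bad n k s) := by
  have h := filter_range_anti (fun i => decide (cnt Bad n s * 2 ^ (i + 4) ≤ 2 ^ gap n)) (by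
    intro i j hij hj
    rw [decide_eq_true_iff] at hj ⊢
    refine le_trans (Nat.mul_le_mul_left _ ?_) hj
    exact Nat.pow_le_pow_right (by omega) (by omega)) (k + 1)
  obtain ⟨h1, h2⟩ := h
  constructor
  · intro ht
    obtain ⟨t, ht'⟩ : ∃ t, tv Bad n k s = t + 1 := ⟨tv Bad n k s - 1, by omega⟩
    have h3 := h1 t (by
      show t < tv Bad n k s
      omega)
    rw [decide_eq_true_iff] at h3
    rw [ht']
    calc 8 * cnt Bad n s * 2 ^ (t + 1) = cnt Bad n s * 2 ^ (t + 4) := by
          rw [pow_succ, pow_add]; ring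
      _ ≤ _ := h3
  · intro ht
    have h3 := h2 (by
      show tv Bad n k s < k + 1
      omega)
    rw [decide_eq_false_iff_not, not_le] at h3
    calc 2 ^ gap n < cnt Bad n s * 2 ^ (tv Bad n k s + 4) := h3
      _ = 16 * cnt Bad n s * 2 ^ tv Bad n k s := by rw [pow_add]; ring

theorem one_le_tv {Bad : ℕ → List Bool → Bool} {n k : ℕ} {s : List Bool}
    (h : 16 * cnt Bad n s ≤ 2 ^ gap n) : 1 ≤ tv Bad n k s := by
  by_contra hcon
  have h0 : tv Bad n k s = 0 := by omega
  have h1 := (tv_spec Bad n k s).2 (by omega)
  rw [h0] at h1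
  simp at h1
  omega

theorem cnt_congr_take {α : ℕ → Bool} {s : List Bool} {m n : ℕ} (h : α ∈ cyl s)
    (hs : s.length = tb n) (hmn : m ≤ n) : s.take (tb m) = firstBits α (tb m) := by
  rw [mem_cyl, hs] at h
  rw [← h, fb_take _ (tb_mono hmn)]

end Pool.Agent.Lib.RO
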