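import Pool.Agent.Lib.RO.Basic

/-!
# Project RO, module F1: the Borel-Cantelli argument
-/

set_option autoImplicit false

namespace Pool.Agent.Lib.RO

open Pool.Agent.PolyTime Pool.Agent.Lib.MP_d5150c_lc Pool.Agent.Lib.MP_f0c157_lc
open N487b59b3 N68a2faeb N793a5b8e MeasureTheory Set

namespace F1M

/-! ### Slicing a set with cylinders -/

theorem cyl_disjoint {u v : List Bool} (hl : u.length = v.length) (h : u ≠ v) :
    Disjoint (cyl u) (cyl v) := by
  rw [Set.disjoint_left]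
  intro α hu hv
  rw [mem_cyl] at hu hv
  apply h
  rw [← hu, ← hv, hl]

theorem sum_cyl (T : Set (ℕ → Bool)) (σ : List Bool) (j : ℕ) :
    ∑ u ∈ (exts σ j).toFinset, coin (T ∩ cyl u) = coin (T ∩ cyl σ) := by
  have h1 : ∀ u, coin (T ∩ cyl u) = (coin.restrict T) (cyl u) := by
    intro u
    rw [Measure.restrict_apply (measurableSet_cyl u), Set.inter_comm]
  rw [h1 σ, cyl_eq_exts σ j, measure_biUnion_finset]
  · exact Finset.sum_congr rfl fun u _ => h1 u
  · intro u hu v hv huv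
    rw [Finset.mem_coe, List.mem_toFinset, exts_mem] at hu hv
    exact cyl_disjoint (by rw [hu.2, hv.2]) huv
  · intro u _
    exact measurableSet_cyl u

theorem cyl_nil : cyl [] = (univ : Set (ℕ → Bool)) := by
  ext α
  simp [mem_cyl, firstBits]

theorem measurableSet_ev (P : List Bool → Prop) (N : ℕ) :
    MeasurableSet {α : ℕ → Bool | P (firstBits α N)} := by
  classical
  have h : {α : ℕ → Bool | P (firstBits α N)} =
      ⋃ u ∈ (exts [] N).toFinset.filter P, cyl u := by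
    ext α
    simp only [mem_ofPred_eq, mem_iUnion, Finset.mem_filter, List.mem_toFinset, exts_mem,
      List.nil_prefix, List.length_nil, zero_add, true_and, exists_prop]
    constructor
    · intro h
      exact ⟨firstBits α N, ⟨fb_length _ _, h⟩, mem_cyl_fb _ _⟩
    · rintro ⟨u, ⟨h1, h2⟩, h3⟩
      rw [mem_cyl, h1] at h3
      rw [h3]; exact h2
  rw [h]
  exact Finset.measurableSet_biUnion _ fun u _ => measurableSet_cyl u

/-! ### Collisions -/

theorem coll_congr {R R' : List Bool → Bool} {n l : ℕ}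
    (h : ∀ v : List Bool, v.length ≤ n + l → R v = R' v) (hc : Coll R n l) : Coll R' n l := by
  obtain ⟨x, x', hx, hx', hne, hF⟩ := hc
  refine ⟨x, x', hx, hx', hne, ?_⟩
  have key : ∀ y : List Bool, y.length = n → Fv R l y = Fv R' l y := by
    intro y hy
    refine Fv_congr fun j hj => h _ ?_
    rw [loc_length]
    omega
  rw [← key x hx, ← key x' hx', hF]

open Classical in
theorem coin_coll_le (hP : Plant1_stmt) (hT : Tab_stmt) {n t : ℕ} (hn : 1 ≤ n)
    (hnl : n + ell n t < 2 ^ n) {s : List Bool} (hs : s.length = tb n) :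
    coin ({α | Coll (ofSeq α) n (ell n t)} ∩ cyl s) ≤
      2 * (2⁻¹ : ENNReal) ^ t * coin (cyl s) := by
  obtain ⟨P, hval, -⟩ := hT n (ell n t) s hs hnl
  let S : Finset (List Bool) := (exts s (gap n)).toFinset.filter fun u => Coll (orc u) n (ell n t)
  have : Fintype {u : List Bool // u ∈ exts s (gap n)} :=
    Fintype.ofFinset (exts s (gap n)).toFinset (fun u => List.mem_toFinset)
  let A : Finset {u : List Bool // u ∈ exts s (gap n)} :=
    Finset.univ.filter fun u => Coll (orc u.1) n (ell n t)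
  have hΩ : Fintype.card {u : List Bool // u ∈ exts s (gap n)} = 2 ^ gap n := by
    rw [Fintype.card_of_subtype (exts s (gap n)).toFinset (fun u => List.mem_toFinset),
      List.toFinset_card_of_nodup (exts_nodup _ _), exts_length]
  have hSA : S.card = A.card := by
    refine (Finset.card_bij (fun u _ => u.1) ?_ ?_ ?_).symm
    · intro u hu
      exact Finset.mem_filter.2 ⟨List.mem_toFinset.2 u.2, (Finset.mem_filter.1 hu).2⟩
    · intro u _ v _ h
      exact Subtype.ext h
    · intro u hu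
      obtain ⟨h1, h2⟩ := Finset.mem_filter.1 hu
      exact ⟨⟨u, List.mem_toFinset.1 h1⟩, Finset.mem_filter.2 ⟨Finset.mem_univ _, h2⟩, rfl⟩
  have h1 := hP _ _ _ P A (by
    intro u hu
    obtain ⟨x, x', hx, hx', hne, hF⟩ := (Finset.mem_filter.1 hu).2
    have a := hval u (⟨x, hx⟩ : List.Vector Bool n)
    have a' := hval u (⟨x', hx'⟩ : List.Vector Bool n)
    exact ⟨⟨x, hx⟩, ⟨x', hx'⟩, fun h => hne (congrArg Subtype.val h),
      Subtype.ext (a.trans (hF.trans a'.symm))⟩)
  rw [hΩ, card_vector, card_vector, Fintype.card_bool, ← hSA] at h1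
  -- 2 ^ t * |S| ≤ 2 * 2 ^ gap
  have h2 : 2 ^ t * S.card ≤ 2 * 2 ^ gap n := by
    have h3 : 2 ^ n * (2 ^ n - 1) ≤ 2 ^ n * 2 ^ n := Nat.mul_le_mul_left _ (Nat.sub_le _ _)
    have h4 : 2 * 2 ^ ell n t = 2 ^ n * 2 ^ n * 2 ^ t := by
      rw [← pow_succ', ← pow_add, ← pow_add]
      congr 1
      unfold ell
      omega
    have h5 : 2 * (2 ^ ell n t * S.card) ≤ 2 * (2 ^ n * 2 ^ n * 2 ^ gap n) :=
      Nat.mul_le_mul_left _ (h1.trans (Nat.mul_le_mul_right _ h3))
    rw [← mul_assoc, h4] at h5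
    have h6 : 2 ^ n * 2 ^ n * (2 ^ t * S.card) ≤ 2 ^ n * 2 ^ n * (2 * 2 ^ gap n) := by
      calc 2 ^ n * 2 ^ n * (2 ^ t * S.card) = 2 ^ n * 2 ^ n * 2 ^ t * S.card := by ring
        _ ≤ 2 * (2 ^ n * 2 ^ n * 2 ^ gap n) := h5
        _ = _ := by ring
    exact Nat.le_of_mul_le_mul_left h6 (by positivity)
  have h3 : {α | Coll (ofSeq α) n (ell n t)} ∩ cyl s ⊆ ⋃ u ∈ S, cyl u := by
    rintro α ⟨h4, h5⟩
    have hlen : s.length + gap n = tb (2 ^ n) := by rw [hs, tb_add_gap]
    have h6 : firstBits α (tb (2 ^ n)) ∈ exts s (gap n) := by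
      rw [exts_mem, hlen]
      exact ⟨prefix_of_cyl h5 (by omega), fb_length _ _⟩
    rw [mem_iUnion₂]
    refine ⟨firstBits α (tb (2 ^ n)), ?_, mem_cyl_fb _ _⟩
    rw [Finset.mem_filter, List.mem_toFinset]
    refine ⟨h6, coll_congr ?_ h4⟩
    intro v hv
    rw [orc_firstBits α (m := 2 ^ n) (by omega)]
  refine (measure_mono h3).trans ((coin_biUnion_le s (gap n) S ?_).trans ?_)
  · intro u hu
    exact List.mem_toFinset.1 (Finset.mem_filter.1 hu).1
  · rw [coin_cyl]
    have h7 : (S.card : ENNReal) ≤ 2 * 2⁻¹ ^ t * 2 ^ gap n := by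
      have h8 : ((2 : ENNReal) ^ t) * S.card ≤ 2 * 2 ^ gap n := by
        exact_mod_cast h2
      calc (S.card : ENNReal) = (2⁻¹ ^ t * 2 ^ t) * S.card := by
            rw [← mul_pow, ENNReal.inv_mul_cancel (by simp) (by simp), one_pow, one_mul]
        _ = 2⁻¹ ^ t * (2 ^ t * S.card) := by rw [mul_assoc]
        _ ≤ 2⁻¹ ^ t * (2 * 2 ^ gap n) := by gcongr
        _ = _ := by ring
    calc (S.card : ENNReal) * 2⁻¹ ^ (s.length + gap n)
        ≤ (2 * 2⁻¹ ^ t * 2 ^ gap n) * 2⁻¹ ^ (s.length + gap n) := by gcongr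
      _ = 2 * 2⁻¹ ^ t * (2 ^ gap n * 2⁻¹ ^ (s.length + gap n)) := by ring
      _ = 2 * 2⁻¹ ^ t * 2⁻¹ ^ s.length := by rw [half_pow_mul]

/-! ### Bad events -/

theorem cnt_le (Bad : ℕ → List Bool → Bool) {m : ℕ} {s : List Bool} (hs : s.length = tb m) :
    (cnt Bad m s : ENNReal) * 2⁻¹ ^ (s.length + gap m) ≤
      coin ({α | Bad m (firstBits α (tb (2 ^ m))) = true} ∩ cyl s) := by
  classical
  rw [← sum_cyl _ s (gap m)]
  have h1 : cnt Bad m s = ((exts s (gap m)).toFinset.filter fun u => Bad m u = true).card := by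
    unfold cnt
    rw [← List.toFinset_filter, List.toFinset_card_of_nodup ((exts_nodup _ _).filter _)]
  rw [h1]
  calc (((exts s (gap m)).toFinset.filter fun u => Bad m u = true).card : ENNReal) *
        2⁻¹ ^ (s.length + gap m)
      = ∑ _u ∈ (exts s (gap m)).toFinset.filter (fun u => Bad m u = true),
          (2⁻¹ : ENNReal) ^ (s.length + gap m) := by
        rw [Finset.sum_const, nsmul_eq_mul]
    _ ≤ ∑ u ∈ (exts s (gap m)).toFinset.filter (fun u => Bad m u = true),
          coin ({α | Bad m (firstBits α (tb (2 ^ m))) = true} ∩ cyl u) := by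
        refine Finset.sum_le_sum fun u hu => ?_
        rw [Finset.mem_filter, List.mem_toFinset, exts_mem] at hu
        obtain ⟨⟨-, h2⟩, h3⟩ := hu
        have h4 : cyl u ⊆ {α | Bad m (firstBits α (tb (2 ^ m))) = true} := by
          intro α hα
          rw [mem_cyl, h2, hs, tb_add_gap] at hα
          show Bad m (firstBits α (tb (2 ^ m))) = true
          rw [hα]; exact h3
        rw [Set.inter_eq_right.2 h4, coin_cyl, h2]
    _ ≤ _ := Finset.sum_le_sum_of_subset (Finset.filter_subset _ _)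

theorem two_half_le (Bad : ℕ → List Bool → Bool) (m k : ℕ) (s : List Bool) :
    2 * (2⁻¹ : ENNReal) ^ tv Bad m k s ≤
      2 * 2⁻¹ ^ (k + 1) + 32 * ((cnt Bad m s : ENNReal) * 2⁻¹ ^ gap m) := by
  rcases (tv_le Bad m k s).eq_or_lt with h | h
  · rw [h]
    exact le_self_add
  · have h1 := ((tv_spec Bad m k s).2 (by omega)).le
    refine le_add_left ?_
    have h2 : (2 : ENNReal) ^ gap m ≤ 16 * cnt Bad m s * 2 ^ tv Bad m k s := by
      exact_mod_cast h1
    set t := tv Bad m k s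
    calc 2 * (2⁻¹ : ENNReal) ^ t = 2 * 2⁻¹ ^ t * (2 ^ gap m * 2⁻¹ ^ gap m) := by
          rw [← mul_pow, ENNReal.mul_inv_cancel (by simp) (by simp), one_pow, mul_one]
      _ ≤ 2 * 2⁻¹ ^ t * ((16 * cnt Bad m s * 2 ^ t) * 2⁻¹ ^ gap m) := by gcongr
      _ = 32 * ((cnt Bad m s : ENNReal) * 2⁻¹ ^ gap m) * (2⁻¹ ^ t * 2 ^ t) := by ring
      _ = _ := by
          rw [← mul_pow, ENNReal.inv_mul_cancel (by simp) (by simp), one_pow, mul_one]

/-! ### Sizes -/

theorem four_mul_lt (n : ℕ) (hn : 5 ≤ n) : 4 * n < 2 ^ n := by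
  induction n, hn using Nat.le_induction with
  | base => norm_num
  | succ n hn ih => rw [pow_succ]; omega

theorem sixteen_le_st (k : ℕ) : 16 ≤ st (k + 1) := by
  have h0 : 1 ≤ st k := by
    have := lt_st k
    omega
  rw [st_succ]
  unfold big
  have h1 : 2 ^ 1 ≤ 2 ^ st k := Nat.pow_le_pow_right (by omega) h0
  have h2 : 2 ^ (2 ^ 1) ≤ 2 ^ 2 ^ st k := Nat.pow_le_pow_right (by omega) h1
  have h3 : 2 ^ 2 ^ (2 ^ 1) ≤ 2 ^ 2 ^ 2 ^ st k := Nat.pow_le_pow_right (by omega) h2
  exact le_trans (by norm_num) h3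

theorem len_ok (k t : ℕ) (ht : t ≤ k + 1) : st (k + 1) + ell (st (k + 1)) t < 2 ^ st (k + 1) := by
  have h1 := lt_st (k + 1)
  have h2 := four_mul_lt (st (k + 1)) (by have := sixteen_le_st k; omega)
  unfold ell
  omega

/-! ### One stage -/

/-- collision at stage `k + 1` -/
def CC (Bad : ℕ → List Bool → Bool) (k : ℕ) : Set (ℕ → Bool) :=
  {α | Coll (ofSeq α) (st (k + 1)) (lenR Bad k (ofSeq α))}

/-- bad event at stage `k` -/
def BB (Bad : ℕ → List Bool → Bool) (k : ℕ) : Set (ℕ → Bool) :=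
  {α | Bad (st k) (firstBits α (tb (2 ^ st k))) = true}

/-- no bad event at the stages `k0 ≤ j < k` -/
def UU (Bad : ℕ → List Bool → Bool) (k0 k : ℕ) : Set (ℕ → Bool) :=
  {α | ∀ j, k0 ≤ j → j < k → Bad (st j) (firstBits α (tb (2 ^ st j))) = false}

theorem measurableSet_BB (Bad : ℕ → List Bool → Bool) (k : ℕ) : MeasurableSet (BB Bad k) :=
  measurableSet_ev (fun u => Bad (st k) u = true) _

theorem measurableSet_UU (Bad : ℕ → List Bool → Bool) (k0 k : ℕ) :
    MeasurableSet (UU Bad k0 k) := by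
  have h : UU Bad k0 k = ⋂ j : ℕ, ⋂ _ : k0 ≤ j, ⋂ _ : j < k,
      {α | Bad (st j) (firstBits α (tb (2 ^ st j))) = false} := by
    ext α
    simp only [UU, mem_ofPred_eq, mem_iInter]
  rw [h]
  exact MeasurableSet.iInter fun j => MeasurableSet.iInter fun _ => MeasurableSet.iInter fun _ =>
    measurableSet_ev (fun u => Bad (st j) u = false) _

theorem coin_CC_cyl (hP : Plant1_stmt) (hT : Tab_stmt) (Bad : ℕ → List Bool → Bool) (k : ℕ)
    {s : List Bool} (hs : s.length = tb (st k)) :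
    coin (CC Bad k ∩ cyl s) ≤ 2 * (2⁻¹ : ENNReal) ^ tv Bad (st k) k s * coin (cyl s) := by
  have hlt : tb (st k) ≤ tb (st (k + 1)) := tb_mono (st_lt_succ k).le
  rw [← sum_cyl _ s (tb (st (k + 1)) - tb (st k))]
  have h1 : coin (cyl s) =
      ∑ u ∈ (exts s (tb (st (k + 1)) - tb (st k))).toFinset, coin (cyl u) := by
    have := sum_cyl univ s (tb (st (k + 1)) - tb (st k))
    simp only [univ_inter] at this
    exact this.symm
  rw [h1, Finset.mul_sum]
  refine Finset.sum_le_sum fun u hu => ?_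
  rw [List.mem_toFinset, exts_mem, hs] at hu
  obtain ⟨h2, h3⟩ := hu
  have h4 : CC Bad k ∩ cyl u ⊆
      {α | Coll (ofSeq α) (st (k + 1)) (ell (st (k + 1)) (tv Bad (st k) k s))} ∩ cyl u := by
    rintro α ⟨h5, h6⟩
    refine ⟨?_, h6⟩
    have h7 : firstBits α (tb (st k)) = s := by
      have := cyl_anti h2 h6
      rw [mem_cyl, hs] at this
      exact this
    have h8 : lenR Bad k (ofSeq α) = ell (st (k + 1)) (tv Bad (st k) k s) := by
      unfold lenR
      rw [tableR_ofSeq, h7]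
    have h9 : Coll (ofSeq α) (st (k + 1)) (lenR Bad k (ofSeq α)) := h5
    rw [h8] at h9
    exact h9
  refine (measure_mono h4).trans (coin_coll_le hP hT ?_ ?_ (by omega))
  · have := sixteen_le_st k
    omega
  · exact len_ok k _ (tv_le _ _ _ _)

theorem coin_stage (hP : Plant1_stmt) (hT : Tab_stmt) (Bad : ℕ → List Bool → Bool) (k0 k : ℕ) :
    coin (CC Bad k ∩ UU Bad k0 k) ≤
      2 * (2⁻¹ : ENNReal) ^ (k + 1) + 32 * coin (BB Bad k ∩ UU Bad k0 k) := by
  have huniv : coin (univ : Set (ℕ → Bool)) = 1 := measure_univ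
  have e1 : coin (CC Bad k ∩ UU Bad k0 k) =
      ∑ s ∈ (exts [] (tb (st k))).toFinset, coin (CC Bad k ∩ UU Bad k0 k ∩ cyl s) := by
    rw [sum_cyl, cyl_nil, inter_univ]
  have e2 : coin (BB Bad k ∩ UU Bad k0 k) =
      ∑ s ∈ (exts [] (tb (st k))).toFinset, coin (BB Bad k ∩ UU Bad k0 k ∩ cyl s) := by
    rw [sum_cyl, cyl_nil, inter_univ]
  have e3 : (1 : ENNReal) = ∑ s ∈ (exts [] (tb (st k))).toFinset, coin (cyl s) := by
    have := sum_cyl univ [] (tb (st k))
    simp only [univ_inter] at this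
    rw [this, cyl_nil, huniv]
  rw [e1, e2, ← mul_one (2 * (2⁻¹ : ENNReal) ^ (k + 1)), e3, Finset.mul_sum, Finset.mul_sum,
    ← Finset.sum_add_distrib]
  refine Finset.sum_le_sum fun s hs => ?_
  rw [List.mem_toFinset, exts_mem] at hs
  have hs' : s.length = tb (st k) := by
    have := hs.2
    simpa using this
  by_cases hU : ∀ j, k0 ≤ j → j < k → Bad (st j) (s.take (tb (2 ^ st j))) = false
  · have hsub : cyl s ⊆ UU Bad k0 k := by
      intro α hα j hj hjk
      rw [mem_cyl, hs'] at hα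
      have h1 : tb (2 ^ st j) ≤ tb (st k) := by
        refine (tb_two_pow_st_le j).trans (tb_mono ?_)
        exact st_strictMono.monotone hjk
      rw [← fb_take α h1, hα]
      exact hU j hj hjk
    have h1 : CC Bad k ∩ UU Bad k0 k ∩ cyl s = CC Bad k ∩ cyl s := by
      rw [Set.inter_assoc, Set.inter_eq_right.2 hsub]
    have h2 : BB Bad k ∩ UU Bad k0 k ∩ cyl s = BB Bad k ∩ cyl s := by
      rw [Set.inter_assoc, Set.inter_eq_right.2 hsub]
    rw [h1, h2]
    refine (coin_CC_cyl hP hT Bad k hs').trans ?_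
    calc 2 * (2⁻¹ : ENNReal) ^ tv Bad (st k) k s * coin (cyl s)
        ≤ (2 * 2⁻¹ ^ (k + 1) + 32 * ((cnt Bad (st k) s : ENNReal) * 2⁻¹ ^ gap (st k))) *
            coin (cyl s) := by
          gcongr
          exact two_half_le Bad (st k) k s
      _ = 2 * 2⁻¹ ^ (k + 1) * coin (cyl s) +
            32 * ((cnt Bad (st k) s : ENNReal) * 2⁻¹ ^ (s.length + gap (st k))) := by
          rw [coin_cyl, add_mul, pow_add (2⁻¹ : ENNReal) s.length (gap (st k))]
          ring
      _ ≤ _ := by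
          gcongr
          exact cnt_le Bad hs'
  · have h1 : CC Bad k ∩ UU Bad k0 k ∩ cyl s = ∅ := by
      rw [Set.eq_empty_iff_forall_notMem]
      rintro α ⟨⟨-, h2⟩, h3⟩
      apply hU
      intro j hj hjk
      rw [mem_cyl, hs'] at h3
      have h1 : tb (2 ^ st j) ≤ tb (st k) := by
        refine (tb_two_pow_st_le j).trans (tb_mono ?_)
        exact st_strictMono.monotone hjk
      rw [← h3, fb_take α h1]
      exact h2 j hj hjk
    rw [h1, measure_empty]
    exact zero_le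

end F1M

open F1M in
theorem f1 (hP : Plant1_stmt) (hT : Tab_stmt) : F1_stmt := by
  intro Bad k0
  let D : ℕ → Set (ℕ → Bool) := fun i => CC Bad (k0 + i) ∩ UU Bad k0 (k0 + i)
  let E : ℕ → Set (ℕ → Bool) := fun i => BB Bad (k0 + i) ∩ UU Bad k0 (k0 + i)
  have hE : ∑' i, coin (E i) ≤ 1 := by
    rw [← measure_iUnion]
    · exact prob_le_one
    · intro i j hij
      show Disjoint (E i) (E j)
      rw [Set.disjoint_left]
      rintro α ⟨h1, h2⟩ ⟨h3, h4⟩
      rcases Nat.lt_or_gt_of_ne hij with h | h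
      · have h5 := h4 (k0 + i) (by omega) (by omega)
        have h6 : Bad (st (k0 + i)) (firstBits α (tb (2 ^ st (k0 + i)))) = true := h1
        rw [h6] at h5
        exact absurd h5 (by simp)
      · have h5 := h2 (k0 + j) (by omega) (by omega)
        have h6 : Bad (st (k0 + j)) (firstBits α (tb (2 ^ st (k0 + j)))) = true := h3
        rw [h6] at h5
        exact absurd h5 (by simp)
    · intro i
      exact (measurableSet_BB _ _).inter (measurableSet_UU _ _ _)
  have hgeo : ∑' i : ℕ, 2 * (2⁻¹ : ENNReal) ^ (k0 + i + 1) ≤ 4 := by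
    calc ∑' i : ℕ, 2 * (2⁻¹ : ENNReal) ^ (k0 + i + 1) ≤ ∑' i : ℕ, 2 * (2⁻¹ : ENNReal) ^ i := by
          refine ENNReal.tsum_le_tsum fun i => ?_
          gcongr 2 * ?_
          refine pow_le_pow_right_of_le_one' ?_ (by omega)
          exact ENNReal.inv_le_one.2 (by norm_num)
      _ = 2 * ∑' i : ℕ, (2⁻¹ : ENNReal) ^ i := ENNReal.tsum_mul_left
      _ = 4 := by
          rw [ENNReal.tsum_geometric, ENNReal.one_sub_inv_two, inv_inv]
          norm_num
  have hD : ∑' i, coin (D i) ≠ ⊤ := by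
    have h1 : ∑' i, coin (D i) ≤ 4 + 32 * 1 := by
      calc ∑' i, coin (D i) ≤
            ∑' i : ℕ, (2 * (2⁻¹ : ENNReal) ^ (k0 + i + 1) + 32 * coin (E i)) :=
            ENNReal.tsum_le_tsum fun i => coin_stage hP hT Bad k0 (k0 + i)
        _ = ∑' i : ℕ, 2 * (2⁻¹ : ENNReal) ^ (k0 + i + 1) + 32 * ∑' i, coin (E i) := by
            rw [ENNReal.tsum_add]
            congr 1
            exact ENNReal.tsum_mul_left
        _ ≤ 4 + 32 * 1 := by gcongr
    exact ne_top_of_le_ne_top (by norm_num) h1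
  filter_upwards [ae_finite_setOfPred_mem hD] with α hfin hno
  obtain ⟨b, hb⟩ := hfin.bddAbove
  refine ⟨k0 + b + 1, fun k hk hcoll => ?_⟩
  have h1 : k - k0 ∈ {i | α ∈ D i} := by
    show α ∈ CC Bad (k0 + (k - k0)) ∩ UU Bad k0 (k0 + (k - k0))
    rw [show k0 + (k - k0) = k by omega]
    exact ⟨hcoll, fun j hj _ => hno j hj⟩
  have h2 := hb h1
  omega

end Pool.Agent.Lib.RO
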