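import Pool.Agent.Lib.RO.StageK
import Pool.Agent.Lib.RO.F1

/-!
# Project RO, module F1K: the Borel-Cantelli argument with the parameter `κ`
-/

set_option autoImplicit false

namespace Pool.Agent.Lib.RO

open Pool.Agent.PolyTime Pool.Agent.Lib.MP_d5150c_lc Pool.Agent.Lib.MP_f0c157_lc
open N487b59b3 N68a2faeb N793a5b8e MeasureTheory Set

namespace F1M

theorem tvK_le (κ : ℕ) (Bad : ℕ → List Bool → Bool) (n k : ℕ) (s : List Bool) :
    tvK κ Bad n k s ≤ k + 1 := by
  unfold tvK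
  refine (List.length_filter_le _ _).trans ?_
  simp

theorem tvK_lt (κ : ℕ) (Bad : ℕ → List Bool → Bool) (n k : ℕ) (s : List Bool)
    (ht : tvK κ Bad n k s ≤ k) :
    2 ^ gap n < cnt Bad n s * 2 ^ (tvK κ Bad n k s + (κ + 4)) := by
  have h := filter_range_anti (fun i => decide (cnt Bad n s * 2 ^ (i + (κ + 4)) ≤ 2 ^ gap n)) (by
    intro i j hij hj
    rw [decide_eq_true_iff] at hj ⊢
    refine le_trans (Nat.mul_le_mul_left _ ?_) hj
    exact Nat.pow_le_pow_right (by omega) (by omega)) (k + 1)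
  obtain ⟨h1, h2⟩ := h
  have h3 := h2 (by
    show tvK κ Bad n k s < k + 1
    omega)
  rw [decide_eq_false_iff_not, not_le] at h3
  exact h3

theorem two_half_leK (κ : ℕ) (Bad : ℕ → List Bool → Bool) (m k : ℕ) (s : List Bool) :
    2 * (2⁻¹ : ENNReal) ^ tvK κ Bad m k s ≤
      2 * 2⁻¹ ^ (k + 1) + 2 ^ (κ + 5) * ((cnt Bad m s : ENNReal) * 2⁻¹ ^ gap m) := by
  rcases (tvK_le κ Bad m k s).eq_or_lt with h | h
  · rw [h]
    exact le_self_add
  · have h1 := (tvK_lt κ Bad m k s (by omega)).le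
    refine le_add_left ?_
    have h2 : (2 : ENNReal) ^ gap m ≤ cnt Bad m s * 2 ^ (tvK κ Bad m k s + (κ + 4)) := by
      exact_mod_cast h1
    set t := tvK κ Bad m k s
    calc 2 * (2⁻¹ : ENNReal) ^ t = 2 * 2⁻¹ ^ t * (2 ^ gap m * 2⁻¹ ^ gap m) := by
          rw [← mul_pow, ENNReal.mul_inv_cancel (by simp) (by simp), one_pow, mul_one]
      _ ≤ 2 * 2⁻¹ ^ t * ((cnt Bad m s * 2 ^ (t + (κ + 4))) * 2⁻¹ ^ gap m) := by gcongr
      _ = 2 ^ (κ + 5) * ((cnt Bad m s : ENNReal) * 2⁻¹ ^ gap m) * (2⁻¹ ^ t * 2 ^ t) := by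
          rw [pow_add (2 : ENNReal) t (κ + 4), pow_succ (2 : ENNReal) (κ + 4)]
          ring
      _ = _ := by
          rw [← mul_pow, ENNReal.inv_mul_cancel (by simp) (by simp), one_pow, mul_one]

/-- collision at stage `k + 1` -/
def CCK (κ : ℕ) (Bad : ℕ → List Bool → Bool) (k : ℕ) : Set (ℕ → Bool) :=
  {α | Coll (ofSeq α) (st (k + 1)) (lenRK κ Bad k (ofSeq α))}

theorem coin_CCK_cyl (hP : Plant1_stmt) (hT : Tab_stmt) (κ : ℕ) (Bad : ℕ → List Bool → Bool)
    (k : ℕ) {s : List Bool} (hs : s.length = tb (st k)) :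
    coin (CCK κ Bad k ∩ cyl s) ≤
      2 * (2⁻¹ : ENNReal) ^ tvK κ Bad (st k) k s * coin (cyl s) := by
  have hlt : tb (st k) ≤ tb (st (k + 1)) := tb_mono (st_lt_succ k).le
  rw [← sum_cyl _ s (tb (st (k + 1)) - tb (st k))]
  have h1 : coin (cyl s) =
      ∑ u ∈ (exts s (tb (st (k + 1)) - tb (st k))).toFinset, coin (cyl u) := by
    have := sum_cyl univ s (tb (st (k + 1)) - tb (st k))
    simp only [univ_inter] at this
    exact this.symm
  rw [h1, Finset.mul_sum]
  refine Finset.sum_le_sum fun u hu => ?_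
  rw [List.mem_toFinset, exts_mem, hs] at hu
  obtain ⟨h2, h3⟩ := hu
  have h4 : CCK κ Bad k ∩ cyl u ⊆
      {α | Coll (ofSeq α) (st (k + 1)) (ell (st (k + 1)) (tvK κ Bad (st k) k s))} ∩ cyl u := by
    rintro α ⟨h5, h6⟩
    refine ⟨?_, h6⟩
    have h7 : firstBits α (tb (st k)) = s := by
      have := cyl_anti h2 h6
      rw [mem_cyl, hs] at this
      exact this
    have h8 : lenRK κ Bad k (ofSeq α) = ell (st (k + 1)) (tvK κ Bad (st k) k s) := by
      unfold lenRK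
      rw [tableR_ofSeq, h7]
    have h9 : Coll (ofSeq α) (st (k + 1)) (lenRK κ Bad k (ofSeq α)) := h5
    rw [h8] at h9
    exact h9
  refine (measure_mono h4).trans (coin_coll_le hP hT ?_ ?_ (by omega))
  · have := sixteen_le_st k
    omega
  · exact len_ok k _ (tvK_le _ _ _ _ _)

theorem coin_stageK (hP : Plant1_stmt) (hT : Tab_stmt) (κ : ℕ) (Bad : ℕ → List Bool → Bool)
    (k0 k : ℕ) :
    coin (CCK κ Bad k ∩ UU Bad k0 k) ≤
      2 * (2⁻¹ : ENNReal) ^ (k + 1) + 2 ^ (κ + 5) * coin (BB Bad k ∩ UU Bad k0 k) := by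
  have huniv : coin (univ : Set (ℕ → Bool)) = 1 := measure_univ
  have e1 : coin (CCK κ Bad k ∩ UU Bad k0 k) =
      ∑ s ∈ (exts [] (tb (st k))).toFinset, coin (CCK κ Bad k ∩ UU Bad k0 k ∩ cyl s) := by
    rw [sum_cyl, cyl_nil, inter_univ]
  have e2 : coin (BB Bad k ∩ UU Bad k0 k) =
      ∑ s ∈ (exts [] (tb (st k))).toFinset, coin (BB Bad k ∩ UU Bad k0 k ∩ cyl s) := by
    rw [sum_cyl, cyl_nil, inter_univ]
  have e3 : (1 : ENNReal) = ∑ s ∈ (exts [] (tb (st k))).toFinset, coin (cyl s) := by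
    have := sum_cyl univ [] (tb (st k))
    simp only [univ_inter] at this
    rw [this, cyl_nil, huniv]
  rw [e1, e2, ← mul_one (2 * (2⁻¹ : ENNReal) ^ (k + 1)), e3, Finset.mul_sum, Finset.mul_sum,
    ← Finset.sum_add_distrib]
  refine Finset.sum_le_sum fun s hs => ?_
  rw [List.mem_toFinset, exts_mem] at hs
  have hs' : s.length = tb (st k) := by
    have := hs.2
    simpa using this
  by_cases hU : ∀ j, k0 ≤ j → j < k → Bad (st j) (s.take (tb (2 ^ st j))) = false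
  · have hsub : cyl s ⊆ UU Bad k0 k := by
      intro α hα j hj hjk
      rw [mem_cyl, hs'] at hα
      have h1 : tb (2 ^ st j) ≤ tb (st k) := by
        refine (tb_two_pow_st_le j).trans (tb_mono ?_)
        exact st_strictMono.monotone hjk
      rw [← fb_take α h1, hα]
      exact hU j hj hjk
    have h1 : CCK κ Bad k ∩ UU Bad k0 k ∩ cyl s = CCK κ Bad k ∩ cyl s := by
      rw [Set.inter_assoc, Set.inter_eq_right.2 hsub]
    have h2 : BB Bad k ∩ UU Bad k0 k ∩ cyl s = BB Bad k ∩ cyl s := by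
      rw [Set.inter_assoc, Set.inter_eq_right.2 hsub]
    rw [h1, h2]
    refine (coin_CCK_cyl hP hT κ Bad k hs').trans ?_
    calc 2 * (2⁻¹ : ENNReal) ^ tvK κ Bad (st k) k s * coin (cyl s)
        ≤ (2 * 2⁻¹ ^ (k + 1) +
            2 ^ (κ + 5) * ((cnt Bad (st k) s : ENNReal) * 2⁻¹ ^ gap (st k))) * coin (cyl s) := by
          gcongr
          exact two_half_leK κ Bad (st k) k s
      _ = 2 * 2⁻¹ ^ (k + 1) * coin (cyl s) +
            2 ^ (κ + 5) * ((cnt Bad (st k) s : ENNReal) * 2⁻¹ ^ (s.length + gap (st k))) := by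
          rw [coin_cyl, add_mul, pow_add (2⁻¹ : ENNReal) s.length (gap (st k))]
          ring
      _ ≤ _ := by
          gcongr
          exact cnt_le Bad hs'
  · have h1 : CCK κ Bad k ∩ UU Bad k0 k ∩ cyl s = ∅ := by
      rw [Set.eq_empty_iff_forall_notMem]
      rintro α ⟨⟨-, h2⟩, h3⟩
      apply hU
      intro j hj hjk
      rw [mem_cyl, hs'] at h3
      have h1 : tb (2 ^ st j) ≤ tb (st k) := by
        refine (tb_two_pow_st_le j).trans (tb_mono ?_)
        exact st_strictMono.monotone hjk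
      rw [← h3, fb_take α h1]
      exact h2 j hj hjk
    rw [h1, measure_empty]
    exact zero_le

end F1M

open F1M in
theorem f1K (hP : Plant1_stmt) (hT : Tab_stmt) : F1K_stmt := by
  intro κ Bad k0
  let D : ℕ → Set (ℕ → Bool) := fun i => CCK κ Bad (k0 + i) ∩ UU Bad k0 (k0 + i)
  let E : ℕ → Set (ℕ → Bool) := fun i => BB Bad (k0 + i) ∩ UU Bad k0 (k0 + i)
  have hE : ∑' i, coin (E i) ≤ 1 := by
    rw [← measure_iUnion]
    · exact prob_le_one
    · intro i j hij
      show Disjoint (E i) (E j)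
      rw [Set.disjoint_left]
      rintro α ⟨h1, h2⟩ ⟨h3, h4⟩
      rcases Nat.lt_or_gt_of_ne hij with h | h
      · have h5 := h4 (k0 + i) (by omega) (by omega)
        have h6 : Bad (st (k0 + i)) (firstBits α (tb (2 ^ st (k0 + i)))) = true := h1
        rw [h6] at h5
        exact absurd h5 (by simp)
      · have h5 := h2 (k0 + j) (by omega) (by omega)
        have h6 : Bad (st (k0 + j)) (firstBits α (tb (2 ^ st (k0 + j)))) = true := h3
        rw [h6] at h5
        exact absurd h5 (by simp)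
    · intro i
      exact (measurableSet_BB _ _).inter (measurableSet_UU _ _ _)
  have hgeo : ∑' i : ℕ, 2 * (2⁻¹ : ENNReal) ^ (k0 + i + 1) ≤ 4 := by
    calc ∑' i : ℕ, 2 * (2⁻¹ : ENNReal) ^ (k0 + i + 1) ≤ ∑' i : ℕ, 2 * (2⁻¹ : ENNReal) ^ i := by
          refine ENNReal.tsum_le_tsum fun i => ?_
          gcongr 2 * ?_
          refine pow_le_pow_right_of_le_one' ?_ (by omega)
          exact ENNReal.inv_le_one.2 (by norm_num)
      _ = 2 * ∑' i : ℕ, (2⁻¹ : ENNReal) ^ i := ENNReal.tsum_mul_left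
      _ = 4 := by
          rw [ENNReal.tsum_geometric, ENNReal.one_sub_inv_two, inv_inv]
          norm_num
  have hD : ∑' i, coin (D i) ≠ ⊤ := by
    have h1 : ∑' i, coin (D i) ≤ 4 + 2 ^ (κ + 5) * 1 := by
      calc ∑' i, coin (D i) ≤
            ∑' i : ℕ, (2 * (2⁻¹ : ENNReal) ^ (k0 + i + 1) + 2 ^ (κ + 5) * coin (E i)) :=
            ENNReal.tsum_le_tsum fun i => coin_stageK hP hT κ Bad k0 (k0 + i)
        _ = ∑' i : ℕ, 2 * (2⁻¹ : ENNReal) ^ (k0 + i + 1) +
              2 ^ (κ + 5) * ∑' i, coin (E i) := by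
            rw [ENNReal.tsum_add]
            congr 1
            exact ENNReal.tsum_mul_left
        _ ≤ 4 + 2 ^ (κ + 5) * 1 := by gcongr
    refine ne_top_of_le_ne_top ?_ h1
    rw [mul_one]
    exact ENNReal.add_ne_top.2 ⟨by norm_num, ENNReal.pow_ne_top (by norm_num)⟩
  filter_upwards [ae_finite_setOfPred_mem hD] with α hfin hno
  obtain ⟨b, hb⟩ := hfin.bddAbove
  refine ⟨k0 + b + 1, fun k hk hcoll => ?_⟩
  have h1 : k - k0 ∈ {i | α ∈ D i} := by
    show α ∈ CCK κ Bad (k0 + (k - k0)) ∩ UU Bad k0 (k0 + (k - k0))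
    rw [show k0 + (k - k0) = k by omega]
    exact ⟨hcoll, fun j hj _ => hno j hj⟩
  have h2 := hb h1
  omega

end Pool.Agent.Lib.RO
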