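import Pool.Agent.Lib.RO.StageK

/-!
# Project RO, module F2K: a set without bad events is null (with the parameter `κ`)
-/

set_option autoImplicit false

namespace Pool.Agent.Lib.RO.H19

open Pool.Agent.PolyTime Pool.Agent.Lib.MP_d5150c_lc Pool.Agent.Lib.MP_f0c157_lc
open MeasureTheory Set

/-! ### The adaptive parameter -/

theorem tvK_le (κ : ℕ) (Bad : ℕ → List Bool → Bool) (n k : ℕ) (s : List Bool) :
    tvK κ Bad n k s ≤ k + 1 := by
  unfold tvK
  refine (List.length_filter_le _ _).trans ?_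
  simp

theorem tvK_spec (κ : ℕ) (Bad : ℕ → List Bool → Bool) (n k : ℕ) (s : List Bool) :
    (1 ≤ tvK κ Bad n k s → cnt Bad n s * 2 ^ (tvK κ Bad n k s + (κ + 3)) ≤ 2 ^ gap n) ∧
    (tvK κ Bad n k s ≤ k → 2 ^ gap n < cnt Bad n s * 2 ^ (tvK κ Bad n k s + (κ + 4))) := by
  have h := filter_range_anti (fun i => decide (cnt Bad n s * 2 ^ (i + (κ + 4)) ≤ 2 ^ gap n)) (by
    intro i j hij hj
    rw [decide_eq_true_iff] at hj ⊢
    refine le_trans (Nat.mul_le_mul_left _ ?_) hj
    exact Nat.pow_le_pow_right (by omega) (by omega)) (k + 1)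
  obtain ⟨h1, h2⟩ := h
  constructor
  · intro ht
    obtain ⟨t, ht'⟩ : ∃ t, tvK κ Bad n k s = t + 1 := ⟨tvK κ Bad n k s - 1, by omega⟩
    have h3 := h1 t (by
      show t < tvK κ Bad n k s
      omega)
    rw [decide_eq_true_iff] at h3
    rw [ht']
    have h4 : t + 1 + (κ + 3) = t + (κ + 4) := by ring
    rw [h4]
    exact h3
  · intro ht
    have h3 := h2 (by
      show tvK κ Bad n k s < k + 1
      omega)
    rw [decide_eq_false_iff_not, not_le] at h3
    exact h3

theorem lt_tvK {κ : ℕ} {Bad : ℕ → List Bool → Bool} {n k i : ℕ} {s : List Bool} (hi : i ≤ k)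
    (h : cnt Bad n s * 2 ^ (i + (κ + 4)) ≤ 2 ^ gap n) : i + 1 ≤ tvK κ Bad n k s := by
  by_contra hcon
  have h1 := (tvK_spec κ Bad n k s).2 (by omega)
  have h2 : 2 ^ (tvK κ Bad n k s + (κ + 4)) ≤ 2 ^ (i + (κ + 4)) :=
    Nat.pow_le_pow_right (by omega) (by omega)
  have h3 := Nat.mul_le_mul_left (cnt Bad n s) h2
  omega

/-! ### Density -/

/-- `X` has relative measure more than `M / (M + 1)` in the cylinder `cyl σ` -/
def DenseM (M : ℕ) (X : Set (ℕ → Bool)) (σ : List Bool) : Prop :=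
  (M : ENNReal) * coin (cyl σ) < ((M + 1 : ℕ) : ENNReal) * coin (X ∩ cyl σ)

/-- A set of positive outer measure has relative measure more than `M / (M + 1)` in some
cylinder. -/
theorem exists_denseM {M : ℕ} (hM : 1 ≤ M) {X : Set (ℕ → Bool)} (hX : coin X ≠ 0) :
    ∃ σ, DenseM M X σ := by
  classical
  unfold DenseM
  have hM0 : (M : ENNReal) ≠ 0 := by
    have : M ≠ 0 := by omega
    exact_mod_cast this
  have hMt : (M : ENNReal) ≠ ⊤ := ENNReal.natCast_ne_top M
  have hXt : coin X ≠ ⊤ := measure_ne_top _ _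
  have hlt : coin X < (((M + 1 : ℕ) : ENNReal) / M) * coin X := by
    have h2 : (1 : ENNReal) < ((M + 1 : ℕ) : ENNReal) / M := by
      rw [ENNReal.lt_div_iff_mul_lt (Or.inl hM0) (Or.inl hMt), one_mul]
      exact_mod_cast Nat.lt_succ_self M
    calc coin X = 1 * coin X := (one_mul _).symm
      _ < (((M + 1 : ℕ) : ENNReal) / M) * coin X := (ENNReal.mul_lt_mul_iff_left hX hXt).2 h2
  obtain ⟨O, hXO, hO, hOlt⟩ := X.exists_isOpen_lt_of_lt _ hlt
  have hOlt' : (M : ENNReal) * coin O < ((M + 1 : ℕ) : ENNReal) * coin X := by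
    have h3 : (M : ENNReal) * ((((M + 1 : ℕ) : ENNReal) / M) * coin X)
        = ((M + 1 : ℕ) : ENNReal) * coin X := by
      rw [← mul_assoc, ENNReal.mul_div_cancel hM0 hMt]
    rw [← h3]
    exact (ENNReal.mul_lt_mul_iff_right hM0 hMt).2 hOlt
  let F : ℕ → Finset (List Bool) := fun n => (exts [] n).toFinset.filter fun u => cyl u ⊆ O
  have hF : ∀ n u, u ∈ F n ↔ u.length = n ∧ cyl u ⊆ O := by
    intro n u
    simp only [F, Finset.mem_filter, List.mem_toFinset, exts_mem, List.nil_prefix, true_and,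
      List.length_nil, zero_add]
  let On : ℕ → Set (ℕ → Bool) := fun n => ⋃ u ∈ F n, cyl u
  have hOn : ∀ n α, α ∈ On n ↔ cyl (firstBits α n) ⊆ O := by
    intro n α
    simp only [On, mem_iUnion, exists_prop]
    constructor
    · rintro ⟨u, hu, hα⟩
      obtain ⟨h1, h2⟩ := (hF n u).1 hu
      rw [mem_cyl, h1] at hα
      rw [hα]; exact h2
    · intro h
      exact ⟨firstBits α n, (hF n _).2 ⟨fb_length _ _, h⟩, mem_cyl_fb _ _⟩
  have hmono : Monotone On := by
    intro m n hmn α hα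
    rw [hOn] at hα ⊢
    refine (cyl_anti ?_).trans hα
    rw [← fb_take α hmn]
    exact List.take_prefix _ _
  have hOnO : ∀ n, On n ⊆ O := fun n α hα => (hOn n α).1 hα (mem_cyl_fb α n)
  have hcup : ⋃ n, X ∩ On n = X := by
    ext α
    simp only [mem_iUnion, mem_inter_iff]
    constructor
    · rintro ⟨n, h, _⟩; exact h
    · intro h
      obtain ⟨n, hn⟩ := exists_cyl_subset hO (hXO h)
      exact ⟨n, h, (hOn n α).2 (hn n le_rfl)⟩
  have hsup : coin X = ⨆ n, coin (X ∩ On n) := by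
    conv_lhs => rw [← hcup]
    exact Monotone.measure_iUnion fun m n hmn => inter_subset_inter_right _ (hmono hmn)
  obtain ⟨n, hn⟩ : ∃ n, (M : ENNReal) * coin O < ((M + 1 : ℕ) : ENNReal) * coin (X ∩ On n) := by
    by_contra hcon
    push Not at hcon
    have : ((M + 1 : ℕ) : ENNReal) * coin X ≤ M * coin O := by
      rw [hsup, ENNReal.mul_iSup]
      exact iSup_le hcon
    exact absurd hOlt' (not_lt.2 this)
  by_contra hcon
  push Not at hcon
  have h1 : ((M + 1 : ℕ) : ENNReal) * coin (X ∩ On n) ≤ M * coin (On n) := by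
    have h2 : X ∩ On n ⊆ ⋃ u ∈ F n, X ∩ cyl u := by
      rintro α ⟨ha, hb⟩
      simp only [On, mem_iUnion, exists_prop] at hb
      obtain ⟨u, hu, hb⟩ := hb
      simp only [mem_iUnion, exists_prop]
      exact ⟨u, hu, ha, hb⟩
    have h3 : coin (On n) = ∑ u ∈ F n, coin (cyl u) := by
      refine measure_biUnion_finset ?_ fun u _ => measurableSet_cyl u
      intro u hu v hv huv
      have hu' := ((hF n u).1 hu).1
      have hv' := ((hF n v).1 hv).1
      show Disjoint (cyl u) (cyl v)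
      rw [Set.disjoint_left]
      intro α h4 h5
      rw [mem_cyl] at h4 h5
      apply huv
      rw [← h4, ← h5, hu', hv']
    calc ((M + 1 : ℕ) : ENNReal) * coin (X ∩ On n)
        ≤ ((M + 1 : ℕ) : ENNReal) * ∑ u ∈ F n, coin (X ∩ cyl u) := by
          gcongr
          exact (measure_mono h2).trans (measure_biUnion_finset_le _ _)
      _ = ∑ u ∈ F n, ((M + 1 : ℕ) : ENNReal) * coin (X ∩ cyl u) := by rw [Finset.mul_sum]
      _ ≤ ∑ u ∈ F n, (M : ENNReal) * coin (cyl u) := Finset.sum_le_sum fun u _ => hcon u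
      _ = M * coin (On n) := by rw [h3, Finset.mul_sum]
  have h4 : coin (On n) ≤ coin O := measure_mono (hOnO n)
  exact absurd (hn.trans_le (h1.trans (mul_le_mul_right h4 (M : ENNReal)))) (lt_irrefl _)

/-- A cylinder in which the set is dense has extensions of any length with the same property. -/
theorem DenseM.ext {M : ℕ} {X : Set (ℕ → Bool)} {σ : List Bool} (h : DenseM M X σ) (j : ℕ) :
    ∃ u ∈ exts σ j, DenseM M X u := by
  classical
  by_contra hcon
  push Not at hcon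
  have h1 : X ∩ cyl σ ⊆ ⋃ u ∈ (exts σ j).toFinset, X ∩ cyl u := by
    rintro α ⟨ha, hb⟩
    rw [cyl_eq_exts σ j] at hb
    simp only [mem_iUnion, exists_prop] at hb ⊢
    obtain ⟨u, hu, hb⟩ := hb
    exact ⟨u, hu, ha, hb⟩
  have h2 : ((M + 1 : ℕ) : ENNReal) * coin (X ∩ cyl σ) ≤ M * coin (cyl σ) := by
    calc ((M + 1 : ℕ) : ENNReal) * coin (X ∩ cyl σ)
        ≤ ((M + 1 : ℕ) : ENNReal) * ∑ u ∈ (exts σ j).toFinset, coin (X ∩ cyl u) := by
          gcongr
          exact (measure_mono h1).trans (measure_biUnion_finset_le _ _)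
      _ = ∑ u ∈ (exts σ j).toFinset, ((M + 1 : ℕ) : ENNReal) * coin (X ∩ cyl u) := by
          rw [Finset.mul_sum]
      _ ≤ ∑ u ∈ (exts σ j).toFinset, (M : ENNReal) * (2⁻¹ : ENNReal) ^ (σ.length + j) := by
          refine Finset.sum_le_sum fun u hu => ?_
          have hu' := List.mem_toFinset.1 hu
          have h3 := not_lt.1 (hcon u hu')
          rw [coin_cyl, (exts_mem.1 hu').2] at h3
          exact h3
      _ = M * coin (cyl σ) := by
          rw [Finset.sum_const, List.toFinset_card_of_nodup (exts_nodup σ j), exts_length,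
            nsmul_eq_mul, coin_cyl, ← half_pow_mul σ.length j]
          push_cast
          ring
  exact absurd h (not_lt.2 h2)

/-- Most extensions of a cylinder in which `X` is dense meet `X`. -/
theorem DenseM.card {M : ℕ} {X : Set (ℕ → Bool)} {σ : List Bool} (h : DenseM M X σ) (j : ℕ)
    (H : Finset (List Bool)) (hH : ∀ u ∈ exts σ j, (X ∩ cyl u).Nonempty → u ∈ H)
    (hH' : ∀ u ∈ H, u ∈ exts σ j) : M * 2 ^ j < (M + 1) * H.card := by
  classical
  have h1 : X ∩ cyl σ ⊆ ⋃ u ∈ H, cyl u := by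
    rintro α ⟨ha, hb⟩
    rw [cyl_eq_exts σ j] at hb
    simp only [mem_iUnion, exists_prop, List.mem_toFinset] at hb ⊢
    obtain ⟨u, hu, hb⟩ := hb
    exact ⟨u, hH u hu ⟨α, ha, hb⟩, hb⟩
  have h2 := (measure_mono h1).trans (coin_biUnion_le σ j H hH')
  have h3 : (M : ENNReal) * coin (cyl σ)
      < ((M + 1 : ℕ) : ENNReal) * (H.card * (2⁻¹ : ENNReal) ^ (σ.length + j)) := by
    refine lt_of_lt_of_le h ?_
    gcongr
  rw [coin_cyl, ← half_pow_mul σ.length j, ← mul_assoc, ← mul_assoc] at h3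
  have h4 := (ENNReal.mul_lt_mul_iff_left (half_pow_ne_zero (σ.length + j))
    (half_pow_ne_top _)).1 h3
  exact_mod_cast h4

/-! ### One step -/

theorem f2K_step {κ : ℕ} {Bad : ℕ → List Bool → Bool} {S : Set (ℕ → Bool)} {k0 : ℕ}
    (hBad : ∀ k ≥ k0, ∀ α ∈ S, Bad (st k) (firstBits α (tb (2 ^ st k))) = false)
    (hkey : ∀ k ≥ k0, ∀ s : List Bool, s.length = tb (st (k + 1)) →
      ∀ t, t = tvK κ Bad (st k) k (s.take (tb (st k))) → κ + 1 ≤ t → t ≤ k + 1 →
      ∀ H : Finset (List Bool), (∀ u ∈ H, u ∈ exts s (gap (st (k + 1))) ∧ (S ∩ cyl u).Nonempty) →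
        (2 ^ (2 * κ + 6) - 1) * 2 ^ gap (st (k + 1)) ≤ 2 ^ (2 * κ + 6) * H.card →
        2 ^ gap (st (k + 1)) ≤ 2 ^ (κ + 2) * 2 ^ t * cnt Bad (st (k + 1)) s)
    {j : ℕ} (hj : k0 ≤ j) (hκ : κ ≤ j) {s : List Bool} (hs : s.length = tb (st j))
    (hd : DenseM (2 ^ (2 * κ + 6) - 1) S s) :
    2 ^ (2 * κ + 6) * cnt Bad (st j) s < 2 ^ gap (st j) ∧
      ∃ s' : List Bool, s'.length = tb (st (j + 1)) ∧ DenseM (2 ^ (2 * κ + 6) - 1) S s' ∧
        2 ^ gap (st (j + 1)) ≤
          2 ^ (κ + 2) * 2 ^ tvK κ Bad (st j) j s * cnt Bad (st (j + 1)) s' := by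
  classical
  have hN : 1 ≤ 2 ^ (2 * κ + 6) := Nat.one_le_two_pow
  have hN' : 2 ^ (2 * κ + 6) - 1 + 1 = 2 ^ (2 * κ + 6) := Nat.sub_add_cancel hN
  have h1 : 2 ^ (2 * κ + 6) * cnt Bad (st j) s < 2 ^ gap (st j) := by
    let H : Finset (List Bool) := (exts s (gap (st j))).toFinset.filter
      fun u => (S ∩ cyl u).Nonempty
    let B : Finset (List Bool) := (exts s (gap (st j))).toFinset.filter
      fun u => Bad (st j) u = true
    have hH : (2 ^ (2 * κ + 6) - 1) * 2 ^ gap (st j) < 2 ^ (2 * κ + 6) * H.card := by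
      have h0 : (2 ^ (2 * κ + 6) - 1) * 2 ^ gap (st j) < (2 ^ (2 * κ + 6) - 1 + 1) * H.card := by
        refine hd.card _ H ?_ ?_
        · intro u hu h
          exact Finset.mem_filter.2 ⟨List.mem_toFinset.2 hu, h⟩
        · intro u hu
          exact List.mem_toFinset.1 (Finset.mem_filter.1 hu).1
      rwa [hN'] at h0
    have hB : B.card = cnt Bad (st j) s := by
      have h2 : B = ((exts s (gap (st j))).filter (Bad (st j))).toFinset := by
        ext u
        simp [B, List.mem_toFinset]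
      rw [h2, List.toFinset_card_of_nodup ((exts_nodup _ _).filter _)]
      rfl
    have hdis : Disjoint H B := by
      rw [Finset.disjoint_left]
      intro u hu hu'
      obtain ⟨h2, α, hα, hα'⟩ := Finset.mem_filter.1 hu
      have h3 := (Finset.mem_filter.1 hu').2
      have h4 := hBad j hj α hα
      rw [mem_cyl, mem_exts_length hs (List.mem_toFinset.1 h2)] at hα'
      rw [hα', h3] at h4
      exact absurd h4 (by simp)
    have hsum : H.card + B.card ≤ 2 ^ gap (st j) := by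
      rw [← Finset.card_union_of_disjoint hdis]
      have h2 : (exts s (gap (st j))).toFinset.card = 2 ^ gap (st j) := by
        rw [List.toFinset_card_of_nodup (exts_nodup _ _), exts_length]
      rw [← h2]
      refine Finset.card_le_card ?_
      exact Finset.union_subset (Finset.filter_subset _ _) (Finset.filter_subset _ _)
    rw [hB] at hsum
    have h5 := Nat.mul_le_mul_left (2 ^ (2 * κ + 6)) hsum
    rw [Nat.mul_add] at h5
    have h6 : (2 ^ (2 * κ + 6) - 1) * 2 ^ gap (st j) + 2 ^ gap (st j)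
        = 2 ^ (2 * κ + 6) * 2 ^ gap (st j) := by
      rw [← Nat.succ_mul, Nat.succ_eq_add_one, hN']
    omega
  refine ⟨h1, ?_⟩
  have hle : tb (st j) ≤ tb (st (j + 1)) := tb_mono (st_lt_succ j).le
  obtain ⟨s', hs', hd'⟩ := hd.ext (tb (st (j + 1)) - tb (st j))
  obtain ⟨hp, hl⟩ := exts_mem.1 hs'
  have hl' : s'.length = tb (st (j + 1)) := by rw [hl, hs]; omega
  have htake : s'.take (tb (st j)) = s := by
    have := List.prefix_iff_eq_take.1 hp
    rw [hs] at this
    exact this.symm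
  refine ⟨s', hl', hd', ?_⟩
  refine hkey j hj s' hl' _ (by rw [htake]) ?_ (tvK_le _ _ _ _ _)
    ((exts s' (gap (st (j + 1)))).toFinset.filter fun u => (S ∩ cyl u).Nonempty) ?_ ?_
  · refine lt_tvK hκ ?_
    have h2 : 2 ^ (κ + (κ + 4)) ≤ 2 ^ (2 * κ + 6) := Nat.pow_le_pow_right (by omega) (by omega)
    have h3 := Nat.mul_le_mul_left (cnt Bad (st j) s) h2
    rw [mul_comm (cnt Bad (st j) s) (2 ^ (2 * κ + 6))] at h3
    omega
  · intro u hu
    obtain ⟨h2, h3⟩ := Finset.mem_filter.1 hu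
    exact ⟨List.mem_toFinset.1 h2, h3⟩
  · have h0 := hd'.card (gap (st (j + 1)))
      ((exts s' (gap (st (j + 1)))).toFinset.filter fun u => (S ∩ cyl u).Nonempty)
      (fun u hu h => Finset.mem_filter.2 ⟨List.mem_toFinset.2 hu, h⟩)
      (fun u hu => List.mem_toFinset.1 (Finset.mem_filter.1 hu).1)
    rw [hN'] at h0
    exact h0.le

end Pool.Agent.Lib.RO.H19

namespace Pool.Agent.Lib.RO

open Pool.Agent.PolyTime Pool.Agent.Lib.MP_d5150c_lc Pool.Agent.Lib.MP_f0c157_lc
open MeasureTheory Set H19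

theorem f2K : F2K_stmt := by
  intro κ Bad S k0 hBad hkey
  by_contra hne
  have hN : 1 ≤ 2 ^ (2 * κ + 6) - 1 := by
    have : 2 ^ 6 ≤ 2 ^ (2 * κ + 6) := Nat.pow_le_pow_right (by omega) (by omega)
    omega
  obtain ⟨σ, hσ⟩ := exists_denseM hN hne
  -- a dense table at a late stage
  obtain ⟨k, hk0, hkκ, hk⟩ : ∃ k, k0 ≤ k ∧ κ ≤ k ∧ σ.length ≤ tb (st k) := by
    refine ⟨max (max k0 κ) σ.length, (le_max_left _ _).trans (le_max_left _ _),
      (le_max_right _ _).trans (le_max_left _ _), ?_⟩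
    exact ((le_max_right (max k0 κ) σ.length).trans (lt_st _).le).trans (lt_tb _)
  obtain ⟨s0, hs0, hd0⟩ := hσ.ext (tb (st k) - σ.length)
  have hl0 : s0.length = tb (st k) := by
    rw [(exts_mem.1 hs0).2]; omega
  -- the densities of the bad events double
  have key : ∀ i, ∃ s : List Bool, s.length = tb (st (k + i + 1)) ∧
      DenseM (2 ^ (2 * κ + 6) - 1) S s ∧
      2 ^ i * 2 ^ gap (st (k + i + 1)) ≤ 2 ^ (κ + k + 3) * cnt Bad (st (k + i + 1)) s := by
    intro i
    induction i with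
    | zero =>
      obtain ⟨_, s', h2, h3, h4⟩ := f2K_step hBad hkey hk0 hkκ hl0 hd0
      refine ⟨s', h2, h3, ?_⟩
      rw [pow_zero, one_mul]
      refine h4.trans ?_
      refine Nat.mul_le_mul_right _ ?_
      have h5 := tvK_le κ Bad (st k) k s0
      calc 2 ^ (κ + 2) * 2 ^ tvK κ Bad (st k) k s0 ≤ 2 ^ (κ + 2) * 2 ^ (k + 1) :=
            Nat.mul_le_mul_left _ (Nat.pow_le_pow_right (by omega) h5)
        _ = 2 ^ (κ + k + 3) := by rw [← pow_add]; congr 1; ring
    | succ i ih =>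
      obtain ⟨s, hs, hd, hc⟩ := ih
      obtain ⟨h1, s', h2, h3, h4⟩ := f2K_step hBad hkey (j := k + i + 1) (by omega) (by omega)
        hs hd
      refine ⟨s', h2, h3, ?_⟩
      have ht : 1 ≤ tvK κ Bad (st (k + i + 1)) (k + i + 1) s := by
        refine le_trans (by omega) (lt_tvK (i := 0) (by omega) ?_)
        have h2 : 2 ^ (0 + (κ + 4)) ≤ 2 ^ (2 * κ + 6) := Nat.pow_le_pow_right (by omega) (by omega)
        have h3 := Nat.mul_le_mul_left (cnt Bad (st (k + i + 1)) s) h2
        rw [mul_comm (cnt Bad (st (k + i + 1)) s) (2 ^ (2 * κ + 6))] at h3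
        omega
      have h5 := (tvK_spec κ Bad (st (k + i + 1)) (k + i + 1) s).1 ht
      set t := tvK κ Bad (st (k + i + 1)) (k + i + 1) s
      set c := cnt Bad (st (k + i + 1)) s
      set G := 2 ^ gap (st (k + i + 1))
      have hG : 0 < G := by positivity
      have hc0 : 0 < c := by
        rcases Nat.eq_zero_or_pos c with h0 | h0
        · rw [h0, mul_zero] at hc
          have : 0 < 2 ^ i * G := by positivity
          omega
        · exact h0
      have h6 : 2 ^ i * 2 ^ (t + (κ + 3)) ≤ 2 ^ (κ + k + 3) := by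
        refine Nat.le_of_mul_le_mul_right (c := c) ?_ hc0
        calc 2 ^ i * 2 ^ (t + (κ + 3)) * c = 2 ^ i * (c * 2 ^ (t + (κ + 3))) := by ring
          _ ≤ 2 ^ i * G := Nat.mul_le_mul_left _ h5
          _ ≤ _ := hc
      have h7 : k + (i + 1) + 1 = k + i + 1 + 1 := by ring
      rw [h7]
      calc 2 ^ (i + 1) * 2 ^ gap (st (k + i + 1 + 1))
          ≤ 2 ^ (i + 1) * (2 ^ (κ + 2) * 2 ^ t * cnt Bad (st (k + i + 1 + 1)) s') :=
            Nat.mul_le_mul_left _ h4
        _ = (2 ^ i * 2 ^ (t + (κ + 3))) * cnt Bad (st (k + i + 1 + 1)) s' := by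
            have e1 : t + (κ + 3) = (κ + 2) + t + 1 := by ring
            rw [e1, pow_succ 2 i, pow_succ 2 ((κ + 2) + t), pow_add 2 (κ + 2) t]
            ring
        _ ≤ _ := Nat.mul_le_mul_right _ h6
  obtain ⟨s, hs, hd, hc⟩ := key (κ + k + 3)
  obtain ⟨h1, _⟩ := f2K_step hBad hkey (j := k + (κ + k + 3) + 1) (by omega) (by omega) hs hd
  have h2 := Nat.le_of_mul_le_mul_left hc (by positivity)
  have h3 : 1 ≤ 2 ^ (2 * κ + 6) := Nat.one_le_two_pow
  have h4 := Nat.mul_le_mul_right (cnt Bad (st (k + (κ + k + 3) + 1)) s) h3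
  omega

end Pool.Agent.Lib.RO
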