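import Pool.Agent.Lib.RO.Basic

/-!
# Project RO, module GPS: the proof system with short proofs of the translated statements
-/

set_option autoImplicit false

namespace Pool.Agent.Lib.RO

open Pool.Agent.PolyTime Pool.Agent.Lib.MP_d5150c_lc Pool.Agent.Lib.MP_f0c157_lc
open N487b59b3 N68a2faeb N793a5b8e MeasureTheory

/-! ### The strings in their enumeration -/

theorem gps_iter_length (i : ℕ) : (inc^[i] ([] : List Bool)).length ≤ i := by
  induction i with
  | zero => exact le_refl 0
  | succ i ih =>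
    rw [Function.iterate_succ_apply']
    exact (inc_length _).trans (by omega)

theorem gps_poly_word : PolyFn (fun i : ℕ => inc^[i] ([] : List Bool)) := by
  refine PolyFn.iterate (γ := ℕ) (step := fun _ l => inc l) (init := fun _ => [])
    (cnt := fun n => n) (poly_inc PolyFn.snd) (PolyFn.const []) PolyFn.id
    ⟨fun m => 4 * m + 1, ((PB.const 4).mul PB.id).add (PB.const 1), ?_⟩
  intro c i hi
  have h1 := Pool.Agent.Lib.MP_f0c157_lc.size_bits_le (inc^[i] ([] : List Bool))
  have h2 := gps_iter_length i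
  have h3 : size c = 2 * c + 1 := size_nat c
  beta_reduce
  have h4 : (fun l => inc l)^[i] ([] : List Bool) = inc^[i] [] := rfl
  rw [h4]
  omega

/-! ### The table of the strings shorter than the length of a stage -/

/-- the queries for the table of the stage before the length `N` -/
def gpsQs (stg : ℕ → Option (ℕ × ℕ)) (N : ℕ) : List (List Bool) :=
  match stg N with
  | some q => (List.range (cpow (N + 1) 2 q.2 - 1)).map fun i => inc^[i] []
  | none => []

theorem gps_poly_qs {stg : ℕ → Option (ℕ × ℕ)} (hs : PolyFn stg) : PolyFn (gpsQs stg) := by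
  refine PolyFn.optionCase (l := stg) (f := fun _ => ([] : List (List Bool)))
    (g := fun N q => (List.range (cpow (N + 1) 2 q.2 - 1)).map fun i => inc^[i] []) hs
    (PolyFn.const []) ?_ ?_ ?_
  · exact PolyFn.map (f := fun (_ : ℕ × ℕ × ℕ) (i : ℕ) => inc^[i] ([] : List Bool))
      (gps_poly_word.comp PolyFn.snd)
      (PolyFn.range (PolyFn.pred (poly_cpow (PolyFn.succ PolyFn.fst) (PolyFn.const 2)
        (PolyFn.snd.comp PolyFn.snd))))
  · intro N h
    simp [gpsQs, h]
  · intro N q h
    simp [gpsQs, h]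

theorem gps_qs_map {stg : ℕ → Option (ℕ × ℕ)} {N k : ℕ} (h : stg N = some (k, st k))
    (hN : N = st (k + 1)) (R : List Bool → Bool) : (gpsQs stg N).map R = tableR R (st k) := by
  have h1 := two_pow_st_lt k
  have h2 : cpow (N + 1) 2 (st k) = 2 ^ st k := by
    rw [cpow_eq]
    exact min_eq_left (by omega)
  unfold gpsQs tableR tb
  rw [h]
  simp only [h2, List.map_map]
  rfl

/-- the adaptive parameter, as a function of the length and of the table -/
def gpsTau (Bad : ℕ → List Bool → Bool) (stg : ℕ → Option (ℕ × ℕ)) (q : ℕ × List Bool) : ℕ :=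
  match stg q.1 with
  | some p => if big p.2 ≤ q.1 then tv Bad p.2 p.1 q.2 else 0
  | none => 0

theorem gps_poly_tau (hT : PolyTv_stmt) {Bad : ℕ → List Bool → Bool}
    (hB : PolyFn (fun q : ℕ × List Bool => Bad q.1 q.2)) {stg : ℕ → Option (ℕ × ℕ)}
    (hs : PolyFn stg) : PolyFn (gpsTau Bad stg) := by
  refine PolyFn.optionCase (l := fun q : ℕ × List Bool => stg q.1) (f := fun _ => 0)
    (g := fun q p => if big p.2 ≤ q.1 then tv Bad p.2 p.1 q.2 else 0) (hs.comp PolyFn.fst)
    (PolyFn.const 0) ?_ ?_ ?_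
  · have h := hT Bad hB
    have h1 : PolyFn (fun p : (ℕ × List Bool) × ℕ × ℕ => (p.1.1, p.2.2, p.2.1, p.1.2)) :=
      (PolyFn.fst.comp PolyFn.fst).pair ((PolyFn.snd.comp PolyFn.snd).pair
        ((PolyFn.fst.comp PolyFn.snd).pair (PolyFn.snd.comp PolyFn.fst)))
    exact h.comp h1
  · intro q h
    simp [gpsTau, h]
  · intro q p h
    simp [gpsTau, h]

theorem gps_tau_eq {Bad : ℕ → List Bool → Bool} {stg : ℕ → Option (ℕ × ℕ)} {N k : ℕ}
    (h : stg N = some (k, st k)) (hN : N = st (k + 1)) (s : List Bool) :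
    gpsTau Bad stg (N, s) = tv Bad (st k) k s := by
  unfold gpsTau
  rw [h]
  have h1 : big (st k) ≤ N := le_of_eq (by rw [hN]; rfl)
  simp only [h1, if_true]

/-! ### The input given to the translation -/

/-- the input of the translation, as a function of a string of the length of a stage and of the
table -/
def gpsIn (Bad : ℕ → List Bool → Bool) (stg : ℕ → Option (ℕ × ℕ)) (q : List Bool × List Bool) :
    List Bool :=
  inp q.1.length (List.replicate (ell q.1.length (gpsTau Bad stg (q.1.length, q.2))) true)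

theorem gps_poly_in (hT : PolyTv_stmt) {Bad : ℕ → List Bool → Bool}
    (hB : PolyFn (fun q : ℕ × List Bool => Bad q.1 q.2)) {stg : ℕ → Option (ℕ × ℕ)}
    (hs : PolyFn stg) : PolyFn (gpsIn Bad stg) := by
  have hl : PolyFn (fun q : List Bool × List Bool => q.1.length) := PolyFn.length PolyFn.fst
  have ht : PolyFn (fun q : List Bool × List Bool => gpsTau Bad stg (q.1.length, q.2)) :=
    (gps_poly_tau hT hB hs).comp (hl.pair PolyFn.snd)
  have he : PolyFn (fun q : List Bool × List Bool =>
      ell q.1.length (gpsTau Bad stg (q.1.length, q.2))) :=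
    PolyFn.add (PolyFn.pred (PolyFn.mul (PolyFn.const 2) hl)) ht
  exact PolyFn.append (PolyFn.replicate hl (PolyFn.const true))
    (PolyFn.cons (PolyFn.const false) (PolyFn.replicate he (PolyFn.const true)))

/-- the value of the new proof system at the codes of stages -/
def gpsVal (Bad : ℕ → List Bool → Bool) (stg : ℕ → Option (ℕ × ℕ))
    (h : (List Bool → Bool) → List Bool → List Bool) (R : List Bool → Bool) (v : List Bool) :
    List Bool :=
  h R (gpsIn Bad stg (v, (gpsQs stg v.length).map R))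

theorem gps_relFn_val (hC : RelConst_stmt) (hCo : RelComp_stmt) (hPa : RelPair_stmt)
    (hQ : RelQueries_stmt) (hT : PolyTv_stmt) {Bad : ℕ → List Bool → Bool}
    (hB : PolyFn (fun q : ℕ × List Bool => Bad q.1 q.2)) {stg : ℕ → Option (ℕ × ℕ)}
    (hs : PolyFn stg) {h : (List Bool → Bool) → List Bool → List Bool} (hh : RelFn h) :
    RelFn (gpsVal Bad stg h) := by
  have h1 : RelFn (fun R (v : List Bool) => (v, (gpsQs stg v.length).map R)) :=
    hPa _ _ _ _ _ (hC _ _ _ PolyFn.id) (hQ _ _ ((gps_poly_qs hs).comp (PolyFn.length PolyFn.id)))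
  have h2 : RelFn (fun R (v : List Bool) => gpsIn Bad stg (v, (gpsQs stg v.length).map R)) :=
    hCo _ _ _ (fun _ => gpsIn Bad stg) (fun R (v : List Bool) => (v, (gpsQs stg v.length).map R))
      (hC _ _ _ (gps_poly_in hT hB hs)) h1
  exact hCo _ _ _ h (fun R v => gpsIn Bad stg (v, (gpsQs stg v.length).map R)) hh h2

theorem gps_val_eq {Bad : ℕ → List Bool → Bool} {stg : ℕ → Option (ℕ × ℕ)} {k : ℕ}
    (h : stg (st (k + 1)) = some (k, st k)) (t : (List Bool → Bool) → List Bool → List Bool)
    (R : List Bool → Bool) :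
    gpsVal Bad stg t R (List.replicate (st (k + 1)) true) =
      t R (inp (st (k + 1)) (List.replicate (lenR Bad k R) true)) := by
  unfold gpsVal gpsIn lenR
  simp only [List.length_replicate]
  rw [gps_qs_map h rfl, gps_tau_eq h rfl]

/-! ### The codes of the stages -/

/-- the string codes a stage from `K` on -/
def gpsCode (stg : ℕ → Option (ℕ × ℕ)) (K : ℕ) (w : List Bool) : Bool :=
  decide (w = true :: List.replicate (w.length - 1) true) &&
    (stg (w.length - 1)).any fun q => decide (K ≤ q.1)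

theorem gps_poly_code {stg : ℕ → Option (ℕ × ℕ)} (hs : PolyFn stg) (K : ℕ) :
    PolyFn (gpsCode stg K) := by
  have hl : PolyFn (fun w : List Bool => w.length - 1) := PolyFn.pred (PolyFn.length PolyFn.id)
  refine PolyFn.and (PolyFn.decide_eq PolyFn.id (PolyFn.cons (PolyFn.const true)
    (PolyFn.replicate hl (PolyFn.const true)))) ?_
  refine PolyFn.optionCase (l := fun w : List Bool => stg (w.length - 1)) (f := fun _ => false)
    (g := fun _ q => decide (K ≤ q.1)) (hs.comp hl) (PolyFn.const false)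
    (PolyFn.decide_le (PolyFn.const K) (PolyFn.fst.comp PolyFn.snd)) ?_ ?_
  · intro w h
    simp [h]
  · intro w q h
    simp [h]

theorem gps_code_iff {stg : ℕ → Option (ℕ × ℕ)}
    (hst : ∀ N k m, stg N = some (k, m) ↔ m = st k ∧ N = st (k + 1)) {K : ℕ} {w : List Bool} :
    gpsCode stg K w = true ↔ ∃ k ≥ K, w = true :: List.replicate (st (k + 1)) true := by
  unfold gpsCode
  rw [Bool.and_eq_true, decide_eq_true_eq]
  constructor
  · rintro ⟨h1, h2⟩
    rcases h3 : stg (w.length - 1) with _ | ⟨k, m⟩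
    · rw [h3] at h2
      exact absurd h2 (by simp)
    · rw [h3] at h2
      simp only [Option.any_some, decide_eq_true_eq] at h2
      obtain ⟨-, h4⟩ := (hst _ _ _).1 h3
      refine ⟨k, h2, ?_⟩
      rw [← h4]
      exact h1
  · rintro ⟨k, hk, rfl⟩
    have h1 : (true :: List.replicate (st (k + 1)) true).length - 1 = st (k + 1) := by simp
    rw [h1]
    refine ⟨rfl, ?_⟩
    rw [(hst (st (k + 1)) k (st k)).2 ⟨rfl, rfl⟩]
    simpa using hk

/-! ### The proof system -/

/-- The new proof system: the codes of the stages from `K` on prove the translated statements, and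
`false :: w` proves what `w` proves in `P`. -/
def gpsSys (Bad : ℕ → List Bool → Bool) (stg : ℕ → Option (ℕ × ℕ)) (K : ℕ)
    (P h : (List Bool → Bool) → List Bool → List Bool) (R : List Bool → Bool) (w : List Bool) :
    List Bool :=
  bif gpsCode stg K w then gpsVal Bad stg h R w.tail else P R w.tail

theorem gps_relFn_sys (hC : RelConst_stmt) (hCo : RelComp_stmt) (hPa : RelPair_stmt)
    (hQ : RelQueries_stmt) (hT : PolyTv_stmt) {Bad : ℕ → List Bool → Bool}
    (hB : PolyFn (fun q : ℕ × List Bool => Bad q.1 q.2)) {stg : ℕ → Option (ℕ × ℕ)}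
    (hs : PolyFn stg) (K : ℕ) {P h : (List Bool → Bool) → List Bool → List Bool} (hP : RelFn P)
    (hh : RelFn h) : RelFn (gpsSys Bad stg K P h) := by
  have ht : RelFn (fun (_ : List Bool → Bool) (w : List Bool) => w.tail) :=
    hC _ _ _ (PolyFn.tail PolyFn.id)
  have h1 : RelFn (fun R (w : List Bool) => gpsVal Bad stg h R w.tail) :=
    hCo _ _ _ (gpsVal Bad stg h) (fun _ (w : List Bool) => w.tail)
      (gps_relFn_val hC hCo hPa hQ hT hB hs hh) ht
  have h2 : RelFn (fun R (w : List Bool) => P R w.tail) :=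
    hCo _ _ _ P (fun _ (w : List Bool) => w.tail) hP ht
  have h3 : RelFn (fun R (w : List Bool) =>
      (gpsCode stg K w, gpsVal Bad stg h R w.tail, P R w.tail)) :=
    hPa _ _ _ _ _ (hC _ _ _ (gps_poly_code hs K)) (hPa _ _ _ _ _ h1 h2)
  have h4 : PolyFn (fun q : Bool × List Bool × List Bool => bif q.1 then q.2.1 else q.2.2) :=
    PolyFn.cond PolyFn.fst (PolyFn.fst.comp PolyFn.snd) (PolyFn.snd.comp PolyFn.snd)
  exact hCo _ _ _ (fun _ q => bif q.1 then q.2.1 else q.2.2)
    (fun R w => (gpsCode stg K w, gpsVal Bad stg h R w.tail, P R w.tail)) (hC _ _ _ h4) h3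

/-- GPS -/
theorem gps (hC : RelConst_stmt) (hCo : RelComp_stmt) (hPa : RelPair_stmt)
    (hQ : RelQueries_stmt) (hO : OfRel1_stmt) (hT : PolyTv_stmt) (hS : PolySt_stmt) :
    GPS_stmt := by
  intro Bad hB P h hP hh R K
  obtain ⟨stg, hs, hst⟩ := hS
  have hstg : ∀ k, stg (st (k + 1)) = some (k, st k) := fun k => (hst _ _ _).2 ⟨rfl, rfl⟩
  have hval : ∀ k ≥ K, gpsSys Bad stg K P h R (true :: List.replicate (st (k + 1)) true) =
      h R (inp (st (k + 1)) (List.replicate (lenR Bad k R) true)) := by
    intro k hk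
    unfold gpsSys
    rw [(gps_code_iff hst).2 ⟨k, hk, rfl⟩]
    exact gps_val_eq (hstg k) h R
  refine ⟨gpsSys Bad stg K P h R, hO _ (gps_relFn_sys hC hCo hPa hQ hT hB hs K hP hh) R, ?_, hval⟩
  intro y
  constructor
  · rintro ⟨w, hw⟩
    by_cases hc : gpsCode stg K w = true
    · obtain ⟨k, hk, rfl⟩ := (gps_code_iff hst).1 hc
      right
      exact ⟨k, hk, by rw [← hw, hval k hk]⟩
    · left
      refine ⟨w.tail, ?_⟩
      rw [Bool.not_eq_true] at hc
      rw [← hw]
      unfold gpsSys
      rw [hc]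
      rfl
  · rintro (⟨w, hw⟩ | ⟨k, hk, rfl⟩)
    · refine ⟨false :: w, ?_⟩
      have hc : gpsCode stg K (false :: w) = false := by
        rw [← Bool.not_eq_true, gps_code_iff hst]
        rintro ⟨k, -, h1⟩
        exact absurd h1 (by simp)
      unfold gpsSys
      rw [hc]
      exact hw
    · exact ⟨_, hval k hk⟩

end Pool.Agent.Lib.RO
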