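import Pool.Agent.Lib.RO.Basic
import Mathlib.Analysis.SpecificLimits.Normed

/-!
# Project RO, module GROW: elementary growth estimates
-/

set_option autoImplicit false

namespace Pool.Agent.Lib.RO

open Pool.Agent.PolyTime Filter

/-- a polynomially bounded function is below a power from `2` on -/
theorem Grow.pb_pow {g : ℕ → ℕ} (h : PB g) : ∃ D, ∀ y, 2 ≤ y → g y ≤ y ^ D := by
  obtain ⟨p, hp⟩ := h.2
  refine ⟨p.eval 1 + p.natDegree, fun y hy => (hp y).trans ?_⟩
  rw [Polynomial.eval_eq_sum_range, pow_add]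
  have h1 : ∀ i ∈ Finset.range (p.natDegree + 1), p.coeff i * y ^ i ≤ p.coeff i * y ^ p.natDegree := by
    intro i hi
    rw [Finset.mem_range] at hi
    exact Nat.mul_le_mul_left _ (Nat.pow_le_pow_right (by omega) (by omega))
  refine (Finset.sum_le_sum h1).trans ?_
  rw [← Finset.sum_mul]
  refine Nat.mul_le_mul_right _ ?_
  have h2 : (∑ i ∈ Finset.range (p.natDegree + 1), p.coeff i) = p.eval 1 := by
    rw [Polynomial.eval_eq_sum_range]
    simp
  rw [h2]
  exact (Nat.lt_two_pow_self (n := p.eval 1)).le.trans (Nat.pow_le_pow_left hy _)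

/-- powers are below exponentials -/
theorem Grow.pow_le (D : ℕ) : ∃ n0, ∀ m, n0 ≤ m → m ^ D ≤ 2 ^ m := by
  have h := tendsto_pow_const_div_const_pow_of_one_lt D (r := (2 : ℝ)) (by norm_num)
  have h1 := (h.eventually (gt_mem_nhds (show (0 : ℝ) < 1 by norm_num))).exists_forall_of_atTop
  obtain ⟨n0, hn0⟩ := h1
  refine ⟨n0, fun m hm => ?_⟩
  have h2 := hn0 m hm
  rw [div_lt_one (by positivity)] at h2
  exact_mod_cast h2.le

theorem Grow.pb_exp {g : ℕ → ℕ} (h : PB g) : ∃ n0, ∀ m, n0 ≤ m → g m ≤ 2 ^ m := by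
  obtain ⟨D, hD⟩ := Grow.pb_pow h
  obtain ⟨n0, hn0⟩ := Grow.pow_le D
  exact ⟨max n0 2, fun m hm => (hD m (by omega)).trans (hn0 m (by omega))⟩

theorem grow : Grow_stmt := by
  intro b hb c
  -- the first inequality in terms of `y = 2 ^ sqrt n`
  have h1 : PB fun y => c * b (c * (2 * y + c)) + c :=
    ((PB.const c).mul (hb.comp ((PB.const c).mul (((PB.const 2).mul PB.id).add (PB.const c))))).add
      (PB.const c)
  obtain ⟨D, hD⟩ := Grow.pb_pow h1
  -- `4 n ≤ 4 (m+1)^2 ≤ 2 ^ m`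
  have h2 : PB fun m => 4 * ((m + 1) * (m + 1)) :=
    (PB.const 4).mul ((PB.id.add (PB.const 1)).mul (PB.id.add (PB.const 1)))
  obtain ⟨n2, hn2⟩ := Grow.pb_exp h2
  have h3 : PB fun m => b (c * (4 * ((m + 1) * (m + 1)) + c)) + c :=
    (hb.comp ((PB.const c).mul (h2.add (PB.const c)))).add (PB.const c)
  obtain ⟨n3, hn3⟩ := Grow.pb_exp h3
  refine ⟨(D + n2 + n3 + 2) * (D + n2 + n3 + 2), fun n hn => ?_⟩
  set m := Nat.sqrt n with hm
  have hm1 : D + n2 + n3 + 2 ≤ m := Nat.le_sqrt.2 hn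
  have hm2 : m * m ≤ n := Nat.sqrt_le n
  have hm3 : n < (m + 1) * (m + 1) := Nat.lt_succ_sqrt n
  have h4 : 4 * n ≤ 2 ^ m := by
    have := hn2 m (by omega)
    omega
  constructor
  · have h5 : c * b (c * (2 ^ m + 4 * n + c)) + c ≤ c * b (c * (2 * 2 ^ m + c)) + c := by
      refine Nat.add_le_add_right (Nat.mul_le_mul_left _ (hb.mono (Nat.mul_le_mul_left _ ?_))) _
      omega
    have h6 : 2 ≤ 2 ^ m := by
      calc 2 = 2 ^ 1 := by norm_num
        _ ≤ 2 ^ m := Nat.pow_le_pow_right (by omega) (by omega)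
    have h7 := hD (2 ^ m) h6
    refine (h5.trans h7).trans_lt ?_
    rw [← pow_mul]
    refine Nat.pow_lt_pow_right (by omega) ?_
    have h8 : m * D < m * m := Nat.mul_lt_mul_of_pos_left (by omega) (by omega)
    omega
  · have h5 := hn3 m (by omega)
    refine le_trans (Nat.add_le_add_right (hb.mono (Nat.mul_le_mul_left _ ?_)) _) h5
    omega

end Pool.Agent.Lib.RO
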