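import Pool.Agent.Lib.RO.Stage

/-!
# Module KEYA of project RO: the key inequality for unambiguous verifiers
-/

set_option autoImplicit false

namespace Pool.Agent.Lib.RO

open Finset

namespace KeyAProof

variable {Ω X Z I W : Type}

theorem pl_back (P : Planting Ω X Z) (ω : Ω) (x : X) (z : Z) :
    P.pl (P.pl ω x z) x (P.val ω x) = ω := by
  rw [P.pl_pl, P.pl_val]

open Classical in
/-- bound for a set of tuples whose image under an injective map lies in a product -/
theorem card_fib {α β : Type} (s : Finset α) (t : Finset β) (g : α → β) (q : ℕ)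
    (hg : ∀ a ∈ s, g a ∈ t) (F : β → Finset X) (hF : ∀ b, (F b).card ≤ q) (c : α → X)
    (hc : ∀ a ∈ s, c a ∈ F (g a)) (hinj : ∀ a ∈ s, ∀ a' ∈ s, g a = g a' → c a = c a' → a = a') :
    s.card ≤ q * t.card := by
  refine card_le_mul_card_image_of_maps_to hg q fun b _ => ?_
  refine le_trans (card_le_card_of_injOn c (t := F b) ?_ ?_) (hF b)
  · intro a ha
    have ha' := mem_filter.1 ha
    have h2 := hc a ha'.1
    rw [ha'.2] at h2
    exact h2
  · intro a ha a' ha' h
    have h1 := mem_filter.1 ha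
    have h2 := mem_filter.1 ha'
    exact hinj a h1.1 a' h2.1 (h1.2.trans h2.2.symm) h

end KeyAProof

open KeyAProof

open Classical in
theorem keyA (hP : Plant2_stmt) : KeyA_stmt := by
  intro Ω X Z I W _ _ _ P q f qf acc qa G A h1 h2 h3 h4 h5 h6 h7 h8 h9 h10
  let Qw : Ω → Z → Finset X := fun ω z =>
    if h : ∃ w, acc ω (f ω z) w then qa ω (f ω z) h.choose else ∅
  have hQw : ∀ ω z, (Qw ω z).card ≤ q := by
    intro ω z
    by_cases h : ∃ w, acc ω (f ω z) w
    · simp only [Qw, dif_pos h]; exact h2 _ _ _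
    · simp only [Qw, dif_neg h]; simp
  let D : Finset (Ω × X × X × Z) := univ.filter fun t => t.2.1 ≠ t.2.2.1
  let B : Finset (Ω × X × X × Z) := D.filter fun t =>
    t.1 ∈ G ∧ P.pl t.1 t.2.1 t.2.2.2 ∈ G ∧ P.pl t.1 t.2.2.1 t.2.2.2 ∈ G ∧
    (¬ ∃ x, P.val t.1 x = t.2.2.2) ∧ t.2.1 ∉ qf t.1 t.2.2.2 ∧ t.2.2.1 ∉ qf t.1 t.2.2.2 ∧
    t.2.2.1 ∉ Qw (P.pl t.1 t.2.1 t.2.2.2) t.2.2.2 ∧ t.2.1 ∉ Qw (P.pl t.1 t.2.2.1 t.2.2.2) t.2.2.2
  refine hP Ω X Z P A B h10 ?_ ?_
  · rintro ⟨ω, x, x', z⟩ ht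
    obtain ⟨hD, hG, hG1, hG2, hz, hx, hx', hq1, hq2⟩ := mem_filter.1 ht
    have hne : x ≠ x' := (mem_filter.1 hD).2
    refine ⟨hne, ?_⟩
    simp only at hG hG1 hG2 hz hx hx' hq1 hq2 ⊢
    have hf1 := h3 ω z x z hx
    have hf2 := h3 ω z x' z hx'
    have hx1 : x' ∉ qf (P.pl ω x z) z := by rw [hf1.2]; exact hx'
    have hf12 := h3 (P.pl ω x z) z x' z hx1
    have hcomm : P.pl (P.pl ω x z) x' z = P.pl (P.pl ω x' z) x z := P.pl_comm ω x x' z z hne
    have e1 : ∃ w, acc (P.pl ω x z) (f (P.pl ω x z) z) w :=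
      (h5 _ hG1 z).1 ⟨x, P.val_same ω x z⟩
    have e2 : ∃ w, acc (P.pl ω x' z) (f (P.pl ω x' z) z) w :=
      (h5 _ hG2 z).1 ⟨x', P.val_same ω x' z⟩
    simp only [Qw, dif_pos e1] at hq1
    simp only [Qw, dif_pos e2] at hq2
    have a1 := e1.choose_spec
    have a2 := e2.choose_spec
    generalize e1.choose = u1 at hq1 a1
    generalize e2.choose = u2 at hq2 a2
    rw [hf1.1] at hq1 a1
    rw [hf2.1] at hq2 a2
    have b1 := h4 (P.pl ω x z) (f ω z) u1 x' z hq1
    have b2 := h4 (P.pl ω x' z) (f ω z) u2 x z hq2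
    have hf : f (P.pl (P.pl ω x z) x' z) z = f ω z := hf12.1.trans hf1.1
    by_cases hu : u1 = u2
    · exfalso
      subst hu
      have hqa : x ∉ qa (P.pl ω x z) (f ω z) u1 := by
        rw [← b1.2, hcomm, b2.2]; exact hq2
      have hacc := (h4 (P.pl ω x z) (f ω z) u1 x (P.val ω x) hqa).1.2 a1
      rw [pl_back] at hacc
      exact hz ((h5 ω hG z).2 ⟨u1, hacc⟩)
    · refine h6 _ z u1 u2 hu ?_ ?_
      · rw [hf]; exact b1.1.2 a1
      · rw [hf, hcomm]; exact b2.1.2 a2
  · -- counting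
    set n := Fintype.card Ω with hn
    set cX := Fintype.card X with hcX
    set cZ := Fintype.card Z with hcZ
    have hoff : (univ : Finset X).offDiag.card = cX * (cX - 1) := by
      rw [offDiag_card, card_univ, Nat.mul_sub_one]
    have hDcard : D.card = n * (cX * (cX - 1)) * cZ := by
      have h : D.card = ((univ : Finset Ω) ×ˢ ((univ : Finset X).offDiag ×ˢ (univ : Finset Z))).card := by
        refine card_nbij' (fun t => (t.1, (t.2.1, t.2.2.1), t.2.2.2))
          (fun t => (t.1, t.2.1.1, t.2.1.2, t.2.2)) ?_ ?_ ?_ ?_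
        · rintro ⟨ω, x, x', z⟩ ht
          have h := (mem_filter.1 ht).2
          simpa using h
        · rintro ⟨ω, ⟨x, x'⟩, z⟩ ht
          simp only [coe_product, coe_univ, coe_offDiag, Set.mem_prod, Set.mem_univ,
            Set.mem_offDiag, true_and, and_true, ne_eq] at ht
          simpa [D] using ht
        · rintro ⟨ω, x, x', z⟩ _; rfl
        · rintro ⟨ω, ⟨x, x'⟩, z⟩ _; rfl
      rw [h, card_product, card_product, hoff, card_univ, card_univ, ← hn, ← hcZ]
      ring
    have hGc : 64 * (Gᶜ).card ≤ n := by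
      have := card_add_card_compl G
      omega
    -- the bad sets
    let S1 := D.filter fun t => t.1 ∉ G
    let S2 := D.filter fun t => P.pl t.1 t.2.1 t.2.2.2 ∉ G
    let S3 := D.filter fun t => P.pl t.1 t.2.2.1 t.2.2.2 ∉ G
    let S4 := D.filter fun t => ∃ x, P.val t.1 x = t.2.2.2
    let S5 := D.filter fun t => t.2.1 ∈ qf t.1 t.2.2.2
    let S6 := D.filter fun t => t.2.2.1 ∈ qf t.1 t.2.2.2
    let S7 := D.filter fun t => t.2.2.1 ∈ Qw (P.pl t.1 t.2.1 t.2.2.2) t.2.2.2
    let S8 := D.filter fun t => t.2.1 ∈ Qw (P.pl t.1 t.2.2.1 t.2.2.2) t.2.2.2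
    have hcover : D ⊆ B ∪ (S1 ∪ (S2 ∪ (S3 ∪ (S4 ∪ (S5 ∪ (S6 ∪ (S7 ∪ S8))))))) := by
      intro t ht
      simp only [mem_union, B, S1, S2, S3, S4, S5, S6, S7, S8, mem_filter, ht, true_and]
      tauto
    have hS1 : S1.card ≤ (Gᶜ).card * (cX * (cX - 1) * cZ) := by
      have h := card_le_card_of_injOn (s := S1)
        (t := Gᶜ ×ˢ ((univ : Finset X).offDiag ×ˢ (univ : Finset Z)))
        (fun t => (t.1, (t.2.1, t.2.2.1), t.2.2.2)) ?_ ?_
      · rwa [card_product, card_product, hoff, card_univ, ← hcZ] at h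
      · rintro ⟨ω, x, x', z⟩ ht
        have h := mem_filter.1 ht
        have h' := (mem_filter.1 h.1).2
        simp only [coe_product, coe_compl, coe_offDiag, coe_univ, Set.mem_prod, Set.mem_compl_iff,
          mem_coe, Set.mem_offDiag, Set.mem_univ, true_and, and_true, ne_eq]
        exact ⟨h.2, h'⟩
      · rintro ⟨ω, x, x', z⟩ _ ⟨ω1, x1, x1', z1⟩ _ h
        simp only [Prod.mk.injEq] at h ⊢
        tauto
    have hS2 : S2.card ≤ (Gᶜ).card * (cX * (cX - 1) * cZ) := by
      have h := card_le_card_of_injOn (s := S2)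
        (t := Gᶜ ×ˢ ((univ : Finset X).offDiag ×ˢ (univ : Finset Z)))
        (fun t => (P.pl t.1 t.2.1 t.2.2.2, (t.2.1, t.2.2.1), P.val t.1 t.2.1)) ?_ ?_
      · rwa [card_product, card_product, hoff, card_univ, ← hcZ] at h
      · rintro ⟨ω, x, x', z⟩ ht
        have h := mem_filter.1 ht
        have h' := (mem_filter.1 h.1).2
        simp only [coe_product, coe_compl, coe_offDiag, coe_univ, Set.mem_prod, Set.mem_compl_iff,
          mem_coe, Set.mem_offDiag, Set.mem_univ, true_and, and_true, ne_eq]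
        exact ⟨h.2, h'⟩
      · rintro ⟨ω, x, x', z⟩ _ ⟨ω1, x1, x1', z1⟩ _ h
        simp only [Prod.mk.injEq] at h ⊢
        obtain ⟨e1, ⟨rfl, rfl⟩, e3⟩ := h
        have e4 : ω = ω1 := by rw [← pl_back P ω x z, ← pl_back P ω1 x z1, e1, e3]
        have e5 : z = z1 := by rw [← P.val_same ω x z, ← P.val_same ω1 x z1, e1]
        exact ⟨e4, rfl, rfl, e5⟩
    have hS3 : S3.card ≤ (Gᶜ).card * (cX * (cX - 1) * cZ) := by
      have h := card_le_card_of_injOn (s := S3)
        (t := Gᶜ ×ˢ ((univ : Finset X).offDiag ×ˢ (univ : Finset Z)))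
        (fun t => (P.pl t.1 t.2.2.1 t.2.2.2, (t.2.1, t.2.2.1), P.val t.1 t.2.2.1)) ?_ ?_
      · rwa [card_product, card_product, hoff, card_univ, ← hcZ] at h
      · rintro ⟨ω, x, x', z⟩ ht
        have h := mem_filter.1 ht
        have h' := (mem_filter.1 h.1).2
        simp only [coe_product, coe_compl, coe_offDiag, coe_univ, Set.mem_prod, Set.mem_compl_iff,
          mem_coe, Set.mem_offDiag, Set.mem_univ, true_and, and_true, ne_eq]
        exact ⟨h.2, h'⟩
      · rintro ⟨ω, x, x', z⟩ _ ⟨ω1, x1, x1', z1⟩ _ h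
        simp only [Prod.mk.injEq] at h ⊢
        obtain ⟨e1, ⟨rfl, rfl⟩, e3⟩ := h
        have e4 : ω = ω1 := by rw [← pl_back P ω x' z, ← pl_back P ω1 x' z1, e1, e3]
        have e5 : z = z1 := by rw [← P.val_same ω x' z, ← P.val_same ω1 x' z1, e1]
        exact ⟨e4, rfl, rfl, e5⟩
    have hS4 : S4.card ≤ n * (cX * (cX - 1) * cX) := by
      have hch : ∀ t ∈ S4, ∃ x, P.val t.1 x = t.2.2.2 := fun t ht => (mem_filter.1 ht).2
      rcases isEmpty_or_nonempty X with hX | ⟨⟨x0⟩⟩
      · have : S4 = ∅ := by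
          refine eq_empty_of_forall_notMem fun t _ => hX.elim t.2.1
        rw [this]; simp
      let c : Ω × X × X × Z → X := fun t =>
        if h : ∃ x, P.val t.1 x = t.2.2.2 then h.choose else x0
      have hc : ∀ t ∈ S4, P.val t.1 (c t) = t.2.2.2 := by
        intro t ht
        have h := hch t ht
        simp only [c, dif_pos h]
        exact h.choose_spec
      have h := card_le_card_of_injOn (s := S4)
        (t := (univ : Finset Ω) ×ˢ ((univ : Finset X).offDiag ×ˢ (univ : Finset X)))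
        (fun t => (t.1, (t.2.1, t.2.2.1), c t)) ?_ ?_
      · rwa [card_product, card_product, hoff, card_univ, card_univ, ← hcX, ← hn] at h
      · rintro ⟨ω, x, x', z⟩ ht
        have h := mem_filter.1 ht
        have h' := (mem_filter.1 h.1).2
        simp only [coe_product, coe_offDiag, coe_univ, Set.mem_prod,
          Set.mem_offDiag, Set.mem_univ, true_and, and_true, ne_eq]
        exact h'
      · rintro ⟨ω, x, x', z⟩ ht ⟨ω1, x1, x1', z1⟩ ht1 h
        have k := hc _ ht
        have k1 := hc _ ht1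
        simp only [Prod.mk.injEq] at h k k1 ⊢
        obtain ⟨rfl, ⟨rfl, rfl⟩, e3⟩ := h
        rw [e3, k1] at k
        exact ⟨rfl, rfl, rfl, k.symm⟩
    have hS5 : S5.card ≤ q * (n * (cX * cZ)) := by
      have h := card_fib S5 (univ : Finset (Ω × X × Z)) (fun t => (t.1, t.2.2.1, t.2.2.2)) q
        (fun _ _ => mem_univ _) (fun b => qf b.1 b.2.2) (fun b => h1 _ _) (fun t => t.2.1)
        (fun t ht => (mem_filter.1 ht).2) ?_
      · rwa [card_univ, Fintype.card_prod, Fintype.card_prod] at h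
      · rintro ⟨ω, x, x', z⟩ _ ⟨ω1, x1, x1', z1⟩ _ h h'
        simp only [Prod.mk.injEq] at h h' ⊢
        tauto
    have hS6 : S6.card ≤ q * (n * (cX * cZ)) := by
      have h := card_fib S6 (univ : Finset (Ω × X × Z)) (fun t => (t.1, t.2.1, t.2.2.2)) q
        (fun _ _ => mem_univ _) (fun b => qf b.1 b.2.2) (fun b => h1 _ _) (fun t => t.2.2.1)
        (fun t ht => (mem_filter.1 ht).2) ?_
      · rwa [card_univ, Fintype.card_prod, Fintype.card_prod] at h
      · rintro ⟨ω, x, x', z⟩ _ ⟨ω1, x1, x1', z1⟩ _ h h'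
        simp only [Prod.mk.injEq] at h h' ⊢
        tauto
    have hS7 : S7.card ≤ q * (n * (cX * cZ)) := by
      have h := card_fib S7 (univ : Finset (Ω × X × Z))
        (fun t => (P.pl t.1 t.2.1 t.2.2.2, t.2.1, P.val t.1 t.2.1)) q
        (fun _ _ => mem_univ _) (fun b => Qw b.1 (P.val b.1 b.2.1)) (fun b => hQw _ _)
        (fun t => t.2.2.1) ?_ ?_
      · rwa [card_univ, Fintype.card_prod, Fintype.card_prod] at h
      · rintro ⟨ω, x, x', z⟩ ht
        have h := (mem_filter.1 ht).2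
        simp only [P.val_same] at h ⊢
        exact h
      · rintro ⟨ω, x, x', z⟩ _ ⟨ω1, x1, x1', z1⟩ _ h h'
        simp only [Prod.mk.injEq] at h h' ⊢
        obtain ⟨e1, rfl, e3⟩ := h
        have e4 : ω = ω1 := by rw [← pl_back P ω x z, ← pl_back P ω1 x z1, e1, e3]
        have e5 : z = z1 := by rw [← P.val_same ω x z, ← P.val_same ω1 x z1, e1]
        exact ⟨e4, rfl, h', e5⟩
    have hS8 : S8.card ≤ q * (n * (cX * cZ)) := by
      have h := card_fib S8 (univ : Finset (Ω × X × Z))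
        (fun t => (P.pl t.1 t.2.2.1 t.2.2.2, t.2.2.1, P.val t.1 t.2.2.1)) q
        (fun _ _ => mem_univ _) (fun b => Qw b.1 (P.val b.1 b.2.1)) (fun b => hQw _ _)
        (fun t => t.2.1) ?_ ?_
      · rwa [card_univ, Fintype.card_prod, Fintype.card_prod] at h
      · rintro ⟨ω, x, x', z⟩ ht
        have h := (mem_filter.1 ht).2
        simp only [P.val_same] at h ⊢
        exact h
      · rintro ⟨ω, x, x', z⟩ _ ⟨ω1, x1, x1', z1⟩ _ h h'
        simp only [Prod.mk.injEq] at h h' ⊢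
        obtain ⟨e1, rfl, e3⟩ := h
        have e4 : ω = ω1 := by rw [← pl_back P ω x' z, ← pl_back P ω1 x' z1, e1, e3]
        have e5 : z = z1 := by rw [← P.val_same ω x' z, ← P.val_same ω1 x' z1, e1]
        exact ⟨e4, h', rfl, e5⟩
    have hsum : D.card ≤ B.card + (S1.card + (S2.card + (S3.card + (S4.card + (S5.card +
        (S6.card + (S7.card + S8.card))))))) := by
      refine (card_le_card hcover).trans ?_
      refine (card_union_le _ _).trans (Nat.add_le_add_left ?_ _)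
      refine (card_union_le _ _).trans (Nat.add_le_add_left ?_ _)
      refine (card_union_le _ _).trans (Nat.add_le_add_left ?_ _)
      refine (card_union_le _ _).trans (Nat.add_le_add_left ?_ _)
      refine (card_union_le _ _).trans (Nat.add_le_add_left ?_ _)
      refine (card_union_le _ _).trans (Nat.add_le_add_left ?_ _)
      refine (card_union_le _ _).trans (Nat.add_le_add_left ?_ _)
      exact card_union_le _ _
    rw [hDcard] at hsum
    -- arithmetic
    obtain ⟨m, hm⟩ : ∃ m, cX = m + 1 := ⟨cX - 1, by omega⟩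
    rw [hm] at hsum hS1 hS2 hS3 hS4 hS5 hS6 hS7 hS8 h8 h9 ⊢
    simp only [Nat.add_sub_cancel] at hsum hS1 hS2 hS3 hS4 hS5 hS6 hS7 hS8 h8 h9 ⊢
    have k1 : 64 * ((Gᶜ).card * ((m + 1) * m * cZ)) ≤ n * ((m + 1) * m) * cZ := by
      calc 64 * ((Gᶜ).card * ((m + 1) * m * cZ)) = (64 * (Gᶜ).card) * ((m + 1) * m * cZ) := by ring
        _ ≤ n * ((m + 1) * m * cZ) := Nat.mul_le_mul_right _ hGc
        _ = n * ((m + 1) * m) * cZ := by ring
    have k4 : 16 * (n * ((m + 1) * m * (m + 1))) ≤ n * ((m + 1) * m) * cZ := by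
      calc 16 * (n * ((m + 1) * m * (m + 1))) = n * ((m + 1) * m) * (16 * (m + 1)) := by ring
        _ ≤ n * ((m + 1) * m) * cZ := Nat.mul_le_mul_left _ h9
    have k5 : 128 * (q * (n * ((m + 1) * cZ))) ≤ n * ((m + 1) * m) * cZ := by
      have : 128 * q ≤ m := by omega
      calc 128 * (q * (n * ((m + 1) * cZ))) = (128 * q) * (n * ((m + 1) * cZ)) := by ring
        _ ≤ m * (n * ((m + 1) * cZ)) := Nat.mul_le_mul_right _ this
        _ = n * ((m + 1) * m) * cZ := by ring
    generalize n * ((m + 1) * m) * cZ = T at *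
    generalize (Gᶜ).card * ((m + 1) * m * cZ) = a at *
    generalize n * ((m + 1) * m * (m + 1)) = b at *
    generalize q * (n * ((m + 1) * cZ)) = c at *
    omega

end Pool.Agent.Lib.RO
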