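import Pool.Agent.Lib.RO.StageK
import Pool.Agent.Lib.RO.KeyA

/-!
# Project RO, module KEYAK: the key inequality for reductions with a bounded number of queries
-/

set_option autoImplicit false

namespace Pool.Agent.Lib.RO

open Finset

namespace KeyAKProof

variable {Ω X Z I W : Type}

theorem bans_length (f : Ω → Z → List Bool → I) (acc : Ω → I → W → Prop) (ω : Ω) (z : Z) :
    ∀ j, (bans f acc ω z j).length = j
  | 0 => rfl
  | j + 1 => by
    show (bans f acc ω z j ++ [_]).length = _
    rw [List.length_append, bans_length f acc ω z j]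
    rfl

/-- the chosen witness set of queries -/
noncomputable def qw [DecidableEq X] (acc : Ω → I → W → Prop) (qa : Ω → I → W → Finset X) (ω : Ω)
    (y : I) : Finset X :=
  open Classical in if h : ∃ w, acc ω y w then qa ω y h.choose else ∅

theorem qw_card [DecidableEq X] {acc : Ω → I → W → Prop} {qa : Ω → I → W → Finset X} {q : ℕ}
    (h : ∀ ω y w, (qa ω y w).card ≤ q) (ω : Ω) (y : I) : (qw acc qa ω y).card ≤ q := by
  unfold qw
  split_ifs
  · exact h _ _ _
  · simp

/-- the critical points of the run in `ω` -/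
noncomputable def QS [DecidableEq X] (f : Ω → Z → List Bool → I) (qf : Ω → Z → List Bool → Finset X)
    (acc : Ω → I → W → Prop) (qa : Ω → I → W → Finset X) (k : ℕ) (ω : Ω) (z : Z) : Finset X :=
  (range (k + 1)).biUnion (fun j => qf ω z (bans f acc ω z j)) ∪
    (range k).biUnion (fun j => qw acc qa ω (f ω z (bans f acc ω z j)))

theorem QS_card [DecidableEq X] {f : Ω → Z → List Bool → I} {qf : Ω → Z → List Bool → Finset X}
    {acc : Ω → I → W → Prop} {qa : Ω → I → W → Finset X} {k q K : ℕ} (hk : k ≤ K)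
    (h1 : ∀ ω z h, (qf ω z h).card ≤ q) (h2 : ∀ ω y w, (qa ω y w).card ≤ q) (ω : Ω) (z : Z) :
    (QS f qf acc qa k ω z).card ≤ (2 * K + 1) * q := by
  unfold QS
  refine (card_union_le _ _).trans ?_
  have a1 : ((range (k + 1)).biUnion (fun j => qf ω z (bans f acc ω z j))).card ≤ (k + 1) * q := by
    refine card_biUnion_le.trans ?_
    refine (sum_le_card_nsmul _ _ q fun j _ => h1 _ _ _).trans ?_
    rw [card_range, smul_eq_mul]
  have a2 : ((range k).biUnion (fun j => qw acc qa ω (f ω z (bans f acc ω z j)))).card ≤ k * q := by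
    refine card_biUnion_le.trans ?_
    refine (sum_le_card_nsmul _ _ q fun j _ => qw_card h2 _ _).trans ?_
    rw [card_range, smul_eq_mul]
  have a3 : k * q ≤ K * q := Nat.mul_le_mul_right _ hk
  calc _ ≤ (k + 1) * q + k * q := Nat.add_le_add a1 a2
    _ = k * q + k * q + q := by ring
    _ ≤ K * q + K * q + q := by omega
    _ = (2 * K + 1) * q := by ring

/-- number of pairs with the same colour -/
theorem pairs_ge (s : Finset X) [DecidableEq X] (c : X → ℕ) {k : ℕ} (hc : ∀ x ∈ s, c x < k) :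
    s.card * s.card ≤ k * ((s ×ˢ s).filter fun e => c e.1 = c e.2).card := by
  have h1 : s.card = ∑ j ∈ range k, (s.filter fun x => c x = j).card := by
    rw [← card_eq_sum_card_fiberwise]
    intro x hx
    exact mem_coe.2 (mem_range.2 (hc x hx))
  have h2 : ((s ×ˢ s).filter fun e => c e.1 = c e.2).card =
      ∑ j ∈ range k, (s.filter fun x => c x = j).card ^ 2 := by
    rw [card_eq_sum_card_fiberwise (f := fun e : X × X => c e.1) (t := range k)]
    · refine sum_congr rfl fun j _ => ?_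
      rw [sq, ← card_product]
      congr 1
      ext ⟨a, b⟩
      simp only [mem_filter, mem_product]
      constructor
      · rintro ⟨⟨⟨h1, h2⟩, h3⟩, h4⟩
        exact ⟨⟨h1, h4⟩, h2, by rw [← h3, h4]⟩
      · rintro ⟨⟨h1, h2⟩, h3, h4⟩
        exact ⟨⟨⟨h1, h3⟩, by rw [h2, h4]⟩, h2⟩
    · rintro ⟨a, b⟩ hx
      have := (mem_product.1 (mem_filter.1 (mem_coe.1 hx)).1).1
      exact mem_coe.2 (mem_range.2 (hc a this))
  rw [h2]
  have h3 := sq_sum_le_card_mul_sum_sq (s := range k)
    (f := fun j => (s.filter fun x => c x = j).card)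
  rw [card_range, ← h1, sq] at h3
  exact h3

/-- the query number `j` of the run in `ω` is rejected in `ω` and accepted after planting -/
def Flip (P : Planting Ω X Z) (f : Ω → Z → List Bool → I) (acc : Ω → I → W → Prop) (ω : Ω) (z : Z)
    (x : X) (j : ℕ) : Prop :=
  (¬ ∃ w, acc ω (f ω z (bans f acc ω z j)) w) ∧
    ∃ w, acc (P.pl ω x z) (f ω z (bans f acc ω z j)) w

theorem exists_flip [DecidableEq X] (P : Planting Ω X Z) {k : ℕ} {f : Ω → Z → List Bool → I}
    {e : Ω → Z → List Bool → Bool}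
    {qf : Ω → Z → List Bool → Finset X} {acc : Ω → I → W → Prop} {qa : Ω → I → W → Finset X}
    {G : Finset Ω}
    (hf : ∀ ω z h x z', x ∉ qf ω z h → f (P.pl ω x z') z h = f ω z h ∧
      e (P.pl ω x z') z h = e ω z h ∧ qf (P.pl ω x z') z h = qf ω z h)
    (ha : ∀ ω y w x z', x ∉ qa ω y w →
      (acc (P.pl ω x z') y w ↔ acc ω y w) ∧ qa (P.pl ω x z') y w = qa ω y w)
    (hG : ∀ ω ∈ G, ∀ z, (∃ x, P.val ω x = z) ↔ e ω z (bans f acc ω z k) = true)
    {ω : Ω} {x : X} {z : Z} (hω : ω ∈ G) (hω1 : P.pl ω x z ∈ G) (hz : ¬ ∃ x0, P.val ω x0 = z)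
    (hx : x ∉ QS f qf acc qa k ω z) : ∃ j < k, Flip P f acc ω z x j := by
  classical
  by_contra hcon
  push Not at hcon
  have hx1 : ∀ j ≤ k, x ∉ qf ω z (bans f acc ω z j) := by
    intro j hj h
    refine hx (mem_union_left _ (mem_biUnion.2 ⟨j, mem_range.2 (by omega), h⟩))
  have hx2 : ∀ j < k, x ∉ qw acc qa ω (f ω z (bans f acc ω z j)) := by
    intro j hj h
    exact hx (mem_union_right _ (mem_biUnion.2 ⟨j, mem_range.2 hj, h⟩))
  have hrun : ∀ j ≤ k, bans f acc (P.pl ω x z) z j = bans f acc ω z j := by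
    intro j
    induction j with
    | zero => intro _; rfl
    | succ j ih =>
      intro hj
      have ih' := ih (by omega)
      show bans f acc (P.pl ω x z) z j ++ [_] = bans f acc ω z j ++ [_]
      rw [ih', (hf ω z _ x z (hx1 j (by omega))).1]
      congr 2
      rw [decide_eq_decide]
      constructor
      · rintro ⟨w, hw⟩
        by_contra hno
        exact hcon j (by omega) ⟨hno, ⟨w, hw⟩⟩
      · intro h
        have h1 := hx2 j (by omega)
        unfold qw at h1
        rw [dif_pos h] at h1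
        exact ⟨h.choose, (ha ω _ _ x z h1).1.2 h.choose_spec⟩
  have h1 : e (P.pl ω x z) z (bans f acc (P.pl ω x z) z k) = true :=
    (hG _ hω1 z).1 ⟨x, P.val_same ω x z⟩
  rw [hrun k le_rfl, (hf ω z _ x z (hx1 k le_rfl)).2.1] at h1
  exact hz ((hG ω hω z).2 h1)

/-- the colour of a point -/
noncomputable def col (P : Planting Ω X Z) (f : Ω → Z → List Bool → I) (acc : Ω → I → W → Prop)
    (k : ℕ) (ω : Ω) (z : Z) (x : X) : ℕ :=
  open Classical in if h : ∃ j < k, Flip P f acc ω z x j then h.choose else k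

theorem col_spec {P : Planting Ω X Z} {f : Ω → Z → List Bool → I} {acc : Ω → I → W → Prop}
    {k : ℕ} {ω : Ω} {z : Z} {x : X} (h : ∃ j < k, Flip P f acc ω z x j) :
    col P f acc k ω z x < k ∧ Flip P f acc ω z x (col P f acc k ω z x) := by
  unfold col
  rw [dif_pos h]
  exact h.choose_spec

/-- the points at which planting works -/
def Good (P : Planting Ω X Z) [DecidableEq X] (f : Ω → Z → List Bool → I)
    (qf : Ω → Z → List Bool → Finset X) (acc : Ω → I → W → Prop) (qa : Ω → I → W → Finset X)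
    (k : ℕ) (G : Finset Ω) (ω : Ω) (z : Z) (x : X) : Prop :=
  ω ∈ G ∧ P.pl ω x z ∈ G ∧ (¬ ∃ x0, P.val ω x0 = z) ∧ x ∉ QS f qf acc qa k ω z

/-- two good points of the same colour give an ambiguous query -/
theorem ambiguous [DecidableEq X] (P : Planting Ω X Z) {k : ℕ} {f : Ω → Z → List Bool → I}
    {e : Ω → Z → List Bool → Bool}
    {qf : Ω → Z → List Bool → Finset X} {acc : Ω → I → W → Prop} {qa : Ω → I → W → Finset X}
    {G A : Finset Ω}
    (hf : ∀ ω z h x z', x ∉ qf ω z h → f (P.pl ω x z') z h = f ω z h ∧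
      e (P.pl ω x z') z h = e ω z h ∧ qf (P.pl ω x z') z h = qf ω z h)
    (ha : ∀ ω y w x z', x ∉ qa ω y w →
      (acc (P.pl ω x z') y w ↔ acc ω y w) ∧ qa (P.pl ω x z') y w = qa ω y w)
    (hG : ∀ ω ∈ G, ∀ z, (∃ x, P.val ω x = z) ↔ e ω z (bans f acc ω z k) = true)
    (hA : ∀ ω z h w w', h.length < k → w ≠ w' → acc ω (f ω z h) w → acc ω (f ω z h) w' → ω ∈ A)
    {ω : Ω} {x x' : X} {z : Z} (hne : x ≠ x') (hx : Good P f qf acc qa k G ω z x)
    (hx' : Good P f qf acc qa k G ω z x') (hcol : col P f acc k ω z x = col P f acc k ω z x')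
    (h1 : x' ∉ qw acc qa (P.pl ω x z) (f ω z (bans f acc ω z (col P f acc k ω z x))))
    (h2 : x ∉ qw acc qa (P.pl ω x' z) (f ω z (bans f acc ω z (col P f acc k ω z x')))) :
    P.pl (P.pl ω x z) x' z ∈ A := by
  classical
  obtain ⟨hω, hω1, hz, hq⟩ := hx
  obtain ⟨_, hω2, _, hq'⟩ := hx'
  obtain ⟨hj, hno, hex1⟩ := col_spec (exists_flip P hf ha hG hω hω1 hz hq)
  obtain ⟨_, _, hex2⟩ := col_spec (exists_flip P hf ha hG hω hω2 hz hq')
  rw [← hcol] at h2 hex2
  set j := col P f acc k ω z x with hjdef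
  set h := bans f acc ω z j with hh
  set y := f ω z h with hy
  unfold qw at h1 h2
  rw [dif_pos hex1] at h1
  rw [dif_pos hex2] at h2
  have a1 := hex1.choose_spec
  have a2 := hex2.choose_spec
  generalize hex1.choose = u1 at h1 a1
  generalize hex2.choose = u2 at h2 a2
  have b1 := ha _ y u1 x' z h1
  have b2 := ha _ y u2 x z h2
  have hcomm : P.pl (P.pl ω x z) x' z = P.pl (P.pl ω x' z) x z := P.pl_comm ω x x' z z hne
  have hxf : x ∉ qf ω z h := fun hm =>
    hq (mem_union_left _ (mem_biUnion.2 ⟨j, mem_range.2 (by omega), hm⟩))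
  have hxf' : x' ∉ qf ω z h := fun hm =>
    hq' (mem_union_left _ (mem_biUnion.2 ⟨j, mem_range.2 (by omega), hm⟩))
  have c1 := hf ω z h x z hxf
  have c2 := hf (P.pl ω x z) z h x' z (by rw [c1.2.2]; exact hxf')
  have hfy : f (P.pl (P.pl ω x z) x' z) z h = y := c2.1.trans c1.1
  by_cases hu : u1 = u2
  · exfalso
    subst hu
    have hqa : x ∉ qa (P.pl ω x z) y u1 := by
      rw [← b1.2, hcomm, b2.2]
      exact h2
    have hacc := (ha (P.pl ω x z) y u1 x (P.val ω x) hqa).1.2 a1
    rw [KeyAProof.pl_back] at hacc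
    exact hno ⟨u1, hacc⟩
  · refine hA _ z h u1 u2 (by rw [hh, bans_length]; exact hj) hu ?_ ?_
    · rw [hfy]; exact b1.1.2 a1
    · rw [hfy, hcomm]; exact b2.1.2 a2

/-- few pairs have their second member in a small set depending on the first -/
theorem card_snd_le [DecidableEq X] [Fintype X] (F : X → Finset X) {q : ℕ}
    (hF : ∀ x, (F x).card ≤ q) (s : Finset (X × X)) (hs : ∀ e ∈ s, e.2 ∈ F e.1) :
    s.card ≤ Fintype.card X * q := by
  have h := KeyAProof.card_fib s (univ : Finset X) (fun e => e.1) q (fun _ _ => mem_univ _) F hF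
    (fun e => e.2) hs (by
      rintro ⟨a, b⟩ _ ⟨a', b'⟩ _ h1 h2
      simp only [Prod.mk.injEq] at h1 h2 ⊢
      exact ⟨h1, h2⟩)
  rw [card_univ, mul_comm] at h
  exact h

theorem card_fst_le [DecidableEq X] [Fintype X] (F : X → Finset X) {q : ℕ}
    (hF : ∀ x, (F x).card ≤ q) (s : Finset (X × X)) (hs : ∀ e ∈ s, e.1 ∈ F e.2) :
    s.card ≤ Fintype.card X * q := by
  have h := KeyAProof.card_fib s (univ : Finset X) (fun e => e.2) q (fun _ _ => mem_univ _) F hF
    (fun e => e.1) hs (by
      rintro ⟨a, b⟩ _ ⟨a', b'⟩ _ h1 h2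
      simp only [Prod.mk.injEq] at h1 h2 ⊢
      exact ⟨h2, h1⟩)
  rw [card_univ, mul_comm] at h
  exact h

/-- the final arithmetic -/
theorem arith {n cX cZ K q S Q B bad gc : ℕ} (hK : 1 ≤ K)
    (hgc : 64 * K * gc ≤ n)
    (hbad : bad ≤ 2 * (gc * (cZ * cX)) + n * (cX * cX) + n * cZ * ((2 * K + 1) * q))
    (hS : n * cZ * cX ≤ S + bad) (hCS : S * S ≤ n * cZ * Q)
    (hQ : Q ≤ K * (B + n * cZ * (cX * (1 + 2 * q))))
    (hX : 64 * K * ((2 * K + 1) * q + 1) ≤ cX) (hXZ : 64 * K * cX ≤ cZ) :
    3 * (n * (cX * (cX - 1)) * cZ) ≤ 4 * K * B := by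
  have e1 : 64 * K * (gc * (cZ * cX)) ≤ n * cZ * cX := by
    calc 64 * K * (gc * (cZ * cX)) = (64 * K * gc) * (cZ * cX) := by ring
      _ ≤ n * (cZ * cX) := Nat.mul_le_mul_right _ hgc
      _ = n * cZ * cX := by ring
  have e2 : 64 * K * (n * (cX * cX)) ≤ n * cZ * cX := by
    calc 64 * K * (n * (cX * cX)) = n * cX * (64 * K * cX) := by ring
      _ ≤ n * cX * cZ := Nat.mul_le_mul_left _ hXZ
      _ = n * cZ * cX := by ring
  have e3 : 64 * K * (n * cZ * ((2 * K + 1) * q)) ≤ n * cZ * cX := by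
    have : 64 * K * ((2 * K + 1) * q) ≤ cX := le_trans (Nat.mul_le_mul_left _ (by omega)) hX
    calc 64 * K * (n * cZ * ((2 * K + 1) * q)) = n * cZ * (64 * K * ((2 * K + 1) * q)) := by ring
      _ ≤ n * cZ * cX := Nat.mul_le_mul_left _ this
  have e4 : 16 * K * bad ≤ n * cZ * cX := by
    have : 64 * K * bad ≤ 4 * (n * cZ * cX) := by
      calc 64 * K * bad ≤ 64 * K * (2 * (gc * (cZ * cX)) + n * (cX * cX) +
            n * cZ * ((2 * K + 1) * q)) := Nat.mul_le_mul_left _ hbad
        _ = 2 * (64 * K * (gc * (cZ * cX))) + 64 * K * (n * (cX * cX)) +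
            64 * K * (n * cZ * ((2 * K + 1) * q)) := by ring
        _ ≤ 2 * (n * cZ * cX) + n * cZ * cX + n * cZ * cX := by omega
        _ = 4 * (n * cZ * cX) := by ring
    have h2 : 64 * K * bad = 4 * (16 * K * bad) := by ring
    omega
  have e5 : 15 * (n * cZ * cX) ≤ 16 * S := by
    have h1 : 16 * bad ≤ n * cZ * cX := by
      refine le_trans ?_ e4
      have : 16 * 1 * bad ≤ 16 * K * bad :=
        Nat.mul_le_mul_right _ (Nat.mul_le_mul_left _ hK)
      simpa using this
    omega
  have e6 : 225 * (n * cZ * cX) * (n * cZ * cX) ≤ 256 * (n * cZ * Q) := by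
    calc 225 * (n * cZ * cX) * (n * cZ * cX) = (15 * (n * cZ * cX)) * (15 * (n * cZ * cX)) := by
          ring
      _ ≤ (16 * S) * (16 * S) := Nat.mul_le_mul e5 e5
      _ = 256 * (S * S) := by ring
      _ ≤ 256 * (n * cZ * Q) := Nat.mul_le_mul_left _ hCS
  have e7 : 64 * K * (1 + 2 * q) ≤ cX := by
    refine le_trans ?_ hX
    refine Nat.mul_le_mul_left _ ?_
    have : 2 * q ≤ (2 * K + 1) * q := Nat.mul_le_mul_right _ (by omega)
    omega
  have e8 : 64 * (K * (n * cZ * (cX * (1 + 2 * q)))) ≤ n * cZ * cX * cX := by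
    calc 64 * (K * (n * cZ * (cX * (1 + 2 * q)))) = n * cZ * cX * (64 * K * (1 + 2 * q)) := by ring
      _ ≤ n * cZ * cX * cX := Nat.mul_le_mul_left _ e7
  rcases Nat.eq_zero_or_pos (n * cZ) with h0 | h0
  · have : n * (cX * (cX - 1)) * cZ = 0 := by
      rw [show n * (cX * (cX - 1)) * cZ = (n * cZ) * (cX * (cX - 1)) by ring, h0, Nat.zero_mul]
    rw [this]; simp
  · have e9 : 225 * (n * cZ * cX * cX) ≤ 256 * Q := by
      have h1 : (n * cZ) * (225 * (n * cZ * cX * cX)) ≤ (n * cZ) * (256 * Q) := by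
        calc (n * cZ) * (225 * (n * cZ * cX * cX)) = 225 * (n * cZ * cX) * (n * cZ * cX) := by ring
          _ ≤ 256 * (n * cZ * Q) := e6
          _ = (n * cZ) * (256 * Q) := by ring
      exact Nat.le_of_mul_le_mul_left h1 h0
    have e10 : Q ≤ K * B + K * (n * cZ * (cX * (1 + 2 * q))) := by
      rw [← Nat.mul_add]; exact hQ
    have e11 : n * (cX * (cX - 1)) * cZ ≤ n * cZ * cX * cX := by
      calc n * (cX * (cX - 1)) * cZ ≤ n * (cX * cX) * cZ :=
            Nat.mul_le_mul_right _ (Nat.mul_le_mul_left _ (Nat.mul_le_mul_left _ (by omega)))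
        _ = n * cZ * cX * cX := by ring
    have e12 : 4 * K * B = 4 * (K * B) := by ring
    rw [e12]
    generalize n * cZ * cX * cX = T at *
    generalize K * (n * cZ * (cX * (1 + 2 * q))) = U at *
    generalize K * B = V at *
    omega

end KeyAKProof

open KeyAKProof KeyAProof

open Classical in
theorem keyAK (hP : Plant2K_stmt) : KeyAK_stmt := by
  intro Ω X Z I W _ _ _ P q k K f e qf acc qa G A hkK hK h1 h2 h3 h4 h5 h6 h7 h8 h9 h10
  -- good points
  let S : Ω → Z → Finset X := fun ω z => univ.filter fun x => Good P f qf acc qa k G ω z x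
  let yq : Ω → Z → X → I := fun ω z x => f ω z (bans f acc ω z (col P f acc k ω z x))
  let Bp : Ω → Z → Finset (X × X) := fun ω z =>
    ((S ω z ×ˢ S ω z).filter fun t => col P f acc k ω z t.1 = col P f acc k ω z t.2).filter
      fun t => t.1 ≠ t.2 ∧ t.2 ∉ qw acc qa (P.pl ω t.1 z) (yq ω z t.1) ∧
        t.1 ∉ qw acc qa (P.pl ω t.2 z) (yq ω z t.2)
  let B : Finset (Ω × X × X × Z) := univ.filter fun t => (t.2.1, t.2.2.1) ∈ Bp t.1 t.2.2.2
  refine hP Ω X Z P A B K hK h10 ?_ ?_
  · rintro ⟨ω, x, x', z⟩ ht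
    have ht1 := (mem_filter.1 ht).2
    simp only [Bp, mem_filter, mem_product, S, mem_univ, true_and] at ht1
    obtain ⟨⟨⟨hg, hg'⟩, hc⟩, hne, hn1, hn2⟩ := ht1
    exact ⟨hne, ambiguous P h3 h4 h5 h6 hne hg hg' hc hn1 hn2⟩
  · set n := Fintype.card Ω with hn
    set cX := Fintype.card X with hcX
    set cZ := Fintype.card Z with hcZ
    -- pairs for fixed (ω, z)
    have hpair : ∀ ω z, (S ω z).card * (S ω z).card ≤ K * ((Bp ω z).card + cX * (1 + 2 * q)) := by
      intro ω z
      have g1 := pairs_ge (S ω z) (col P f acc k ω z) (k := k) (by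
        intro x hx
        have hx' := (mem_filter.1 hx).2
        exact (col_spec (exists_flip P h3 h4 h5 hx'.1 hx'.2.1 hx'.2.2.1 hx'.2.2.2)).1)
      refine g1.trans ((Nat.mul_le_mul_right _ hkK).trans (Nat.mul_le_mul_left _ ?_))
      set C := (S ω z ×ˢ S ω z).filter fun t => col P f acc k ω z t.1 = col P f acc k ω z t.2
        with hC
      let D1 := C.filter fun t => t.1 = t.2
      let D2 := C.filter fun t => t.2 ∈ qw acc qa (P.pl ω t.1 z) (yq ω z t.1)
      let D3 := C.filter fun t => t.1 ∈ qw acc qa (P.pl ω t.2 z) (yq ω z t.2)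
      have hcov : C ⊆ Bp ω z ∪ (D1 ∪ (D2 ∪ D3)) := by
        intro t ht
        simp only [mem_union, D1, D2, D3, Bp, mem_filter, ← hC, ht, true_and]
        tauto
      have hD1 : D1.card ≤ cX * 1 := card_snd_le (fun x => {x}) (fun x => by simp) D1 (by
        intro t ht
        have := (mem_filter.1 ht).2
        simp [this])
      have hD2 : D2.card ≤ cX * q := card_snd_le
        (fun x => qw acc qa (P.pl ω x z) (yq ω z x)) (fun x => qw_card h2 _ _) D2
        (fun t ht => (mem_filter.1 ht).2)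
      have hD3 : D3.card ≤ cX * q := card_fst_le
        (fun x => qw acc qa (P.pl ω x z) (yq ω z x)) (fun x => qw_card h2 _ _) D3
        (fun t ht => (mem_filter.1 ht).2)
      have hle := (card_le_card hcov).trans ((card_union_le _ _).trans (Nat.add_le_add_left
        ((card_union_le _ _).trans (Nat.add_le_add_left (card_union_le _ _) _)) _))
      have hx : cX * (1 + 2 * q) = cX * 1 + (cX * q + cX * q) := by ring
      omega
    have hBcard : B.card = ∑ t : Ω × Z, (Bp t.1 t.2).card := by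
      have hh : B.card = ∑ t : Ω × Z, (B.filter fun s => (s.1, s.2.2.2) = t).card := by
        rw [card_eq_sum_card_fiberwise (f := fun s : Ω × X × X × Z => (s.1, s.2.2.2))
          (t := (univ : Finset (Ω × Z)))]
        intro s _
        exact mem_coe.2 (mem_univ _)
      rw [hh]
      refine sum_congr rfl ?_
      rintro ⟨ω, z⟩ _
      refine card_nbij' (fun s => (s.2.1, s.2.2.1)) (fun e => (ω, e.1, e.2, z)) ?_ ?_ ?_ ?_
      · rintro ⟨ω', x, x', z'⟩ hs
        obtain ⟨hs1, hs2⟩ := mem_filter.1 (mem_coe.1 hs)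
        simp only [Prod.mk.injEq] at hs2
        obtain ⟨rfl, rfl⟩ := hs2
        exact mem_coe.2 (mem_filter.1 hs1).2
      · rintro ⟨x, x'⟩ hs
        exact mem_coe.2 (mem_filter.2 ⟨mem_filter.2 ⟨mem_univ _, mem_coe.1 hs⟩, rfl⟩)
      · rintro ⟨ω', x, x', z'⟩ hs
        obtain ⟨_, hs2⟩ := mem_filter.1 (mem_coe.1 hs)
        simp only [Prod.mk.injEq] at hs2
        obtain ⟨rfl, rfl⟩ := hs2
        rfl
      · rintro ⟨x, x'⟩ _
        rfl
    have hQ : ∑ t : Ω × Z, (S t.1 t.2).card ^ 2 ≤ K * (B.card + n * cZ * (cX * (1 + 2 * q))) := by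
      calc ∑ t : Ω × Z, (S t.1 t.2).card ^ 2
          ≤ ∑ t : Ω × Z, K * ((Bp t.1 t.2).card + cX * (1 + 2 * q)) := by
            refine sum_le_sum fun t _ => ?_
            rw [sq]
            exact hpair _ _
        _ = K * (B.card + n * cZ * (cX * (1 + 2 * q))) := by
            rw [← mul_sum, sum_add_distrib, ← hBcard, sum_const, card_univ, Fintype.card_prod,
              smul_eq_mul]
    have hCS : (∑ t : Ω × Z, (S t.1 t.2).card) * (∑ t : Ω × Z, (S t.1 t.2).card) ≤
        n * cZ * ∑ t : Ω × Z, (S t.1 t.2).card ^ 2 := by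
      have := sq_sum_le_card_mul_sum_sq (s := (univ : Finset (Ω × Z)))
        (f := fun t => (S t.1 t.2).card)
      rw [card_univ, Fintype.card_prod, sq] at this
      exact this
    -- bad triples
    let N : Finset (Ω × Z × X) := univ.filter fun t => ¬ Good P f qf acc qa k G t.1 t.2.1 t.2.2
    have htot : n * cZ * cX ≤ (∑ t : Ω × Z, (S t.1 t.2).card) + N.card := by
      have e1 : (∑ t : Ω × Z, (S t.1 t.2).card) =
          ((univ : Finset (Ω × Z × X)).filter fun t => Good P f qf acc qa k G t.1 t.2.1 t.2.2).card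
          := by
        rw [card_eq_sum_card_fiberwise (f := fun s : Ω × Z × X => (s.1, s.2.1))
          (t := (univ : Finset (Ω × Z)))]
        · refine sum_congr rfl ?_
          rintro ⟨ω, z⟩ _
          refine card_nbij' (fun x => (ω, z, x)) (fun s => s.2.2) ?_ ?_ ?_ ?_
          · intro x hx
            have hx' := (mem_filter.1 (mem_coe.1 hx)).2
            refine mem_coe.2 (mem_filter.2 ⟨mem_filter.2 ⟨mem_univ _, hx'⟩, rfl⟩)
          · rintro ⟨ω', z', x⟩ hs
            obtain ⟨hs1, hs2⟩ := mem_filter.1 (mem_coe.1 hs)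
            simp only [Prod.mk.injEq] at hs2
            obtain ⟨rfl, rfl⟩ := hs2
            exact mem_coe.2 (mem_filter.2 ⟨mem_univ _, (mem_filter.1 hs1).2⟩)
          · intro x _; rfl
          · rintro ⟨ω', z', x⟩ hs
            obtain ⟨_, hs2⟩ := mem_filter.1 (mem_coe.1 hs)
            simp only [Prod.mk.injEq] at hs2
            obtain ⟨rfl, rfl⟩ := hs2
            rfl
        · intro s _
          exact mem_coe.2 (mem_univ _)
      rw [e1]
      have e2 := card_filter_add_card_filter_not (s := (univ : Finset (Ω × Z × X)))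
        (fun t => Good P f qf acc qa k G t.1 t.2.1 t.2.2)
      rw [card_univ, Fintype.card_prod, Fintype.card_prod] at e2
      rw [mul_assoc]
      exact e2.ge
    have hGc : 64 * K * (Gᶜ).card ≤ n := by
      have e1 := card_add_card_compl G
      have e2 : 64 * K * G.card + 64 * K * (Gᶜ).card = 64 * K * n := by
        rw [← Nat.mul_add, e1]
      have e3 : (64 * K - 1) * n + n = 64 * K * n := by
        rw [← Nat.succ_mul]
        congr 1
        have : 1 ≤ 64 * K := by omega
        omega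
      omega
    have hbad : N.card ≤ 2 * ((Gᶜ).card * (cZ * cX)) + n * (cX * cX) +
        n * cZ * ((2 * K + 1) * q) := by
      let N1 : Finset (Ω × Z × X) := univ.filter fun t => t.1 ∉ G
      let N2 : Finset (Ω × Z × X) := univ.filter fun t => P.pl t.1 t.2.2 t.2.1 ∉ G
      let N3 : Finset (Ω × Z × X) := univ.filter fun t => ∃ x0, P.val t.1 x0 = t.2.1
      let N4 : Finset (Ω × Z × X) := univ.filter fun t => t.2.2 ∈ QS f qf acc qa k t.1 t.2.1
      have hcov : N ⊆ N1 ∪ (N2 ∪ (N3 ∪ N4)) := by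
        intro t ht
        have ht' := (mem_filter.1 ht).2
        simp only [mem_union, N1, N2, N3, N4, mem_filter, mem_univ, true_and]
        unfold Good at ht'
        tauto
      have hN1 : N1.card ≤ (Gᶜ).card * (cZ * cX) := by
        have h := card_le_card_of_injOn (s := N1)
          (t := Gᶜ ×ˢ ((univ : Finset Z) ×ˢ (univ : Finset X))) (fun t => t) ?_ ?_
        · rwa [card_product, card_product, card_univ, card_univ] at h
        · rintro ⟨ω, z, x⟩ ht
          have ht' := (mem_filter.1 (mem_coe.1 ht)).2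
          refine mem_coe.2 (mem_product.2 ⟨mem_compl.2 ht', mem_product.2 ⟨mem_univ _, mem_univ _⟩⟩)
        · intro a _ b _ hab
          exact hab
      have hN2 : N2.card ≤ (Gᶜ).card * (cZ * cX) := by
        have h := card_le_card_of_injOn (s := N2)
          (t := Gᶜ ×ˢ ((univ : Finset Z) ×ˢ (univ : Finset X)))
          (fun t => (P.pl t.1 t.2.2 t.2.1, P.val t.1 t.2.2, t.2.2)) ?_ ?_
        · rwa [card_product, card_product, card_univ, card_univ] at h
        · rintro ⟨ω, z, x⟩ ht
          have ht' := (mem_filter.1 (mem_coe.1 ht)).2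
          refine mem_coe.2 (mem_product.2 ⟨mem_compl.2 ht', mem_product.2 ⟨mem_univ _, mem_univ _⟩⟩)
        · rintro ⟨ω, z, x⟩ _ ⟨ω', z', x'⟩ _ hab
          simp only [Prod.mk.injEq] at hab ⊢
          obtain ⟨e1, e2, rfl⟩ := hab
          have e4 : ω = ω' := by rw [← pl_back P ω x z, ← pl_back P ω' x z', e1, e2]
          have e5 : z = z' := by rw [← P.val_same ω x z, ← P.val_same ω' x z', e1]
          exact ⟨e4, e5, rfl⟩
      have hN3 : N3.card ≤ n * (cX * cX) := by
        have hsub : N3 ⊆ (univ : Finset (Ω × X × X)).image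
            (fun t => (t.1, P.val t.1 t.2.1, t.2.2)) := by
          rintro ⟨ω, z, x⟩ ht
          obtain ⟨x0, hx0⟩ := (mem_filter.1 ht).2
          simp only at hx0
          exact mem_image.2 ⟨(ω, x0, x), mem_univ _, by simp [hx0]⟩
        refine (card_le_card hsub).trans (card_image_le.trans ?_)
        rw [card_univ, Fintype.card_prod, Fintype.card_prod]
      have hN4 : N4.card ≤ n * cZ * ((2 * K + 1) * q) := by
        have h := card_fib N4 (univ : Finset (Ω × Z)) (fun t => (t.1, t.2.1)) ((2 * K + 1) * q)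
          (fun _ _ => mem_univ _) (fun b => QS f qf acc qa k b.1 b.2)
          (fun b => QS_card hkK h1 h2 _ _) (fun t => t.2.2) (fun t ht => (mem_filter.1 ht).2) (by
            rintro ⟨ω, z, x⟩ _ ⟨ω', z', x'⟩ _ e1 e2
            simp only [Prod.mk.injEq] at e1 e2 ⊢
            exact ⟨e1.1, e1.2, e2⟩)
        rw [card_univ, Fintype.card_prod, mul_comm] at h
        exact h
      have hle := (card_le_card hcov).trans ((card_union_le _ _).trans (Nat.add_le_add_left
        ((card_union_le _ _).trans (Nat.add_le_add_left (card_union_le _ _) _)) _))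
      omega
    exact arith hK hGc hbad htot hCS hQ h8 h9

end Pool.Agent.Lib.RO
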