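import Pool.Agent.Lib.RO.Stage

/-!
# Project RO, module KEYB: the key inequality for proof systems
-/

set_option autoImplicit false

namespace Pool.Agent.Lib.RO

open Pool.Agent.PolyTime Pool.Agent.Lib.MP_d5150c_lc Pool.Agent.Lib.MP_f0c157_lc

open Classical in
theorem keyB (hP2 : Plant2_stmt) : KeyB_stmt := by
  intro Ω X Z W _ _ _ P q pr qp G A hq hpl hG hA h63 h128 hXZ
  -- the chosen proofs
  have hch : ∀ ω, ∃ w : Option W, ω ∈ G → ∃ v, w = some v ∧ pr ω v := by
    intro ω
    by_cases h : ω ∈ G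
    · obtain ⟨v, hv⟩ := hG ω h
      exact ⟨some v, fun _ => ⟨v, rfl, hv⟩⟩
    · exact ⟨none, fun h' => absurd h' h⟩
  choose Wt hWt using hch
  let Q : Ω → Finset X := fun ω => (Wt ω).elim ∅ (qp ω)
  have hQ : ∀ ω, (Q ω).card ≤ q := by
    intro ω
    show ((Wt ω).elim ∅ (qp ω)).card ≤ q
    cases Wt ω with
    | none => simp
    | some v => exact hq ω v
  let B : Finset (Ω × X × X × Z) := Finset.univ.filter fun t =>
    t.1 ∈ G ∧ t.2.1 ≠ t.2.2.1 ∧ t.2.1 ∉ Q t.1 ∧ t.2.2.1 ∉ Q t.1
  refine hP2 Ω X Z P A B hXZ ?_ ?_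
  · rintro ⟨ω, x, x', z⟩ ht
    obtain ⟨-, h1, h2, h3, h4⟩ := Finset.mem_filter.1 ht
    simp only at h1 h2 h3 h4
    refine ⟨h2, ?_⟩
    obtain ⟨v, hv, hpv⟩ := hWt ω h1
    have hQv : Q ω = qp ω v := by
      show (Wt ω).elim ∅ (qp ω) = _
      rw [hv]; rfl
    rw [hQv] at h3 h4
    obtain ⟨h5, h6⟩ := hpl ω v x z h3
    have h7 : x' ∉ qp (P.pl ω x z) v := by rw [h6]; exact h4
    obtain ⟨h8, -⟩ := hpl (P.pl ω x z) v x' z h7
    refine hA _ v x x' h2 ?_ (h8.2 (h5.2 hpv))
    rw [P.val_same, P.val_ne _ _ _ _ h2, P.val_same]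
  · -- counting
    have hcard : ∀ ω ∈ G, 127 * 127 * (Fintype.card X * (Fintype.card X - 1)) ≤
        128 * 128 * ((Finset.univ \ Q ω).offDiag).card := by
      intro ω _
      rw [Finset.offDiag_card]
      set N := (Finset.univ \ Q ω).card with hN
      have h1 : Fintype.card X ≤ N + q := by
        have h2 : (Finset.univ : Finset X).card ≤ (Finset.univ \ Q ω).card + (Q ω).card :=
          Finset.card_le_card_sdiff_add_card
        rw [Finset.card_univ] at h2
        exact h2.trans (Nat.add_le_add_left (hQ ω) _)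
      have h3 : 127 * Fintype.card X ≤ 128 * N := by omega
      have h4 : 127 * (Fintype.card X - 1) ≤ 128 * (N - 1) := by omega
      have h5 : N * N - N = N * (N - 1) := by
        rw [Nat.mul_sub, Nat.mul_one]
      rw [h5]
      calc 127 * 127 * (Fintype.card X * (Fintype.card X - 1))
          = (127 * Fintype.card X) * (127 * (Fintype.card X - 1)) := by ring
        _ ≤ (128 * N) * (128 * (N - 1)) := Nat.mul_le_mul h3 h4
        _ = _ := by ring
    let T : Finset (Σ _ : Ω, (X × X) × Z) :=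
      G.sigma fun ω => (Finset.univ \ Q ω).offDiag ×ˢ (Finset.univ : Finset Z)
    have hT : T.card ≤ B.card := by
      refine Finset.card_le_card_of_injOn (fun t => (t.1, t.2.1.1, t.2.1.2, t.2.2)) ?_ ?_
      · rintro ⟨ω, ⟨x, x'⟩, z⟩ ht
        have ht' : ω ∈ G ∧ ((x, x'), z) ∈ (Finset.univ \ Q ω).offDiag ×ˢ (Finset.univ : Finset Z) :=
          Finset.mem_sigma.1 ht
        obtain ⟨h1, h2⟩ := ht'
        rw [Finset.mem_product, Finset.mem_offDiag] at h2
        obtain ⟨⟨h3, h4, h5⟩, -⟩ := h2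
        simp only [Finset.mem_sdiff, Finset.mem_univ, true_and] at h3 h4
        show (ω, x, x', z) ∈ B
        exact Finset.mem_filter.2 ⟨Finset.mem_univ _, h1, h5, h3, h4⟩
      · rintro ⟨ω, ⟨x, x'⟩, z⟩ _ ⟨ω', ⟨y, y'⟩, z'⟩ _ h
        simp only [Prod.mk.injEq] at h
        obtain ⟨rfl, rfl, rfl, rfl⟩ := h
        rfl
    have hTc : T.card = (∑ ω ∈ G, ((Finset.univ \ Q ω).offDiag).card) * Fintype.card Z := by
      rw [Finset.card_sigma, Finset.sum_mul]
      refine Finset.sum_congr rfl fun ω _ => ?_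
      rw [Finset.card_product, Finset.card_univ]
    have hsum : G.card * (127 * 127 * (Fintype.card X * (Fintype.card X - 1))) ≤
        128 * 128 * ∑ ω ∈ G, ((Finset.univ \ Q ω).offDiag).card := by
      rw [Finset.mul_sum, ← smul_eq_mul, ← Finset.sum_const]
      exact Finset.sum_le_sum hcard
    set a := Fintype.card X * (Fintype.card X - 1)
    set S := ∑ ω ∈ G, ((Finset.univ \ Q ω).offDiag).card
    set o := Fintype.card Ω
    set zc := Fintype.card Z
    have h1 : 63 * o * (127 * 127 * a) ≤ 64 * (128 * 128 * S) := by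
      calc 63 * o * (127 * 127 * a) ≤ 64 * G.card * (127 * 127 * a) := Nat.mul_le_mul_right _ h63
        _ = 64 * (G.card * (127 * 127 * a)) := by ring
        _ ≤ _ := Nat.mul_le_mul_left _ hsum
    have h2 : 3 * (o * a) ≤ 4 * S := by
      have h3 : 63 * o * (127 * 127 * a) = 1016127 * (o * a) := by ring
      have h4 : 64 * (128 * 128 * S) = 1048576 * S := by ring
      rw [h3, h4] at h1
      omega
    calc 3 * (o * a * zc) = 3 * (o * a) * zc := by ring
      _ ≤ 4 * S * zc := Nat.mul_le_mul_right _ h2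
      _ = 4 * (S * zc) := by ring
      _ = 4 * T.card := by rw [hTc]
      _ ≤ 4 * B.card := Nat.mul_le_mul_left _ hT

end Pool.Agent.Lib.RO
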