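import Pool.Agent.Lib.RO.KeyUP

/-!
# Project RO: the key inequality for tables, proof systems
-/

set_option autoImplicit false

namespace Pool.Agent.Lib.RO

open Pool.Agent.PolyTime Pool.Agent.Lib.MP_d5150c_lc Pool.Agent.Lib.MP_f0c157_lc
open N487b59b3 N68a2faeb N793a5b8e MeasureTheory

open KeyTab in
theorem keyPS (hB : KeyB_stmt) (hT : Tab_stmt) (hR : Run_stmt) (hG : Grow_stmt) : KeyPS_stmt := by
  classical
  intro P h hP hh
  obtain ⟨qP, bP, hbP, hP1, hP2, hP3, hP4⟩ := hR _ _ P hP
  obtain ⟨qh, bh, hbh, hh1, hh2, hh3, hh4⟩ := hR _ _ h hh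
  let b : ℕ → ℕ := fun m => bP (4 * m + 1) + bh m
  have hb : PB b := (hbP.comp (((PB.const 4).mul PB.id).add (PB.const 1))).add hbh
  obtain ⟨n0, hn0⟩ := hG b hb 128
  refine ⟨max n0 5, fun n hn t ht1 htn s hs H hH hH1 => ?_⟩
  have hn5 : 5 ≤ n := le_trans (le_max_right _ _) hn
  obtain ⟨hg1, hg2⟩ := hn0 n (le_trans (le_max_left _ _) hn)
  set l := ell n t with hl
  have hl3 : l ≤ 3 * n := by rw [hl]; unfold ell; omega
  obtain ⟨Q, hQ1, hQ2⟩ := hT n l s hs (by
    have := four_mul_lt hn5
    omega)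
  set M := 128 * (2 ^ Nat.sqrt n + 4 * n + 128) with hM
  set a := inp n (List.replicate l true) with ha
  have hM1 : 2 ^ Nat.sqrt n ≤ M := by omega
  have hsz : size a ≤ M := by
    refine (size_inp_le _ _).trans ?_
    rw [List.length_replicate]
    omega
  have hq : ∀ u w : List Bool, w.length ≤ 2 ^ Nat.sqrt n →
      (qP (orc u) w ++ qh (orc u) a).length ≤ b M := by
    intro u w hw
    have h1 := hP1 (orc u) w
    have h2 := hh1 (orc u) a
    have h3 := Pool.Agent.Lib.MP_f0c157_lc.size_bits_le w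
    have h4 := hbP.mono (show size w ≤ 4 * M + 1 by omega)
    have h5 := hbh.mono hsz
    rw [List.length_append]
    show _ ≤ bP (4 * M + 1) + bh M
    omega
  have hX : Fintype.card (List.Vector Bool n) = 2 ^ n := by
    rw [card_vector, Fintype.card_bool]
  have hZ : Fintype.card (List.Vector Bool l) = 2 ^ l := by
    rw [card_vector, Fintype.card_bool]
  obtain ⟨hXZ1, hXZ2⟩ := card_XZ (n := n) (t := t) (by omega) ht1
  let qs : List Bool → List Bool → List (List Bool) := fun u w => qP (orc u) w ++ qh (orc u) a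
  have key := hB (Tb s n) (List.Vector Bool n) (List.Vector Bool l) (List Bool) Q (b M)
    (fun u w => w.length ≤ 2 ^ Nat.sqrt n ∧ P (orc u.1) w = h (orc u.1) a)
    (fun u w => if w.length ≤ 2 ^ Nat.sqrt n then locset n l (qs u.1 w) else ∅)
    (Finset.univ.filter fun u => u.1 ∈ H)
    (Finset.univ.filter fun u => BadPS P h n u.1 = true)
    (by
      intro u w
      by_cases hc : w.length ≤ 2 ^ Nat.sqrt n
      · show (if w.length ≤ 2 ^ Nat.sqrt n then locset n l (qs u.1 w) else ∅).card ≤ _
        rw [if_pos hc]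
        exact (card_locset _ _ _).trans (hq u.1 w hc)
      · show (if w.length ≤ 2 ^ Nat.sqrt n then locset n l (qs u.1 w) else ∅).card ≤ _
        rw [if_neg hc]
        simp)
    (by
      intro u w x z' hx
      by_cases hc : w.length ≤ 2 ^ Nat.sqrt n
      · have hx' : x ∉ locset n l (qs u.1 w) := by
          have hx2 : x ∉ (if w.length ≤ 2 ^ Nat.sqrt n then locset n l (qs u.1 w) else ∅) := hx
          rwa [if_pos hc] at hx2
        have h1 := hP4 (orc u.1) (orc (Q.pl u x z').1) w (fun v hv =>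
          hQ2 u x z' v (not_loc hx' (List.mem_append_left _ hv)))
        have h2 := hh4 (orc u.1) (orc (Q.pl u x z').1) a (fun v hv =>
          hQ2 u x z' v (not_loc hx' (List.mem_append_right _ hv)))
        refine ⟨?_, ?_⟩
        · show (w.length ≤ 2 ^ Nat.sqrt n ∧ P (orc (Q.pl u x z').1) w =
              h (orc (Q.pl u x z').1) a) ↔
            (w.length ≤ 2 ^ Nat.sqrt n ∧ P (orc u.1) w = h (orc u.1) a)
          rw [h1.1, h2.1]
        · show (if w.length ≤ 2 ^ Nat.sqrt n then locset n l
              (qP (orc (Q.pl u x z').1) w ++ qh (orc (Q.pl u x z').1) a) else ∅) =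
            (if w.length ≤ 2 ^ Nat.sqrt n then locset n l (qP (orc u.1) w ++ qh (orc u.1) a)
              else ∅)
          rw [h1.2, h2.2]
      · refine ⟨?_, ?_⟩
        · exact ⟨fun h1 => absurd h1.1 hc, fun h1 => absurd h1.1 hc⟩
        · show (if w.length ≤ 2 ^ Nat.sqrt n then locset n l (qs (Q.pl u x z').1 w) else ∅) =
            (if w.length ≤ 2 ^ Nat.sqrt n then locset n l (qs u.1 w) else ∅)
          rw [if_neg hc, if_neg hc])
    (by
      intro u hu
      obtain ⟨w, hw1, hw2⟩ := (hH u.1 (Finset.mem_filter.1 hu).2).2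
      exact ⟨w, hw1, hw2⟩)
    (by
      intro u w x x' hxx hv hw
      refine Finset.mem_filter.2 ⟨Finset.mem_univ _, ?_⟩
      have hy := sqrt_pow_lt (n := n) (by omega)
      have hcoll : Coll (orc u.1) n l := by
        refine ⟨x.1, x'.1, x.2, x'.2, fun he => hxx (Subtype.ext he), ?_⟩
        rw [← hQ1, ← hQ1, hv]
      have hw1 : w.length ≤ 2 ^ Nat.sqrt n := hw.1
      unfold BadPS
      simp only [Bool.and_eq_true, decide_eq_true_eq, List.any_eq_true, mem_shorts,
        List.mem_range]
      exact ⟨mem_exts_length hs u.2, l, by omega, w, by omega, ⟨hw1, hw.2⟩,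
        collB_iff.2 hcoll⟩)
    (by
      rw [card_tb, card_tb_mem s n H (fun u hu => (hH u hu).1)]
      exact hH1)
    (by
      rw [hX]
      omega)
    (by
      rw [hX, hZ]
      exact hXZ2)
  rw [hX, hZ, card_tb, card_tb_filter] at key
  exact final_ineq (by omega) key

end Pool.Agent.Lib.RO
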