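import Pool.Agent.Lib.RO.Basic

/-!
# Project RO: the key inequality for tables, unambiguous verifiers
-/

set_option autoImplicit false

namespace Pool.Agent.Lib.RO

open Pool.Agent.PolyTime Pool.Agent.Lib.MP_d5150c_lc Pool.Agent.Lib.MP_f0c157_lc
open N487b59b3 N68a2faeb N793a5b8e MeasureTheory

namespace KeyTab

/-- the strings of length `n` whose places occur in a list of queries -/
def locset (n l : ℕ) (qs : List (List Bool)) : Finset (List.Vector Bool n) :=
  Finset.univ.filter fun x => ∃ j < l, loc x.1 j ∈ qs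

theorem mem_locset {n l : ℕ} {qs : List (List Bool)} {x : List.Vector Bool n} :
    x ∈ locset n l qs ↔ ∃ j < l, loc x.1 j ∈ qs := by
  simp [locset]

theorem card_locset (n l : ℕ) (qs : List (List Bool)) : (locset n l qs).card ≤ qs.length := by
  classical
  have h : ∀ x : List.Vector Bool n, x ∈ locset n l qs → ∃ j, j < l ∧ loc x.1 j ∈ qs := by
    intro x hx
    obtain ⟨j, hj, h⟩ := mem_locset.1 hx
    exact ⟨j, hj, h⟩
  let g : List.Vector Bool n → List Bool := fun x =>
    if hx : x ∈ locset n l qs then loc x.1 (Classical.choose (h x hx)) else []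
  refine le_trans ?_ (List.toFinset_card_le qs)
  refine Finset.card_le_card_of_injOn g ?_ ?_
  · intro x hx
    have hx' : x ∈ locset n l qs := hx
    have h1 : g x = loc x.1 (Classical.choose (h x hx')) := dif_pos hx'
    rw [h1]
    exact List.mem_toFinset.2 (Classical.choose_spec (h x hx')).2
  · intro x hx x' hx' hg
    have hx1 : x ∈ locset n l qs := hx
    have hx2 : x' ∈ locset n l qs := hx'
    have h1 : g x = loc x.1 (Classical.choose (h x hx1)) := dif_pos hx1
    have h2 : g x' = loc x'.1 (Classical.choose (h x' hx2)) := dif_pos hx2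
    rw [h1, h2] at hg
    exact Subtype.ext (loc_inj (by rw [x.2, x'.2]) hg).1

theorem not_loc {n l : ℕ} {qs : List (List Bool)} {x : List.Vector Bool n}
    (h : x ∉ locset n l qs) {v : List Bool} (hv : v ∈ qs) : ∀ j < l, v ≠ loc x.1 j := by
  intro j hj he
  exact h (mem_locset.2 ⟨j, hj, he ▸ hv⟩)

/-- the tables extending `s` -/
abbrev Tb (s : List Bool) (n : ℕ) : Type := {u : List Bool // u ∈ exts s (gap n)}

instance tbFintype (s : List Bool) (n : ℕ) : Fintype (Tb s n) :=
  Fintype.subtype (exts s (gap n)).toFinset fun _ => List.mem_toFinset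

theorem card_tb (s : List Bool) (n : ℕ) : Fintype.card (Tb s n) = 2 ^ gap n := by
  rw [← exts_length s (gap n), ← List.toFinset_card_of_nodup (exts_nodup s (gap n))]
  exact Fintype.subtype_card _ _

theorem card_tb_filter (s : List Bool) (n : ℕ) (b : List Bool → Bool) :
    (Finset.univ.filter fun u : Tb s n => b u.1 = true).card =
      ((exts s (gap n)).filter b).length := by
  rw [← List.toFinset_card_of_nodup ((exts_nodup s (gap n)).filter _)]
  refine Finset.card_bij (fun u _ => u.1) ?_ ?_ ?_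
  · intro u hu
    rw [List.mem_toFinset, List.mem_filter]
    exact ⟨u.2, (Finset.mem_filter.1 hu).2⟩
  · intro u _ u' _ h
    exact Subtype.ext h
  · intro v hv
    rw [List.mem_toFinset, List.mem_filter] at hv
    exact ⟨⟨v, hv.1⟩, Finset.mem_filter.2 ⟨Finset.mem_univ _, hv.2⟩, rfl⟩

theorem card_tb_mem (s : List Bool) (n : ℕ) (H : Finset (List Bool))
    (hH : ∀ u ∈ H, u ∈ exts s (gap n)) :
    (Finset.univ.filter fun u : Tb s n => u.1 ∈ H).card = H.card := by
  refine Finset.card_bij (fun u _ => u.1) ?_ ?_ ?_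
  · intro u hu
    exact (Finset.mem_filter.1 hu).2
  · intro u _ u' _ h
    exact Subtype.ext h
  · intro v hv
    exact ⟨⟨v, hH v hv⟩, Finset.mem_filter.2 ⟨Finset.mem_univ _, hv⟩, rfl⟩

/-- the final computation -/
theorem final_ineq {n t g a : ℕ} (hn : 2 ≤ n)
    (h : 5 * (2 ^ n * (2 ^ n - 1)) * g ≤ 24 * 2 ^ ell n t * a) : g ≤ 4 * 2 ^ t * a := by
  have h1 : 2 * 2 ^ ell n t = 2 ^ n * 2 ^ n * 2 ^ t := by
    unfold ell
    rw [← pow_succ', ← pow_add, ← pow_add]
    congr 1
    omega
  have h2 : 4 ≤ 2 ^ n := by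
    calc 4 = 2 ^ 2 := by norm_num
      _ ≤ 2 ^ n := Nat.pow_le_pow_right (by omega) hn
  obtain ⟨m, hm⟩ : ∃ m, 2 ^ n = m + 1 := ⟨2 ^ n - 1, by omega⟩
  rw [hm] at h h1 h2
  rw [Nat.add_sub_cancel] at h
  have h3 : (m + 1) * (5 * m * g) ≤ (m + 1) * (12 * (m + 1) * 2 ^ t * a) := by
    calc (m + 1) * (5 * m * g) = 5 * ((m + 1) * m) * g := by ring
      _ ≤ 24 * 2 ^ ell n t * a := h
      _ = 12 * (2 * 2 ^ ell n t) * a := by ring
      _ = 12 * ((m + 1) * (m + 1) * 2 ^ t) * a := by rw [h1]
      _ = _ := by ring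
  have h4 : 5 * m * g ≤ 12 * (m + 1) * 2 ^ t * a := Nat.le_of_mul_le_mul_left h3 (by omega)
  have h5 : 3 * (m + 1) * g ≤ 5 * m * g := Nat.mul_le_mul_right _ (by omega)
  have h6 : (3 * (m + 1)) * g ≤ (3 * (m + 1)) * (4 * 2 ^ t * a) := by
    calc (3 * (m + 1)) * g ≤ 12 * (m + 1) * 2 ^ t * a := h5.trans h4
      _ = _ := by ring
  exact Nat.le_of_mul_le_mul_left h6 (by omega)

theorem card_XZ {n t : ℕ} (hn : 4 ≤ n) (ht : 1 ≤ t) :
    16 * 2 ^ n ≤ 2 ^ ell n t ∧ 2 ^ n * (2 ^ n - 1) ≤ 2 ^ ell n t := by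
  constructor
  · calc 16 * 2 ^ n = 2 ^ (n + 4) := by rw [pow_add]; ring
      _ ≤ _ := Nat.pow_le_pow_right (by omega) (by unfold ell; omega)
  · calc 2 ^ n * (2 ^ n - 1) ≤ 2 ^ n * 2 ^ n := Nat.mul_le_mul_left _ (Nat.sub_le _ _)
      _ = 2 ^ (n + n) := by rw [pow_add]
      _ ≤ _ := Nat.pow_le_pow_right (by omega) (by unfold ell; omega)

theorem four_mul_lt {n : ℕ} (hn : 5 ≤ n) : 4 * n < 2 ^ n := by
  induction n, hn using Nat.le_induction with
  | base => norm_num
  | succ n hn ih => rw [pow_succ]; omega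

theorem sqrt_pow_lt {n : ℕ} (hn : 2 ≤ n) : 2 ^ Nat.sqrt n < 2 ^ n :=
  Nat.pow_lt_pow_right (by omega) (Nat.sqrt_lt_self (by omega))

end KeyTab

open KeyTab in
theorem keyUP (hA : KeyA_stmt) (hT : Tab_stmt) (hR : Run_stmt) (hG : Grow_stmt) : KeyUP_stmt := by
  classical
  intro V p f hV hf
  obtain ⟨qrf, bf, hbf, hf1, hf2, hf3, hf4⟩ := hR _ _ f hf
  obtain ⟨qrV, bV, hbV, hV1, hV2, hV3, hV4⟩ := hR _ _ V hV
  have hp : PB fun m => p.eval m := ⟨fun _ _ h => poly_mono p h, p, fun _ => le_rfl⟩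
  let b : ℕ → ℕ := fun m => bf m + bV (4 * m + 4 * p.eval m + 3) + p.eval m
  have hb : PB b :=
    (hbf.add (hbV.comp ((((PB.const 4).mul PB.id).add ((PB.const 4).mul hp)).add
      (PB.const 3)))).add hp
  obtain ⟨n0, hn0⟩ := hG b hb 128
  refine ⟨max n0 5, fun n hn t ht1 htn s hs H hH hH1 => ?_⟩
  have hn5 : 5 ≤ n := le_trans (le_max_right _ _) hn
  obtain ⟨hg1, hg2⟩ := hn0 n (le_trans (le_max_left _ _) hn)
  set l := ell n t with hl
  have hl3 : l ≤ 3 * n := by rw [hl]; unfold ell; omega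
  obtain ⟨P, hP1, hP2⟩ := hT n l s hs (by
    have := four_mul_lt hn5
    omega)
  set M := 128 * (2 ^ Nat.sqrt n + 4 * n + 128) with hM
  -- bounds
  have hsz : ∀ z : List.Vector Bool l, size (inp n z.1) ≤ 128 * (4 * n + 128) := by
    intro z
    refine (size_inp_le _ _).trans ?_
    rw [z.2]
    omega
  have hbM : bf (128 * (4 * n + 128)) ≤ b (128 * (4 * n + 128)) := by
    show _ ≤ bf _ + bV _ + p.eval _
    omega
  have hq1 : ∀ (u : List Bool) (z : List.Vector Bool l),
      (qrf (orc u) (inp n z.1)).length ≤ b M := by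
    intro u z
    have h1 := hf1 (orc u) (inp n z.1)
    have h2 := hbf.mono (hsz z)
    have h3 : b (128 * (4 * n + 128)) ≤ b M := hb.mono (by omega)
    omega
  have hlen : ∀ (u : List Bool) (z : List.Vector Bool l),
      (f (orc u) (inp n z.1)).length ≤ 2 ^ Nat.sqrt n := by
    intro u z
    have h0 := length_le_size (f (orc u) (inp n z.1))
    have h1 := hf3 (orc u) (inp n z.1)
    have h2 := hbf.mono (hsz z)
    omega
  have hM1 : 2 ^ Nat.sqrt n ≤ M := by omega
  have hq2 : ∀ (u y w : List Bool), y.length ≤ 2 ^ Nat.sqrt n → w.length ≤ p.eval y.length →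
      (qrV (orc u) (y, w)).length ≤ b M := by
    intro u y w hy hw
    have h1 := hV1 (orc u) (y, w)
    have h2 := Pool.Agent.Lib.MP_f0c157_lc.size_bits_le y
    have h3 := Pool.Agent.Lib.MP_f0c157_lc.size_bits_le w
    have h4 : p.eval y.length ≤ p.eval M := poly_mono p (hy.trans hM1)
    have h5 : size (y, w) ≤ 4 * M + 4 * p.eval M + 3 := by
      rw [size_prod]
      omega
    have h6 := hbV.mono h5
    show _ ≤ bf M + bV (4 * M + 4 * p.eval M + 3) + p.eval M
    omega
  have hpM : p.eval M ≤ b M := by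
    show _ ≤ bf M + bV (4 * M + 4 * p.eval M + 3) + p.eval M
    omega
  have hX : Fintype.card (List.Vector Bool n) = 2 ^ n := by
    rw [card_vector, Fintype.card_bool]
  have hZ : Fintype.card (List.Vector Bool l) = 2 ^ l := by
    rw [card_vector, Fintype.card_bool]
  obtain ⟨hXZ1, hXZ2⟩ := card_XZ (n := n) (t := t) (by omega) ht1
  -- the data
  let cond : List Bool → List Bool → Prop := fun y w =>
    y.length ≤ 2 ^ Nat.sqrt n ∧ w.length ≤ p.eval y.length
  have key := hA (Tb s n) (List.Vector Bool n) (List.Vector Bool l) (List Bool) (List Bool) P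
    (b M) (fun u z => f (orc u.1) (inp n z.1))
    (fun u z => locset n l (qrf (orc u.1) (inp n z.1)))
    (fun u y w => cond y w ∧ V (orc u.1) (y, w) = true)
    (fun u y w => if cond y w then locset n l (qrV (orc u.1) (y, w)) else ∅)
    (Finset.univ.filter fun u => u.1 ∈ H)
    (Finset.univ.filter fun u => BadUP V p n u.1 = true)
    (fun u z => (card_locset _ _ _).trans (hq1 u.1 z))
    (by
      intro u y w
      by_cases hc : cond y w
      · show (if cond y w then locset n l (qrV (orc u.1) (y, w)) else ∅).card ≤ _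
        rw [if_pos hc]
        exact (card_locset _ _ _).trans (hq2 u.1 y w hc.1 hc.2)
      · show (if cond y w then locset n l (qrV (orc u.1) (y, w)) else ∅).card ≤ _
        rw [if_neg hc]
        simp)
    (by
      intro u z x z' hx
      have h := hf4 (orc u.1) (orc (P.pl u x z').1) (inp n z.1) (fun v hv =>
        hP2 u x z' v (not_loc hx hv))
      exact ⟨h.1, by
        show locset n l _ = locset n l _
        rw [h.2]⟩)
    (by
      intro u y w x z' hx
      by_cases hc : cond y w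
      · have hx' : x ∉ locset n l (qrV (orc u.1) (y, w)) := by
          have hx2 : x ∉ (if cond y w then locset n l (qrV (orc u.1) (y, w)) else ∅) := hx
          rwa [if_pos hc] at hx2
        have h := hV4 (orc u.1) (orc (P.pl u x z').1) (y, w) (fun v hv =>
          hP2 u x z' v (not_loc hx' hv))
        refine ⟨?_, ?_⟩
        · show cond y w ∧ V (orc (P.pl u x z').1) (y, w) = true ↔
            cond y w ∧ V (orc u.1) (y, w) = true
          rw [h.1]
        · show (if cond y w then locset n l (qrV (orc (P.pl u x z').1) (y, w)) else ∅) =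
            (if cond y w then locset n l (qrV (orc u.1) (y, w)) else ∅)
          rw [h.2]
      · refine ⟨?_, ?_⟩
        · show cond y w ∧ V (orc (P.pl u x z').1) (y, w) = true ↔
            cond y w ∧ V (orc u.1) (y, w) = true
          exact ⟨fun h => absurd h.1 hc, fun h => absurd h.1 hc⟩
        · show (if cond y w then locset n l (qrV (orc (P.pl u x z').1) (y, w)) else ∅) =
            (if cond y w then locset n l (qrV (orc u.1) (y, w)) else ∅)
          rw [if_neg hc, if_neg hc])
    (by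
      intro u hu z
      have huH : u.1 ∈ H := (Finset.mem_filter.1 hu).2
      have h := (hH u.1 huH).2 z.1 z.2
      constructor
      · rintro ⟨x, hx⟩
        obtain ⟨w, hw1, hw2⟩ := h.1 ⟨x.1, x.2, by rw [← hP1, hx]⟩
        exact ⟨w, ⟨hlen u.1 z, hw1⟩, hw2⟩
      · rintro ⟨w, ⟨_, hw1⟩, hw2⟩
        obtain ⟨x, hx1, hx2⟩ := h.2 ⟨w, hw1, hw2⟩
        refine ⟨⟨x, hx1⟩, ?_⟩
        exact Subtype.ext ((hP1 u ⟨x, hx1⟩).trans hx2))
    (by
      intro u z w w' hww hw hw'
      obtain ⟨⟨hc1, hc2⟩, hc3⟩ := hw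
      obtain ⟨⟨_, hc4⟩, hc5⟩ := hw'
      refine Finset.mem_filter.2 ⟨Finset.mem_univ _, ?_⟩
      have hy := sqrt_pow_lt (n := n) (by omega)
      have h4 : p.eval (f (orc u.1) (inp n z.1)).length ≤ p.eval M :=
        poly_mono p (hc1.trans hM1)
      unfold BadUP
      simp only [Bool.and_eq_true, decide_eq_true_eq, List.any_eq_true, mem_shorts]
      exact ⟨mem_exts_length hs u.2, f (orc u.1) (inp n z.1), by omega, w, by omega, w',
        by omega, ⟨hc1, hc2, hc4, hww⟩, hc3, hc5⟩)
    (by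
      rw [card_tb, card_tb_mem s n H (fun u hu => (hH u hu).1)]
      exact hH1)
    (by
      rw [hX]
      omega)
    (by
      rw [hX, hZ]
      exact hXZ1)
    (by
      rw [hX, hZ]
      exact hXZ2)
  rw [hX, hZ, card_tb, card_tb_filter] at key
  exact final_ineq (by omega) key

end Pool.Agent.Lib.RO
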