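import Pool.Agent.Lib.RO.MainA

/-!
# Project RO, second part: reductions with a bounded number of queries (statements)

`κ` is a parameter: `2 ^ κ` bounds the number of queries of the reductions.
-/

set_option autoImplicit false

namespace Pool.Agent.Lib.RO

open Pool.Agent.PolyTime Pool.Agent.Lib.MP_d5150c_lc Pool.Agent.Lib.MP_f0c157_lc
open N487b59b3 N68a2faeb N793a5b8e MeasureTheory

/-- the adaptive parameter -/
def tvK (κ : ℕ) (Bad : ℕ → List Bool → Bool) (n k : ℕ) (s : List Bool) : ℕ :=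
  ((List.range (k + 1)).filter fun i =>
    decide (cnt Bad n s * 2 ^ (i + (κ + 4)) ≤ 2 ^ gap n)).length

/-- the length of the values at stage `k + 1` for the oracle `R` -/
def lenRK (κ : ℕ) (Bad : ℕ → List Bool → Bool) (k : ℕ) (R : List Bool → Bool) : ℕ :=
  ell (st (k + 1)) (tvK κ Bad (st k) k (tableR R (st k)))

open Classical in
/-- the language in UP with the stages from `K` on -/
noncomputable def DUPK (κ : ℕ) (Bad : ℕ → List Bool → Bool) (K : ℕ) (R : List Bool → Bool) :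
    DecisionProblem := fun z =>
  decide (∃ k ≥ K, ∃ z' x : List Bool, z = inp (st (k + 1)) z' ∧ x.length = st (k + 1) ∧
    z'.length = lenRK κ Bad k R ∧ Fv R z'.length x = z')

open Classical in
/-- the answers to the first queries of a reduction `f` to the language of the verifier `acc` -/
noncomputable def bans {Ω Z I W : Type} (f : Ω → Z → List Bool → I) (acc : Ω → I → W → Prop)
    (ω : Ω) (z : Z) : ℕ → List Bool
  | 0 => []
  | j + 1 => bans f acc ω z j ++ [decide (∃ w, acc ω (f ω z (bans f acc ω z j)) w)]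

/-- PLANT2K: second moment -/
def Plant2K_stmt : Prop := ∀ (Ω X Z : Type) [Fintype Ω] [Fintype X] [Fintype Z]
  (P : Planting Ω X Z) (A : Finset Ω) (B : Finset (Ω × X × X × Z)) (K : ℕ), 1 ≤ K →
    K * (Fintype.card X * (Fintype.card X - 1)) ≤ Fintype.card Z →
    (∀ q ∈ B, q.2.1 ≠ q.2.2.1 ∧ P.pl (P.pl q.1 q.2.1 q.2.2.2) q.2.2.1 q.2.2.2 ∈ A) →
    3 * (Fintype.card Ω * (Fintype.card X * (Fintype.card X - 1)) * Fintype.card Z) ≤
      4 * K * B.card →
    5 * (Fintype.card X * (Fintype.card X - 1)) * Fintype.card Ω ≤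
      24 * K * Fintype.card Z * A.card

/-- KEYAK: the key inequality for reductions with at most `k ≤ K` queries -/
def KeyAK_stmt : Prop := ∀ (Ω X Z I W : Type) [Fintype Ω] [Fintype X] [Fintype Z]
  (P : Planting Ω X Z) (q k K : ℕ)
  (f : Ω → Z → List Bool → I) (e : Ω → Z → List Bool → Bool)
  (qf : Ω → Z → List Bool → Finset X) (acc : Ω → I → W → Prop) (qa : Ω → I → W → Finset X)
  (G A : Finset Ω), k ≤ K → 1 ≤ K →
  (∀ ω z h, (qf ω z h).card ≤ q) → (∀ ω y w, (qa ω y w).card ≤ q) →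
  (∀ ω z h x z', x ∉ qf ω z h → f (P.pl ω x z') z h = f ω z h ∧
    e (P.pl ω x z') z h = e ω z h ∧ qf (P.pl ω x z') z h = qf ω z h) →
  (∀ ω y w x z', x ∉ qa ω y w →
    (acc (P.pl ω x z') y w ↔ acc ω y w) ∧ qa (P.pl ω x z') y w = qa ω y w) →
  (∀ ω ∈ G, ∀ z, (∃ x, P.val ω x = z) ↔ e ω z (bans f acc ω z k) = true) →
  (∀ ω z h w w', h.length < k → w ≠ w' → acc ω (f ω z h) w → acc ω (f ω z h) w' → ω ∈ A) →
  (64 * K - 1) * Fintype.card Ω ≤ 64 * K * G.card →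
  64 * K * ((2 * K + 1) * q + 1) ≤ Fintype.card X →
  64 * K * Fintype.card X ≤ Fintype.card Z →
  K * (Fintype.card X * (Fintype.card X - 1)) ≤ Fintype.card Z →
    5 * (Fintype.card X * (Fintype.card X - 1)) * Fintype.card Ω ≤
      24 * K * Fintype.card Z * A.card

/-- KEYUPK: the key inequality for tables -/
def KeyUPK_stmt : Prop := ∀ (V : (List Bool → Bool) → List Bool × List Bool → Bool)
  (p : Polynomial ℕ) (f : (List Bool → Bool) → List Bool × List Bool → List Bool)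
  (e : (List Bool → Bool) → List Bool × List Bool → Bool) (κ q : ℕ), q ≤ 2 ^ κ →
  RelFn V → RelFn f → RelFn e →
  ∃ n0, ∀ n ≥ n0, ∀ t, κ + 1 ≤ t → t ≤ n → ∀ s : List Bool, s.length = tb n →
    ∀ H : Finset (List Bool),
      (∀ u ∈ H, u ∈ exts s (gap n) ∧ ∀ z : List Bool, z.length = ell n t →
        ((∃ x : List Bool, x.length = n ∧ Fv (orc u) (ell n t) x = z) ↔
          e (orc u) (inp n z, bans (fun (R : List Bool → Bool) (x h : List Bool) => f R (x, h))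
            (fun R y w => w.length ≤ p.eval y.length ∧ V R (y, w) = true)
            (orc u) (inp n z) q) = true)) →
      (2 ^ (2 * κ + 6) - 1) * 2 ^ gap n ≤ 2 ^ (2 * κ + 6) * H.card →
      2 ^ gap n ≤ 2 ^ (κ + 2) * 2 ^ t * cnt (BadUP V p) n s

/-- F1K -/
def F1K_stmt : Prop := ∀ (κ : ℕ) (Bad : ℕ → List Bool → Bool) (k0 : ℕ), ∀ᵐ α ∂coin,
  (∀ k ≥ k0, Bad (st k) (firstBits α (tb (2 ^ st k))) = false) →
    ∃ K, ∀ k ≥ K, ¬ Coll (ofSeq α) (st (k + 1)) (lenRK κ Bad k (ofSeq α))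

/-- F2K -/
def F2K_stmt : Prop := ∀ (κ : ℕ) (Bad : ℕ → List Bool → Bool) (S : Set (ℕ → Bool)) (k0 : ℕ),
  (∀ k ≥ k0, ∀ α ∈ S, Bad (st k) (firstBits α (tb (2 ^ st k))) = false) →
  (∀ k ≥ k0, ∀ s : List Bool, s.length = tb (st (k + 1)) →
    ∀ t, t = tvK κ Bad (st k) k (s.take (tb (st k))) → κ + 1 ≤ t → t ≤ k + 1 →
    ∀ H : Finset (List Bool), (∀ u ∈ H, u ∈ exts s (gap (st (k + 1))) ∧ (S ∩ cyl u).Nonempty) →
      (2 ^ (2 * κ + 6) - 1) * 2 ^ gap (st (k + 1)) ≤ 2 ^ (2 * κ + 6) * H.card →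
      2 ^ gap (st (k + 1)) ≤ 2 ^ (κ + 2) * 2 ^ t * cnt Bad (st (k + 1)) s) →
  coin S = 0

/-- PTVK -/
def PolyTvK_stmt : Prop := ∀ (κ : ℕ) (Bad : ℕ → List Bool → Bool),
  PolyFn (fun q : ℕ × List Bool => Bad q.1 q.2) →
  PolyFn (fun q : ℕ × ℕ × ℕ × List Bool =>
    if big q.2.1 ≤ q.1 then tvK κ Bad q.2.1 q.2.2.1 q.2.2.2 else 0)

/-- MEMUPK -/
def MemUPK_stmt : Prop := ∀ (κ : ℕ) (Bad : ℕ → List Bool → Bool),
  PolyFn (fun q : ℕ × List Bool => Bad q.1 q.2) → ∀ (R : List Bool → Bool) (K : ℕ),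
    (∀ k ≥ K, ¬ Coll R (st (k + 1)) (lenRK κ Bad k R)) → DUPK κ Bad K R ∈ UPRel R

end Pool.Agent.Lib.RO
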