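import Pool.Agent.Lib.RO.KeyUP
import Pool.Agent.Lib.RO.StageK

/-!
# Project RO: the key inequality for tables, reductions with a bounded number of queries
-/

set_option autoImplicit false

namespace Pool.Agent.Lib.RO

open Pool.Agent.PolyTime Pool.Agent.Lib.MP_d5150c_lc Pool.Agent.Lib.MP_f0c157_lc
open N487b59b3 N68a2faeb N793a5b8e MeasureTheory

namespace KeyTab

theorem bans_length {Ω Z I W : Type} (f : Ω → Z → List Bool → I) (acc : Ω → I → W → Prop)
    (ω : Ω) (z : Z) : ∀ j, (bans f acc ω z j).length = j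
  | 0 => rfl
  | j + 1 => by
    rw [bans, List.length_append, bans_length f acc ω z j]
    rfl

/-- the answers depend only on the truth of the queries -/
theorem bans_congr {Ω Ω' Z Z' I I' W W' : Type} (f : Ω → Z → List Bool → I)
    (acc : Ω → I → W → Prop) (f' : Ω' → Z' → List Bool → I') (acc' : Ω' → I' → W' → Prop)
    (ω : Ω) (z : Z) (ω' : Ω') (z' : Z') (q : ℕ)
    (h : ∀ l : List Bool, l.length < q →
      ((∃ w, acc ω (f ω z l) w) ↔ ∃ w, acc' ω' (f' ω' z' l) w)) :
    ∀ j ≤ q, bans f acc ω z j = bans f' acc' ω' z' j := by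
  intro j
  induction j with
  | zero => intro _; rfl
  | succ j ih =>
    intro hj
    have h1 := ih (by omega)
    rw [bans, bans, ← h1]
    have h2 := h (bans f acc ω z j) (by rw [bans_length]; omega)
    refine congrArg (fun b : Bool => bans f acc ω z j ++ [b]) ?_
    exact decide_eq_decide.2 h2

/-- the density condition -/
theorem density_ineq {κ g m : ℕ}
    (h : (2 ^ (2 * κ + 6) - 1) * g ≤ 2 ^ (2 * κ + 6) * m) :
    (64 * 2 ^ κ - 1) * g ≤ 64 * 2 ^ κ * m := by
  have e1 : 2 ^ (2 * κ + 6) = 2 ^ κ * (64 * 2 ^ κ) := by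
    rw [show 2 * κ + 6 = κ + (6 + κ) by ring, pow_add, pow_add]
    norm_num
  rw [e1] at h
  obtain ⟨b, hb⟩ : ∃ b, 64 * 2 ^ κ = b + 1 := ⟨64 * 2 ^ κ - 1, by
    have := Nat.two_pow_pos κ
    omega⟩
  obtain ⟨a, ha⟩ : ∃ a, 2 ^ κ = a + 1 := ⟨2 ^ κ - 1, by
    have := Nat.two_pow_pos κ
    omega⟩
  rw [hb, ha] at h
  rw [hb]
  rw [Nat.add_sub_cancel]
  have e2 : (a + 1) * (b + 1) - 1 = (a + 1) * b + a := by
    rw [Nat.mul_add, Nat.mul_one]
    omega
  rw [e2] at h
  have h2 : (a + 1) * (b * g) ≤ (a + 1) * ((b + 1) * m) := by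
    calc (a + 1) * (b * g) ≤ ((a + 1) * b + a) * g := by nlinarith
      _ ≤ (a + 1) * (b + 1) * m := h
      _ = _ := by ring
  exact Nat.le_of_mul_le_mul_left h2 (by omega)

theorem card_XZK {κ n t : ℕ} (hn : 6 ≤ n) (ht : κ + 1 ≤ t) :
    64 * 2 ^ κ * 2 ^ n ≤ 2 ^ ell n t ∧ 2 ^ κ * (2 ^ n * (2 ^ n - 1)) ≤ 2 ^ ell n t := by
  constructor
  · calc 64 * 2 ^ κ * 2 ^ n = 2 ^ (6 + κ + n) := by rw [pow_add, pow_add]; norm_num
      _ ≤ _ := Nat.pow_le_pow_right (by omega) (by unfold ell; omega)
  · calc 2 ^ κ * (2 ^ n * (2 ^ n - 1)) ≤ 2 ^ κ * (2 ^ n * 2 ^ n) :=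
          Nat.mul_le_mul_left _ (Nat.mul_le_mul_left _ (Nat.sub_le _ _))
      _ = 2 ^ (κ + (n + n)) := by rw [pow_add, pow_add]
      _ ≤ _ := Nat.pow_le_pow_right (by omega) (by unfold ell; omega)

end KeyTab

open KeyTab in
theorem keyUPK (hA : KeyAK_stmt) (hT : Tab_stmt) (hR : Run_stmt) (hG : Grow_stmt) :
    KeyUPK_stmt := by
  classical
  intro V p f e κ q hq hV hf he
  obtain ⟨qrf, bf, hbf, hf1, hf2, hf3, hf4⟩ := hR _ _ f hf
  obtain ⟨qre, be, hbe, he1, he2, he3, he4⟩ := hR _ _ e he
  obtain ⟨qrV, bV, hbV, hV1, hV2, hV3, hV4⟩ := hR _ _ V hV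
  have hp : PB fun m => p.eval m := ⟨fun _ _ h => poly_mono p h, p, fun _ => le_rfl⟩
  let b : ℕ → ℕ := fun m => bf m + be m + bV (4 * m + 4 * p.eval m + 3) + p.eval m
  have hb : PB b :=
    ((hbf.add hbe).add (hbV.comp ((((PB.const 4).mul PB.id).add ((PB.const 4).mul hp)).add
      (PB.const 3)))).add hp
  set K := 2 ^ κ with hK
  have hK1 : 1 ≤ K := Nat.one_le_two_pow
  obtain ⟨c, hc⟩ : ∃ c, c = 64 * K * (2 * K + 1) + 128 + 4 * q := ⟨_, rfl⟩
  have hc128 : 128 + 4 * q ≤ c := by rw [hc]; omega
  have hcK : 64 * K ≤ c := by rw [hc]; nlinarith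
  obtain ⟨n0, hn0⟩ := hG b hb c
  refine ⟨max n0 6, fun n hn t ht1 htn s hs H hH hH1 => ?_⟩
  have hn5 : 6 ≤ n := le_trans (le_max_right _ _) hn
  obtain ⟨hg1, hg2⟩ := hn0 n (le_trans (le_max_left _ _) hn)
  set l := ell n t with hl
  have hl3 : l ≤ 3 * n := by rw [hl]; unfold ell; omega
  obtain ⟨P, hP1, hP2⟩ := hT n l s hs (by
    have := four_mul_lt (n := n) (by omega)
    omega)
  set M := c * (2 ^ Nat.sqrt n + 4 * n + c) with hM
  -- bounds
  have hcm : ∀ m : ℕ, m + 4 * q + 5 ≤ 16 * n + 4 * q + 16 → m + 4 * q + 5 ≤ c * (4 * n + c) := by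
    intro m hm
    have h1 : 128 * (4 * n + 128) ≤ c * (4 * n + c) :=
      Nat.mul_le_mul (by omega) (by omega)
    have h2 : c * c ≤ c * (4 * n + c) := Nat.mul_le_mul_left _ (by omega)
    have h3 : 128 * (4 * n + c) ≤ c * (4 * n + c) := Nat.mul_le_mul_right _ (by omega)
    omega
  have hsz : ∀ (z : List.Vector Bool l) (h : List Bool), h.length ≤ q →
      size (inp n z.1, h) ≤ c * (4 * n + c) := by
    intro z h hh
    have h1 := size_inp_le n z.1
    have h2 := Pool.Agent.Lib.MP_f0c157_lc.size_bits_le h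
    rw [z.2] at h1
    rw [size_prod]
    have h3 := hcm (16 * n + 10) (by omega)
    omega
  have hle : c * (4 * n + c) ≤ M := Nat.mul_le_mul_left _ (by omega)
  have hbM : bf (c * (4 * n + c)) ≤ b (c * (4 * n + c)) := by
    show _ ≤ bf _ + be _ + bV _ + p.eval _
    omega
  have hq1 : ∀ (u : List Bool) (z : List.Vector Bool l) (h : List Bool), h.length ≤ q →
      (qrf (orc u) (inp n z.1, h) ++ qre (orc u) (inp n z.1, h)).length ≤ b M := by
    intro u z h hh
    have h1 := hf1 (orc u) (inp n z.1, h)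
    have h2 := hbf.mono ((hsz z h hh).trans hle)
    have h3 := he1 (orc u) (inp n z.1, h)
    have h4 := hbe.mono ((hsz z h hh).trans hle)
    rw [List.length_append]
    show _ ≤ bf M + be M + bV (4 * M + 4 * p.eval M + 3) + p.eval M
    omega
  have hlen : ∀ (u : List Bool) (z : List.Vector Bool l) (h : List Bool), h.length ≤ q →
      (f (orc u) (inp n z.1, h)).length ≤ 2 ^ Nat.sqrt n := by
    intro u z h hh
    have h0 := length_le_size (f (orc u) (inp n z.1, h))
    have h1 := hf3 (orc u) (inp n z.1, h)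
    have h2 := hbf.mono (hsz z h hh)
    omega
  have hM1 : 2 ^ Nat.sqrt n ≤ M := by
    have h1 : 1 * (2 ^ Nat.sqrt n + 4 * n + c) ≤ M := Nat.mul_le_mul_right _ (by omega)
    omega
  have hq2 : ∀ (u y w : List Bool), y.length ≤ 2 ^ Nat.sqrt n → w.length ≤ p.eval y.length →
      (qrV (orc u) (y, w)).length ≤ b M := by
    intro u y w hy hw
    have h1 := hV1 (orc u) (y, w)
    have h2 := Pool.Agent.Lib.MP_f0c157_lc.size_bits_le y
    have h3 := Pool.Agent.Lib.MP_f0c157_lc.size_bits_le w
    have h4 : p.eval y.length ≤ p.eval M := poly_mono p (hy.trans hM1)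
    have h5 : size (y, w) ≤ 4 * M + 4 * p.eval M + 3 := by
      rw [size_prod]
      omega
    have h6 := hbV.mono h5
    show _ ≤ bf M + be M + bV (4 * M + 4 * p.eval M + 3) + p.eval M
    omega
  have hpM : p.eval M ≤ b M := by
    show _ ≤ bf M + be M + bV (4 * M + 4 * p.eval M + 3) + p.eval M
    omega
  have hbMn : b M < 2 ^ n := by
    have h1 : 1 * b M ≤ c * b M := Nat.mul_le_mul_right _ (by omega)
    omega
  have hX : Fintype.card (List.Vector Bool n) = 2 ^ n := by
    rw [card_vector, Fintype.card_bool]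
  have hZ : Fintype.card (List.Vector Bool l) = 2 ^ l := by
    rw [card_vector, Fintype.card_bool]
  obtain ⟨hXZ1, hXZ2⟩ := card_XZK (κ := κ) (n := n) (t := t) hn5 ht1
  -- the data
  let cond : List Bool → List Bool → Prop := fun y w =>
    y.length ≤ 2 ^ Nat.sqrt n ∧ w.length ≤ p.eval y.length
  let f' : Tb s n → List.Vector Bool l → List Bool → List Bool := fun u z h =>
    if h.length ≤ q then f (orc u.1) (inp n z.1, h) else []
  let e' : Tb s n → List.Vector Bool l → List Bool → Bool := fun u z h =>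
    if h.length ≤ q then e (orc u.1) (inp n z.1, h) else false
  let qf : Tb s n → List.Vector Bool l → List Bool → Finset (List.Vector Bool n) := fun u z h =>
    if h.length ≤ q then
      locset n l (qrf (orc u.1) (inp n z.1, h) ++ qre (orc u.1) (inp n z.1, h)) else ∅
  let acc : Tb s n → List Bool → List Bool → Prop := fun u y w =>
    cond y w ∧ V (orc u.1) (y, w) = true
  let qa : Tb s n → List Bool → List Bool → Finset (List.Vector Bool n) := fun u y w =>
    if cond y w then locset n l (qrV (orc u.1) (y, w)) else ∅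
  have hbans : ∀ (u : Tb s n) (z : List.Vector Bool l),
      bans (fun (R : List Bool → Bool) (x h : List Bool) => f R (x, h))
        (fun R y w => w.length ≤ p.eval y.length ∧ V R (y, w) = true)
        (orc u.1) (inp n z.1) q = bans f' acc u z q := by
    intro u z
    refine bans_congr _ _ _ _ _ _ _ _ q ?_ q le_rfl
    intro h hh
    have e1 : f' u z h = f (orc u.1) (inp n z.1, h) := if_pos hh.le
    constructor
    · rintro ⟨w, hw1, hw2⟩
      refine ⟨w, ?_⟩
      rw [e1]
      exact ⟨⟨hlen u.1 z h hh.le, hw1⟩, hw2⟩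
    · rintro ⟨w, hw⟩
      rw [e1] at hw
      exact ⟨w, hw.1.2, hw.2⟩
  have key := hA (Tb s n) (List.Vector Bool n) (List.Vector Bool l) (List Bool) (List Bool) P
    (b M) q K f' e' qf acc qa
    (Finset.univ.filter fun u => u.1 ∈ H)
    (Finset.univ.filter fun u => BadUP V p n u.1 = true)
    hq hK1
    (by
      intro u z h
      by_cases hh : h.length ≤ q
      · show (if h.length ≤ q then _ else (∅ : Finset (List.Vector Bool n))).card ≤ _
        rw [if_pos hh]
        exact (card_locset _ _ _).trans (hq1 u.1 z h hh)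
      · show (if h.length ≤ q then _ else (∅ : Finset (List.Vector Bool n))).card ≤ _
        rw [if_neg hh]
        simp)
    (by
      intro u y w
      by_cases hc : cond y w
      · show (if cond y w then locset n l (qrV (orc u.1) (y, w)) else ∅).card ≤ _
        rw [if_pos hc]
        exact (card_locset _ _ _).trans (hq2 u.1 y w hc.1 hc.2)
      · show (if cond y w then locset n l (qrV (orc u.1) (y, w)) else ∅).card ≤ _
        rw [if_neg hc]
        simp)
    (by
      intro u z h x z' hx
      by_cases hh : h.length ≤ q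
      · have hx' : x ∉ locset n l
            (qrf (orc u.1) (inp n z.1, h) ++ qre (orc u.1) (inp n z.1, h)) := by
          have hx2 : x ∉ (if h.length ≤ q then locset n l
            (qrf (orc u.1) (inp n z.1, h) ++ qre (orc u.1) (inp n z.1, h)) else ∅) := hx
          rwa [if_pos hh] at hx2
        have h1 := hf4 (orc u.1) (orc (P.pl u x z').1) (inp n z.1, h) (fun v hv =>
          hP2 u x z' v (not_loc hx' (List.mem_append_left _ hv)))
        have h2 := he4 (orc u.1) (orc (P.pl u x z').1) (inp n z.1, h) (fun v hv =>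
          hP2 u x z' v (not_loc hx' (List.mem_append_right _ hv)))
        refine ⟨?_, ?_, ?_⟩
        · show (if h.length ≤ q then f (orc (P.pl u x z').1) (inp n z.1, h) else []) =
            (if h.length ≤ q then f (orc u.1) (inp n z.1, h) else [])
          rw [h1.1]
        · show (if h.length ≤ q then e (orc (P.pl u x z').1) (inp n z.1, h) else false) =
            (if h.length ≤ q then e (orc u.1) (inp n z.1, h) else false)
          rw [h2.1]
        · show (if h.length ≤ q then locset n l (qrf (orc (P.pl u x z').1) (inp n z.1, h) ++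
              qre (orc (P.pl u x z').1) (inp n z.1, h)) else ∅) =
            (if h.length ≤ q then locset n l (qrf (orc u.1) (inp n z.1, h) ++
              qre (orc u.1) (inp n z.1, h)) else ∅)
          rw [h1.2, h2.2]
      · refine ⟨?_, ?_, ?_⟩
        · show (if h.length ≤ q then f (orc (P.pl u x z').1) (inp n z.1, h) else []) =
            (if h.length ≤ q then f (orc u.1) (inp n z.1, h) else [])
          rw [if_neg hh, if_neg hh]
        · show (if h.length ≤ q then e (orc (P.pl u x z').1) (inp n z.1, h) else false) =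
            (if h.length ≤ q then e (orc u.1) (inp n z.1, h) else false)
          rw [if_neg hh, if_neg hh]
        · show (if h.length ≤ q then locset n l (qrf (orc (P.pl u x z').1) (inp n z.1, h) ++
              qre (orc (P.pl u x z').1) (inp n z.1, h)) else ∅) =
            (if h.length ≤ q then locset n l (qrf (orc u.1) (inp n z.1, h) ++
              qre (orc u.1) (inp n z.1, h)) else ∅)
          rw [if_neg hh, if_neg hh])
    (by
      intro u y w x z' hx
      by_cases hc : cond y w
      · have hx' : x ∉ locset n l (qrV (orc u.1) (y, w)) := by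
          have hx2 : x ∉ (if cond y w then locset n l (qrV (orc u.1) (y, w)) else ∅) := hx
          rwa [if_pos hc] at hx2
        have h := hV4 (orc u.1) (orc (P.pl u x z').1) (y, w) (fun v hv =>
          hP2 u x z' v (not_loc hx' hv))
        refine ⟨?_, ?_⟩
        · show cond y w ∧ V (orc (P.pl u x z').1) (y, w) = true ↔
            cond y w ∧ V (orc u.1) (y, w) = true
          rw [h.1]
        · show (if cond y w then locset n l (qrV (orc (P.pl u x z').1) (y, w)) else ∅) =
            (if cond y w then locset n l (qrV (orc u.1) (y, w)) else ∅)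
          rw [h.2]
      · refine ⟨?_, ?_⟩
        · show cond y w ∧ V (orc (P.pl u x z').1) (y, w) = true ↔
            cond y w ∧ V (orc u.1) (y, w) = true
          exact ⟨fun h => absurd h.1 hc, fun h => absurd h.1 hc⟩
        · show (if cond y w then locset n l (qrV (orc (P.pl u x z').1) (y, w)) else ∅) =
            (if cond y w then locset n l (qrV (orc u.1) (y, w)) else ∅)
          rw [if_neg hc, if_neg hc])
    (by
      intro u hu z
      have huH : u.1 ∈ H := (Finset.mem_filter.1 hu).2
      have h := (hH u.1 huH).2 z.1 z.2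
      rw [hbans u z] at h
      have e1 : e' u z (bans f' acc u z q) = e (orc u.1) (inp n z.1, bans f' acc u z q) :=
        if_pos (bans_length _ _ _ _ _).le
      rw [e1, ← h]
      constructor
      · rintro ⟨x, hx⟩
        exact ⟨x.1, x.2, by rw [← hP1, hx]⟩
      · rintro ⟨x, hx1, hx2⟩
        refine ⟨⟨x, hx1⟩, ?_⟩
        exact Subtype.ext ((hP1 u ⟨x, hx1⟩).trans hx2))
    (by
      intro u z h w w' hh hww hw hw'
      have e1 : f' u z h = f (orc u.1) (inp n z.1, h) := if_pos hh.le
      rw [e1] at hw hw'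
      obtain ⟨⟨hc1, hc2⟩, hc3⟩ := hw
      obtain ⟨⟨_, hc4⟩, hc5⟩ := hw'
      refine Finset.mem_filter.2 ⟨Finset.mem_univ _, ?_⟩
      have hy := sqrt_pow_lt (n := n) (by omega)
      have h4 : p.eval (f (orc u.1) (inp n z.1, h)).length ≤ p.eval M :=
        poly_mono p (hc1.trans hM1)
      unfold BadUP
      simp only [Bool.and_eq_true, decide_eq_true_eq, List.any_eq_true, mem_shorts]
      exact ⟨mem_exts_length hs u.2, f (orc u.1) (inp n z.1, h), by omega, w, by omega, w',
        by omega, ⟨hc1, hc2, hc4, hww⟩, hc3, hc5⟩)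
    (by
      rw [card_tb, card_tb_mem s n H (fun u hu => (hH u hu).1)]
      exact density_ineq hH1)
    (by
      rw [hX]
      have h1 : 64 * K * (2 * K + 1) * b M ≤ c * b M := Nat.mul_le_mul_right _ (by omega)
      have h2 : 64 * K * ((2 * K + 1) * b M + 1) = 64 * K * (2 * K + 1) * b M + 64 * K := by ring
      omega)
    (by
      rw [hX, hZ]
      exact hXZ1)
    (by
      rw [hX, hZ]
      exact hXZ2)
  rw [hX, hZ, card_tb, card_tb_filter] at key
  have h1 : 5 * (2 ^ n * (2 ^ n - 1)) * 2 ^ gap n ≤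
      24 * 2 ^ ell n t * (K * cnt (BadUP V p) n s) := by
    refine key.trans (le_of_eq ?_)
    unfold cnt
    ring
  have h2 := final_ineq (by omega) h1
  refine h2.trans (le_of_eq ?_)
  rw [hK, pow_add]
  ring

end Pool.Agent.Lib.RO
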