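import Pool.Agent.Lib.RO.StageK
import Pool.Agent.Lib.RO.Rel

/-!
# Project RO: no language is complete for UP relative to a random oracle under Turing reductions
with a bounded number of queries (assembly)
-/

set_option autoImplicit false

namespace Pool.Agent.Lib.RO

open Pool.Agent.PolyTime Pool.Agent.Lib.MP_d5150c_lc Pool.Agent.Lib.MP_f0c157_lc
open N487b59b3 N68a2faeb N793a5b8e MeasureTheory

/-- values of a function on pairs `(x, h)` with `x` an input of a stage and `h` short -/
theorem pair_agree (hRun : Run_stmt) (hGrow : Grow_stmt) (q : ℕ) {β : Type} [Enc β]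
    {f : (List Bool → Bool) → List Bool × List Bool → β} (hf : RelFn f) :
    ∃ n0, ∀ n ≥ n0, ∀ x h : List Bool, x.length ≤ 4 * n → h.length ≤ q →
      (∀ R, size (f R (x, h)) ≤ 2 ^ Nat.sqrt n) ∧
      ∀ R R' : List Bool → Bool, (∀ v : List Bool, v.length < 2 ^ n → R' v = R v) →
        f R' (x, h) = f R (x, h) := by
  obtain ⟨b, hb, hs, hag⟩ := agree_of_run hRun hf
  obtain ⟨n0, hn0⟩ := hGrow _ hb (4 * q + 4)
  refine ⟨n0, fun n hn x h hx hh => ?_⟩
  obtain ⟨h1, h2⟩ := hn0 n hn
  have h3 := size_pair_le x h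
  have h0 : 4 * (4 * n + (4 * q + 4)) ≤ (4 * q + 4) * (4 * n + (4 * q + 4)) :=
    Nat.mul_le_mul_right _ (by omega)
  have h0' : 4 * (4 * n + (4 * q + 4)) ≤ (4 * q + 4) * (2 ^ Nat.sqrt n + 4 * n + (4 * q + 4)) :=
    le_trans h0 (Nat.mul_le_mul_left _ (by omega))
  have h4 : b (size (x, h)) ≤ b ((4 * q + 4) * (4 * n + (4 * q + 4))) := hb.mono (by omega)
  have h5 : b (size (x, h)) ≤ b ((4 * q + 4) * (2 ^ Nat.sqrt n + 4 * n + (4 * q + 4))) :=
    hb.mono (by omega)
  refine ⟨fun R => ?_, fun R R' hRR => hag R R' (x, h) fun v hv => hRR v ?_⟩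
  · have h6 := hs R (x, h)
    omega
  · have h7 : b ((4 * q + 4) * (2 ^ Nat.sqrt n + 4 * n + (4 * q + 4))) ≤
        (4 * q + 4) * b ((4 * q + 4) * (2 ^ Nat.sqrt n + 4 * n + (4 * q + 4))) :=
      Nat.le_mul_of_pos_left _ (by omega)
    omega

/-! ### The language at a stage -/

theorem DUPK_iff {κ : ℕ} {Bad : ℕ → List Bool → Bool} {K : ℕ} {R : List Bool → Bool} {k : ℕ}
    (hk : K ≤ k) {z : List Bool} (hz : z.length = lenRK κ Bad k R) :
    DUPK κ Bad K R (inp (st (k + 1)) z) = true ↔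
      ∃ x : List Bool, x.length = st (k + 1) ∧ Fv R z.length x = z := by
  classical
  unfold DUPK
  rw [decide_eq_true_eq]
  constructor
  · rintro ⟨j, _, z', x, h1, h2, h3, h4⟩
    obtain ⟨h5, h6⟩ := inp_inj h1
    have h7 : k + 1 = j + 1 := st_inj h5
    have h8 : k = j := by omega
    subst h8
    subst h6
    exact ⟨x, h2, h4⟩
  · rintro ⟨x, h1, h2⟩
    exact ⟨k, hk, z, x, rfl, h1, hz, h2⟩

/-- the reduction and the verifier in the form of `bans` -/
noncomputable def bansR (V : (List Bool → Bool) → List Bool × List Bool → Bool) (p : Polynomial ℕ)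
    (f : (List Bool → Bool) → List Bool × List Bool → List Bool) (R : List Bool → Bool)
    (z : List Bool) (j : ℕ) : List Bool :=
  bans (fun (R : List Bool → Bool) (x h : List Bool) => f R (x, h))
    (fun R y w => w.length ≤ p.eval y.length ∧ V R (y, w) = true) R z j

open Classical in
theorem bansR_succ (V : (List Bool → Bool) → List Bool × List Bool → Bool) (p : Polynomial ℕ)
    (f : (List Bool → Bool) → List Bool × List Bool → List Bool) (R : List Bool → Bool)
    (z : List Bool) (j : ℕ) : bansR V p f R z (j + 1) = bansR V p f R z j ++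
      [decide (∃ w : List Bool, w.length ≤ p.eval (f R (z, bansR V p f R z j)).length ∧
        V R (f R (z, bansR V p f R z j), w) = true)] := rfl

theorem bansR_length (V : (List Bool → Bool) → List Bool × List Bool → Bool) (p : Polynomial ℕ)
    (f : (List Bool → Bool) → List Bool × List Bool → List Bool) (R : List Bool → Bool)
    (z : List Bool) : ∀ j, (bansR V p f R z j).length = j
  | 0 => rfl
  | j + 1 => by
    show (bansR V p f R z j ++ [_]).length = _
    rw [List.length_append, bansR_length V p f R z j]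
    rfl

/-- the set of the oracles on which `(f, e)` reduces the language to the language of `(V, p)` -/
def SetAK (κ : ℕ) (V : (List Bool → Bool) → List Bool × List Bool → Bool) (p : Polynomial ℕ)
    (f : (List Bool → Bool) → List Bool × List Bool → List Bool)
    (e : (List Bool → Bool) → List Bool × List Bool → Bool) (q K : ℕ) : Set (ℕ → Bool) :=
  {α | (∀ y w w' : List Bool, w.length ≤ p.eval y.length → w'.length ≤ p.eval y.length →
      V (ofSeq α) (y, w) = true → V (ofSeq α) (y, w') = true → w = w') ∧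
    ∀ z, DUPK κ (BadUP V p) K (ofSeq α) z = true ↔
      e (ofSeq α) (z, bansR V p f (ofSeq α) z q) = true}

theorem SetAK_null (hKey : KeyUPK_stmt) (hF2 : F2K_stmt) (hRun : Run_stmt) (hGrow : Grow_stmt)
    {V : (List Bool → Bool) → List Bool × List Bool → Bool} (hV : RelFn V) (p : Polynomial ℕ)
    {f : (List Bool → Bool) → List Bool × List Bool → List Bool} (hf : RelFn f)
    {e : (List Bool → Bool) → List Bool × List Bool → Bool} (he : RelFn e) {κ q : ℕ}
    (hq : q ≤ 2 ^ κ) (K : ℕ) : coin (SetAK κ V p f e q K) = 0 := by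
  obtain ⟨n1, hn1⟩ := not_badUP_of_unambiguous hRun hGrow hV p
  obtain ⟨n2, hn2⟩ := hKey V p f e κ q hq hV hf he
  obtain ⟨n3, hn3⟩ := verifier_agree hRun hGrow hV p
  obtain ⟨n4, hn4⟩ := pair_agree hRun hGrow q hf
  obtain ⟨n5, hn5⟩ := pair_agree hRun hGrow q he
  set k0 := n1 + n2 + n3 + n4 + n5 + K + 3 with hk0
  refine hF2 κ (BadUP V p) (SetAK κ V p f e q K) k0 ?_ ?_
  · intro k hk α hα
    refine hn1 (st k) ?_ α hα.1
    have := lt_st k
    omega
  · intro k hk s hs t ht ht1 htk H hH hcard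
    set n := st (k + 1) with hn
    have hkn : k + 1 < n := lt_st (k + 1)
    refine hn2 n (by omega) t ht1 (by omega) s hs H ?_ hcard
    intro u hu
    obtain ⟨hu1, α, hα, hαu⟩ := hH u hu
    refine ⟨hu1, ?_⟩
    intro z hz
    have hul : u.length = tb (2 ^ n) := mem_exts_length hs hu1
    have hRR : ∀ v : List Bool, v.length < 2 ^ n → orc u v = ofSeq α v :=
      fun v hv => orc_eq_of_cyl hαu hul hv
    have hlen : lenRK κ (BadUP V p) k (ofSeq α) = ell n t := by
      unfold lenRK
      rw [tableR_ofSeq, ht]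
      have h1 : α ∈ cyl s := cyl_anti (exts_mem.1 hu1).1 hαu
      have h2 := cnt_congr_take (m := st k) (n := n) h1 hs (st_lt_succ k).le
      rw [h2]
    have hell : ell n t ≤ 3 * n := by unfold ell; omega
    have hil' : (inp n z).length ≤ 4 * n := by
      rw [inp_length]
      unfold ell at hz
      omega
    obtain ⟨_, hvag⟩ := hn3 n (by omega)
    -- the runs agree
    have hrun : ∀ j ≤ q, bansR V p f (orc u) (inp n z) j = bansR V p f (ofSeq α) (inp n z) j := by
      intro j
      induction j with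
      | zero => intro _; rfl
      | succ j ih =>
        intro hj
        have ih' := ih (by omega)
        have hlj : (bansR V p f (ofSeq α) (inp n z) j).length ≤ q := by
          rw [bansR_length]; omega
        obtain ⟨g1, g2⟩ := hn4 n (by omega) (inp n z) _ hil' hlj
        rw [bansR_succ, bansR_succ, ih', g2 _ _ hRR]
        congr 2
        rw [decide_eq_decide]
        have hy := (length_le_size _).trans (g1 (ofSeq α))
        constructor
        · rintro ⟨w, hw, hw2⟩
          refine ⟨w, hw, ?_⟩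
          rw [(hvag _ w hy hw).2 _ _ hRR] at hw2
          exact hw2
        · rintro ⟨w, hw, hw2⟩
          refine ⟨w, hw, ?_⟩
          rw [(hvag _ w hy hw).2 _ _ hRR]
          exact hw2
    have hn6 : 4 * n < 2 ^ n := four_mul_lt (by omega)
    have hFe : ∀ x : List Bool, x.length = n → Fv (orc u) (ell n t) x = Fv (ofSeq α) (ell n t) x := by
      intro x hx
      refine Fv_congr fun j hj => hRR _ ?_
      rw [loc_length]
      omega
    have h3 := hα.2 (inp n z)
    rw [DUPK_iff (by omega) (by rw [hz, hlen])] at h3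
    have h4 : bans (fun (R : List Bool → Bool) (x h : List Bool) => f R (x, h))
        (fun R y w => w.length ≤ p.eval y.length ∧ V R (y, w) = true) (orc u) (inp n z) q =
        bansR V p f (ofSeq α) (inp n z) q := hrun q le_rfl
    rw [h4, (hn5 n (by omega) (inp n z) _ hil' (by rw [bansR_length])).2 _ _ hRR, ← h3]
    constructor
    · rintro ⟨x, hx, hxz⟩
      exact ⟨x, hx, by rw [hz, ← hFe x hx]; exact hxz⟩
    · rintro ⟨x, hx, hxz⟩
      exact ⟨x, hx, by rw [hFe x hx, ← hz]; exact hxz⟩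

/-- Assembly of theorem (A), bounded number of queries. -/
theorem mainAK_of (hKey : KeyUPK_stmt) (hF1 : F1K_stmt) (hF2 : F2K_stmt) (hPB : PolyBadUP_stmt)
    (hE2 : Enum2_stmt) (hMem : MemUPK_stmt) (hRun : Run_stmt)
    (hGrow : Grow_stmt) (hMeas : Meas_stmt) :
    ∀ᵐ R ∂randomOracle, ∀ k : ℕ, ¬ ∃ L : DecisionProblem, L ∈ UPRel R ∧
      ∀ L' ∈ UPRel R, BoundedReducibleRel R k L' L := by
  refine hMeas _ ?_
  have := countable_polynomial
  obtain ⟨𝓕, h𝓕c, h𝓕r, h𝓕⟩ := enum3
  obtain ⟨𝓥, h𝓥c, h𝓥r, h𝓥⟩ := hE2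
  have hgood : ∀ᵐ α ∂coin, ∀ κ : ℕ, ∀ V ∈ 𝓥, ∀ p : Polynomial ℕ,
      (∀ y w w' : List Bool, w.length ≤ p.eval y.length → w'.length ≤ p.eval y.length →
        V (ofSeq α) (y, w) = true → V (ofSeq α) (y, w') = true → w = w') →
      ∃ K, ∀ k ≥ K, ¬ Coll (ofSeq α) (st (k + 1)) (lenRK κ (BadUP V p) k (ofSeq α)) := by
    rw [ae_all_iff]
    intro κ
    refine (ae_ball_iff h𝓥c).2 fun V hV => ?_
    rw [ae_all_iff]
    intro p
    obtain ⟨n1, hn1⟩ := not_badUP_of_unambiguous hRun hGrow (h𝓥r V hV) p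
    filter_upwards [hF1 κ (BadUP V p) n1] with α hα hu
    refine hα fun k hk => hn1 (st k) ?_ α hu
    have := lt_st k
    omega
  have hnull : ∀ᵐ α ∂coin, ∀ κ : ℕ, ∀ V ∈ 𝓥, ∀ p : Polynomial ℕ, ∀ f ∈ 𝓕, ∀ e ∈ 𝓥, ∀ K : ℕ,
      α ∉ SetAK κ V p f e κ K := by
    rw [ae_all_iff]
    intro κ
    refine (ae_ball_iff h𝓥c).2 fun V hV => ?_
    rw [ae_all_iff]
    intro p
    refine (ae_ball_iff h𝓕c).2 fun f hf => (ae_ball_iff h𝓥c).2 fun e he => ?_
    rw [ae_all_iff]
    intro K
    have h := SetAK_null hKey hF2 hRun hGrow (h𝓥r V hV) p (h𝓕r f hf) (h𝓥r e he)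
      (κ := κ) (q := κ) Nat.lt_two_pow_self.le K
    exact measure_eq_zero_iff_ae_notMem.1 h
  filter_upwards [hgood, hnull] with α hα1 hα2
  rintro k ⟨L, hL, hcomp⟩
  obtain ⟨p, V0, hV0, hLV, hun⟩ := hL
  obtain ⟨V, hV, hVe⟩ := h𝓥 _ _ hV0
  subst hVe
  obtain ⟨K, hK⟩ := hα1 k V hV p hun
  have hD := hMem k (BadUP V p) (hPB V p (h𝓥r V hV)) (ofSeq α) K hK
  obtain ⟨f0, e0, hf0, he0, hfred⟩ := hcomp _ hD
  obtain ⟨f, hf, hfe⟩ := h𝓕 _ _ hf0
  obtain ⟨e, he, hee⟩ := h𝓥 _ _ he0
  subst hfe
  subst hee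
  refine hα2 k V hV p f hf e he K ⟨hun, fun z => ?_⟩
  have hans : ∀ j, answers (f (ofSeq α)) L z j = bansR V p f (ofSeq α) z j := by
    intro j
    induction j with
    | zero => rfl
    | succ j ih =>
      classical
      rw [bansR_succ]
      show answers (f (ofSeq α)) L z j ++ [_] = _
      rw [ih]
      congr 2
      rw [Bool.eq_iff_iff, decide_eq_true_eq]
      exact hLV _
  rw [hfred z, hans k]

end Pool.Agent.Lib.RO
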