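import Pool.Agent.Lib.RO.Basic

/-!
# Project RO, module MEAS: from sequences to oracles
-/

set_option autoImplicit false

namespace Pool.Agent.Lib.RO

open Pool.Agent.PolyTime Pool.Agent.Lib.MP_d5150c_lc Pool.Agent.Lib.MP_f0c157_lc
open N487b59b3 N68a2faeb N793a5b8e MeasureTheory

/-- the numbering of the strings as a bijection -/
def wnumEquiv : ℕ ≃ List Bool where
  toFun i := inc^[i] []
  invFun v := wnum v
  left_inv i := wnum_iter i
  right_inv v := inc_iter_wnum v

theorem randomOracle_eq_map : randomOracle = coin.map ofSeq := by
  have h := Measure.infinitePi_map_piCongrLeft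
    (μ := fun _ : List Bool => (PMF.uniformOfFintype Bool).toMeasure) wnumEquiv
  unfold randomOracle
  rw [← h]
  congr 1
  funext α v
  have hv : wnumEquiv (wnum v) = v := inc_iter_wnum v
  have h2 := MeasurableEquiv.piCongrLeft_apply_apply (β := fun _ : List Bool => Bool) wnumEquiv α
    (wnum v)
  rw [hv] at h2
  exact h2

theorem measurable_ofSeq : Measurable ofSeq :=
  measurable_pi_iff.2 fun v => measurable_pi_apply (wnum v)

theorem meas : Meas_stmt := by
  intro S hS
  rw [randomOracle_eq_map]
  have h : MeasurableEmbedding ofSeq := by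
    have h1 : ofSeq = MeasurableEquiv.piCongrLeft (fun _ : List Bool => Bool) wnumEquiv := by
      funext α v
      have hv : wnumEquiv (wnum v) = v := inc_iter_wnum v
      have h2 := MeasurableEquiv.piCongrLeft_apply_apply (β := fun _ : List Bool => Bool) wnumEquiv
        α (wnum v)
      rw [hv] at h2
      exact h2.symm
    rw [h1]
    exact MeasurableEquiv.measurableEmbedding _
  exact h.ae_map_iff.2 hS

end Pool.Agent.Lib.RO
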