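import Pool.Agent.Lib.RO.Basic

/-!
# Project RO: the language of the injectivity statements is in coNP
-/

set_option autoImplicit false

namespace Pool.Agent.Lib.RO

open Pool.Agent.PolyTime Pool.Agent.Lib.MP_d5150c_lc Pool.Agent.Lib.MP_f0c157_lc
open N487b59b3 N68a2faeb N793a5b8e MeasureTheory

namespace MemC

/-- the places of the value of length `l` at `x` -/
def locs (p : List Bool × ℕ) : List (List Bool) := (List.range p.2).map fun j => loc p.1 j

theorem locs_map (R : List Bool → Bool) (x : List Bool) (l : ℕ) :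
    (locs (x, l)).map R = Fv R l x := by
  unfold locs Fv
  rw [List.map_map]
  rfl

theorem poly_locs : PolyFn locs := by
  refine PolyFn.map (f := fun (p : List Bool × ℕ) (j : ℕ) => loc p.1 j) ?_
    (PolyFn.range PolyFn.snd)
  exact PolyFn.append (PolyFn.fst.comp PolyFn.fst)
    (PolyFn.replicate (PolyFn.succ PolyFn.snd) (PolyFn.const true))

/-- the length of the values -/
def lenC (c : List Bool × List Bool) : ℕ := c.1.length - ((decP c.2).1.length + 1)

/-- the queries -/
def qsC (c : List Bool × List Bool) : List (List Bool) :=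
  locs ((decP c.2).1, lenC c) ++ locs ((decP c.2).2, lenC c)

/-- the test -/
def chkC (q : (List Bool × List Bool) × List Bool) : Bool :=
  decide (q.1.1 = inp (decP q.1.2).1.length (List.replicate (lenC q.1) true)) &&
    (decide ((decP q.1.2).2.length = (decP q.1.2).1.length) &&
      (!decide ((decP q.1.2).1 = (decP q.1.2).2) &&
        decide (q.2.take (lenC q.1) = q.2.drop (lenC q.1))))

/-- the verifier -/
def VC (R : List Bool → Bool) (c : List Bool × List Bool) : Bool := chkC (c, (qsC c).map R)

theorem poly_dec : PolyFn (fun c : List Bool × List Bool => decP c.2) := poly_decP PolyFn.snd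

theorem poly_lenC : PolyFn lenC :=
  PolyFn.sub (PolyFn.length PolyFn.fst) (PolyFn.succ (PolyFn.length (PolyFn.fst.comp poly_dec)))

theorem poly_qsC : PolyFn qsC :=
  PolyFn.append (poly_locs.comp ((PolyFn.fst.comp poly_dec).pair poly_lenC))
    (poly_locs.comp ((PolyFn.snd.comp poly_dec).pair poly_lenC))

theorem poly_inp {γ : Type} [Enc γ] {n : γ → ℕ} {z : γ → List Bool} (hn : PolyFn n)
    (hz : PolyFn z) : PolyFn (fun c => inp (n c) (z c)) :=
  PolyFn.append (PolyFn.replicate hn (PolyFn.const true)) (PolyFn.cons (PolyFn.const false) hz)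

theorem poly_chkC : PolyFn chkC := by
  have h1 : PolyFn (fun q : (List Bool × List Bool) × List Bool => q.1) := PolyFn.fst
  have hd : PolyFn (fun q : (List Bool × List Bool) × List Bool => decP q.1.2) :=
    poly_dec.comp h1
  have hl : PolyFn (fun q : (List Bool × List Bool) × List Bool => lenC q.1) := poly_lenC.comp h1
  have hx := PolyFn.fst.comp hd
  have hx' := PolyFn.snd.comp hd
  refine PolyFn.and (PolyFn.decide_eq (PolyFn.fst.comp h1) (poly_inp hx.length
    (PolyFn.replicate hl (PolyFn.const true)))) ?_
  refine PolyFn.and (PolyFn.decide_eq hx'.length hx.length) ?_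
  refine PolyFn.and (PolyFn.not (PolyFn.decide_eq hx hx')) ?_
  exact PolyFn.decide_eq (PolyFn.take PolyFn.snd hl) (PolyFn.drop hl PolyFn.snd)

theorem relFn_VC (hC : RelConst_stmt) (hCo : RelComp_stmt) (hPa : RelPair_stmt)
    (hQ : RelQueries_stmt) : RelFn VC := by
  have h1 : RelFn (fun R (c : List Bool × List Bool) => (c, (qsC c).map R)) :=
    hPa _ _ _ _ _ (hC _ _ _ PolyFn.id) (hQ _ _ poly_qsC)
  exact hCo _ _ _ (fun _ => chkC) (fun R (c : List Bool × List Bool) => (c, (qsC c).map R))
    (hC _ _ _ poly_chkC) h1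

theorem VC_iff (R : List Bool → Bool) (z w : List Bool) : VC R (z, w) = true ↔
    z = inp (decP w).1.length (List.replicate (lenC (z, w)) true) ∧
      (decP w).2.length = (decP w).1.length ∧ (decP w).1 ≠ (decP w).2 ∧
        Fv R (lenC (z, w)) (decP w).1 = Fv R (lenC (z, w)) (decP w).2 := by
  unfold VC chkC qsC
  simp only [List.map_append, locs_map, Bool.and_eq_true, decide_eq_true_eq, Bool.not_eq_true',
    decide_eq_false_iff_not]
  rw [List.take_append_of_le_length (by rw [Fv_length]),
    List.take_of_length_le (by rw [Fv_length]),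
    List.drop_append_of_le_length (by rw [Fv_length]),
    List.drop_of_length_le (by rw [Fv_length]), List.nil_append]

theorem VC_complete (R : List Bool → Bool) {n l : ℕ} (h : Coll R n l) :
    ∃ w : List Bool, w.length ≤ 9 * n + 1 ∧ VC R (inp n (List.replicate l true), w) = true := by
  obtain ⟨x, x', hx, hx', hne, heq⟩ := h
  refine ⟨encP (x, x'), ?_, ?_⟩
  · rw [encP_length]
    simp only
    omega
  · have hl : lenC (inp n (List.replicate l true), encP (x, x')) = l := by
      unfold lenC
      rw [decP_encP]
      show (inp n (List.replicate l true)).length - (x.length + 1) = l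
      rw [inp_length, List.length_replicate, hx]
      omega
    rw [VC_iff, hl, decP_encP]
    refine ⟨?_, ?_, hne, heq⟩
    · show inp n _ = inp x.length _
      rw [hx]
    · show x'.length = x.length
      rw [hx, hx']

end MemC

open MemC

theorem memC (hC : RelConst_stmt) (hCo : RelComp_stmt) (hPa : RelPair_stmt)
    (hQ : RelQueries_stmt) (hO : OfRel2_stmt) : MemC_stmt := by
  intro R
  refine ⟨Polynomial.C 9 * Polynomial.X + Polynomial.C 1, VC R,
    hO _ (relFn_VC hC hCo hPa hQ) R, ?_⟩
  intro z
  have h1 : ((Cst R)ᶜ z = true) ↔ ∃ n l, z = inp n (List.replicate l true) ∧ Coll R n l := by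
    show ((!(Cst R z)) = true) ↔ _
    unfold Cst
    simp
  rw [h1]
  constructor
  · rintro ⟨n, l, rfl, h⟩
    obtain ⟨w, hw, hV⟩ := VC_complete R h
    refine ⟨w, ?_, hV⟩
    rw [inp_length]
    simp only [Polynomial.eval_add, Polynomial.eval_mul, Polynomial.eval_C, Polynomial.eval_X]
    omega
  · rintro ⟨w, -, hV⟩
    rw [VC_iff] at hV
    obtain ⟨e1, e2, e3, e4⟩ := hV
    exact ⟨_, _, e1, _, _, rfl, e2, e3, e4⟩

end Pool.Agent.Lib.RO
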