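import Pool.Agent.Lib.RO.MemC
import Pool.Agent.Lib.RO.GPS

/-!
# Project RO: the language of the values of the stages is in UP
-/

set_option autoImplicit false

namespace Pool.Agent.Lib.RO

open Pool.Agent.PolyTime Pool.Agent.Lib.MP_d5150c_lc Pool.Agent.Lib.MP_f0c157_lc
open N487b59b3 N68a2faeb N793a5b8e MeasureTheory

namespace MemUP

open MemC

/-- the value in the input -/
def zC (c : List Bool × List Bool) : List Bool := c.1.drop (c.2.length + 1)

theorem poly_zC : PolyFn zC := PolyFn.drop (PolyFn.succ (PolyFn.length PolyFn.snd)) PolyFn.fst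

/-- the queries for the value -/
def qsV (c : List Bool × List Bool) : List (List Bool) := locs (c.2, (zC c).length)

theorem poly_qsV : PolyFn qsV := poly_locs.comp (PolyFn.snd.pair (PolyFn.length poly_zC))

/-- the test of the stage -/
def stgOk (stg : ℕ → Option (ℕ × ℕ)) (K N : ℕ) : Bool := (stg N).any fun q => decide (K ≤ q.1)

theorem poly_stgOk {stg : ℕ → Option (ℕ × ℕ)} (hs : PolyFn stg) (K : ℕ) :
    PolyFn (stgOk stg K) := by
  refine PolyFn.optionCase (l := stg) (f := fun _ => false) (g := fun _ q => decide (K ≤ q.1)) hs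
    (PolyFn.const false) (PolyFn.decide_le (PolyFn.const K) (PolyFn.fst.comp PolyFn.snd)) ?_ ?_
  · intro w h
    simp [stgOk, h]
  · intro w q h
    simp [stgOk, h]

theorem stgOk_iff {stg : ℕ → Option (ℕ × ℕ)}
    (hst : ∀ N k m, stg N = some (k, m) ↔ m = st k ∧ N = st (k + 1)) {K N : ℕ} :
    stgOk stg K N = true ↔ ∃ k ≥ K, N = st (k + 1) := by
  unfold stgOk
  constructor
  · intro h2
    rcases h3 : stg N with _ | ⟨k, m⟩
    · rw [h3] at h2
      exact absurd h2 (by simp)
    · rw [h3] at h2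
      simp only [Option.any_some, decide_eq_true_eq] at h2
      exact ⟨k, h2, ((hst _ _ _).1 h3).2⟩
  · rintro ⟨k, hk, rfl⟩
    rw [(hst (st (k + 1)) k (st k)).2 ⟨rfl, rfl⟩]
    simpa using hk

variable (Bad : ℕ → List Bool → Bool) (stg : ℕ → Option (ℕ × ℕ)) (K : ℕ)

/-- the test -/
def chkV (q : (List Bool × List Bool) × List Bool × List Bool) : Bool :=
  decide (q.1.1 = inp q.1.2.length (zC q.1)) && (stgOk stg K q.1.2.length &&
    (decide ((zC q.1).length = ell q.1.2.length (gpsTau Bad stg (q.1.2.length, q.2.1))) &&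
      decide (q.2.2 = zC q.1)))

/-- the verifier -/
def VU (R : List Bool → Bool) (c : List Bool × List Bool) : Bool :=
  chkV Bad stg K (c, (gpsQs stg c.2.length).map R, (qsV c).map R)

variable {Bad stg}

theorem poly_chkV (hT : PolyTv_stmt) (hB : PolyFn (fun q : ℕ × List Bool => Bad q.1 q.2))
    (hs : PolyFn stg) : PolyFn (chkV Bad stg K) := by
  have h1 : PolyFn (fun q : (List Bool × List Bool) × List Bool × List Bool => q.1) := PolyFn.fst
  have hz : PolyFn (fun q : (List Bool × List Bool) × List Bool × List Bool => zC q.1) :=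
    poly_zC.comp h1
  have hN : PolyFn (fun q : (List Bool × List Bool) × List Bool × List Bool => q.1.2.length) :=
    PolyFn.length (PolyFn.snd.comp h1)
  have ht : PolyFn (fun q : (List Bool × List Bool) × List Bool × List Bool =>
      gpsTau Bad stg (q.1.2.length, q.2.1)) :=
    (gps_poly_tau hT hB hs).comp (hN.pair (PolyFn.fst.comp PolyFn.snd))
  refine PolyFn.and (PolyFn.decide_eq (PolyFn.fst.comp h1) (poly_inp hN hz)) ?_
  refine PolyFn.and ((poly_stgOk hs K).comp hN) ?_
  refine PolyFn.and (PolyFn.decide_eq hz.length ?_)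
    (PolyFn.decide_eq (PolyFn.snd.comp PolyFn.snd) hz)
  exact PolyFn.add (PolyFn.pred (PolyFn.mul (PolyFn.const 2) hN)) ht

theorem relFn_VU (hC : RelConst_stmt) (hCo : RelComp_stmt) (hPa : RelPair_stmt)
    (hQ : RelQueries_stmt) (hT : PolyTv_stmt)
    (hB : PolyFn (fun q : ℕ × List Bool => Bad q.1 q.2)) (hs : PolyFn stg) :
    RelFn (VU Bad stg K) := by
  have h1 : RelFn (fun R (c : List Bool × List Bool) =>
      (c, (gpsQs stg c.2.length).map R, (qsV c).map R)) :=
    hPa _ _ _ _ _ (hC _ _ _ PolyFn.id) (hPa _ _ _ _ _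
      (hQ _ _ ((gps_poly_qs hs).comp (PolyFn.length PolyFn.snd))) (hQ _ _ poly_qsV))
  exact hCo _ _ _ (fun _ => chkV Bad stg K) (fun R (c : List Bool × List Bool) =>
    (c, (gpsQs stg c.2.length).map R, (qsV c).map R)) (hC _ _ _ (poly_chkV K hT hB hs)) h1

theorem VU_iff (hst : ∀ N k m, stg N = some (k, m) ↔ m = st k ∧ N = st (k + 1))
    (R : List Bool → Bool) (z x : List Bool) : VU Bad stg K R (z, x) = true ↔
    ∃ k ≥ K, ∃ z' : List Bool, z = inp (st (k + 1)) z' ∧ x.length = st (k + 1) ∧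
      z'.length = lenR Bad k R ∧ Fv R z'.length x = z' := by
  unfold VU chkV qsV
  simp only [locs_map, Bool.and_eq_true, decide_eq_true_eq]
  constructor
  · rintro ⟨h1, h2, h3, h4⟩
    obtain ⟨k, hk, hN⟩ := (stgOk_iff hst).1 h2
    have h5 : stg x.length = some (k, st k) := (hst _ _ _).2 ⟨rfl, hN⟩
    rw [gps_qs_map h5 hN, gps_tau_eq h5 hN] at h3
    refine ⟨k, hk, zC (z, x), ?_, hN, ?_, h4⟩
    · rw [← hN]
      exact h1
    · rw [h3]
      unfold lenR
      rw [hN]
  · rintro ⟨k, hk, z', rfl, hN, h3, h4⟩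
    have h5 : stg x.length = some (k, st k) := (hst _ _ _).2 ⟨rfl, hN⟩
    have hz : zC (inp (st (k + 1)) z', x) = z' := by
      unfold zC inp
      show (List.replicate (st (k + 1)) true ++ false :: z').drop (x.length + 1) = z'
      rw [hN, List.drop_append]
      simp
    rw [hz]
    refine ⟨?_, (stgOk_iff hst).2 ⟨k, hk, hN⟩, ?_, h4⟩
    · show inp _ z' = inp x.length z'
      rw [hN]
    · rw [gps_qs_map h5 hN, gps_tau_eq h5 hN, h3]
      unfold lenR
      rw [hN]

end MemUP

open MemUP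

theorem memUP (hC : RelConst_stmt) (hCo : RelComp_stmt) (hPa : RelPair_stmt)
    (hQ : RelQueries_stmt) (hO : OfRel2_stmt) (hT : PolyTv_stmt) (hS : PolySt_stmt) :
    MemUP_stmt := by
  intro Bad hB R K hcoll
  obtain ⟨stg, hs, hst⟩ := hS
  refine ⟨Polynomial.X, VU Bad stg K R, hO _ (relFn_VU K hC hCo hPa hQ hT hB hs) R, ?_, ?_⟩
  · intro z
    have h1 : (DUP Bad K R z = true) ↔ ∃ k ≥ K, ∃ z' x : List Bool, z = inp (st (k + 1)) z' ∧
        x.length = st (k + 1) ∧ z'.length = lenR Bad k R ∧ Fv R z'.length x = z' := by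
      unfold DUP
      exact @decide_eq_true_iff _ (Classical.propDecidable _)
    rw [h1]
    constructor
    · rintro ⟨k, hk, z', x, hz, hx, h3, h4⟩
      refine ⟨x, ?_, (VU_iff K hst R z x).2 ⟨k, hk, z', hz, hx, h3, h4⟩⟩
      rw [Polynomial.eval_X, hz, inp_length, hx]
      omega
    · rintro ⟨x, -, hV⟩
      obtain ⟨k, hk, z', hz, hx, h3, h4⟩ := (VU_iff K hst R z x).1 hV
      exact ⟨k, hk, z', x, hz, hx, h3, h4⟩
  · intro z x x' _ _ hV hV'
    obtain ⟨k, hk, z', hz, hx, h3, h4⟩ := (VU_iff K hst R z x).1 hV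
    obtain ⟨k', hk', z'', hz', hx', h3', h4'⟩ := (VU_iff K hst R z x').1 hV'
    rw [hz] at hz'
    obtain ⟨e1, e2⟩ := inp_inj hz'
    subst e2
    have e3 : k + 1 = k' + 1 := st_inj e1
    have e4 : k = k' := by omega
    subst e4
    by_contra hne
    exact hcoll k hk ⟨x, x', hx, hx', hne, by rw [← h3, h4, h4']⟩

end Pool.Agent.Lib.RO
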