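import Pool.Agent.Lib.RO.MemUP
import Pool.Agent.Lib.RO.StageK

/-!
# Project RO, second part: the language of the values of the stages is in UP
-/

set_option autoImplicit false

namespace Pool.Agent.Lib.RO

open Pool.Agent.PolyTime Pool.Agent.Lib.MP_d5150c_lc Pool.Agent.Lib.MP_f0c157_lc
open N487b59b3 N68a2faeb N793a5b8e MeasureTheory

namespace MemUPK

open MemC MemUP

/-- the adaptive parameter, as a function of the length and of the table -/
def tauK (κ : ℕ) (Bad : ℕ → List Bool → Bool) (stg : ℕ → Option (ℕ × ℕ)) (q : ℕ × List Bool) : ℕ :=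
  match stg q.1 with
  | some p => if big p.2 ≤ q.1 then tvK κ Bad p.2 p.1 q.2 else 0
  | none => 0

theorem poly_tauK (hT : PolyTvK_stmt) (κ : ℕ) {Bad : ℕ → List Bool → Bool}
    (hB : PolyFn (fun q : ℕ × List Bool => Bad q.1 q.2)) {stg : ℕ → Option (ℕ × ℕ)}
    (hs : PolyFn stg) : PolyFn (tauK κ Bad stg) := by
  refine PolyFn.optionCase (l := fun q : ℕ × List Bool => stg q.1) (f := fun _ => 0)
    (g := fun q p => if big p.2 ≤ q.1 then tvK κ Bad p.2 p.1 q.2 else 0) (hs.comp PolyFn.fst)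
    (PolyFn.const 0) ?_ ?_ ?_
  · have h := hT κ Bad hB
    have h1 : PolyFn (fun p : (ℕ × List Bool) × ℕ × ℕ => (p.1.1, p.2.2, p.2.1, p.1.2)) :=
      (PolyFn.fst.comp PolyFn.fst).pair ((PolyFn.snd.comp PolyFn.snd).pair
        ((PolyFn.fst.comp PolyFn.snd).pair (PolyFn.snd.comp PolyFn.fst)))
    exact h.comp h1
  · intro q h
    simp [tauK, h]
  · intro q p h
    simp [tauK, h]

theorem tauK_eq (κ : ℕ) {Bad : ℕ → List Bool → Bool} {stg : ℕ → Option (ℕ × ℕ)} {N k : ℕ}
    (h : stg N = some (k, st k)) (hN : N = st (k + 1)) (s : List Bool) :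
    tauK κ Bad stg (N, s) = tvK κ Bad (st k) k s := by
  unfold tauK
  rw [h]
  have h1 : big (st k) ≤ N := le_of_eq (by rw [hN]; rfl)
  simp only [h1, if_true]

variable (κ : ℕ) (Bad : ℕ → List Bool → Bool) (stg : ℕ → Option (ℕ × ℕ)) (K : ℕ)

/-- the test -/
def chkV (q : (List Bool × List Bool) × List Bool × List Bool) : Bool :=
  decide (q.1.1 = inp q.1.2.length (zC q.1)) && (stgOk stg K q.1.2.length &&
    (decide ((zC q.1).length = ell q.1.2.length (tauK κ Bad stg (q.1.2.length, q.2.1))) &&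
      decide (q.2.2 = zC q.1)))

/-- the verifier -/
def VU (R : List Bool → Bool) (c : List Bool × List Bool) : Bool :=
  chkV κ Bad stg K (c, (gpsQs stg c.2.length).map R, (qsV c).map R)

variable {Bad stg}

theorem poly_chkV (hT : PolyTvK_stmt) (hB : PolyFn (fun q : ℕ × List Bool => Bad q.1 q.2))
    (hs : PolyFn stg) : PolyFn (chkV κ Bad stg K) := by
  have h1 : PolyFn (fun q : (List Bool × List Bool) × List Bool × List Bool => q.1) := PolyFn.fst
  have hz : PolyFn (fun q : (List Bool × List Bool) × List Bool × List Bool => zC q.1) :=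
    poly_zC.comp h1
  have hN : PolyFn (fun q : (List Bool × List Bool) × List Bool × List Bool => q.1.2.length) :=
    PolyFn.length (PolyFn.snd.comp h1)
  have ht : PolyFn (fun q : (List Bool × List Bool) × List Bool × List Bool =>
      tauK κ Bad stg (q.1.2.length, q.2.1)) :=
    (poly_tauK hT κ hB hs).comp (hN.pair (PolyFn.fst.comp PolyFn.snd))
  refine PolyFn.and (PolyFn.decide_eq (PolyFn.fst.comp h1) (poly_inp hN hz)) ?_
  refine PolyFn.and ((poly_stgOk hs K).comp hN) ?_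
  refine PolyFn.and (PolyFn.decide_eq hz.length ?_)
    (PolyFn.decide_eq (PolyFn.snd.comp PolyFn.snd) hz)
  exact PolyFn.add (PolyFn.pred (PolyFn.mul (PolyFn.const 2) hN)) ht

theorem relFn_VU (hC : RelConst_stmt) (hCo : RelComp_stmt) (hPa : RelPair_stmt)
    (hQ : RelQueries_stmt) (hT : PolyTvK_stmt)
    (hB : PolyFn (fun q : ℕ × List Bool => Bad q.1 q.2)) (hs : PolyFn stg) :
    RelFn (VU κ Bad stg K) := by
  have h1 : RelFn (fun R (c : List Bool × List Bool) =>
      (c, (gpsQs stg c.2.length).map R, (qsV c).map R)) :=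
    hPa _ _ _ _ _ (hC _ _ _ PolyFn.id) (hPa _ _ _ _ _
      (hQ _ _ ((gps_poly_qs hs).comp (PolyFn.length PolyFn.snd))) (hQ _ _ poly_qsV))
  exact hCo _ _ _ (fun _ => chkV κ Bad stg K) (fun R (c : List Bool × List Bool) =>
    (c, (gpsQs stg c.2.length).map R, (qsV c).map R)) (hC _ _ _ (poly_chkV κ K hT hB hs)) h1

theorem VU_iff (hst : ∀ N k m, stg N = some (k, m) ↔ m = st k ∧ N = st (k + 1))
    (R : List Bool → Bool) (z x : List Bool) : VU κ Bad stg K R (z, x) = true ↔
    ∃ k ≥ K, ∃ z' : List Bool, z = inp (st (k + 1)) z' ∧ x.length = st (k + 1) ∧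
      z'.length = lenRK κ Bad k R ∧ Fv R z'.length x = z' := by
  unfold VU chkV qsV
  simp only [locs_map, Bool.and_eq_true, decide_eq_true_eq]
  constructor
  · rintro ⟨h1, h2, h3, h4⟩
    obtain ⟨k, hk, hN⟩ := (stgOk_iff hst).1 h2
    have h5 : stg x.length = some (k, st k) := (hst _ _ _).2 ⟨rfl, hN⟩
    rw [gps_qs_map h5 hN, tauK_eq κ h5 hN] at h3
    refine ⟨k, hk, zC (z, x), ?_, hN, ?_, h4⟩
    · rw [← hN]
      exact h1
    · rw [h3]
      unfold lenRK
      rw [hN]
  · rintro ⟨k, hk, z', rfl, hN, h3, h4⟩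
    have h5 : stg x.length = some (k, st k) := (hst _ _ _).2 ⟨rfl, hN⟩
    have hz : zC (inp (st (k + 1)) z', x) = z' := by
      unfold zC inp
      show (List.replicate (st (k + 1)) true ++ false :: z').drop (x.length + 1) = z'
      rw [hN, List.drop_append]
      simp
    rw [hz]
    refine ⟨?_, (stgOk_iff hst).2 ⟨k, hk, hN⟩, ?_, h4⟩
    · show inp _ z' = inp x.length z'
      rw [hN]
    · rw [gps_qs_map h5 hN, tauK_eq κ h5 hN, h3]
      unfold lenRK
      rw [hN]

end MemUPK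

open MemC MemUP MemUPK

theorem memUPK (hC : RelConst_stmt) (hCo : RelComp_stmt) (hPa : RelPair_stmt)
    (hQ : RelQueries_stmt) (hO : OfRel2_stmt) (hT : PolyTvK_stmt) (hS : PolySt_stmt) :
    MemUPK_stmt := by
  intro κ Bad hB R K hcoll
  obtain ⟨stg, hs, hst⟩ := hS
  refine ⟨Polynomial.X, VU κ Bad stg K R, hO _ (relFn_VU κ K hC hCo hPa hQ hT hB hs) R, ?_, ?_⟩
  · intro z
    have h1 : (DUPK κ Bad K R z = true) ↔ ∃ k ≥ K, ∃ z' x : List Bool, z = inp (st (k + 1)) z' ∧
        x.length = st (k + 1) ∧ z'.length = lenRK κ Bad k R ∧ Fv R z'.length x = z' := by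
      unfold DUPK
      exact @decide_eq_true_iff _ (Classical.propDecidable _)
    rw [h1]
    constructor
    · rintro ⟨k, hk, z', x, hz, hx, h3, h4⟩
      refine ⟨x, ?_, (VU_iff κ K hst R z x).2 ⟨k, hk, z', hz, hx, h3, h4⟩⟩
      rw [Polynomial.eval_X, hz, inp_length, hx]
      omega
    · rintro ⟨x, -, hV⟩
      obtain ⟨k, hk, z', hz, hx, h3, h4⟩ := (VU_iff κ K hst R z x).1 hV
      exact ⟨k, hk, z', x, hz, hx, h3, h4⟩
  · intro z x x' _ _ hV hV'
    obtain ⟨k, hk, z', hz, hx, h3, h4⟩ := (VU_iff κ K hst R z x).1 hV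
    obtain ⟨k', hk', z'', hz', hx', h3', h4'⟩ := (VU_iff κ K hst R z x').1 hV'
    rw [hz] at hz'
    obtain ⟨e1, e2⟩ := inp_inj hz'
    subst e2
    have e3 : k + 1 = k' + 1 := st_inj e1
    have e4 : k = k' := by omega
    subst e4
    by_contra hne
    exact hcoll k hk ⟨x, x', hx, hx', hne, by rw [← h3, h4, h4']⟩

end Pool.Agent.Lib.RO
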