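import Pool.Agent.Lib.RO.Stage

/-!
# Planting structures: first and second moment (project RO, module PLANT)
-/

set_option autoImplicit false

namespace Pool.Agent.Lib.RO

/-! ### The number of `ω` with given collisions -/

section
variable {Ω X Z : Type} (P : Planting Ω X Z)

theorem Planting.unplant {x y : X} (h : x ≠ y) (ω : Ω) (a b : Z) :
    P.pl (P.pl (P.pl (P.pl ω x a) y b) y (P.val ω y)) x (P.val ω x) = ω := by
  rw [P.pl_pl, P.pl_comm _ _ _ _ _ h, P.pl_val, P.pl_pl, P.pl_val]

end

section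
variable {Ω X Z : Type} [Fintype Ω] [Fintype Z] (P : Planting Ω X Z)

open Classical in
theorem Planting.card_col1 {x x' : X} (h : x ≠ x') :
    Fintype.card Z * (Finset.univ.filter fun ω => P.val ω x = P.val ω x').card
      ≤ Fintype.card Ω := by
  have hc : Fintype.card Z * (Finset.univ.filter fun ω => P.val ω x = P.val ω x').card
      = ((Finset.univ : Finset Z) ×ˢ
          (Finset.univ.filter fun ω => P.val ω x = P.val ω x')).card := by
    rw [Finset.card_product, Finset.card_univ]
  rw [hc, ← Finset.card_univ (α := Ω)]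
  refine Finset.card_le_card_of_injOn (fun q => P.pl q.2 x q.1)
    (fun _ _ => Finset.mem_coe.2 (Finset.mem_univ _)) ?_
  rintro ⟨z, ω⟩ h1 ⟨z', ω'⟩ h2 h3
  simp only [Finset.coe_product, Finset.coe_univ, Set.mem_prod, Set.mem_univ, true_and,
    Finset.mem_coe, Finset.mem_filter, Finset.mem_univ] at h1 h2 h3
  have e1 : z = z' := by
    have := congrArg (fun o => P.val o x) h3
    simpa [P.val_same] using this
  have e2 : P.val ω x' = P.val ω' x' := by
    have := congrArg (fun o => P.val o x') h3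
    simpa [P.val_ne _ _ _ _ h.symm] using this
  have e3 : ω = ω' := by
    have := congrArg (fun o => P.pl o x (P.val ω x)) h3
    simp only [P.pl_pl] at this
    rw [P.pl_val, h1, e2, ← h2, P.pl_val] at this
    exact this
  rw [e1, e3]

open Classical in
theorem Planting.card_col2 {x x' y y' : X} (h : x ≠ x') (hy : y ≠ y') (h1 : y ≠ x)
    (h2 : y ≠ x') :
    Fintype.card Z * Fintype.card Z *
      (Finset.univ.filter fun ω => P.val ω x = P.val ω x' ∧ P.val ω y = P.val ω y').card
      ≤ Fintype.card Ω := by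
  have hc : Fintype.card Z * Fintype.card Z *
      (Finset.univ.filter fun ω => P.val ω x = P.val ω x' ∧ P.val ω y = P.val ω y').card
      = (((Finset.univ : Finset Z) ×ˢ (Finset.univ : Finset Z)) ×ˢ
          (Finset.univ.filter fun ω => P.val ω x = P.val ω x' ∧
            P.val ω y = P.val ω y')).card := by
    rw [Finset.card_product, Finset.card_product, Finset.card_univ]
  rw [hc, ← Finset.card_univ (α := Ω)]
  refine Finset.card_le_card_of_injOn (fun q => P.pl (P.pl q.2 x q.1.1) y q.1.2)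
    (fun _ _ => Finset.mem_coe.2 (Finset.mem_univ _)) ?_
  rintro ⟨⟨a, b⟩, ω⟩ g1 ⟨⟨a', b'⟩, ω'⟩ g2 g3
  simp only [Finset.coe_product, Finset.coe_univ, Set.mem_prod, Set.mem_univ, true_and,
    Finset.mem_coe, Finset.mem_filter, Finset.mem_univ] at g1 g2 g3
  have e1 : b = b' := by
    have := congrArg (fun o => P.val o y) g3
    simpa [P.val_same] using this
  have e2 : a = a' := by
    have := congrArg (fun o => P.val o x) g3
    simpa [P.val_ne _ _ _ _ h1.symm, P.val_same] using this
  have e3 : P.val ω x' = P.val ω' x' := by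
    have := congrArg (fun o => P.val o x') g3
    simpa [P.val_ne _ _ _ _ h2.symm, P.val_ne _ _ _ _ h.symm] using this
  have e4 : P.val ω x = P.val ω' x := by rw [g1.1, e3, ← g2.1]
  have e5 : P.val ω y' = P.val ω' y' := by
    rcases eq_or_ne y' x with rfl | hx
    · exact e4
    · have := congrArg (fun o => P.val o y') g3
      simpa [P.val_ne _ _ _ _ hy.symm, P.val_ne _ _ _ _ hx] using this
  have e6 : P.val ω y = P.val ω' y := by rw [g1.2, e5, ← g2.2]
  have e7 : ω = ω' := by
    have := congrArg (fun o => P.pl (P.pl o y (P.val ω y)) x (P.val ω x)) g3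
    rw [P.unplant h1.symm, e6, e4, P.unplant h1.symm] at this
    exact this
  rw [e1, e2, e7]

/-- the pairs on which `ω` collides -/
def Planting.Tr (P : Planting Ω X Z) (ω : Ω) (e : X × X) : Prop :=
  e.1 ≠ e.2 ∧ P.val ω e.1 = P.val ω e.2

open Classical in
theorem Planting.card_col3 {e e' : X × X} (he : e.1 ≠ e.2) (he' : e'.1 ≠ e'.2) (h1 : e' ≠ e)
    (h2 : e' ≠ e.swap) :
    Fintype.card Z * Fintype.card Z *
      (Finset.univ.filter fun ω => P.Tr ω e ∧ P.Tr ω e').card ≤ Fintype.card Ω := by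
  obtain ⟨x, x'⟩ := e
  obtain ⟨y, y'⟩ := e'
  simp only [Prod.swap_prod_mk, ne_eq, Prod.mk.injEq, not_and] at *
  by_cases g : y ≠ x ∧ y ≠ x'
  · refine le_trans (Nat.mul_le_mul_left _ (Finset.card_le_card ?_))
      (P.card_col2 he he' g.1 g.2)
    intro ω hω
    rw [Finset.mem_filter] at hω ⊢
    exact ⟨Finset.mem_univ _, hω.2.1.2, hω.2.2.2⟩
  · have g' : y' ≠ x ∧ y' ≠ x' := by
      by_cases g1 : y = x
      · subst g1
        exact ⟨fun h => he' h.symm, h1 rfl⟩
      · have g2 : y = x' := by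
          by_contra g2
          exact g ⟨g1, g2⟩
        subst g2
        exact ⟨h2 rfl, fun h => he' h.symm⟩
    refine le_trans (Nat.mul_le_mul_left _ (Finset.card_le_card ?_))
      (P.card_col2 he (Ne.symm he') g'.1 g'.2)
    intro ω hω
    rw [Finset.mem_filter] at hω ⊢
    exact ⟨Finset.mem_univ _, hω.2.1.2, hω.2.2.2.symm⟩

end

/-! ### The first statement -/

theorem plant1 : Plant1_stmt := by
  classical
  intro Ω X Z _ _ _ P A hA
  have h1 : A ⊆ (Finset.univ : Finset X).offDiag.biUnion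
      (fun e => Finset.univ.filter fun ω => P.val ω e.1 = P.val ω e.2) := by
    intro ω hω
    obtain ⟨x, x', h, h'⟩ := hA ω hω
    rw [Finset.mem_biUnion]
    exact ⟨(x, x'), by simp [h], by simp [h']⟩
  calc Fintype.card Z * A.card
      ≤ Fintype.card Z * ∑ e ∈ (Finset.univ : Finset X).offDiag,
          (Finset.univ.filter fun ω => P.val ω e.1 = P.val ω e.2).card :=
        Nat.mul_le_mul_left _ (le_trans (Finset.card_le_card h1) Finset.card_biUnion_le)
    _ = ∑ e ∈ (Finset.univ : Finset X).offDiag, Fintype.card Z *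
          (Finset.univ.filter fun ω => P.val ω e.1 = P.val ω e.2).card := Finset.mul_sum _ _ _
    _ ≤ ∑ e ∈ (Finset.univ : Finset X).offDiag, Fintype.card Ω := by
        refine Finset.sum_le_sum fun e he => P.card_col1 ?_
        rw [Finset.mem_offDiag] at he
        exact he.2.2
    _ = Fintype.card X * (Fintype.card X - 1) * Fintype.card Ω := by
        rw [Finset.sum_const, Finset.offDiag_card, Finset.card_univ, smul_eq_mul, Nat.mul_sub,
          mul_one]

/-! ### The second statement -/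

section
variable {Ω X Z : Type} [Fintype Ω] [Fintype X] [Fintype Z] (P : Planting Ω X Z)

open Classical in
/-- the set of the ordered pairs on which `ω` collides -/
noncomputable def Planting.col {Ω X Z : Type} [Fintype X] (P : Planting Ω X Z) (ω : Ω) : Finset (X × X) :=
  Finset.univ.filter fun e => P.Tr ω e

omit [Fintype Ω] [Fintype Z] in
theorem Planting.mem_col {ω : Ω} {e : X × X} : e ∈ P.col ω ↔ P.Tr ω e := by
  classical
  simp [Planting.col]

omit [Fintype Ω] in
/-- few planted pairs lead to one point -/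
theorem Planting.card_B_le (A : Finset Ω) (B : Finset (Ω × X × X × Z))
    (hB : ∀ q ∈ B, q.2.1 ≠ q.2.2.1 ∧ P.pl (P.pl q.1 q.2.1 q.2.2.2) q.2.2.1 q.2.2.2 ∈ A) :
    B.card ≤ Fintype.card Z * Fintype.card Z * ∑ ω ∈ A, (P.col ω).card := by
  classical
  have hc : Fintype.card Z * Fintype.card Z * ∑ ω ∈ A, (P.col ω).card
      = (((Finset.univ : Finset Z) ×ˢ (Finset.univ : Finset Z)) ×ˢ
          (A.sigma fun ω => P.col ω)).card := by
    rw [Finset.card_product, Finset.card_product, Finset.card_univ, Finset.card_sigma]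
  rw [hc]
  refine Finset.card_le_card_of_injOn
    (fun q => ((P.val q.1 q.2.1, P.val q.1 q.2.2.1),
      ⟨P.pl (P.pl q.1 q.2.1 q.2.2.2) q.2.2.1 q.2.2.2, (q.2.1, q.2.2.1)⟩)) ?_ ?_
  · rintro ⟨ω, x, x', z⟩ hq
    have := hB _ (Finset.mem_coe.1 hq)
    simp only at this
    simp only [Finset.coe_product, Finset.coe_univ, Set.mem_prod, Set.mem_univ, true_and,
      Finset.mem_coe, Finset.mem_sigma, P.mem_col, Planting.Tr]
    refine ⟨this.2, this.1, ?_⟩
    rw [P.val_same, P.val_ne _ _ _ _ this.1, P.val_same]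
  · rintro ⟨ω, x, x', z⟩ hq ⟨ω2, y, y', z2⟩ hq2 h
    have t1 := hB _ (Finset.mem_coe.1 hq)
    have t2 := hB _ (Finset.mem_coe.1 hq2)
    simp only [Prod.mk.injEq, Sigma.mk.injEq, heq_eq_eq] at h t1 t2
    obtain ⟨⟨h1, h2⟩, h3, h4, h5⟩ := h
    subst h4
    subst h5
    have e1 : z = z2 := by
      have := congrArg (fun o => P.val o x') h3
      simpa [P.val_same] using this
    subst e1
    have e2 : ω = ω2 := by
      have := congrArg (fun o => P.pl (P.pl o x' (P.val ω x')) x (P.val ω x)) h3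
      rw [P.unplant t1.1, h1, h2, P.unplant t1.1] at this
      exact this
    rw [e2]

omit [Fintype Ω] [Fintype Z] in
open Classical in
theorem Planting.col_sq (ω : Ω) :
    (P.col ω).card * ((P.col ω).card - 2) ≤
      ∑ e ∈ P.col ω, ((P.col ω).filter fun e' => e' ≠ e ∧ e' ≠ e.swap).card := by
  classical
  rw [← smul_eq_mul, ← Finset.sum_const]
  refine Finset.sum_le_sum fun e _ => ?_
  have : (P.col ω).filter (fun e' => e' ≠ e ∧ e' ≠ e.swap) = P.col ω \ {e, e.swap} := by
    ext e'
    simp only [Finset.mem_filter, Finset.mem_sdiff, Finset.mem_insert, Finset.mem_singleton,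
      not_or]
  rw [this]
  have h1 := Finset.le_card_sdiff ({e, e.swap} : Finset (X × X)) (P.col ω)
  have h2 : ({e, e.swap} : Finset (X × X)).card ≤ 2 := Finset.card_le_two
  omega

theorem Planting.second_moment :
    Fintype.card Z * Fintype.card Z * ∑ ω : Ω, (P.col ω).card * ((P.col ω).card - 2) ≤
      (Fintype.card X * (Fintype.card X - 1)) * (Fintype.card X * (Fintype.card X - 1)) *
        Fintype.card Ω := by
  classical
  have hW : (Finset.univ : Finset X).offDiag.card = Fintype.card X * (Fintype.card X - 1) := by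
    rw [Finset.offDiag_card, Finset.card_univ, Nat.mul_sub, mul_one]
  set T := (Finset.univ : Finset X).offDiag with hT
  have h1 : ∑ ω : Ω, (P.col ω).card * ((P.col ω).card - 2) ≤
      ∑ ω : Ω, ∑ e ∈ T, ∑ e' ∈ T,
        (if e' ≠ e ∧ e' ≠ e.swap ∧ P.Tr ω e ∧ P.Tr ω e' then 1 else 0) := by
    refine Finset.sum_le_sum fun ω _ => le_trans (P.col_sq ω) ?_
    have hs : P.col ω ⊆ T := by
      intro e he
      rw [P.mem_col] at he
      simp [hT, he.1]
    refine le_trans ?_ (Finset.sum_le_sum_of_subset hs)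
    refine Finset.sum_le_sum fun e he => ?_
    rw [Finset.card_filter]
    refine le_trans ?_ (Finset.sum_le_sum_of_subset hs)
    refine Finset.sum_le_sum fun e' he' => ?_
    rw [P.mem_col] at he he'
    by_cases g : e' ≠ e ∧ e' ≠ e.swap
    · simp [g, he, he']
    · simp only [if_neg g]
      exact Nat.zero_le _
  have h2 : ∑ ω : Ω, ∑ e ∈ T, ∑ e' ∈ T,
        (if e' ≠ e ∧ e' ≠ e.swap ∧ P.Tr ω e ∧ P.Tr ω e' then 1 else 0)
      = ∑ e ∈ T, ∑ e' ∈ T, ∑ ω : Ω,
        (if e' ≠ e ∧ e' ≠ e.swap ∧ P.Tr ω e ∧ P.Tr ω e' then 1 else 0) := by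
    rw [Finset.sum_comm]
    refine Finset.sum_congr rfl fun e _ => ?_
    rw [Finset.sum_comm]
  rw [h2] at h1
  refine le_trans (Nat.mul_le_mul_left _ h1) ?_
  rw [Finset.mul_sum]
  have h3 : ∀ e ∈ T, Fintype.card Z * Fintype.card Z * ∑ e' ∈ T, ∑ ω : Ω,
        (if e' ≠ e ∧ e' ≠ e.swap ∧ P.Tr ω e ∧ P.Tr ω e' then 1 else 0) ≤
      (Fintype.card X * (Fintype.card X - 1)) * Fintype.card Ω := by
    intro e he
    rw [Finset.mul_sum, ← hW, ← smul_eq_mul (T.card), ← Finset.sum_const]
    refine Finset.sum_le_sum fun e' he' => ?_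
    rw [hT, Finset.mem_offDiag] at he he'
    by_cases g : e' ≠ e ∧ e' ≠ e.swap
    · refine le_trans (le_of_eq ?_) (P.card_col3 he.2.2 he'.2.2 g.1 g.2)
      rw [Finset.card_filter]
      congr 1
      refine Finset.sum_congr rfl fun ω _ => ?_
      simp [g]
    · have : ∀ ω : Ω, (if e' ≠ e ∧ e' ≠ e.swap ∧ P.Tr ω e ∧ P.Tr ω e' then 1 else 0) = 0 := by
        intro ω
        rw [if_neg]
        intro h
        exact g ⟨h.1, h.2.1⟩
      simp only [this, Finset.sum_const_zero, mul_zero]
      exact Nat.zero_le _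
  refine le_trans (Finset.sum_le_sum h3) ?_
  rw [Finset.sum_const, hW, smul_eq_mul]
  exact le_of_eq (by ring)

end

theorem three_le (N : ℕ) : 3 * N ≤ 6 + N * (N - 2) := by
  rcases Nat.lt_or_ge N 3 with h | h
  · interval_cases N <;> norm_num
  · obtain ⟨k, rfl⟩ := Nat.exists_eq_add_of_le h
    have : 3 + k - 2 = k + 1 := by omega
    rw [this]
    nlinarith

theorem plant2 : Plant2_stmt := by
  classical
  intro Ω X Z _ _ _ P A B hZ hB h3
  have b1 := P.card_B_le A B hB
  have b2 := P.second_moment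
  have b3 : 3 * ∑ ω ∈ A, (P.col ω).card ≤
      6 * A.card + ∑ ω : Ω, (P.col ω).card * ((P.col ω).card - 2) := by
    calc 3 * ∑ ω ∈ A, (P.col ω).card = ∑ ω ∈ A, 3 * (P.col ω).card := Finset.mul_sum _ _ _
      _ ≤ ∑ ω ∈ A, (6 + (P.col ω).card * ((P.col ω).card - 2)) :=
          Finset.sum_le_sum fun ω _ => three_le _
      _ = 6 * A.card + ∑ ω ∈ A, (P.col ω).card * ((P.col ω).card - 2) := by
          rw [Finset.sum_add_distrib, Finset.sum_const, smul_eq_mul, mul_comm]
      _ ≤ _ := Nat.add_le_add_left (Finset.sum_le_sum_of_subset (Finset.subset_univ A)) _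
  revert hZ h3 b1 b2 b3
  generalize Fintype.card X * (Fintype.card X - 1) = W
  generalize Fintype.card Z = z
  generalize Fintype.card Ω = o
  generalize B.card = b
  generalize A.card = a
  generalize ∑ ω ∈ A, (P.col ω).card = s
  generalize ∑ ω : Ω, (P.col ω).card * ((P.col ω).card - 2) = t
  intro hZ h3 b1 b2 b3
  rcases Nat.eq_zero_or_pos z with rfl | hz
  · have : W = 0 := Nat.le_zero.1 hZ
    subst this
    simp
  -- 9 o W z ≤ 12 b ≤ 12 z z s ≤ 24 z z a + 4 z z t ≤ 24 z z a + 4 W W o
  have c1 : 9 * (o * W * z) ≤ 12 * b := by omega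
  have c2 : 12 * b ≤ 4 * (z * z) * (3 * s) := by nlinarith
  have c3 : 4 * (z * z) * (3 * s) ≤ 4 * (z * z) * (6 * a + t) := Nat.mul_le_mul_left _ b3
  have c4 : 4 * (z * z) * (6 * a + t) ≤ 24 * (z * z) * a + 4 * (W * W * o) := by nlinarith
  have c5 : W * W * o ≤ W * z * o := Nat.mul_le_mul_right _ (Nat.mul_le_mul_left _ hZ)
  have c6 : z * (5 * W * o) ≤ z * (24 * z * a) := by nlinarith
  exact Nat.le_of_mul_le_mul_left c6 hz

end Pool.Agent.Lib.RO
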