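import Pool.Agent.Lib.RO.StageK
import Pool.Agent.Lib.RO.Plant

/-!
# Planting structures: second moment with a factor `K` (project RO, module PLANT2K)
-/

set_option autoImplicit false

namespace Pool.Agent.Lib.RO

theorem plant2K : Plant2K_stmt := by
  classical
  intro Ω X Z _ _ _ P A B K hK hZ hB h3
  have b1 := P.card_B_le A B hB
  have b2 := P.second_moment
  have b3 : 3 * ∑ ω ∈ A, (P.col ω).card ≤
      6 * A.card + ∑ ω : Ω, (P.col ω).card * ((P.col ω).card - 2) := by
    calc 3 * ∑ ω ∈ A, (P.col ω).card = ∑ ω ∈ A, 3 * (P.col ω).card := Finset.mul_sum _ _ _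
      _ ≤ ∑ ω ∈ A, (6 + (P.col ω).card * ((P.col ω).card - 2)) :=
          Finset.sum_le_sum fun ω _ => three_le _
      _ = 6 * A.card + ∑ ω ∈ A, (P.col ω).card * ((P.col ω).card - 2) := by
          rw [Finset.sum_add_distrib, Finset.sum_const, smul_eq_mul, mul_comm]
      _ ≤ _ := Nat.add_le_add_left (Finset.sum_le_sum_of_subset (Finset.subset_univ A)) _
  revert hZ h3 b1 b2 b3
  generalize Fintype.card X * (Fintype.card X - 1) = W
  generalize Fintype.card Z = z
  generalize Fintype.card Ω = o
  generalize B.card = b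
  generalize A.card = a
  generalize ∑ ω ∈ A, (P.col ω).card = s
  generalize ∑ ω : Ω, (P.col ω).card * ((P.col ω).card - 2) = t
  intro hZ h3 b1 b2 b3
  rcases Nat.eq_zero_or_pos z with rfl | hz
  · have h0 : K * W = 0 := Nat.le_zero.1 hZ
    have h1 : W = 0 := by
      rcases Nat.mul_eq_zero.1 h0 with h | h
      · omega
      · exact h
    subst h1
    simp
  -- 9 o W z ≤ 12 K b ≤ 12 K z z s ≤ 24 K z z a + 4 K z z t ≤ 24 K z z a + 4 K W W o
  have c1 : 9 * (o * W * z) ≤ 12 * (K * b) := by
    have : 4 * K * b = 4 * (K * b) := by ring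
    omega
  have c2 : 12 * (K * b) ≤ 4 * (K * (z * z)) * (3 * s) := by
    have := Nat.mul_le_mul_left (12 * K) b1
    calc 12 * (K * b) = 12 * K * b := by ring
      _ ≤ 12 * K * (z * z * s) := this
      _ = 4 * (K * (z * z)) * (3 * s) := by ring
  have c3 : 4 * (K * (z * z)) * (3 * s) ≤ 4 * (K * (z * z)) * (6 * a + t) :=
    Nat.mul_le_mul_left _ b3
  have c4 : 4 * (K * (z * z)) * (6 * a + t) ≤ 24 * K * (z * z) * a + 4 * (K * (W * W * o)) := by
    have := Nat.mul_le_mul_left (4 * K) b2
    calc 4 * (K * (z * z)) * (6 * a + t) = 24 * K * (z * z) * a + 4 * K * (z * z * t) := by ring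
      _ ≤ 24 * K * (z * z) * a + 4 * K * (W * W * o) := Nat.add_le_add_left this _
      _ = _ := by ring
  have c5 : K * (W * W * o) ≤ W * z * o := by
    have := Nat.mul_le_mul_left (W * o) hZ
    calc K * (W * W * o) = W * o * (K * W) := by ring
      _ ≤ W * o * z := this
      _ = W * z * o := by ring
  have c6 : z * (5 * W * o) ≤ z * (24 * K * z * a) := by
    have e1 : z * (5 * W * o) = 5 * (o * W * z) := by ring
    have e2 : z * (24 * K * z * a) = 24 * K * (z * z) * a := by ring
    have e3 : W * z * o = o * W * z := by ring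
    rw [e1, e2]
    omega
  exact Nat.le_of_mul_le_mul_left c6 hz

end Pool.Agent.Lib.RO
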