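import Pool.Agent.Lib.RO.BadTools

/-!
# Project RO, module PBPS
-/

set_option autoImplicit false

namespace Pool.Agent.Lib.RO

open Pool.Agent.PolyTime Pool.Agent.Lib.MP_d5150c_lc Pool.Agent.Lib.MP_f0c157_lc
open N487b59b3 N68a2faeb N793a5b8e MeasureTheory

/-- the collision test, with a capped list of strings -/
def collc (cap : ℕ) (u : List Bool) (n l : ℕ) : Bool :=
  (extsc cap n).any fun x => (extsc cap n).any fun x' =>
    decide (x ≠ x') && decide (Fv (orc u) l x = Fv (orc u) l x')

theorem collc_eq {cap n : ℕ} (h : 2 ^ n ≤ cap) (u : List Bool) (l : ℕ) :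
    collc cap u n l = collB (orc u) n l := by
  unfold collc collB
  rw [extsc_eq h]

theorem poly_collc (ho : PolyOrc_stmt) {γ : Type} [Enc γ] {cap n l : γ → ℕ} {u : γ → List Bool}
    (hc : PolyFn cap) (hu : PolyFn u) (hn : PolyFn n) (hl : PolyFn l) :
    PolyFn (fun c => collc (cap c) (u c) (n c) (l c)) := by
  refine PolyFn.any (p := fun (c : γ) (x : List Bool) => (extsc (cap c) (n c)).any fun x' =>
    decide (x ≠ x') && decide (Fv (orc (u c)) (l c) x = Fv (orc (u c)) (l c) x')) ?_
    (poly_extsc hc hn)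
  refine PolyFn.any (p := fun (q : γ × List Bool) (x' : List Bool) =>
    decide (q.2 ≠ x') && decide (Fv (orc (u q.1)) (l q.1) q.2 = Fv (orc (u q.1)) (l q.1) x')) ?_
    (poly_extsc (hc.comp PolyFn.fst) (hn.comp PolyFn.fst))
  have h0 : PolyFn (fun q : (γ × List Bool) × List Bool => q.1.1) := PolyFn.fst.comp PolyFn.fst
  have h1 : PolyFn (fun q : (γ × List Bool) × List Bool => q.1.2) := PolyFn.snd.comp PolyFn.fst
  exact PolyFn.and (PolyFn.decide_not (PolyFn.decide_eq h1 PolyFn.snd))
    (PolyFn.decide_eq (poly_Fv ho (hu.comp h0) (hl.comp h0) h1)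
      (poly_Fv ho (hu.comp h0) (hl.comp h0) PolyFn.snd))

/-- the test applied to a pair `(l, w)` -/
def testPS (P h : (List Bool → Bool) → List Bool → List Bool) (cap n : ℕ)
    (u : List Bool) (l : ℕ) (w : List Bool) : Bool :=
  decide (w.length ≤ 2 ^ Nat.sqrt n ∧ P (orc u) w = h (orc u) (inp n (List.replicate l true))) &&
    collc cap u n l

theorem poly_testPS (ho : PolyOrc_stmt) {P h : (List Bool → Bool) → List Bool → List Bool}
    (hP : RelFn P) (hh : RelFn h) {γ : Type} [Enc γ] {cap n l : γ → ℕ} {u w : γ → List Bool}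
    (hc : PolyFn cap) (hn : PolyFn n) (hu : PolyFn u) (hl : PolyFn l) (hw : PolyFn w) :
    PolyFn (fun c => testPS P h (cap c) (n c) (u c) (l c) (w c)) := by
  refine PolyFn.and ?_ (poly_collc ho hc hu hn hl)
  refine PolyFn.decide_and (poly_le_two_pow (PolyFn.length hw) (poly_sqrt hn)) ?_
  refine PolyFn.decide_eq ((ho _ _ _ hP).comp (hu.pair hw)) ((ho _ _ _ hh).comp (hu.pair ?_))
  exact poly_inp hn (PolyFn.replicate hl (PolyFn.const true))

theorem badPS_eq (P h : (List Bool → Bool) → List Bool → List Bool)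
    (n : ℕ) (u : List Bool) : BadPS P h n u = (guardc n u &&
      (List.range (3 * n + 1)).any fun l => (shortsc (u.length + 1) n).any fun w =>
        testPS P h (u.length + 1) n u l w) := by
  unfold BadPS testPS
  rw [guardc_eq]
  by_cases hg : u.length = tb (2 ^ n)
  · have h1 : 2 ^ n ≤ u.length + 1 := by
      rw [cap_of_guard hg]; exact Nat.lt_two_pow_self.le
    rw [shortsc_eq (cap_of_guard hg)]
    simp only [collc_eq h1]
  · simp only [hg, decide_false, Bool.false_and]

/-- PBPS -/
theorem polyBadPS : PolyOrc_stmt → PolyBadPS_stmt := by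
  intro ho P h hP hh
  have key : PolyFn (fun q : ℕ × List Bool => guardc q.1 q.2 &&
      (List.range (3 * q.1 + 1)).any fun l => (shortsc (q.2.length + 1) q.1).any fun w =>
        testPS P h (q.2.length + 1) q.1 q.2 l w) := by
    refine PolyFn.and (poly_guardc PolyFn.fst PolyFn.snd) ?_
    refine PolyFn.any (p := fun (q : ℕ × List Bool) (l : ℕ) =>
      (shortsc (q.2.length + 1) q.1).any fun w => testPS P h (q.2.length + 1) q.1 q.2 l w) ?_
      (PolyFn.range (PolyFn.succ (PolyFn.mul (PolyFn.const 3) PolyFn.fst)))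
    refine PolyFn.any (p := fun (q : (ℕ × List Bool) × ℕ) (w : List Bool) =>
        testPS P h (q.1.2.length + 1) q.1.1 q.1.2 q.2 w) ?_
      (poly_shortsc (PolyFn.succ (PolyFn.length (PolyFn.snd.comp PolyFn.fst)))
        (PolyFn.fst.comp PolyFn.fst))
    have h0 : PolyFn (fun q : ((ℕ × List Bool) × ℕ) × List Bool => q.1.1.2) :=
      PolyFn.snd.comp (PolyFn.fst.comp PolyFn.fst)
    exact poly_testPS ho hP hh (PolyFn.succ (PolyFn.length h0))
      (PolyFn.fst.comp (PolyFn.fst.comp PolyFn.fst)) h0 (PolyFn.snd.comp PolyFn.fst) PolyFn.snd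
  exact key.of_eq fun q => (badPS_eq P h q.1 q.2).symm

end Pool.Agent.Lib.RO
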