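import Pool.Agent.Lib.RO.BadTools

/-!
# Project RO, module PBUP
-/

set_option autoImplicit false

namespace Pool.Agent.Lib.RO

open Pool.Agent.PolyTime Pool.Agent.Lib.MP_d5150c_lc Pool.Agent.Lib.MP_f0c157_lc
open N487b59b3 N68a2faeb N793a5b8e MeasureTheory

/-- the test applied to a triple `(y, w, w')` -/
def testUP (V : (List Bool → Bool) → List Bool × List Bool → Bool) (p : Polynomial ℕ) (n : ℕ)
    (u y w w' : List Bool) : Bool :=
  decide (y.length ≤ 2 ^ Nat.sqrt n ∧ w.length ≤ p.eval y.length ∧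
    w'.length ≤ p.eval y.length ∧ w ≠ w') && (V (orc u) (y, w) && V (orc u) (y, w'))

theorem poly_testUP (ho : PolyOrc_stmt) {V : (List Bool → Bool) → List Bool × List Bool → Bool}
    (p : Polynomial ℕ) (hV : RelFn V) {γ : Type} [Enc γ] {n : γ → ℕ} {u y w w' : γ → List Bool}
    (hn : PolyFn n) (hu : PolyFn u) (hy : PolyFn y) (hw : PolyFn w) (hw' : PolyFn w') :
    PolyFn (fun c => testUP V p (n c) (u c) (y c) (w c) (w' c)) := by
  have hly : PolyFn (fun c => (y c).length) := PolyFn.length hy
  have hV2 := ho _ _ _ hV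
  refine PolyFn.and ?_ (PolyFn.and (hV2.comp (hu.pair (hy.pair hw)))
    (hV2.comp (hu.pair (hy.pair hw'))))
  refine PolyFn.decide_and (poly_le_two_pow hly (poly_sqrt hn)) ?_
  refine PolyFn.decide_and (PolyFn.decide_le (PolyFn.length hw) (poly_eval p hly)) ?_
  refine PolyFn.decide_and (PolyFn.decide_le (PolyFn.length hw') (poly_eval p hly)) ?_
  exact PolyFn.decide_not (PolyFn.decide_eq hw hw')

theorem badUP_eq (V : (List Bool → Bool) → List Bool × List Bool → Bool) (p : Polynomial ℕ)
    (n : ℕ) (u : List Bool) : BadUP V p n u = (guardc n u &&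
      (shortsc (u.length + 1) n).any fun y => (shortsc (u.length + 1) n).any fun w =>
        (shortsc (u.length + 1) n).any fun w' => testUP V p n u y w w') := by
  unfold BadUP testUP
  rw [guardc_eq]
  by_cases h : u.length = tb (2 ^ n)
  · rw [shortsc_eq (cap_of_guard h)]
  · simp only [h, decide_false, Bool.false_and]

/-- PBUP -/
theorem polyBadUP : PolyOrc_stmt → PolyBadUP_stmt := by
  intro ho V p hV
  have h : PolyFn (fun q : ℕ × List Bool => guardc q.1 q.2 &&
      (shortsc (q.2.length + 1) q.1).any fun y => (shortsc (q.2.length + 1) q.1).any fun w =>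
        (shortsc (q.2.length + 1) q.1).any fun w' => testUP V p q.1 q.2 y w w') := by
    refine PolyFn.and (poly_guardc PolyFn.fst PolyFn.snd) ?_
    refine PolyFn.any (p := fun (q : ℕ × List Bool) (y : List Bool) =>
      (shortsc (q.2.length + 1) q.1).any fun w =>
        (shortsc (q.2.length + 1) q.1).any fun w' => testUP V p q.1 q.2 y w w') ?_
      (poly_shortsc (PolyFn.succ (PolyFn.length PolyFn.snd)) PolyFn.fst)
    refine PolyFn.any (p := fun (q : (ℕ × List Bool) × List Bool) (w : List Bool) =>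
        (shortsc (q.1.2.length + 1) q.1.1).any fun w' => testUP V p q.1.1 q.1.2 q.2 w w') ?_
      (poly_shortsc (PolyFn.succ (PolyFn.length (PolyFn.snd.comp PolyFn.fst)))
        (PolyFn.fst.comp PolyFn.fst))
    refine PolyFn.any (p := fun (q : ((ℕ × List Bool) × List Bool) × List Bool) (w' : List Bool) =>
        testUP V p q.1.1.1 q.1.1.2 q.1.2 q.2 w') ?_
      (poly_shortsc (PolyFn.succ (PolyFn.length (PolyFn.snd.comp (PolyFn.fst.comp PolyFn.fst))))
        (PolyFn.fst.comp (PolyFn.fst.comp PolyFn.fst)))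
    exact poly_testUP ho p hV
      (PolyFn.fst.comp (PolyFn.fst.comp (PolyFn.fst.comp PolyFn.fst)))
      (PolyFn.snd.comp (PolyFn.fst.comp (PolyFn.fst.comp PolyFn.fst)))
      (PolyFn.snd.comp (PolyFn.fst.comp PolyFn.fst))
      (PolyFn.snd.comp PolyFn.fst) PolyFn.snd
  exact h.of_eq fun q => (badUP_eq V p q.1 q.2).symm

end Pool.Agent.Lib.RO
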