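import Pool.Agent.Lib.RO.PolyTv

/-!
# Project RO: stages are recognized in polynomial time
-/

set_option autoImplicit false

namespace Pool.Agent.Lib.RO

open Pool.Agent.PolyTime Pool.Agent.Lib.MP_d5150c_lc Pool.Agent.Lib.MP_f0c157_lc
open N487b59b3 N68a2faeb N793a5b8e MeasureTheory

/-- one step of the search for the stage below `N` -/
def stStep (N : ℕ) (x : ℕ × ℕ) : ℕ × ℕ := if bigc N x.2 < N then (x.1 + 1, bigc N x.2) else x

theorem stStep_iter (N : ℕ) : ∀ i, ∃ j ≤ i, (stStep N)^[i] (0, 1) = (j, st j) ∧
    (st j < N ∨ j = 0) ∧ (j = i ∨ N ≤ st (j + 1))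
  | 0 => ⟨0, le_rfl, rfl, Or.inr rfl, Or.inl rfl⟩
  | i + 1 => by
    obtain ⟨j, hj, h1, h2, h3⟩ := stStep_iter N i
    rw [Function.iterate_succ_apply', h1]
    have hb : bigc N (st j) = min (st (j + 1)) (N + 1) := bigc_eq N (st j)
    by_cases h : st (j + 1) < N
    · have hb' : bigc N (st j) = st (j + 1) := by rw [hb]; exact min_eq_left (by omega)
      have hji : j = i := by
        rcases h3 with h3 | h3
        · exact h3
        · omega
      refine ⟨j + 1, by omega, ?_, Or.inl h, Or.inl (by omega)⟩
      unfold stStep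
      simp only [hb']
      rw [if_pos h]
    · refine ⟨j, by omega, ?_, h2, Or.inr (by omega)⟩
      unfold stStep
      refine if_neg ?_
      show ¬ bigc N (st j) < N
      rw [hb]
      omega

/-- the stage below `N` -/
def stg (N : ℕ) : Option (ℕ × ℕ) :=
  if bigc N ((stStep N)^[N] (0, 1)).2 = N then some ((stStep N)^[N] (0, 1)) else none

theorem poly_stIter : PolyFn (fun N : ℕ => (stStep N)^[N] (0, 1)) := by
  refine PolyFn.iterate (γ := ℕ) (α := ℕ × ℕ) (step := stStep) (init := fun _ => (0, 1))
    (cnt := fun N => N) ?_ (PolyFn.const _) PolyFn.id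
    ⟨fun n => 4 * n + 5, ((PB.const 4).mul PB.id).add (PB.const 5), ?_⟩
  · have h1 : PolyFn (fun p : ℕ × ℕ × ℕ => bigc p.1 p.2.2) :=
      poly_bigc PolyFn.fst (PolyFn.snd.comp PolyFn.snd)
    exact PolyFn.ite (p := fun p : ℕ × ℕ × ℕ => bigc p.1 p.2.2 < p.1)
      (PolyFn.decide_lt h1 PolyFn.fst)
      ((PolyFn.succ (PolyFn.fst.comp PolyFn.snd)).pair h1) PolyFn.snd
  · intro N i hi
    obtain ⟨j, hj, h1, h2, -⟩ := stStep_iter N i
    rw [h1]
    have h3 := lt_st j
    simp only [size_prod, size_nat]
    rcases h2 with h2 | h2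
    · omega
    · subst h2
      have : st 0 = 1 := rfl
      rw [this]
      omega

theorem polySt : PolySt_stmt := by
  refine ⟨stg, ?_, ?_⟩
  · exact PolyFn.ite (p := fun N : ℕ => bigc N ((stStep N)^[N] (0, 1)).2 = N)
      (PolyFn.decide_eq_nat (poly_bigc PolyFn.id (PolyFn.snd.comp poly_stIter)) PolyFn.id)
      (PolyFn.some poly_stIter) (PolyFn.const none)
  · intro N k m
    obtain ⟨j, hj, h1, h2, h3⟩ := stStep_iter N N
    have hlast : N ≤ st (j + 1) := by
      rcases h3 with h3 | h3
      · rcases h2 with h2 | h2
        · have := lt_st j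
          omega
        · have := lt_st (j + 1)
          omega
      · exact h3
    have hb : bigc N (st j) = min (st (j + 1)) (N + 1) := bigc_eq N (st j)
    unfold stg
    rw [h1]
    show (if bigc N (st j) = N then some (j, st j) else none) = some (k, m) ↔ _
    constructor
    · intro h
      by_cases hc : bigc N (st j) = N
      · rw [if_pos hc] at h
        have h4 := Option.some.inj h
        have h5 : j = k := congrArg Prod.fst h4
        have h6 : st j = m := congrArg Prod.snd h4
        subst h5
        exact ⟨h6.symm, by omega⟩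
      · rw [if_neg hc] at h
        exact absurd h (by simp)
    · rintro ⟨rfl, hN⟩
      have hkj : k ≤ j := by
        by_contra hcon
        have := st_strictMono (show j + 1 < k + 1 by omega)
        omega
      have hjk : j ≤ k := by
        rcases h2 with h2 | h2
        · by_contra hcon
          have := st_strictMono.monotone (show k + 1 ≤ j by omega)
          omega
        · omega
      have : j = k := by omega
      subst this
      rw [if_pos (by rw [hb]; omega)]

end Pool.Agent.Lib.RO
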