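import Pool.Agent.Lib.RO.Basic

/-!
# Project RO: the adaptive parameter is computable in polynomial time
-/

set_option autoImplicit false

namespace Pool.Agent.Lib.RO

open Pool.Agent.PolyTime Pool.Agent.Lib.MP_d5150c_lc Pool.Agent.Lib.MP_f0c157_lc
open N487b59b3 N68a2faeb N793a5b8e MeasureTheory

/-- all extensions of a variable word by a polynomially bounded number of possibilities -/
theorem poly_exts_var {γ : Type} [Enc γ] {s : γ → List Bool} {j : γ → ℕ} (hs : PolyFn s)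
    (hj : PolyFn j) (hb : ∃ q, PB q ∧ ∀ c, 2 ^ j c ≤ q (size c)) :
    PolyFn (fun c => exts (s c) (j c)) := by
  obtain ⟨q, hq, hqb⟩ := hb
  obtain ⟨r, hr, hrb⟩ := hs.size_le
  refine PolyFn.iterate (γ := γ) (step := fun _ E => ext1 E) (init := fun c => [s c]) (cnt := j)
    (poly_ext1 PolyFn.snd) (PolyFn.cons hs (PolyFn.const [])) hj
    ⟨fun n => 1 + q n * (4 * (r n + q n) + 2), ?_, ?_⟩
  · exact (PB.const 1).add (hq.mul (((PB.const 4).mul (hr.add hq)).add (PB.const 2)))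
  intro c i hi
  refine (size_exts (s c) i).trans ?_
  have h1 : 2 ^ i ≤ q (size c) := (Nat.pow_le_pow_right (by omega) hi).trans (hqb c)
  have h0 : (s c).length ≤ r (size c) := (length_le_size _).trans (hrb c)
  have h2 : 2 ^ i * (4 * ((s c).length + 2 ^ i) + 2) ≤
      q (size c) * (4 * (r (size c) + q (size c)) + 2) :=
    Nat.mul_le_mul h1 (by omega)
  show 1 + 2 ^ i * (4 * ((s c).length + 2 ^ i) + 2) ≤
      1 + q (size c) * (4 * (r (size c) + q (size c)) + 2)
  omega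

/-- the function `big`, truncated -/
def bigc (N m : ℕ) : ℕ := cpow (N + 1) 2 (cpow (N + 1) 2 (cpow (N + 1) 2 m))

theorem bigc_eq (N m : ℕ) : bigc N m = min (big m) (N + 1) := by
  have h0 : N + 1 < 2 ^ (N + 1) := Nat.lt_two_pow_self
  have h1 : 2 ^ m < 2 ^ 2 ^ m := Nat.lt_two_pow_self
  have h2 : 2 ^ 2 ^ m < 2 ^ 2 ^ 2 ^ m := Nat.lt_two_pow_self
  unfold bigc big
  rw [cpow_eq, cpow_eq, cpow_eq]
  rcases le_or_gt (2 ^ m) (N + 1) with ha | ha
  · rw [min_eq_left ha]
    rcases le_or_gt (2 ^ 2 ^ m) (N + 1) with hb | hb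
    · rw [min_eq_left hb]
    · rw [min_eq_right hb.le, min_eq_right h0.le, min_eq_right (by omega)]
  · rw [min_eq_right ha.le, min_eq_right h0.le, min_eq_right h0.le, min_eq_right (by omega)]

theorem poly_bigc {γ : Type} [Enc γ] {N m : γ → ℕ} (hN : PolyFn N) (hm : PolyFn m) :
    PolyFn (fun c => bigc (N c) (m c)) :=
  poly_cpow hN.succ (PolyFn.const 2) (poly_cpow hN.succ (PolyFn.const 2)
    (poly_cpow hN.succ (PolyFn.const 2) hm))

theorem gap_eq (n : ℕ) : gap n = 2 ^ 2 ^ n - 2 ^ n := by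
  unfold gap tb
  have h1 : 2 ^ n < 2 ^ 2 ^ n := Nat.lt_two_pow_self
  have h2 : 0 < 2 ^ n := by positivity
  omega

theorem two_pow_gap_le (n : ℕ) : 2 ^ gap n ≤ big n := by
  unfold big
  refine Nat.pow_le_pow_right (by omega) ?_
  rw [gap_eq]
  exact Nat.sub_le _ _

/-- the table of the function `gap`, truncated -/
theorem gap_capped {N n : ℕ} (h : big n ≤ N) : cpow N 2 (cpow N 2 n) - cpow N 2 n = gap n := by
  have h1 : 2 ^ n < 2 ^ 2 ^ n := Nat.lt_two_pow_self
  have h2 : 2 ^ 2 ^ n < 2 ^ 2 ^ 2 ^ n := Nat.lt_two_pow_self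
  unfold big at h
  rw [gap_eq, cpow_eq, cpow_eq, min_eq_left (show 2 ^ n ≤ N by omega),
    min_eq_left (show 2 ^ 2 ^ n ≤ N by omega)]

theorem capped_test (a P j : ℕ) : a * cpow (P + 1) 2 j ≤ P ↔ a * 2 ^ j ≤ P := by
  rw [cpow_eq]
  rcases le_total (2 ^ j) (P + 1) with h | h
  · rw [min_eq_left h]
  · rw [min_eq_right h]
    rcases Nat.eq_zero_or_pos a with ha | ha
    · subst ha; simp
    · have h1 : P + 1 ≤ a * (P + 1) := Nat.le_mul_of_pos_left _ ha
      have h2 : a * (P + 1) ≤ a * 2 ^ j := Nat.mul_le_mul_left _ h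
      constructor <;> intro h3 <;> omega

theorem polyTv : PolyTv_stmt := by
  intro Bad hBad
  have hN : PolyFn (fun q : ℕ × ℕ × ℕ × List Bool => q.1) := PolyFn.fst
  have hn : PolyFn (fun q : ℕ × ℕ × ℕ × List Bool => q.2.1) := PolyFn.fst.comp PolyFn.snd
  have h22 : PolyFn (fun q : ℕ × ℕ × ℕ × List Bool => q.2.2) := PolyFn.snd.comp PolyFn.snd
  have hk : PolyFn (fun q : ℕ × ℕ × ℕ × List Bool => q.2.2.1) := PolyFn.fst.comp h22
  have hs : PolyFn (fun q : ℕ × ℕ × ℕ × List Bool => q.2.2.2) := PolyFn.snd.comp h22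
  have htest : PolyFn (fun q : ℕ × ℕ × ℕ × List Bool => decide (big q.2.1 ≤ q.1)) := by
    refine (PolyFn.decide_le (poly_bigc hN hn) hN).of_eq fun q => ?_
    rw [bigc_eq]
    congr 1
    refine propext ⟨fun h => ?_, fun h => ?_⟩ <;> omega
  refine PolyFn.dcond (b := fun q : ℕ × ℕ × ℕ × List Bool => decide (big q.2.1 ≤ q.1))
    (f := fun q => tv Bad q.1.2.1 q.1.2.2.1 q.1.2.2.2) (g := fun _ => 0) htest ?_
    (PolyFn.const 0) ?_ ?_
  · have hle : ∀ q : {q : ℕ × ℕ × ℕ × List Bool // decide (big q.2.1 ≤ q.1) = true},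
        big q.1.2.1 ≤ q.1.1 := fun q => decide_eq_true_iff.1 q.2
    have hgap : PolyFn (fun q : {q : ℕ × ℕ × ℕ × List Bool // decide (big q.2.1 ≤ q.1) = true} =>
        gap q.1.2.1) := by
      have h1 : PolyFn (fun q : ℕ × ℕ × ℕ × List Bool =>
          cpow q.1 2 (cpow q.1 2 q.2.1) - cpow q.1 2 q.2.1) :=
        PolyFn.sub (poly_cpow hN (PolyFn.const 2) (poly_cpow hN (PolyFn.const 2) hn))
          (poly_cpow hN (PolyFn.const 2) hn)
      exact (PolyFn.restrict h1).of_eq fun q => gap_capped (hle q)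
    have hpow : PolyFn (fun q : {q : ℕ × ℕ × ℕ × List Bool // decide (big q.2.1 ≤ q.1) = true} =>
        2 ^ gap q.1.2.1) := by
      refine (poly_cpow (PolyFn.restrict hN) (PolyFn.const 2) hgap).of_eq fun q => ?_
      rw [cpow_eq, min_eq_left ((two_pow_gap_le _).trans (hle q))]
    have hexts : PolyFn (fun q : {q : ℕ × ℕ × ℕ × List Bool // decide (big q.2.1 ≤ q.1) = true} =>
        exts q.1.2.2.2 (gap q.1.2.1)) := by
      refine poly_exts_var (PolyFn.restrict hs) hgap ⟨fun n => n, PB.id, fun q => ?_⟩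
      refine ((two_pow_gap_le _).trans (hle q)).trans ?_
      show q.1.1 ≤ size q.1
      obtain ⟨⟨N, r⟩, hq⟩ := q
      simp only [size_prod, size_nat]
      omega
    have hcnt : PolyFn (fun q : {q : ℕ × ℕ × ℕ × List Bool // decide (big q.2.1 ≤ q.1) = true} =>
        cnt Bad q.1.2.1 q.1.2.2.2) := by
      refine PolyFn.length (PolyFn.filter
        (p := fun (q : {q : ℕ × ℕ × ℕ × List Bool // decide (big q.2.1 ≤ q.1) = true})
          (u : List Bool) => Bad q.1.2.1 u) ?_ hexts)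
      exact hBad.comp (((PolyFn.restrict hn).comp PolyFn.fst).pair PolyFn.snd)
    refine PolyFn.length (PolyFn.filter
      (p := fun (q : {q : ℕ × ℕ × ℕ × List Bool // decide (big q.2.1 ≤ q.1) = true}) (i : ℕ) =>
        decide (cnt Bad q.1.2.1 q.1.2.2.2 * 2 ^ (i + 4) ≤ 2 ^ gap q.1.2.1)) ?_
      (PolyFn.range (PolyFn.restrict hk).succ))
    refine (PolyFn.decide_le (PolyFn.mul (hcnt.comp PolyFn.fst)
      (poly_cpow (hpow.comp PolyFn.fst).succ (PolyFn.const 2)
        (PolyFn.add PolyFn.snd (PolyFn.const 4)))) (hpow.comp PolyFn.fst)).of_eq fun q => ?_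
    congr 1
    exact propext (capped_test _ _ _)
  · intro q h
    exact if_pos (decide_eq_true_iff.1 h)
  · intro q h
    exact if_neg (decide_eq_false_iff_not.1 h)

end Pool.Agent.Lib.RO
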