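import Pool.Agent.Lib.RO.StageK
import Pool.Agent.Lib.RO.PolyTv

/-!
# Project RO: the adaptive parameter with the parameter `κ` is computable in polynomial time
-/

set_option autoImplicit false

namespace Pool.Agent.Lib.RO

open Pool.Agent.PolyTime Pool.Agent.Lib.MP_d5150c_lc Pool.Agent.Lib.MP_f0c157_lc
open N487b59b3 N68a2faeb N793a5b8e MeasureTheory

theorem polyTvK : PolyTvK_stmt := by
  intro κ Bad hBad
  have hN : PolyFn (fun q : ℕ × ℕ × ℕ × List Bool => q.1) := PolyFn.fst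
  have hn : PolyFn (fun q : ℕ × ℕ × ℕ × List Bool => q.2.1) := PolyFn.fst.comp PolyFn.snd
  have h22 : PolyFn (fun q : ℕ × ℕ × ℕ × List Bool => q.2.2) := PolyFn.snd.comp PolyFn.snd
  have hk : PolyFn (fun q : ℕ × ℕ × ℕ × List Bool => q.2.2.1) := PolyFn.fst.comp h22
  have hs : PolyFn (fun q : ℕ × ℕ × ℕ × List Bool => q.2.2.2) := PolyFn.snd.comp h22
  have htest : PolyFn (fun q : ℕ × ℕ × ℕ × List Bool => decide (big q.2.1 ≤ q.1)) := by
    refine (PolyFn.decide_le (poly_bigc hN hn) hN).of_eq fun q => ?_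
    rw [bigc_eq]
    congr 1
    refine propext ⟨fun h => ?_, fun h => ?_⟩ <;> omega
  refine PolyFn.dcond (b := fun q : ℕ × ℕ × ℕ × List Bool => decide (big q.2.1 ≤ q.1))
    (f := fun q => tvK κ Bad q.1.2.1 q.1.2.2.1 q.1.2.2.2) (g := fun _ => 0) htest ?_
    (PolyFn.const 0) ?_ ?_
  · have hle : ∀ q : {q : ℕ × ℕ × ℕ × List Bool // decide (big q.2.1 ≤ q.1) = true},
        big q.1.2.1 ≤ q.1.1 := fun q => decide_eq_true_iff.1 q.2
    have hgap : PolyFn (fun q : {q : ℕ × ℕ × ℕ × List Bool // decide (big q.2.1 ≤ q.1) = true} =>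
        gap q.1.2.1) := by
      have h1 : PolyFn (fun q : ℕ × ℕ × ℕ × List Bool =>
          cpow q.1 2 (cpow q.1 2 q.2.1) - cpow q.1 2 q.2.1) :=
        PolyFn.sub (poly_cpow hN (PolyFn.const 2) (poly_cpow hN (PolyFn.const 2) hn))
          (poly_cpow hN (PolyFn.const 2) hn)
      exact (PolyFn.restrict h1).of_eq fun q => gap_capped (hle q)
    have hpow : PolyFn (fun q : {q : ℕ × ℕ × ℕ × List Bool // decide (big q.2.1 ≤ q.1) = true} =>
        2 ^ gap q.1.2.1) := by
      refine (poly_cpow (PolyFn.restrict hN) (PolyFn.const 2) hgap).of_eq fun q => ?_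
      rw [cpow_eq, min_eq_left ((two_pow_gap_le _).trans (hle q))]
    have hexts : PolyFn (fun q : {q : ℕ × ℕ × ℕ × List Bool // decide (big q.2.1 ≤ q.1) = true} =>
        exts q.1.2.2.2 (gap q.1.2.1)) := by
      refine poly_exts_var (PolyFn.restrict hs) hgap ⟨fun n => n, PB.id, fun q => ?_⟩
      refine ((two_pow_gap_le _).trans (hle q)).trans ?_
      show q.1.1 ≤ size q.1
      obtain ⟨⟨N, r⟩, hq⟩ := q
      simp only [size_prod, size_nat]
      omega
    have hcnt : PolyFn (fun q : {q : ℕ × ℕ × ℕ × List Bool // decide (big q.2.1 ≤ q.1) = true} =>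
        cnt Bad q.1.2.1 q.1.2.2.2) := by
      refine PolyFn.length (PolyFn.filter
        (p := fun (q : {q : ℕ × ℕ × ℕ × List Bool // decide (big q.2.1 ≤ q.1) = true})
          (u : List Bool) => Bad q.1.2.1 u) ?_ hexts)
      exact hBad.comp (((PolyFn.restrict hn).comp PolyFn.fst).pair PolyFn.snd)
    refine PolyFn.length (PolyFn.filter
      (p := fun (q : {q : ℕ × ℕ × ℕ × List Bool // decide (big q.2.1 ≤ q.1) = true}) (i : ℕ) =>
        decide (cnt Bad q.1.2.1 q.1.2.2.2 * 2 ^ (i + (κ + 4)) ≤ 2 ^ gap q.1.2.1)) ?_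
      (PolyFn.range (PolyFn.restrict hk).succ))
    refine (PolyFn.decide_le (PolyFn.mul (hcnt.comp PolyFn.fst)
      (poly_cpow (hpow.comp PolyFn.fst).succ (PolyFn.const 2)
        (PolyFn.add PolyFn.snd (PolyFn.const (κ + 4))))) (hpow.comp PolyFn.fst)).of_eq fun q => ?_
    congr 1
    exact propext (capped_test _ _ _)
  · intro q h
    exact if_pos (decide_eq_true_iff.1 h)
  · intro q h
    exact if_neg (decide_eq_false_iff_not.1 h)

end Pool.Agent.Lib.RO
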