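import Pool.Agent.Lib.RO.Basic

/-!
# Project RO: an oracle function depends on few short queries only
-/

set_option autoImplicit false

namespace Pool.Agent.Lib.RO

open Pool.Agent.PolyTime Pool.Agent.Lib.MP_d5150c_lc Pool.Agent.Lib.MP_f0c157_lc
open N487b59b3 N68a2faeb N793a5b8e MeasureTheory

theorem answers_length {α : Type} (Q : α × List Bool → List Bool) (R : List Bool → Bool) (x : α) :
    ∀ j, (answers Q R x j).length = j
  | 0 => rfl
  | j + 1 => by
    rw [answers, List.length_append, answers_length Q R x j]
    rfl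

theorem answers_congr {α : Type} {Q : α × List Bool → List Bool} {R R' : List Bool → Bool}
    {x : α} : ∀ {j : ℕ}, (∀ i < j, R' (Q (x, answers Q R x i)) = R (Q (x, answers Q R x i))) →
      answers Q R' x j = answers Q R x j
  | 0, _ => rfl
  | j + 1, h => by
    have h1 : answers Q R' x j = answers Q R x j := answers_congr fun i hi => h i (by omega)
    rw [answers, answers, h1, h j (by omega)]

theorem run : Run_stmt := by
  intro α β _ _ F hF
  obtain ⟨N, Q, O, hN, hQ, hO, hF⟩ := hF
  obtain ⟨gN, hgN, hN'⟩ := hN.size_le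
  obtain ⟨gQ, hgQ, hQ'⟩ := hQ.size_le
  obtain ⟨gO, hgO, hO'⟩ := hO.size_le
  have hPB : PB fun n => n + (4 * gN n + 1) + 1 :=
    (PB.id.add (((PB.const 4).mul hgN).add (PB.const 1))).add (PB.const 1)
  have hNx : ∀ x, N x ≤ gN (size x) := by
    intro x
    have h1 := hN' x
    rw [size_nat] at h1
    omega
  have hans : ∀ R x i, i ≤ N x →
      size (x, answers Q R x i) ≤ size x + (4 * gN (size x) + 1) + 1 := by
    intro R x i hi
    have h1 := Pool.Agent.Lib.MP_f0c157_lc.size_bits_le (answers Q R x i)
    rw [answers_length] at h1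
    have h2 := hNx x
    rw [size_prod]
    omega
  refine ⟨fun R x => (List.range (N x)).map fun i => Q (x, answers Q R x i),
    fun n => gN n + gQ (n + (4 * gN n + 1) + 1) + gO (n + (4 * gN n + 1) + 1),
    (hgN.add (hgQ.comp hPB)).add (hgO.comp hPB), ?_, ?_, ?_, ?_⟩
  · intro R x
    have h1 := hNx x
    simp only [List.length_map, List.length_range]
    omega
  · intro R x v hv
    obtain ⟨i, hi, rfl⟩ := List.mem_map.1 hv
    rw [List.mem_range] at hi
    have h1 := length_le_size (Q (x, answers Q R x i))
    have h2 := hQ' (x, answers Q R x i)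
    have h3 := hgQ.1 (hans R x i hi.le)
    show _ ≤ gN (size x) + gQ (size x + (4 * gN (size x) + 1) + 1) +
      gO (size x + (4 * gN (size x) + 1) + 1)
    omega
  · intro R x
    have h2 := hO' (x, answers Q R x (N x))
    have h3 := hgO.1 (hans R x (N x) le_rfl)
    rw [hF]
    show _ ≤ gN (size x) + gQ (size x + (4 * gN (size x) + 1) + 1) +
      gO (size x + (4 * gN (size x) + 1) + 1)
    omega
  · intro R R' x h
    have hq : ∀ i < N x, R' (Q (x, answers Q R x i)) = R (Q (x, answers Q R x i)) := by
      intro i hi
      exact h _ (List.mem_map.2 ⟨i, List.mem_range.2 hi, rfl⟩)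
    constructor
    · rw [hF, hF, answers_congr hq]
    · refine List.map_congr_left ?_
      intro i hi
      rw [List.mem_range] at hi
      rw [answers_congr fun j hj => hq j (by omega)]

end Pool.Agent.Lib.RO
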