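import Pool.Agent.Lib.RO.Basic

/-!
# Project RO, module TAB: tables form a planting structure
-/

set_option autoImplicit false

namespace Pool.Agent.Lib.RO

open Pool.Agent.PolyTime Pool.Agent.Lib.MP_d5150c_lc Pool.Agent.Lib.MP_f0c157_lc
open N487b59b3 N68a2faeb N793a5b8e MeasureTheory

open Classical in
/-- planting the value `z` at `x` in an oracle -/
noncomputable def plO (l : ℕ) (x z : List Bool) (R : List Bool → Bool) (v : List Bool) : Bool :=
  if ∃ j < l, v = loc x j then z.getD (v.length - x.length - 1) false else R v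

theorem plO_loc {l : ℕ} {x z : List Bool} {R : List Bool → Bool} {j : ℕ} (hj : j < l) :
    plO l x z R (loc x j) = z.getD j false := by
  unfold plO
  rw [if_pos ⟨j, hj, rfl⟩, loc_length]
  congr 1
  omega

theorem plO_ne {l : ℕ} {x z : List Bool} {R : List Bool → Bool} {v : List Bool}
    (h : ∀ j < l, v ≠ loc x j) : plO l x z R v = R v := by
  unfold plO
  rw [if_neg]
  rintro ⟨j, hj, hv⟩
  exact h j hj hv

/-- planting the value `z` at `x` in a table -/
noncomputable def plT (l : ℕ) (x z u : List Bool) : List Bool :=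
  (List.range u.length).map fun i => plO l x z (orc u) (inc^[i] [])

theorem plT_length (l : ℕ) (x z u : List Bool) : (plT l x z u).length = u.length := by
  simp [plT]

theorem orc_plT {l : ℕ} {x z u : List Bool} (h : ∀ j < l, wnum (loc x j) < u.length) :
    orc (plT l x z u) = plO l x z (orc u) := by
  funext v
  by_cases hv : wnum v < u.length
  · have h1 : (plT l x z u).getD (wnum v) false = plO l x z (orc u) (inc^[wnum v] []) := by
      unfold plT
      rw [List.getD_eq_getElem _ _ (by simpa using hv)]
      simp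
    unfold orc at h1 ⊢
    rw [h1, inc_iter_wnum]
  · have h1 : orc (plT l x z u) v = false := by
      unfold orc
      rw [List.getD_eq_default]
      rw [plT_length]
      omega
    have h2 : orc u v = false := by
      unfold orc
      rw [List.getD_eq_default]
      omega
    rw [h1, plO_ne, h2]
    intro j hj hvj
    rw [hvj] at hv
    exact hv (h j hj)

theorem orc_iter {u : List Bool} {i : ℕ} (h : i < u.length) : orc u (inc^[i] []) = u[i] := by
  unfold orc
  rw [wnum_iter, List.getD_eq_getElem _ _ h]

theorem tab_ext {u u' : List Bool} (hl : u.length = u'.length) (h : orc u = orc u') : u = u' := by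
  refine List.ext_getElem hl ?_
  intro i h1 h2
  rw [← orc_iter h1, ← orc_iter h2, h]

theorem loc_in_table {n l : ℕ} {x : List Bool} (hx : x.length = n) (hnl : n + l < 2 ^ n) {j : ℕ}
    (hj : j < l) : wnum (loc x j) < tb (2 ^ n) := by
  rw [wnum_lt_iff, loc_length, hx]
  omega

theorem plT_mem {n l : ℕ} {s u x z : List Bool} (hs : s.length = tb n) (hx : x.length = n)
    (hu : u ∈ exts s (gap n)) : plT l x z u ∈ exts s (gap n) := by
  have hu' := exts_mem.1 hu
  obtain ⟨h1, h2⟩ := hu'
  refine exts_mem.2 ⟨?_, by rw [plT_length, h2]⟩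
  rw [List.prefix_iff_eq_take]
  have hle : s.length ≤ u.length := h1.length_le
  refine List.ext_getElem (by rw [List.length_take, plT_length]; omega) ?_
  intro i h3 h4
  rw [List.getElem_take]
  have h5 : i < u.length := by omega
  have h6 : s[i] = u[i] := by
    obtain ⟨r, rfl⟩ := h1
    rw [List.getElem_append_left]
  have h7 : (plT l x z u)[i]'(by rw [plT_length]; exact h5) = plO l x z (orc u) (inc^[i] []) := by
    simp [plT]
  rw [h7, plO_ne, orc_iter h5, h6]
  intro j _ hj
  have h8 := congrArg wnum hj
  rw [wnum_iter] at h8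
  have h9 : ¬ (wnum (loc x j) < tb n) := by
    rw [wnum_lt_iff, loc_length, hx]
    omega
  omega

theorem Fv_plO_same {l : ℕ} {x z : List Bool} {R : List Bool → Bool} (hz : z.length = l) :
    Fv (plO l x z R) l x = z := by
  unfold Fv
  refine List.ext_getElem (by simp [hz]) ?_
  intro i h1 h2
  rw [List.getElem_map, List.getElem_range, plO_loc (by omega), List.getD_eq_getElem _ _ h2]

theorem Fv_plO_ne {l : ℕ} {x x' z : List Bool} {R : List Bool → Bool} (hl : x.length = x'.length)
    (hx : x' ≠ x) : Fv (plO l x z R) l x' = Fv R l x' := by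
  refine Fv_congr ?_
  intro j _
  refine plO_ne ?_
  intro j' _ h
  exact hx (loc_inj hl.symm h).1

theorem plO_plO {l : ℕ} {x z z' : List Bool} {R : List Bool → Bool} :
    plO l x z' (plO l x z R) = plO l x z' R := by
  funext v
  by_cases h : ∃ j < l, v = loc x j
  · obtain ⟨j, hj, rfl⟩ := h
    rw [plO_loc hj, plO_loc hj]
  · have h' : ∀ j < l, v ≠ loc x j := fun j hj hv => h ⟨j, hj, hv⟩
    rw [plO_ne h', plO_ne h', plO_ne h']

theorem plO_val {l : ℕ} {x : List Bool} {R : List Bool → Bool} :
    plO l x (Fv R l x) R = R := by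
  funext v
  by_cases h : ∃ j < l, v = loc x j
  · obtain ⟨j, hj, rfl⟩ := h
    rw [plO_loc hj, List.getD_eq_getElem _ _ (by rw [Fv_length]; exact hj)]
    simp [Fv]
  · have h' : ∀ j < l, v ≠ loc x j := fun j hj hv => h ⟨j, hj, hv⟩
    rw [plO_ne h']

theorem plO_comm {l : ℕ} {x x' z z' : List Bool} {R : List Bool → Bool}
    (hl : x.length = x'.length) (hx : x ≠ x') :
    plO l x' z' (plO l x z R) = plO l x z (plO l x' z' R) := by
  funext v
  by_cases h : ∃ j < l, v = loc x j
  · obtain ⟨j, hj, rfl⟩ := h
    have h' : ∀ j' < l, loc x j ≠ loc x' j' := fun j' _ hv => hx (loc_inj hl hv).1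
    rw [plO_ne h', plO_loc hj, plO_loc hj]
  · have h1 : ∀ j < l, v ≠ loc x j := fun j hj hv => h ⟨j, hj, hv⟩
    rw [plO_ne h1]
    by_cases h2 : ∃ j < l, v = loc x' j
    · obtain ⟨j, hj, rfl⟩ := h2
      rw [plO_loc hj, plO_loc hj]
    · have h3 : ∀ j < l, v ≠ loc x' j := fun j hj hv => h2 ⟨j, hj, hv⟩
      rw [plO_ne h3, plO_ne h3, plO_ne h1]

/-- tables form a planting structure -/
noncomputable def tabPlanting (n l : ℕ) (s : List Bool) (hs : s.length = tb n)
    (hnl : n + l < 2 ^ n) :
    Planting {u : List Bool // u ∈ exts s (gap n)} (List.Vector Bool n) (List.Vector Bool l) where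
  val u x := ⟨Fv (orc u.1) l x.1, Fv_length _ _ _⟩
  pl u x z := ⟨plT l x.1 z.1 u.1, plT_mem hs x.2 u.2⟩
  val_same := by
    intro u x z
    have hq : ∀ j < l, wnum (loc x.1 j) < u.1.length := by
      intro j hj
      rw [mem_exts_length hs u.2]
      exact loc_in_table x.2 hnl hj
    apply Subtype.ext
    show Fv (orc (plT l x.1 z.1 u.1)) l x.1 = z.1
    rw [orc_plT hq]
    exact Fv_plO_same z.2
  val_ne := by
    intro u x z x' hx
    have hq : ∀ j < l, wnum (loc x.1 j) < u.1.length := by
      intro j hj
      rw [mem_exts_length hs u.2]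
      exact loc_in_table x.2 hnl hj
    apply Subtype.ext
    show Fv (orc (plT l x.1 z.1 u.1)) l x'.1 = Fv (orc u.1) l x'.1
    rw [orc_plT hq]
    refine Fv_plO_ne (x.2.trans x'.2.symm) ?_
    intro h
    exact hx (Subtype.ext h)
  pl_pl := by
    intro u x z z'
    have hq : ∀ j < l, wnum (loc x.1 j) < u.1.length := by
      intro j hj
      rw [mem_exts_length hs u.2]
      exact loc_in_table x.2 hnl hj
    apply Subtype.ext
    show plT l x.1 z'.1 (plT l x.1 z.1 u.1) = plT l x.1 z'.1 u.1
    refine tab_ext (by rw [plT_length, plT_length, plT_length]) ?_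
    rw [orc_plT hq, orc_plT (by rw [plT_length]; exact hq), orc_plT hq, plO_plO]
  pl_val := by
    intro u x
    have hq : ∀ j < l, wnum (loc x.1 j) < u.1.length := by
      intro j hj
      rw [mem_exts_length hs u.2]
      exact loc_in_table x.2 hnl hj
    apply Subtype.ext
    show plT l x.1 (Fv (orc u.1) l x.1) u.1 = u.1
    refine tab_ext (by rw [plT_length]) ?_
    rw [orc_plT hq, plO_val]
  pl_comm := by
    intro u x x' z z' hx
    have hq : ∀ (y : List.Vector Bool n), ∀ j < l, wnum (loc y.1 j) < u.1.length := by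
      intro y j hj
      rw [mem_exts_length hs u.2]
      exact loc_in_table y.2 hnl hj
    apply Subtype.ext
    show plT l x'.1 z'.1 (plT l x.1 z.1 u.1) = plT l x.1 z.1 (plT l x'.1 z'.1 u.1)
    refine tab_ext (by rw [plT_length, plT_length, plT_length, plT_length]) ?_
    rw [orc_plT (by rw [plT_length]; exact hq x'), orc_plT (hq x),
      orc_plT (by rw [plT_length]; exact hq x), orc_plT (hq x')]
    refine plO_comm (x.2.trans x'.2.symm) ?_
    intro h
    exact hx (Subtype.ext h)

theorem tab : Tab_stmt := by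
  intro n l s hs hnl
  refine ⟨tabPlanting n l s hs hnl, fun u x => rfl, ?_⟩
  intro u x z v hv
  have hq : ∀ j < l, wnum (loc x.1 j) < u.1.length := by
    intro j hj
    rw [mem_exts_length hs u.2]
    exact loc_in_table x.2 hnl hj
  show orc (plT l x.1 z.1 u.1) v = orc u.1 v
  rw [orc_plT hq, plO_ne hv]

end Pool.Agent.Lib.RO
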