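import Pool.Agent.Lib.RO.MainB
import Pool.Agent.Lib.RO.Rel
import Pool.Agent.Lib.RO.RelClosure
import Pool.Agent.Lib.RO.Run
import Pool.Agent.Lib.RO.Grow
import Pool.Agent.Lib.RO.Plant
import Pool.Agent.Lib.RO.KeyA
import Pool.Agent.Lib.RO.KeyB
import Pool.Agent.Lib.RO.Tab
import Pool.Agent.Lib.RO.KeyUP
import Pool.Agent.Lib.RO.KeyPS
import Pool.Agent.Lib.RO.F1
import Pool.Agent.Lib.RO.F2
import Pool.Agent.Lib.RO.PolyTv
import Pool.Agent.Lib.RO.PolySt
import Pool.Agent.Lib.RO.PolyOrc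
import Pool.Agent.Lib.RO.PolyBadUP
import Pool.Agent.Lib.RO.PolyBadPS
import Pool.Agent.Lib.RO.MemUP
import Pool.Agent.Lib.RO.MemC
import Pool.Agent.Lib.RO.GPS
import Pool.Agent.Lib.RO.Meas
import Pool.Agent.Lib.RO.MainAK
import Pool.Agent.Lib.RO.PlantK
import Pool.Agent.Lib.RO.KeyAK
import Pool.Agent.Lib.RO.KeyUPK
import Pool.Agent.Lib.RO.F1K
import Pool.Agent.Lib.RO.F2K
import Pool.Agent.Lib.RO.PolyTvK
import Pool.Agent.Lib.RO.MemUPK

/-!
# Project RO: the theorems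
-/

set_option autoImplicit false

namespace Pool.Agent.Lib.RO

open N68a2faeb N793a5b8e MeasureTheory

theorem mainA : ∀ᵐ R ∂randomOracle, ¬ ∃ L : DecisionProblem, L ∈ UPRel R ∧
    ∀ L' ∈ UPRel R, ManyOneReducibleRel R L' L :=
  mainA_of (keyUP (keyA plant2) tab run grow) (f1 plant1 tab) f2 (polyBadUP polyOrc) enum1 enum2
    (memUP relConst relComp relPair relQueries ofRel2 polyTv polySt) run grow meas

theorem mainAK : ∀ᵐ R ∂randomOracle, ∀ k : ℕ, ¬ ∃ L : DecisionProblem, L ∈ UPRel R ∧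
    ∀ L' ∈ UPRel R, BoundedReducibleRel R k L' L :=
  mainAK_of (keyUPK (keyAK plant2K) tab run grow) (f1K plant1 tab) f2K (polyBadUP polyOrc) enum2
    (memUPK relConst relComp relPair relQueries ofRel2 polyTvK polySt) run grow meas

theorem mainB : ∀ᵐ R ∂randomOracle, ∀ L : DecisionProblem,
    (∀ A ∈ coNPRel R, ManyOneReducibleRel R A L) →
      ∀ P : List Bool → List Bool, IsProofSystemRel R L P →
        ∃ Q, IsProofSystemRel R L Q ∧ ∀ C : ℕ, ¬ SimulatesWithin (sub4 C) P Q :=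
  mainB_of (keyPS (keyB plant2) tab run grow) (f1 plant1 tab) f2 (polyBadPS polyOrc) enum1
    (memC relConst relComp relPair relQueries ofRel2)
    (gps relConst relComp relPair relQueries ofRel1 polyTv polySt) run grow meas

end Pool.Agent.Lib.RO
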