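import Pool.Agent.Lib.RO.Basic

/-!
# Project RO: no complete languages for UP relative to a random oracle (assembly)
-/

set_option autoImplicit false

namespace Pool.Agent.Lib.RO

open Pool.Agent.PolyTime Pool.Agent.Lib.MP_d5150c_lc Pool.Agent.Lib.MP_f0c157_lc
open N487b59b3 N68a2faeb N793a5b8e MeasureTheory

/-! ### Agreement -/

/-- an oracle function depends on short strings only -/
theorem agree_of_run (hRun : Run_stmt) {α β : Type} [Enc α] [Enc β]
    {F : (List Bool → Bool) → α → β} (hF : RelFn F) : ∃ b : ℕ → ℕ, PB b ∧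
      (∀ R x, size (F R x) ≤ b (size x)) ∧
      ∀ R R' x, (∀ v : List Bool, v.length ≤ b (size x) → R' v = R v) → F R' x = F R x := by
  obtain ⟨qr, b, hb, _, h2, h3, h4⟩ := hRun α β F hF
  refine ⟨b, hb, h3, fun R R' x h => ?_⟩
  exact (h4 R R' x fun v hv => h v (h2 R x v hv)).1

theorem countable_polynomial : Countable (Polynomial ℕ) := by
  rw [← Cardinal.mk_le_aleph0_iff]
  refine Polynomial.cardinalMk_le_max.trans ?_
  simp

theorem four_mul_lt {n : ℕ} (h : 5 ≤ n) : 4 * n < 2 ^ n := by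
  induction n, h using Nat.le_induction with
  | base => norm_num
  | succ m hm ih => rw [pow_succ]; omega

theorem size_pair_le (y w : List Bool) : size (y, w) ≤ 4 * (y.length + w.length) + 3 := by
  have h1 := Pool.Agent.Lib.MP_f0c157_lc.size_bits_le y
  have h2 := Pool.Agent.Lib.MP_f0c157_lc.size_bits_le w
  rw [size_prod]
  omega

/-- values of a verifier on short inputs are determined by the table -/
theorem verifier_agree (hRun : Run_stmt) (hGrow : Grow_stmt)
    {V : (List Bool → Bool) → List Bool × List Bool → Bool} (hV : RelFn V) (p : Polynomial ℕ) :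
    ∃ n0, ∀ n ≥ n0, 2 ^ Nat.sqrt n < 2 ^ n ∧ ∀ y w : List Bool, y.length ≤ 2 ^ Nat.sqrt n →
      w.length ≤ p.eval y.length → w.length < 2 ^ n ∧
      ∀ R R' : List Bool → Bool, (∀ v : List Bool, v.length < 2 ^ n → R' v = R v) →
        V R' (y, w) = V R (y, w) := by
  obtain ⟨b, hb, _, hag⟩ := agree_of_run hRun hV
  have hB : PB fun m => b (4 * (m + p.eval m) + 3) + p.eval m + m := by
    have hp : PB fun m => p.eval m := ⟨fun a c h => poly_mono p h, p, fun n => le_rfl⟩
    exact ((hb.comp (((PB.const 4).mul (PB.id.add hp)).add (PB.const 3))).add hp).add PB.id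
  obtain ⟨n0, hn0⟩ := hGrow _ hB 1
  refine ⟨n0, fun n hn => ?_⟩
  obtain ⟨h1, _⟩ := hn0 n hn
  set m := 1 * (2 ^ Nat.sqrt n + 4 * n + 1) with hm
  have hm' : 2 ^ Nat.sqrt n ≤ m := by omega
  refine ⟨by omega, ?_⟩
  intro y w hy hw
  have hpy : p.eval y.length ≤ p.eval m := poly_mono p (by omega)
  refine ⟨by omega, ?_⟩
  intro R R' hRR
  refine hag R R' (y, w) fun v hv => hRR v ?_
  have h2 : b (size (y, w)) ≤ b (4 * (m + p.eval m) + 3) := by
    refine hb.mono ((size_pair_le y w).trans ?_)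
    omega
  omega

/-- values of a function on the inputs of a stage are determined by the table and are short -/
theorem function_agree (hRun : Run_stmt) (hGrow : Grow_stmt)
    {f : (List Bool → Bool) → List Bool → List Bool} (hf : RelFn f) :
    ∃ n0, ∀ n ≥ n0, ∀ x : List Bool, x.length ≤ 4 * n →
      (∀ R, (f R x).length ≤ 2 ^ Nat.sqrt n) ∧
      ∀ R R' : List Bool → Bool, (∀ v : List Bool, v.length < 2 ^ n → R' v = R v) →
        f R' x = f R x := by
  obtain ⟨b, hb, hs, hag⟩ := agree_of_run hRun hf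
  obtain ⟨n0, hn0⟩ := hGrow _ hb 4
  refine ⟨n0, fun n hn x hx => ?_⟩
  obtain ⟨h1, h2⟩ := hn0 n hn
  have h3 := Pool.Agent.Lib.MP_f0c157_lc.size_bits_le x
  have h4 : b (size x) ≤ b (4 * (4 * n + 4)) := hb.mono (by omega)
  have h5 : b (size x) ≤ b (4 * (2 ^ Nat.sqrt n + 4 * n + 4)) := hb.mono (by omega)
  refine ⟨fun R => ?_, fun R R' hRR => hag R R' x fun v hv => hRR v (by omega)⟩
  have h6 := hs R x
  have h7 := length_le_size (f R x)
  omega

/-! ### The language at a stage -/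

theorem DUP_iff {Bad : ℕ → List Bool → Bool} {K : ℕ} {R : List Bool → Bool} {k : ℕ} (hk : K ≤ k)
    {z : List Bool} (hz : z.length = lenR Bad k R) :
    DUP Bad K R (inp (st (k + 1)) z) = true ↔
      ∃ x : List Bool, x.length = st (k + 1) ∧ Fv R z.length x = z := by
  classical
  unfold DUP
  rw [decide_eq_true_eq]
  constructor
  · rintro ⟨j, _, z', x, h1, h2, h3, h4⟩
    obtain ⟨h5, h6⟩ := inp_inj h1
    have h7 : k + 1 = j + 1 := st_inj h5
    have h8 : k = j := by omega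
    subst h8
    subst h6
    exact ⟨x, h2, h4⟩
  · rintro ⟨x, h1, h2⟩
    exact ⟨k, hk, z, x, rfl, h1, hz, h2⟩

/-- the set of the oracles on which `f` reduces the language to the language of `(V, p)` -/
def SetA (V : (List Bool → Bool) → List Bool × List Bool → Bool) (p : Polynomial ℕ)
    (f : (List Bool → Bool) → List Bool → List Bool) (K : ℕ) : Set (ℕ → Bool) :=
  {α | (∀ y w w' : List Bool, w.length ≤ p.eval y.length → w'.length ≤ p.eval y.length →
      V (ofSeq α) (y, w) = true → V (ofSeq α) (y, w') = true → w = w') ∧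
    ∀ z, DUP (BadUP V p) K (ofSeq α) z = true ↔
      ∃ w : List Bool, w.length ≤ p.eval (f (ofSeq α) z).length ∧
        V (ofSeq α) (f (ofSeq α) z, w) = true}

theorem not_badUP_of_unambiguous (hRun : Run_stmt) (hGrow : Grow_stmt)
    {V : (List Bool → Bool) → List Bool × List Bool → Bool} (hV : RelFn V) (p : Polynomial ℕ) :
    ∃ n0, ∀ n ≥ n0, ∀ α : ℕ → Bool,
      (∀ y w w' : List Bool, w.length ≤ p.eval y.length → w'.length ≤ p.eval y.length →
        V (ofSeq α) (y, w) = true → V (ofSeq α) (y, w') = true → w = w') →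
      BadUP V p n (firstBits α (tb (2 ^ n))) = false := by
  obtain ⟨n0, hn0⟩ := verifier_agree hRun hGrow hV p
  refine ⟨n0, fun n hn α hα => ?_⟩
  by_contra hcon
  rw [Bool.not_eq_false] at hcon
  unfold BadUP at hcon
  rw [Bool.and_eq_true, List.any_eq_true] at hcon
  obtain ⟨_, y, _, h1⟩ := hcon
  rw [List.any_eq_true] at h1
  obtain ⟨w, _, h1⟩ := h1
  rw [List.any_eq_true] at h1
  obtain ⟨w', _, h1⟩ := h1
  rw [Bool.and_eq_true, Bool.and_eq_true, decide_eq_true_iff] at h1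
  obtain ⟨⟨h2, h3, h4, h5⟩, h6, h7⟩ := h1
  obtain ⟨_, hag⟩ := hn0 n hn
  have hRR : ∀ v : List Bool, v.length < 2 ^ n →
      orc (firstBits α (tb (2 ^ n))) v = ofSeq α v := fun v hv => orc_firstBits α hv
  rw [(hag y w h2 h3).2 _ _ hRR] at h6
  rw [(hag y w' h2 h4).2 _ _ hRR] at h7
  exact h5 (hα y w w' h3 h4 h6 h7)

theorem SetA_null (hKey : KeyUP_stmt) (hF2 : F2_stmt) (hRun : Run_stmt) (hGrow : Grow_stmt)
    {V : (List Bool → Bool) → List Bool × List Bool → Bool} (hV : RelFn V) (p : Polynomial ℕ)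
    {f : (List Bool → Bool) → List Bool → List Bool} (hf : RelFn f) (K : ℕ) :
    coin (SetA V p f K) = 0 := by
  obtain ⟨n1, hn1⟩ := not_badUP_of_unambiguous hRun hGrow hV p
  obtain ⟨n2, hn2⟩ := hKey V p f hV hf
  obtain ⟨n3, hn3⟩ := verifier_agree hRun hGrow hV p
  obtain ⟨n4, hn4⟩ := function_agree hRun hGrow hf
  set k0 := n1 + n2 + n3 + n4 + K + 3 with hk0
  refine hF2 (BadUP V p) (SetA V p f K) k0 ?_ ?_
  · intro k hk α hα
    refine hn1 (st k) ?_ α hα.1
    have := lt_st k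
    omega
  · intro k hk s hs t ht ht1 htk H hH hcard
    set n := st (k + 1) with hn
    have hkn : k + 1 < n := lt_st (k + 1)
    refine hn2 n (by omega) t ht1 (by omega) s hs H ?_ hcard
    intro u hu
    obtain ⟨hu1, α, hα, hαu⟩ := hH u hu
    refine ⟨hu1, ?_⟩
    intro z hz
    have hul : u.length = tb (2 ^ n) := mem_exts_length hs hu1
    have hRR : ∀ v : List Bool, v.length < 2 ^ n → orc u v = ofSeq α v :=
      fun v hv => orc_eq_of_cyl hαu hul hv
    -- the parameter of the oracle is the parameter of the table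
    have hlen : lenR (BadUP V p) k (ofSeq α) = ell n t := by
      unfold lenR
      rw [tableR_ofSeq, ht]
      have h1 : α ∈ cyl s := cyl_anti (exts_mem.1 hu1).1 hαu
      have h2 := cnt_congr_take (m := st k) (n := n) h1 hs (st_lt_succ k).le
      rw [h2]
    have hell : ell n t ≤ 3 * n := by unfold ell; omega
    have hzl : z.length ≤ 3 * n := by omega
    have hil : (inp n z).length ≤ 4 * n + 1 := by rw [inp_length]; omega
    have hil' : (inp n z).length ≤ 4 * n := by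
      rw [inp_length]
      unfold ell at hz
      omega
    obtain ⟨hfl, hfag⟩ := hn4 n (by omega) (inp n z) hil'
    obtain ⟨_, hvag⟩ := hn3 n (by omega)
    have hfe : f (orc u) (inp n z) = f (ofSeq α) (inp n z) := hfag _ _ hRR
    have hn5 : 4 * n < 2 ^ n := four_mul_lt (by omega)
    have hFe : ∀ x : List Bool, x.length = n → Fv (orc u) (ell n t) x = Fv (ofSeq α) (ell n t) x := by
      intro x hx
      refine Fv_congr fun j hj => hRR _ ?_
      rw [loc_length]
      omega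
    have h3 := hα.2 (inp n z)
    rw [DUP_iff (by omega) (by rw [hz, hlen])] at h3
    rw [hfe]
    constructor
    · rintro ⟨x, hx, hxz⟩
      obtain ⟨w, hw, hV1⟩ := h3.1 ⟨x, hx, by rw [hz, ← hFe x hx]; exact hxz⟩
      refine ⟨w, hw, ?_⟩
      rw [(hvag _ w (hfl _) hw).2 _ _ hRR]
      exact hV1
    · rintro ⟨w, hw, hV1⟩
      rw [(hvag _ w (hfl _) hw).2 _ _ hRR] at hV1
      obtain ⟨x, hx, hxz⟩ := h3.2 ⟨w, hw, hV1⟩
      exact ⟨x, hx, by rw [hFe x hx, ← hz]; exact hxz⟩

/-- Assembly of theorem (A). -/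
theorem mainA_of (hKey : KeyUP_stmt) (hF1 : F1_stmt) (hF2 : F2_stmt) (hPB : PolyBadUP_stmt)
    (hE1 : Enum1_stmt) (hE2 : Enum2_stmt) (hMem : MemUP_stmt) (hRun : Run_stmt)
    (hGrow : Grow_stmt) (hMeas : Meas_stmt) :
    ∀ᵐ R ∂randomOracle, ¬ ∃ L : DecisionProblem, L ∈ UPRel R ∧
      ∀ L' ∈ UPRel R, ManyOneReducibleRel R L' L := by
  refine hMeas _ ?_
  have := countable_polynomial
  obtain ⟨𝓕, h𝓕c, h𝓕r, h𝓕⟩ := hE1
  obtain ⟨𝓥, h𝓥c, h𝓥r, h𝓥⟩ := hE2
  -- the good set: finitely many collisions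
  have hgood : ∀ᵐ α ∂coin, ∀ V ∈ 𝓥, ∀ p : Polynomial ℕ,
      (∀ y w w' : List Bool, w.length ≤ p.eval y.length → w'.length ≤ p.eval y.length →
        V (ofSeq α) (y, w) = true → V (ofSeq α) (y, w') = true → w = w') →
      ∃ K, ∀ k ≥ K, ¬ Coll (ofSeq α) (st (k + 1)) (lenR (BadUP V p) k (ofSeq α)) := by
    refine (ae_ball_iff h𝓥c).2 fun V hV => ?_
    rw [ae_all_iff]
    intro p
    obtain ⟨n1, hn1⟩ := not_badUP_of_unambiguous hRun hGrow (h𝓥r V hV) p
    filter_upwards [hF1 (BadUP V p) n1] with α hα hu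
    refine hα fun k hk => hn1 (st k) ?_ α hu
    have := lt_st k
    omega
  have hnull : ∀ᵐ α ∂coin, ∀ V ∈ 𝓥, ∀ p : Polynomial ℕ, ∀ f ∈ 𝓕, ∀ K : ℕ, α ∉ SetA V p f K := by
    refine (ae_ball_iff h𝓥c).2 fun V hV => ?_
    rw [ae_all_iff]
    intro p
    refine (ae_ball_iff h𝓕c).2 fun f hf => ?_
    rw [ae_all_iff]
    intro K
    have h := SetA_null hKey hF2 hRun hGrow (h𝓥r V hV) p (h𝓕r f hf) K
    exact measure_eq_zero_iff_ae_notMem.1 h
  filter_upwards [hgood, hnull] with α hα1 hα2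
  rintro ⟨L, hL, hcomp⟩
  obtain ⟨p, V0, hV0, hLV, hun⟩ := hL
  obtain ⟨V, hV, hVe⟩ := h𝓥 _ _ hV0
  subst hVe
  obtain ⟨K, hK⟩ := hα1 V hV p hun
  have hD := hMem (BadUP V p) (hPB V p (h𝓥r V hV)) (ofSeq α) K hK
  obtain ⟨f0, hf0, hfred⟩ := hcomp _ hD
  obtain ⟨f, hf, hfe⟩ := h𝓕 _ _ hf0
  subst hfe
  refine hα2 V hV p f hf K ⟨hun, fun z => ?_⟩
  rw [hfred z]
  exact hLV _

end Pool.Agent.Lib.RO
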