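import Pool.Agent.Lib.RO.MainA

/-!
# Project RO: no optimal proof systems relative to a random oracle (assembly)
-/

set_option autoImplicit false

namespace Pool.Agent.Lib.RO

open Pool.Agent.PolyTime Pool.Agent.Lib.MP_d5150c_lc Pool.Agent.Lib.MP_f0c157_lc
open N487b59b3 N68a2faeb N793a5b8e MeasureTheory

/-- values of a function on inputs of subexponential length are determined by the table -/
theorem function_agree' (hRun : Run_stmt) (hGrow : Grow_stmt)
    {f : (List Bool → Bool) → List Bool → List Bool} (hf : RelFn f) :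
    ∃ n0, ∀ n ≥ n0, ∀ x : List Bool, x.length ≤ 2 ^ Nat.sqrt n →
      ∀ R R' : List Bool → Bool, (∀ v : List Bool, v.length < 2 ^ n → R' v = R v) →
        f R' x = f R x := by
  obtain ⟨b, hb, _, hag⟩ := agree_of_run hRun hf
  obtain ⟨n0, hn0⟩ := hGrow _ hb 4
  refine ⟨n0, fun n hn x hx => ?_⟩
  obtain ⟨h1, _⟩ := hn0 n hn
  have h3 := Pool.Agent.Lib.MP_f0c157_lc.size_bits_le x
  have h5 : b (size x) ≤ b (4 * (2 ^ Nat.sqrt n + 4 * n + 4)) := hb.mono (by omega)
  exact fun R R' hRR => hag R R' x fun v hv => hRR v (by omega)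

theorem Coll_congr {R R' : List Bool → Bool} {n l : ℕ} (hn : 5 ≤ n) (hl : l ≤ 3 * n)
    (h : ∀ v : List Bool, v.length < 2 ^ n → R' v = R v) : Coll R' n l ↔ Coll R n l := by
  have h4 := four_mul_lt hn
  have hF : ∀ x : List Bool, x.length = n → Fv R' l x = Fv R l x := by
    intro x hx
    refine Fv_congr fun j hj => h _ ?_
    rw [loc_length]
    omega
  unfold Coll
  constructor
  · rintro ⟨x, x', hx, hx', hne, he⟩
    exact ⟨x, x', hx, hx', hne, by rw [← hF x hx, ← hF x' hx', he]⟩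
  · rintro ⟨x, x', hx, hx', hne, he⟩
    exact ⟨x, x', hx, hx', hne, by rw [hF x hx, hF x' hx', he]⟩

/-- a subexponential bound for the lengths of proofs -/
def sub4 (C n : ℕ) : ℕ := C * 2 ^ Nat.sqrt (Nat.sqrt n) + C

/-- the subexponential bound is eventually at most `2 ^ sqrt n` -/
theorem sub4_lt (C : ℕ) : ∃ n0, ∀ n ≥ n0, sub4 C (n + 1) ≤ 2 ^ Nat.sqrt n := by
  refine ⟨((C + 4) * (C + 4)) * ((C + 4) * (C + 4)), fun n hn => ?_⟩
  have hs : (C + 4) * (C + 4) ≤ Nat.sqrt n := Nat.le_sqrt.2 hn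
  set s := Nat.sqrt n with hsdef
  have h1 : Nat.sqrt (n + 1) ≤ s + 1 := by
    have h2 : n < (s + 1) * (s + 1) := Nat.sqrt_lt.1 (Nat.lt_succ_self _)
    have h3 : n + 1 ≤ (s + 1) * (s + 1) := h2
    calc Nat.sqrt (n + 1) ≤ Nat.sqrt ((s + 1) * (s + 1)) := Nat.sqrt_le_sqrt h3
      _ = s + 1 := Nat.sqrt_eq _
  set r := Nat.sqrt (Nat.sqrt (n + 1)) with hr
  have h4 : r * r ≤ s + 1 := (Nat.sqrt_le _).trans h1
  have h5 : C + (r + 1) ≤ s := by
    rcases Nat.lt_or_ge r (C + 4) with h6 | h6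
    · nlinarith
    · have h7 : r * (C + 4) ≤ r * r := Nat.mul_le_mul_left _ h6
      have h8 : C ≤ r * C := Nat.le_mul_of_pos_left _ (by omega)
      have h9 : r * (C + 4) = r * C + r * 4 := Nat.mul_add _ _ _
      omega
  have h6 : C ≤ 2 ^ C := Nat.lt_two_pow_self.le
  unfold sub4
  rw [← hr]
  have h7 : C * 2 ^ r + C ≤ C * 2 ^ (r + 1) := by
    have : 1 ≤ 2 ^ r := Nat.one_le_two_pow
    rw [pow_succ]
    nlinarith
  calc C * 2 ^ r + C ≤ C * 2 ^ (r + 1) := h7
    _ ≤ 2 ^ C * 2 ^ (r + 1) := Nat.mul_le_mul_right _ h6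
    _ = 2 ^ (C + (r + 1)) := (pow_add _ _ _).symm
    _ ≤ 2 ^ s := Nat.pow_le_pow_right (by omega) h5

/-- the oracles for which `P` is sound and has short proofs of the statements of the stages -/
def SetB (P h : (List Bool → Bool) → List Bool → List Bool) (C : ℕ) (K : ℕ) :
    Set (ℕ → Bool) :=
  {α | (∀ (w : List Bool) (n l : ℕ), P (ofSeq α) w = h (ofSeq α) (inp n (List.replicate l true)) →
      ¬ Coll (ofSeq α) n l) ∧
    ∀ k ≥ K, ∃ w : List Bool, w.length ≤ sub4 C (st (k + 1) + 1) ∧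
      P (ofSeq α) w =
        h (ofSeq α) (inp (st (k + 1)) (List.replicate (lenR (BadPS P h) k (ofSeq α)) true))}

theorem not_badPS_of_sound (hRun : Run_stmt) (hGrow : Grow_stmt)
    {P h : (List Bool → Bool) → List Bool → List Bool} (hP : RelFn P) (hh : RelFn h) :
    ∃ n0, ∀ n ≥ n0, ∀ α : ℕ → Bool,
      (∀ (w : List Bool) (n l : ℕ),
        P (ofSeq α) w = h (ofSeq α) (inp n (List.replicate l true)) → ¬ Coll (ofSeq α) n l) →
      BadPS P h n (firstBits α (tb (2 ^ n))) = false := by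
  obtain ⟨n1, hn1⟩ := function_agree' hRun hGrow hP
  obtain ⟨n2, hn2⟩ := function_agree' hRun hGrow hh
  obtain ⟨n3, hn3⟩ := hGrow _ PB.id 1
  refine ⟨n1 + n2 + n3 + 5, fun n hn α hα => ?_⟩
  by_contra hcon
  rw [Bool.not_eq_false] at hcon
  unfold BadPS at hcon
  rw [Bool.and_eq_true, List.any_eq_true] at hcon
  obtain ⟨_, l, hl, h1⟩ := hcon
  rw [List.any_eq_true] at h1
  obtain ⟨w, _, h1⟩ := h1
  rw [Bool.and_eq_true, decide_eq_true_iff, collB_iff] at h1
  obtain ⟨⟨h2, h3⟩, h4⟩ := h1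
  rw [List.mem_range] at hl
  have hRR : ∀ v : List Bool, v.length < 2 ^ n →
      orc (firstBits α (tb (2 ^ n))) v = ofSeq α v := fun v hv => orc_firstBits α hv
  have h5 : (inp n (List.replicate l true)).length ≤ 2 ^ Nat.sqrt n := by
    rw [inp_length, List.length_replicate]
    have h6 := (hn3 n (by omega)).2
    omega
  rw [hn1 n (by omega) w h2 _ _ hRR, hn2 n (by omega) _ h5 _ _ hRR] at h3
  rw [Coll_congr (by omega) (by omega) hRR] at h4
  exact hα w n l h3 h4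

theorem SetB_null (hKey : KeyPS_stmt) (hF2 : F2_stmt) (hRun : Run_stmt) (hGrow : Grow_stmt)
    {P h : (List Bool → Bool) → List Bool → List Bool} (hP : RelFn P) (hh : RelFn h)
    (C : ℕ) (K : ℕ) : coin (SetB P h C K) = 0 := by
  obtain ⟨n1, hn1⟩ := not_badPS_of_sound hRun hGrow hP hh
  obtain ⟨n2, hn2⟩ := hKey P h hP hh
  obtain ⟨n3, hn3⟩ := function_agree' hRun hGrow hP
  obtain ⟨n4, hn4⟩ := function_agree' hRun hGrow hh
  obtain ⟨n5, hn5⟩ := hGrow _ PB.id 1
  obtain ⟨n6, hn6⟩ := sub4_lt C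
  set k0 := n1 + n2 + n3 + n4 + n5 + n6 + K + 5 with hk0
  refine hF2 (BadPS P h) (SetB P h C K) k0 ?_ ?_
  · intro k hk α hα
    refine hn1 (st k) ?_ α hα.1
    have := lt_st k
    omega
  · intro k hk s hs t ht ht1 htk H hH hcard
    set n := st (k + 1) with hn
    have hkn : k + 1 < n := lt_st (k + 1)
    refine hn2 n (by omega) t ht1 (by omega) s hs H ?_ hcard
    intro u hu
    obtain ⟨hu1, α, hα, hαu⟩ := hH u hu
    refine ⟨hu1, ?_⟩
    have hul : u.length = tb (2 ^ n) := mem_exts_length hs hu1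
    have hRR : ∀ v : List Bool, v.length < 2 ^ n → orc u v = ofSeq α v :=
      fun v hv => orc_eq_of_cyl hαu hul hv
    have hlen : lenR (BadPS P h) k (ofSeq α) = ell n t := by
      unfold lenR
      rw [tableR_ofSeq, ht]
      have h1 : α ∈ cyl s := cyl_anti (exts_mem.1 hu1).1 hαu
      have h2 := cnt_congr_take (m := st k) (n := n) h1 hs (st_lt_succ k).le
      rw [h2]
    have hell : ell n t ≤ 3 * n := by unfold ell; omega
    obtain ⟨w, hw, hPw⟩ := hα.2 k (by omega)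
    rw [← hn, hlen] at hPw
    have h5 := (hn5 n (by omega)).2
    rw [← hn] at hw
    have h6 := hn6 n (by omega)
    have hw' : w.length ≤ 2 ^ Nat.sqrt n := by omega
    have h7 : (inp n (List.replicate (ell n t) true)).length ≤ 2 ^ Nat.sqrt n := by
      rw [inp_length, List.length_replicate]
      omega
    refine ⟨w, hw', ?_⟩
    rw [hn3 n (by omega) w hw' _ _ hRR, hn4 n (by omega) _ h7 _ _ hRR]
    exact hPw

/-- Assembly of theorem (B). -/
theorem mainB_of (hKey : KeyPS_stmt) (hF1 : F1_stmt) (hF2 : F2_stmt) (hPB : PolyBadPS_stmt)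
    (hE1 : Enum1_stmt) (hMem : MemC_stmt) (hG : GPS_stmt) (hRun : Run_stmt)
    (hGrow : Grow_stmt) (hMeas : Meas_stmt) :
    ∀ᵐ R ∂randomOracle, ∀ L : DecisionProblem, (∀ A ∈ coNPRel R, ManyOneReducibleRel R A L) →
      ∀ P : List Bool → List Bool, IsProofSystemRel R L P →
        ∃ Q, IsProofSystemRel R L Q ∧ ∀ C : ℕ, ¬ SimulatesWithin (sub4 C) P Q := by
  refine hMeas _ ?_
  obtain ⟨𝓕, h𝓕c, h𝓕r, h𝓕⟩ := hE1
  have hgood : ∀ᵐ α ∂coin, ∀ P ∈ 𝓕, ∀ h ∈ 𝓕,
      (∀ (w : List Bool) (n l : ℕ),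
        P (ofSeq α) w = h (ofSeq α) (inp n (List.replicate l true)) → ¬ Coll (ofSeq α) n l) →
      ∃ K, ∀ k ≥ K, ¬ Coll (ofSeq α) (st (k + 1)) (lenR (BadPS P h) k (ofSeq α)) := by
    refine (ae_ball_iff h𝓕c).2 fun P hP => (ae_ball_iff h𝓕c).2 fun h hh => ?_
    obtain ⟨n1, hn1⟩ := not_badPS_of_sound hRun hGrow (h𝓕r P hP) (h𝓕r h hh)
    filter_upwards [hF1 (BadPS P h) n1] with α hα hu
    refine hα fun k hk => hn1 (st k) ?_ α hu
    have := lt_st k
    omega
  have hnull : ∀ᵐ α ∂coin, ∀ P ∈ 𝓕, ∀ h ∈ 𝓕, ∀ C K : ℕ, α ∉ SetB P h C K := by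
    refine (ae_ball_iff h𝓕c).2 fun P hP => (ae_ball_iff h𝓕c).2 fun h hh => ?_
    rw [ae_all_iff]
    intro C
    rw [ae_all_iff]
    intro K
    have h := SetB_null hKey hF2 hRun hGrow (h𝓕r P hP) (h𝓕r h hh) C K
    exact measure_eq_zero_iff_ae_notMem.1 h
  filter_upwards [hgood, hnull] with α hα1 hα2
  intro L hL P0 hP0
  obtain ⟨P, hP, hPe⟩ := h𝓕 _ _ hP0.1
  subst hPe
  obtain ⟨h0, hh0, hred⟩ := hL _ (hMem (ofSeq α))
  obtain ⟨h, hh, hhe⟩ := h𝓕 _ _ hh0
  subst hhe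
  have hsound : ∀ (w : List Bool) (n l : ℕ),
      P (ofSeq α) w = h (ofSeq α) (inp n (List.replicate l true)) → ¬ Coll (ofSeq α) n l := by
    intro w n l hw hc
    have h1 : L (h (ofSeq α) (inp n (List.replicate l true))) = true := (hP0.2 _).2 ⟨w, hw⟩
    rw [← hred] at h1
    classical
    unfold Cst at h1
    rw [decide_eq_true_eq] at h1
    exact h1 ⟨n, l, rfl, hc⟩
  obtain ⟨K, hK⟩ := hα1 P hP h hh hsound
  obtain ⟨g, hg, hrange, hval⟩ := hG (BadPS P h) (hPB P h (h𝓕r P hP) (h𝓕r h hh)) P h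
    (h𝓕r P hP) (h𝓕r h hh) (ofSeq α) K
  have hgL : IsProofSystemRel (ofSeq α) L g := by
    refine ⟨hg, fun y => ?_⟩
    rw [hrange y]
    constructor
    · intro hy
      exact Or.inl ((hP0.2 y).1 hy)
    · rintro (hy | ⟨k, hk, rfl⟩)
      · exact (hP0.2 y).2 hy
      · rw [← hred]
        classical
        unfold Cst
        rw [decide_eq_true_eq]
        rintro ⟨n, l, h1, h2⟩
        obtain ⟨h3, h4⟩ := inp_inj h1
        have h5 := congrArg List.length h4
        rw [List.length_replicate, List.length_replicate] at h5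
        subst h3
        rw [← h5] at h2
        exact hK k hk h2
  refine ⟨g, hgL, fun C hq => ?_⟩
  refine hα2 P hP h hh C K ⟨hsound, fun k hk => ?_⟩
  obtain ⟨w, hw, hPw⟩ := hq (true :: List.replicate (st (k + 1)) true)
  rw [List.length_cons, List.length_replicate] at hw
  refine ⟨w, hw, ?_⟩
  rw [hPw, hval k hk]

end Pool.Agent.Lib.RO
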