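import Pool.Prelude.Def_F_458e953d

/-!
# Polynomial time relative to an oracle, and random oracles

Oracle computations in polynomial time are modelled by query protocols: the next query is computed
in polynomial time from the input and from the answers to the previous queries; after a polynomial
number of queries the output is computed in polynomial time from the input and the answers.
-/

set_option autoImplicit false

namespace Pool.Agent.Lib.RO

open N487b59b3 N68a2faeb N793a5b8e MeasureTheory

/-- The answers of the oracle `R` to the first `j` queries of the protocol `Q` on the input `x`. -/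
def answers {α : Type} (Q : α × List Bool → List Bool) (R : List Bool → Bool) (x : α) :
    ℕ → List Bool
  | 0 => []
  | j + 1 => answers Q R x j ++ [R (Q (x, answers Q R x j))]

/-- `f` is computable in polynomial time with the oracle `R`. -/
def IsPolyTimeRel (R : List Bool → Bool) {α β : Type} [N487b59b3 α] [N487b59b3 β]
    (f : α → β) : Prop :=
  ∃ (p : Polynomial ℕ) (Q : α × List Bool → List Bool) (O : α × List Bool → β),
    IsPolyTime Q ∧ IsPolyTime O ∧
      ∀ x, f x = O (x, answers Q R x (p.eval (bitEncode x : List Bool).length))

/-- The class NP relative to the oracle `R`. -/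
def NPRel (R : List Bool → Bool) : DecisionComplexityClass :=
  { L | ∃ (p : Polynomial ℕ) (V : List Bool × List Bool → Bool),
      IsPolyTimeRel R V ∧
      ∀ x, L x ↔ ∃ w : List Bool, w.length ≤ p.eval x.length ∧ V (x, w) }

/-- The class coNP relative to the oracle `R`. -/
def coNPRel (R : List Bool → Bool) : DecisionComplexityClass := { L | Lᶜ ∈ NPRel R }

/-- The class UP relative to the oracle `R`. -/
def UPRel (R : List Bool → Bool) : DecisionComplexityClass :=
  { L | ∃ (p : Polynomial ℕ) (V : List Bool × List Bool → Bool),
      IsPolyTimeRel R V ∧
      (∀ x, L x ↔ ∃ w : List Bool, w.length ≤ p.eval x.length ∧ V (x, w)) ∧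
      ∀ x w w', w.length ≤ p.eval x.length → w'.length ≤ p.eval x.length →
        V (x, w) → V (x, w') → w = w' }

/-- Polynomial-time many-one reducibility relative to the oracle `R`. -/
def ManyOneReducibleRel (R : List Bool → Bool) (A B : DecisionProblem) : Prop :=
  ∃ f : List Bool → List Bool, IsPolyTimeRel R f ∧ ∀ x, A x = B (f x)

/-- `A` is reducible to `B` by a polynomial-time Turing reduction relative to the oracle `R` which
asks `k` (adaptive) queries to `B`: `f` computes the next query from the input and the previous
answers, `e` evaluates the answers. -/
def BoundedReducibleRel (R : List Bool → Bool) (k : ℕ) (A B : DecisionProblem) : Prop :=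
  ∃ (f : List Bool × List Bool → List Bool) (e : List Bool × List Bool → Bool),
    IsPolyTimeRel R f ∧ IsPolyTimeRel R e ∧ ∀ x, A x = e (x, answers f B x k)

/-- `P` is a proof system for `L` relative to the oracle `R`. -/
def IsProofSystemRel (R : List Bool → Bool) (L : DecisionProblem) (P : List Bool → List Bool) :
    Prop :=
  IsPolyTimeRel R P ∧ ∀ y, L y ↔ ∃ π, P π = y

/-- `P` simulates `Q` with the length bound `b`: every proof `π` in `Q` can be replaced by a proof
in `P` of length at most `b |π|`. -/
def SimulatesWithin (b : ℕ → ℕ) (P Q : List Bool → List Bool) : Prop :=
  ∀ π : List Bool, ∃ π' : List Bool, π'.length ≤ b π.length ∧ P π' = Q π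

/-- The random oracle: all bits are independent and fair. -/
noncomputable def randomOracle : Measure (List Bool → Bool) :=
  Measure.infinitePi fun _ : List Bool => (PMF.uniformOfFintype Bool).toMeasure

end Pool.Agent.Lib.RO
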