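import Pool.Agent.Lib.RO.Model
import Pool.Agent.Lib.MP_f0c157_lc.Inc
import Pool.Agent.Lib.MP_f0c157_lc.Density

/-!
# Stages, tables, bad events; the statements proved in the modules (project RO)
-/

set_option autoImplicit false

namespace Pool.Agent.Lib.RO

open Pool.Agent.PolyTime Pool.Agent.Lib.MP_d5150c_lc Pool.Agent.Lib.MP_f0c157_lc
open N487b59b3 N68a2faeb N793a5b8e MeasureTheory

/-! ### Tables -/

/-- the number of strings shorter than `n` -/
def tb (n : ℕ) : ℕ := 2 ^ n - 1

/-- the number of strings `v` with `n ≤ |v| < 2 ^ n` -/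
def gap (n : ℕ) : ℕ := tb (2 ^ n) - tb n

/-- the oracle coded by an infinite sequence; strings are numbered by `wnum` -/
def ofSeq (α : ℕ → Bool) (v : List Bool) : Bool := α (wnum v)

/-- the oracle coded by a table (extended by `false`) -/
def orc (u : List Bool) (v : List Bool) : Bool := u.getD (wnum v) false

/-- the table of the values of the oracle `R` on the strings shorter than `m` -/
def tableR (R : List Bool → Bool) (m : ℕ) : List Bool :=
  (List.range (tb m)).map fun i => R (inc^[i] [])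

/-! ### Stages -/

def big (n : ℕ) : ℕ := 2 ^ 2 ^ 2 ^ n

/-- the lengths of the stages -/
def st : ℕ → ℕ
  | 0 => 1
  | k + 1 => big (st k)

/-- the place where the oracle keeps the bit number `j` of the value at `x` -/
def loc (x : List Bool) (j : ℕ) : List Bool := x ++ List.replicate (j + 1) true

/-- the value at `x` -/
def Fv (R : List Bool → Bool) (l : ℕ) (x : List Bool) : List Bool :=
  (List.range l).map fun j => R (loc x j)

/-- two strings of length `n` have the same value of length `l` -/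
def Coll (R : List Bool → Bool) (n l : ℕ) : Prop :=
  ∃ x x' : List Bool, x.length = n ∧ x'.length = n ∧ x ≠ x' ∧ Fv R l x = Fv R l x'

/-- the same as a Boolean function -/
def collB (R : List Bool → Bool) (n l : ℕ) : Bool :=
  (exts [] n).any fun x => (exts [] n).any fun x' => decide (x ≠ x') && decide (Fv R l x = Fv R l x')

/-- the number of bad extensions of the table `s` of the strings shorter than `n` to a table of
the strings shorter than `2 ^ n` -/
def cnt (Bad : ℕ → List Bool → Bool) (n : ℕ) (s : List Bool) : ℕ :=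
  ((exts s (gap n)).filter (Bad n)).length

/-- the adaptive parameter: `2 ^ (-t)` is at least `8` times the probability of a bad extension,
unless it is `2 ^ (-(k+1))` -/
def tv (Bad : ℕ → List Bool → Bool) (n k : ℕ) (s : List Bool) : ℕ :=
  ((List.range (k + 1)).filter fun i => decide (cnt Bad n s * 2 ^ (i + 4) ≤ 2 ^ gap n)).length

/-- the length of the values at the length `n` with the parameter `t` -/
def ell (n t : ℕ) : ℕ := 2 * n - 1 + t

/-- the length of the values at stage `k + 1` for the oracle `R` -/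
def lenR (Bad : ℕ → List Bool → Bool) (k : ℕ) (R : List Bool → Bool) : ℕ :=
  ell (st (k + 1)) (tv Bad (st k) k (tableR R (st k)))

/-- the input with which `z` is queried at the length `n` -/
def inp (n : ℕ) (z : List Bool) : List Bool := List.replicate n true ++ false :: z

/-! ### Oracle functions -/

/-- `F` is computed in polynomial time with the oracle as an argument -/
def RelFn {α β : Type} [Enc α] [Enc β] (F : (List Bool → Bool) → α → β) : Prop :=
  ∃ (N : α → ℕ) (Q : α × List Bool → List Bool) (O : α × List Bool → β),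
    PolyFn N ∧ PolyFn Q ∧ PolyFn O ∧ ∀ R x, F R x = O (x, answers Q R x (N x))

/-! ### Bad events -/

/-- the verifier `V` has two witnesses on a short input -/
def BadUP (V : (List Bool → Bool) → List Bool × List Bool → Bool) (p : Polynomial ℕ) (n : ℕ)
    (u : List Bool) : Bool :=
  decide (u.length = tb (2 ^ n)) &&
    (shorts (2 ^ n)).any fun y => (shorts (2 ^ n)).any fun w => (shorts (2 ^ n)).any fun w' =>
      decide (y.length ≤ 2 ^ Nat.sqrt n ∧ w.length ≤ p.eval y.length ∧
        w'.length ≤ p.eval y.length ∧ w ≠ w') && (V (orc u) (y, w) && V (orc u) (y, w'))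

/-- the proof system `P` has a short proof of the translation by `h` of the statement that the
value function is injective, for parameters for which it is not -/
def BadPS (P h : (List Bool → Bool) → List Bool → List Bool) (n : ℕ) (u : List Bool) : Bool :=
  decide (u.length = tb (2 ^ n)) &&
    (List.range (3 * n + 1)).any fun l => (shorts (2 ^ n)).any fun w =>
      decide (w.length ≤ 2 ^ Nat.sqrt n ∧
        P (orc u) w = h (orc u) (inp n (List.replicate l true))) && collB (orc u) n l

/-! ### Languages -/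

open Classical in
/-- the language in UP with the stages from `K` on -/
noncomputable def DUP (Bad : ℕ → List Bool → Bool) (K : ℕ) (R : List Bool → Bool) :
    DecisionProblem := fun z =>
  decide (∃ k ≥ K, ∃ z' x : List Bool, z = inp (st (k + 1)) z' ∧ x.length = st (k + 1) ∧
    z'.length = lenR Bad k R ∧ Fv R z'.length x = z')

open Classical in
/-- the language in coNP -/
noncomputable def Cst (R : List Bool → Bool) : DecisionProblem := fun z =>
  decide (¬ ∃ n l, z = inp n (List.replicate l true) ∧ Coll R n l)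

/-! ### Planting structures -/

/-- A space `Ω` of random functions `X → Z` (with additional data), in which one value can be
replaced. -/
structure Planting (Ω X Z : Type) where
  val : Ω → X → Z
  pl : Ω → X → Z → Ω
  val_same : ∀ ω x z, val (pl ω x z) x = z
  val_ne : ∀ ω x z x', x' ≠ x → val (pl ω x z) x' = val ω x'
  pl_pl : ∀ ω x z z', pl (pl ω x z) x z' = pl ω x z'
  pl_val : ∀ ω x, pl ω x (val ω x) = ω
  pl_comm : ∀ ω x x' z z', x ≠ x' → pl (pl ω x z) x' z' = pl (pl ω x' z') x z

/-! ## Statements of the modules -/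

/-- PLANT (1): few `ω` have a collision -/
def Plant1_stmt : Prop := ∀ (Ω X Z : Type) [Fintype Ω] [Fintype X] [Fintype Z]
  (P : Planting Ω X Z) (A : Finset Ω), (∀ ω ∈ A, ∃ x x', x ≠ x' ∧ P.val ω x = P.val ω x') →
    Fintype.card Z * A.card ≤ Fintype.card X * (Fintype.card X - 1) * Fintype.card Ω

/-- PLANT (2): second moment. If planting a random collision leads to `A` with probability at
least `3/4` then `A` is large. -/
def Plant2_stmt : Prop := ∀ (Ω X Z : Type) [Fintype Ω] [Fintype X] [Fintype Z]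
  (P : Planting Ω X Z) (A : Finset Ω) (B : Finset (Ω × X × X × Z)),
    Fintype.card X * (Fintype.card X - 1) ≤ Fintype.card Z →
    (∀ q ∈ B, q.2.1 ≠ q.2.2.1 ∧ P.pl (P.pl q.1 q.2.1 q.2.2.2) q.2.2.1 q.2.2.2 ∈ A) →
    3 * (Fintype.card Ω * (Fintype.card X * (Fintype.card X - 1)) * Fintype.card Z) ≤ 4 * B.card →
    5 * (Fintype.card X * (Fintype.card X - 1)) * Fintype.card Ω ≤ 24 * Fintype.card Z * A.card

/-- KEYA: the key inequality for unambiguous verifiers -/
def KeyA_stmt : Prop := ∀ (Ω X Z I W : Type) [Fintype Ω] [Fintype X] [Fintype Z]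
  (P : Planting Ω X Z) (q : ℕ)
  (f : Ω → Z → I) (qf : Ω → Z → Finset X) (acc : Ω → I → W → Prop) (qa : Ω → I → W → Finset X)
  (G A : Finset Ω),
  (∀ ω z, (qf ω z).card ≤ q) → (∀ ω y w, (qa ω y w).card ≤ q) →
  (∀ ω z x z', x ∉ qf ω z → f (P.pl ω x z') z = f ω z ∧ qf (P.pl ω x z') z = qf ω z) →
  (∀ ω y w x z', x ∉ qa ω y w →
    (acc (P.pl ω x z') y w ↔ acc ω y w) ∧ qa (P.pl ω x z') y w = qa ω y w) →
  (∀ ω ∈ G, ∀ z, (∃ x, P.val ω x = z) ↔ ∃ w, acc ω (f ω z) w) →
  (∀ ω z w w', w ≠ w' → acc ω (f ω z) w → acc ω (f ω z) w' → ω ∈ A) →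
  63 * Fintype.card Ω ≤ 64 * G.card → 128 * q + 1 ≤ Fintype.card X →
  16 * Fintype.card X ≤ Fintype.card Z →
  Fintype.card X * (Fintype.card X - 1) ≤ Fintype.card Z →
    5 * (Fintype.card X * (Fintype.card X - 1)) * Fintype.card Ω ≤ 24 * Fintype.card Z * A.card

/-- KEYB: the key inequality for proof systems -/
def KeyB_stmt : Prop := ∀ (Ω X Z W : Type) [Fintype Ω] [Fintype X] [Fintype Z]
  (P : Planting Ω X Z) (q : ℕ) (pr : Ω → W → Prop) (qp : Ω → W → Finset X) (G A : Finset Ω),
  (∀ ω w, (qp ω w).card ≤ q) →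
  (∀ ω w x z', x ∉ qp ω w → (pr (P.pl ω x z') w ↔ pr ω w) ∧ qp (P.pl ω x z') w = qp ω w) →
  (∀ ω ∈ G, ∃ w, pr ω w) →
  (∀ ω w x x', x ≠ x' → P.val ω x = P.val ω x' → pr ω w → ω ∈ A) →
  63 * Fintype.card Ω ≤ 64 * G.card → 128 * q + 1 ≤ Fintype.card X →
  Fintype.card X * (Fintype.card X - 1) ≤ Fintype.card Z →
    5 * (Fintype.card X * (Fintype.card X - 1)) * Fintype.card Ω ≤ 24 * Fintype.card Z * A.card

/-- TAB: tables form a planting structure -/
def Tab_stmt : Prop := ∀ (n l : ℕ) (s : List Bool), s.length = tb n → n + l < 2 ^ n →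
  ∃ P : Planting {u : List Bool // u ∈ exts s (gap n)} (List.Vector Bool n) (List.Vector Bool l),
    (∀ u x, (P.val u x).1 = Fv (orc u.1) l x.1) ∧
    ∀ u x z v, (∀ j < l, v ≠ loc x.1 j) → orc (P.pl u x z).1 v = orc u.1 v

/-- RUN: an oracle function depends on few short queries only -/
def Run_stmt : Prop := ∀ (α β : Type) [Enc α] [Enc β] (F : (List Bool → Bool) → α → β), RelFn F →
  ∃ (qr : (List Bool → Bool) → α → List (List Bool)) (b : ℕ → ℕ), PB b ∧
    (∀ R x, (qr R x).length ≤ b (size x)) ∧ (∀ R x, ∀ v ∈ qr R x, v.length ≤ b (size x)) ∧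
    (∀ R x, size (F R x) ≤ b (size x)) ∧
    ∀ R R' x, (∀ v ∈ qr R x, R' v = R v) → F R' x = F R x ∧ qr R' x = qr R x

/-- GROW: `2 ^ sqrt n` to any power is less than any fraction of `2 ^ n` -/
def Grow_stmt : Prop := ∀ b : ℕ → ℕ, PB b → ∀ c : ℕ, ∃ n0, ∀ n ≥ n0,
  c * b (c * (2 ^ Nat.sqrt n + 4 * n + c)) + c < 2 ^ n ∧ b (c * (4 * n + c)) + c ≤ 2 ^ Nat.sqrt n

/-- KEYUP: the key inequality for tables, unambiguous verifiers -/
def KeyUP_stmt : Prop := ∀ (V : (List Bool → Bool) → List Bool × List Bool → Bool)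
  (p : Polynomial ℕ) (f : (List Bool → Bool) → List Bool → List Bool), RelFn V → RelFn f →
  ∃ n0, ∀ n ≥ n0, ∀ t, 1 ≤ t → t ≤ n → ∀ s : List Bool, s.length = tb n →
    ∀ H : Finset (List Bool),
      (∀ u ∈ H, u ∈ exts s (gap n) ∧ ∀ z : List Bool, z.length = ell n t →
        ((∃ x : List Bool, x.length = n ∧ Fv (orc u) (ell n t) x = z) ↔
          ∃ w : List Bool, w.length ≤ p.eval (f (orc u) (inp n z)).length ∧
            V (orc u) (f (orc u) (inp n z), w) = true)) →
      63 * 2 ^ gap n ≤ 64 * H.card →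
      2 ^ gap n ≤ 4 * 2 ^ t * cnt (BadUP V p) n s

/-- KEYPS: the key inequality for tables, proof systems -/
def KeyPS_stmt : Prop := ∀ (P h : (List Bool → Bool) → List Bool → List Bool),
  RelFn P → RelFn h →
  ∃ n0, ∀ n ≥ n0, ∀ t, 1 ≤ t → t ≤ n → ∀ s : List Bool, s.length = tb n →
    ∀ H : Finset (List Bool),
      (∀ u ∈ H, u ∈ exts s (gap n) ∧ ∃ w : List Bool, w.length ≤ 2 ^ Nat.sqrt n ∧
        P (orc u) w = h (orc u) (inp n (List.replicate (ell n t) true))) →
      63 * 2 ^ gap n ≤ 64 * H.card →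
      2 ^ gap n ≤ 4 * 2 ^ t * cnt (BadPS P h) n s

/-- F1: if there are no bad events then almost surely there are finitely many collisions -/
def F1_stmt : Prop := ∀ (Bad : ℕ → List Bool → Bool) (k0 : ℕ), ∀ᵐ α ∂coin,
  (∀ k ≥ k0, Bad (st k) (firstBits α (tb (2 ^ st k))) = false) →
    ∃ K, ∀ k ≥ K, ¬ Coll (ofSeq α) (st (k + 1)) (lenR Bad k (ofSeq α))

/-- F2: a set without bad events on which the key inequality applies is null -/
def F2_stmt : Prop := ∀ (Bad : ℕ → List Bool → Bool) (S : Set (ℕ → Bool)) (k0 : ℕ),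
  (∀ k ≥ k0, ∀ α ∈ S, Bad (st k) (firstBits α (tb (2 ^ st k))) = false) →
  (∀ k ≥ k0, ∀ s : List Bool, s.length = tb (st (k + 1)) →
    ∀ t, t = tv Bad (st k) k (s.take (tb (st k))) → 1 ≤ t → t ≤ k + 1 →
    ∀ H : Finset (List Bool), (∀ u ∈ H, u ∈ exts s (gap (st (k + 1))) ∧ (S ∩ cyl u).Nonempty) →
      63 * 2 ^ gap (st (k + 1)) ≤ 64 * H.card →
      2 ^ gap (st (k + 1)) ≤ 4 * 2 ^ t * cnt Bad (st (k + 1)) s) →
  coin S = 0

/-- PTV: the adaptive parameter is computable in polynomial time from a long input -/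
def PolyTv_stmt : Prop := ∀ Bad : ℕ → List Bool → Bool,
  PolyFn (fun q : ℕ × List Bool => Bad q.1 q.2) →
  PolyFn (fun q : ℕ × ℕ × ℕ × List Bool =>
    if big q.2.1 ≤ q.1 then tv Bad q.2.1 q.2.2.1 q.2.2.2 else 0)

/-- PST: stages are recognized in polynomial time -/
def PolySt_stmt : Prop := ∃ stg : ℕ → Option (ℕ × ℕ), PolyFn stg ∧
  ∀ N k m, stg N = some (k, m) ↔ m = st k ∧ N = st (k + 1)

/-- PBUP -/
def PolyBadUP_stmt : Prop := ∀ (V : (List Bool → Bool) → List Bool × List Bool → Bool)
  (p : Polynomial ℕ), RelFn V → PolyFn (fun q : ℕ × List Bool => BadUP V p q.1 q.2)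

/-- PBPS -/
def PolyBadPS_stmt : Prop := ∀ (P h : (List Bool → Bool) → List Bool → List Bool),
  RelFn P → RelFn h → PolyFn (fun q : ℕ × List Bool => BadPS P h q.1 q.2)

/-- PORC: oracle functions evaluated on tables are polynomial-time functions of the table -/
def PolyOrc_stmt : Prop := ∀ (α β : Type) [Enc α] [Enc β] (F : (List Bool → Bool) → α → β),
  RelFn F → PolyFn (fun q : List Bool × α => F (orc q.1) q.2)

/-- RCL: closure properties of oracle functions -/
def RelConst_stmt : Prop := ∀ (α β : Type) [Enc α] [Enc β] (g : α → β), PolyFn g →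
  RelFn (fun _ : List Bool → Bool => g)

def RelComp_stmt : Prop := ∀ (α β γ : Type) [Enc α] [Enc β] [Enc γ]
  (F : (List Bool → Bool) → β → γ) (G : (List Bool → Bool) → α → β), RelFn F → RelFn G →
  RelFn (fun R x => F R (G R x))

def RelPair_stmt : Prop := ∀ (α β γ : Type) [Enc α] [Enc β] [Enc γ]
  (F : (List Bool → Bool) → α → β) (G : (List Bool → Bool) → α → γ), RelFn F → RelFn G →
  RelFn (fun R x => (F R x, G R x))

def RelQueries_stmt : Prop := ∀ (α : Type) [Enc α] (qs : α → List (List Bool)), PolyFn qs →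
  RelFn (fun R x => (qs x).map R)

/-- REL: oracle functions and polynomial time relative to an oracle -/
def Enum1_stmt : Prop := ∃ 𝓕 : Set ((List Bool → Bool) → List Bool → List Bool),
  𝓕.Countable ∧ (∀ F ∈ 𝓕, RelFn F) ∧
    ∀ (R : List Bool → Bool) (f : List Bool → List Bool), IsPolyTimeRel R f → ∃ F ∈ 𝓕, F R = f

def Enum2_stmt : Prop := ∃ 𝓕 : Set ((List Bool → Bool) → List Bool × List Bool → Bool),
  𝓕.Countable ∧ (∀ F ∈ 𝓕, RelFn F) ∧
    ∀ (R : List Bool → Bool) (f : List Bool × List Bool → Bool), IsPolyTimeRel R f →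
      ∃ F ∈ 𝓕, F R = f

def OfRel1_stmt : Prop := ∀ F : (List Bool → Bool) → List Bool → List Bool, RelFn F →
  ∀ R, IsPolyTimeRel R (F R)

def OfRel2_stmt : Prop := ∀ F : (List Bool → Bool) → List Bool × List Bool → Bool, RelFn F →
  ∀ R, IsPolyTimeRel R (F R)

/-- MEMUP: the language is in UP -/
def MemUP_stmt : Prop := ∀ Bad : ℕ → List Bool → Bool,
  PolyFn (fun q : ℕ × List Bool => Bad q.1 q.2) → ∀ (R : List Bool → Bool) (K : ℕ),
    (∀ k ≥ K, ¬ Coll R (st (k + 1)) (lenR Bad k R)) → DUP Bad K R ∈ UPRel R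

/-- MEMC: the language is in coNP -/
def MemC_stmt : Prop := ∀ R : List Bool → Bool, Cst R ∈ coNPRel R

/-- GPS: the proof system -/
def GPS_stmt : Prop := ∀ Bad : ℕ → List Bool → Bool,
  PolyFn (fun q : ℕ × List Bool => Bad q.1 q.2) →
  ∀ (P h : (List Bool → Bool) → List Bool → List Bool), RelFn P → RelFn h →
  ∀ (R : List Bool → Bool) (K : ℕ), ∃ g : List Bool → List Bool, IsPolyTimeRel R g ∧
    (∀ y, (∃ w, g w = y) ↔ (∃ w, P R w = y) ∨
      ∃ k ≥ K, y = h R (inp (st (k + 1)) (List.replicate (lenR Bad k R) true))) ∧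
    ∀ k ≥ K, g (true :: List.replicate (st (k + 1)) true) =
      h R (inp (st (k + 1)) (List.replicate (lenR Bad k R) true))

/-- MEAS: from sequences to oracles -/
def Meas_stmt : Prop := ∀ S : (List Bool → Bool) → Prop,
  (∀ᵐ α ∂coin, S (ofSeq α)) → ∀ᵐ R ∂randomOracle, S R

end Pool.Agent.Lib.RO
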